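import Pool.Agent.H923R2.FP.Stubs

/-! Task LIP: evaluation is Lipschitz on balls. -/

set_option autoImplicit false

namespace Pool.Agent.H923R2.FP.T_LIP

open Pool.Agent.H923R2.FP

/-- bounded and Lipschitz on a set -/
def LB {E A : Type} [NormedAddCommGroup E] [NormedAddCommGroup A] (S : Set E) (f : E → A) : Prop :=
  ∃ K M : ℝ, 0 ≤ K ∧ 0 ≤ M ∧ (∀ x ∈ S, ∀ y ∈ S, ‖f x - f y‖ ≤ K * ‖x - y‖) ∧ ∀ x ∈ S, ‖f x‖ ≤ M

section

variable {E A : Type} [NormedAddCommGroup E] [CStarAlgebra A] {S : Set E} {f g : E → A}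

theorem LB.const (c : A) : LB S (fun _ : E => c) :=
  ⟨0, ‖c‖, le_rfl, norm_nonneg _, fun x _ y _ => by simp, fun _ _ => le_rfl⟩

theorem LB.add (hf : LB S f) (hg : LB S g) : LB S (fun x => f x + g x) := by
  obtain ⟨K, M, hK, hM, h1, h2⟩ := hf
  obtain ⟨K', M', hK', hM', h1', h2'⟩ := hg
  refine ⟨K + K', M + M', by positivity, by positivity, fun x hx y hy => ?_, fun x hx => ?_⟩
  · have e : f x + g x - (f y + g y) = (f x - f y) + (g x - g y) := by abel
    rw [e]
    refine (norm_add_le _ _).trans ?_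
    have := h1 x hx y hy
    have := h1' x hx y hy
    linarith
  · refine (norm_add_le _ _).trans ?_
    have := h2 x hx
    have := h2' x hx
    linarith

theorem LB.mul (hf : LB S f) (hg : LB S g) : LB S (fun x => f x * g x) := by
  obtain ⟨K, M, hK, hM, h1, h2⟩ := hf
  obtain ⟨K', M', hK', hM', h1', h2'⟩ := hg
  refine ⟨M * K' + K * M', M * M', by positivity, by positivity, fun x hx y hy => ?_,
    fun x hx => ?_⟩
  · have e : f x * g x - f y * g y = f x * (g x - g y) + (f x - f y) * g y := by noncomm_ring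
    rw [e]
    refine (norm_add_le _ _).trans ?_
    have e1 : ‖f x * (g x - g y)‖ ≤ M * (K' * ‖x - y‖) :=
      (norm_mul_le _ _).trans (mul_le_mul (h2 x hx) (h1' x hx y hy) (norm_nonneg _) hM)
    have e2 : ‖(f x - f y) * g y‖ ≤ K * ‖x - y‖ * M' :=
      (norm_mul_le _ _).trans (mul_le_mul (h1 x hx y hy) (h2' y hy) (norm_nonneg _) (by positivity))
    calc _ ≤ M * (K' * ‖x - y‖) + K * ‖x - y‖ * M' := add_le_add e1 e2
      _ = _ := by ring
  · exact (norm_mul_le _ _).trans (mul_le_mul (h2 x hx) (h2' x hx) (norm_nonneg _) hM)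

theorem LB.star (hf : LB S f) : LB S (fun x => star (f x)) := by
  obtain ⟨K, M, hK, hM, h1, h2⟩ := hf
  refine ⟨K, M, hK, hM, fun x hx y hy => ?_, fun x hx => ?_⟩
  · rw [← star_sub, norm_star]
    exact h1 x hx y hy
  · rw [norm_star]
    exact h2 x hx

theorem LB.smul (c : ℂ) (hf : LB S f) : LB S (fun x => c • f x) := by
  obtain ⟨K, M, hK, hM, h1, h2⟩ := hf
  refine ⟨‖c‖ * K, ‖c‖ * M, by positivity, by positivity, fun x hx y hy => ?_, fun x hx => ?_⟩
  · rw [← smul_sub, norm_smul, mul_assoc]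
    exact mul_le_mul_of_nonneg_left (h1 x hx y hy) (norm_nonneg _)
  · rw [norm_smul]
    exact mul_le_mul_of_nonneg_left (h2 x hx) (norm_nonneg _)

end

theorem t_LIP : S_LIP := by
  intro A Q R _ _ _ _ _ _ _ π ρ e r
  have hfst : LB (Metric.closedBall (0 : A × A) r) (fun x => x.1) := by
    refine ⟨1, |r|, by norm_num, abs_nonneg _, fun x _ y _ => ?_, fun x hx => ?_⟩
    · rw [one_mul, ← Prod.fst_sub]
      exact norm_fst_le _
    · rw [mem_closedBall_zero_iff] at hx
      exact (norm_fst_le x).trans (hx.trans (le_abs_self r))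
  have hsnd : LB (Metric.closedBall (0 : A × A) r) (fun x => x.2) := by
    refine ⟨1, |r|, by norm_num, abs_nonneg _, fun x _ y _ => ?_, fun x hx => ?_⟩
    · rw [one_mul, ← Prod.snd_sub]
      exact norm_snd_le _
    · rw [mem_closedBall_zero_iff] at hx
      exact (norm_snd_le x).trans (hx.trans (le_abs_self r))
  have hlet : ∀ z : Lt Q R, LB (Metric.closedBall (0 : A × A) r)
      (fun x => vu π ρ x.1 x.2 z) := by
    intro z
    cases z with
    | q x => exact (hfst.star.mul (LB.const (π x))).mul hfst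
    | r x => exact LB.const (ρ x)
    | s => exact hsnd
  have hev : ∀ w : List (Lt Q R), LB (Metric.closedBall (0 : A × A) r)
      (fun x => ev (vu π ρ x.1 x.2) w) := by
    intro w
    induction w with
    | nil => exact LB.const 1
    | cons z w ih =>
      have := (hlet z).mul ih
      simpa only [ev, List.map_cons, List.prod_cons] using this
  have hevx : LB (Metric.closedBall (0 : A × A) r) (fun x => evx (vu π ρ x.1 x.2) e) := by
    induction e with
    | nil => exact LB.const 0
    | cons p e ih =>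
      have := ((hev p.2).smul p.1).add ih
      simpa only [evx, List.map_cons, List.sum_cons] using this
  obtain ⟨K, M, hK, _, h1, _⟩ := hevx
  refine ⟨⟨K, hK⟩, LipschitzOnWith.of_dist_le_mul fun x hx y hy => ?_⟩
  rw [dist_eq_norm, dist_eq_norm]
  exact h1 x hx y hy

end Pool.Agent.H923R2.FP.T_LIP
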