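import Pool.Agent.H532R2.Bounds

/-!
# Clearing denominators, in polynomial time
-/

namespace Pool.Agent.NPC.H532.RP

open Pool.Agent.NPC.H532

/-- An integer multiple of a rational number. -/
def zq (D : ℕ) (q : ℚ) : ℤ := q.num * ((D / q.den : ℕ) : ℤ)

/-- An integer multiple of a rational matrix. -/
def zmat (D : ℕ) (A : List (List ℚ)) : Mat := A.map fun r => r.map fun q => zq D q

theorem zq_cast {D : ℕ} {q : ℚ} (h : q.den ∣ D) : ((zq D q : ℤ) : ℚ) = D * q := by
  unfold zq
  obtain ⟨k, rfl⟩ := h
  rw [Nat.mul_div_cancel_left _ q.den_pos]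
  have h1 : (q.num : ℚ) = q * q.den := (Rat.mul_den_eq_num q).symm
  push_cast
  rw [h1]
  ring

theorem zq_zero (D : ℕ) : zq D 0 = 0 := by simp [zq]

theorem entry_zmat (D : ℕ) (A : List (List ℚ)) (i j : ℕ) :
    entry (zmat D A) i j = zq D ((A.getD i []).getD j 0) := by
  unfold entry zmat
  simp only [List.getD_eq_getElem?_getD, List.getElem?_map]
  cases A[i]? with
  | none => simp [zq_zero]
  | some r =>
    simp only [Option.map_some, Option.getD_some, List.getElem?_map]
    cases r[j]? with
    | none => simp [zq_zero]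
    | some q => simp

theorem den_dvd {D : ℕ} {A : List (List ℚ)} (h : ∀ r ∈ A, ∀ q ∈ r, q.den ∣ D) (i j : ℕ) :
    ((A.getD i []).getD j 0 : ℚ).den ∣ D := by
  simp only [List.getD_eq_getElem?_getD]
  cases hi : A[i]? with
  | none => simp
  | some r =>
    simp only [Option.getD_some]
    cases hj : r[j]? with
    | none => simp
    | some q =>
      simp only [Option.getD_some]
      exact h r (List.mem_of_getElem? hi) q (List.mem_of_getElem? hj)

section

variable {α β : Type} [TEnc α] [TEnc β]

theorem Poly_num {f : α → ℚ} (hf : Poly f) : Poly (fun a => (f a).num) :=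
  Poly.fst (f := fun a => ((f a).num, (f a).den)) hf

theorem Poly_den {f : α → ℚ} (hf : Poly f) : Poly (fun a => (f a).den) :=
  Poly.snd (f := fun a => ((f a).num, (f a).den)) hf

theorem size_mul_le (a b : ℕ) : (a * b).size ≤ a.size + b.size := by
  rw [Nat.size_le, pow_add]
  exact Nat.mul_lt_mul'' (Nat.lt_size_self a) (Nat.lt_size_self b)

theorem size_prod_le : ∀ l : List ℕ, l.prod.size ≤ sz l
  | [] => by simp [Nat.size_one]
  | a :: l => by
    have h1 := size_prod_le l
    have h2 := size_mul_le a l.prod
    have h3 := size_le_sz a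
    rw [List.prod_cons, sz_list_cons]
    omega

theorem Poly_prodN {l : α → List ℕ} (hl : Poly l) : Poly (fun a => (l a).prod) := by
  refine (Poly_foldl (s := fun _ => (1 : ℕ)) (F := fun _ (s : ℕ) (b : ℕ) => s * b) hl
    (Poly.const _) (Poly.mul (Poly.fst (Poly.snd Poly.id)) (Poly.snd (Poly.snd Poly.id)))
    (fun a => 4 * sz (l a) + 1) ?_ ?_).congr fun a => ?_
  · exact ((PB.const 4).mul (PB.sz hl)).add (PB.const 1)
  · intro a k hk
    have e : ((l a).take k).foldl (fun s b => s * b) 1 = ((l a).take k).prod :=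
      List.prod_eq_foldl.symm
    rw [e]
    have h1 := sz_nat_le ((l a).take k).prod
    have h2 := size_prod_le ((l a).take k)
    have h3 := Poly.sz_take_le (l a) k
    omega
  · exact List.prod_eq_foldl.symm

/-- Bit length of a product of integers. -/
theorem ib_prod_le : ∀ l : List ℤ, ib l.prod ≤ sz l
  | [] => by simp [ib_one]
  | a :: l => by
    have h1 := ib_prod_le l
    have h2 := ib_mul a l.prod
    have h3 := ib_le_sz a
    rw [List.prod_cons, sz_list_cons]
    omega

theorem Poly_prodZ {l : α → List ℤ} (hl : Poly l) : Poly (fun a => (l a).prod) := by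
  refine (Poly_foldl (s := fun _ => (1 : ℤ)) (F := fun _ (s : ℤ) (b : ℤ) => s * b) hl
    (Poly.const _) (Poly_mulZ (Poly.fst (Poly.snd Poly.id)) (Poly.snd (Poly.snd Poly.id)))
    (fun a => 4 * sz (l a) + 5) ?_ ?_).congr fun a => ?_
  · exact ((PB.const 4).mul (PB.sz hl)).add (PB.const 5)
  · intro a k hk
    have e : ((l a).take k).foldl (fun s b => s * b) 1 = ((l a).take k).prod :=
      List.prod_eq_foldl.symm
    rw [e]
    have h1 := sz_int_le ((l a).take k).prod
    have h2 := ib_prod_le ((l a).take k)
    have h3 := Poly.sz_take_le (l a) k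
    omega
  · exact List.prod_eq_foldl.symm

theorem Poly_zq {D : α → ℕ} {q : α → ℚ} (hD : Poly D) (hq : Poly q) :
    Poly (fun a => zq (D a) (q a)) := by
  unfold zq
  exact Poly_mulZ (Poly_num hq) (Poly_ofNat (Poly.div hD (Poly_den hq)))

theorem Poly_zmat {D : α → ℕ} {A : α → List (List ℚ)} (hD : Poly D) (hA : Poly A) :
    Poly (fun a => zmat (D a) (A a)) := by
  unfold zmat
  refine Poly.map (β := List ℚ) (γ := List ℤ) (F := fun a r => r.map fun q => zq (D a) q) hA ?_
  exact Poly.map (α := α × List ℚ) (β := ℚ) (γ := ℤ) (F := fun x q => zq (D x.1) q)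
    (Poly.snd Poly.id) (Poly_zq (hD.comp (Poly.fst (Poly.fst Poly.id))) (Poly.snd Poly.id))

/-- A list of length `e` (for `e ≤ m`). -/
def un (m e : ℕ) : List ℕ := (List.range m).filter fun k => decide (k < e)

theorem un_length {m e : ℕ} (h : e ≤ m) : (un m e).length = e := by
  unfold un
  have : (List.range m).filter (fun k => decide (k < e)) = List.range e := by
    obtain ⟨d, rfl⟩ := Nat.exists_eq_add_of_le h
    rw [List.range_add, List.filter_append]
    have h1 : (List.range e).filter (fun k => decide (k < e)) = List.range e := by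
      rw [List.filter_eq_self]
      intro k hk
      simpa using hk
    have h2 : ((List.range d).map (fun x => e + x)).filter (fun k => decide (k < e)) = [] := by
      rw [List.filter_eq_nil_iff]
      intro k hk
      simp at hk ⊢
      omega
    rw [h1, h2, List.append_nil]
  rw [this, List.length_range]

theorem Poly_un {m e : α → ℕ} (hm : UPoly m) (he : Poly e) : Poly (fun a => un (m a) (e a)) := by
  unfold un
  exact Poly.filter (p := fun a k => decide (k < e a)) hm.range
    (Poly.decide_lt (Poly.snd Poly.id) (he.comp (Poly.fst Poly.id)))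

/-- A power with exponent bounded by `m`. -/
def pw (m : ℕ) (a : ℤ) (e : ℕ) : ℤ := ((un m e).map fun _ => a).prod

theorem pw_eq {m e : ℕ} (h : e ≤ m) (a : ℤ) : pw m a e = a ^ e := by
  unfold pw
  rw [List.map_const', List.prod_replicate, un_length h]

theorem Poly_pw {m e : α → ℕ} {x : α → ℤ} (hm : UPoly m) (hx : Poly x) (he : Poly e) :
    Poly (fun a => pw (m a) (x a) (e a)) := by
  unfold pw
  exact Poly_prodZ (Poly.map (β := ℕ) (γ := ℤ) (F := fun a _ => x a) (Poly_un hm he)
    (hx.comp (Poly.fst Poly.id)))

end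

end Pool.Agent.NPC.H532.RP
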