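import Pool.Agent.H532R2.BlockMain

/-!
# The decision procedure
-/

namespace Pool.Agent.NPC.H532.BM

open Finset MvPolynomial Pool.Agent.H532R2 Pool.Agent.H532R2.BlockSum Pool.Agent.NPC.H532
  Pool.Agent.NPC.H532.RP Pool.Agent.NPC.H532.PM

/-- The summands. -/
abbrev Summand : Type := ℚ × List Fac

/-- All layers. -/
def allL (J : List Summand) : List Layer :=
  J.flatMap fun t => t.2.flatMap fun p => p.2.2.1 ++ p.2.2.2

/-- All denominators. -/
def densB (J : List Summand) : List ℕ :=
  ((J.map fun t => t.1) ++ (allL J).flatMap fun L => L.flatMap fun a => a.2.flatten).map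
    fun q => q.den

/-- Removal of duplicates. -/
def dd (l : List ℕ) : List ℕ := l.foldr (fun a s => bif decide (a ∈ s) then s else a :: s) []

/-- All blocks. -/
def blocks (J : List Summand) : List ℕ := dd (J.flatMap fun t => t.2.flatMap fun p => [p.1, p.2.1])

/-- The norm of the polynomial. -/
def totalB (N D n : ℕ) (V : List ℕ) (J : List Summand) : ℤ :=
  (J.map fun t => (J.map fun t' => zq D t.1 * zq D t'.1 * gr N D n V t.2 t'.2).sum).sum

/-- The decision procedure. -/
def decB (I : Input) : Bool :=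
  (I.2.all fun t => nodupb (t.2.flatMap fun p => [p.1, p.2.1])) &&
    decide (totalB (I.1.length + 1) (densB I.2).prod (allL I.2).length (blocks I.2) I.2 = 0)

theorem dd_spec (l : List ℕ) : (dd l).Nodup ∧ ∀ a, a ∈ dd l ↔ a ∈ l := by
  induction l with
  | nil => simp [dd]
  | cons b l ih =>
    have h : dd (b :: l) = bif decide (b ∈ dd l) then dd l else b :: dd l := rfl
    rw [h]
    by_cases hb : b ∈ dd l
    · rw [decide_eq_true hb, cond_true]
      refine ⟨ih.1, fun a => ?_⟩
      rw [ih.2, List.mem_cons]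
      constructor
      · exact Or.inr
      · rintro (rfl | h')
        · exact (ih.2 a).1 hb
        · exact h'
    · rw [decide_eq_false hb, cond_false]
      refine ⟨List.nodup_cons.2 ⟨hb, ih.1⟩, fun a => ?_⟩
      rw [List.mem_cons, List.mem_cons, ih.2]

theorem parts_mem {τ : ℕ} {fs : List Fac} {q : Part} (h : q ∈ parts τ fs) :
    ∃ f ∈ fs, q.2.2.2 = f.2.2.1 ∨ q.2.2.2 = f.2.2.2 := by
  unfold parts at h
  rw [List.mem_flatMap] at h
  obtain ⟨x, hx, h⟩ := h
  have hx' : x.1 ∈ fs := by
    have := List.mem_map_of_mem (f := Prod.fst) hx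
    rwa [List.zipIdx_map_fst] at this
  simp only [List.mem_cons, List.not_mem_nil, or_false] at h
  rcases h with h | h
  · exact ⟨x.1, hx', Or.inl (by rw [h])⟩
  · exact ⟨x.1, hx', Or.inr (by rw [h])⟩

theorem allL_mem {J : List Summand} {t : Summand} (ht : t ∈ J) {f : Fac} (hf : f ∈ t.2)
    {L : Layer} (hL : L ∈ f.2.2.1 ++ f.2.2.2) : L ∈ allL J := by
  unfold allL
  rw [List.mem_flatMap]
  refine ⟨t, ht, ?_⟩
  rw [List.mem_flatMap]
  exact ⟨f, hf, hL⟩

theorem allL_len {J : List Summand} {t : Summand} (ht : t ∈ J) {f : Fac} (hf : f ∈ t.2) :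
    (f.2.2.1 ++ f.2.2.2).length ≤ (allL J).length := by
  have h1 : (f.2.2.1 ++ f.2.2.2).Sublist (t.2.flatMap fun p => p.2.2.1 ++ p.2.2.2) := by
    rw [List.flatMap_def (l := t.2)]
    exact List.sublist_flatten_of_mem (List.mem_map.2 ⟨f, hf, rfl⟩)
  have h2 : (t.2.flatMap fun p => p.2.2.1 ++ p.2.2.2).Sublist (allL J) := by
    unfold allL
    rw [List.flatMap_def (l := J)]
    exact List.sublist_flatten_of_mem (List.mem_map.2 ⟨t, ht, rfl⟩)
  exact (h1.trans h2).length_le

theorem parts_OK {J : List Summand} {t : Summand} (ht : t ∈ J) (τ : ℕ) :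
    ∀ q ∈ parts τ t.2, OK (densB J).prod (allL J).length q := by
  intro q hq
  obtain ⟨f, hf, h⟩ := parts_mem hq
  have hsub : ∀ L ∈ q.2.2.2, L ∈ f.2.2.1 ++ f.2.2.2 := by
    intro L hL
    rw [List.mem_append]
    rcases h with h | h
    · left; rwa [h] at hL
    · right; rwa [h] at hL
  refine ⟨fun L hL p hp r hr z hz => ?_, ?_⟩
  · refine List.dvd_prod ?_
    unfold densB
    rw [List.mem_map]
    refine ⟨z, List.mem_append_right _ ?_, rfl⟩
    rw [List.mem_flatMap]
    refine ⟨L, allL_mem ht hf (hsub L hL), ?_⟩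
    rw [List.mem_flatMap]
    exact ⟨p, hp, List.mem_flatten.2 ⟨r, hr, hz⟩⟩
  · have h1 := allL_len ht hf
    rw [List.length_append] at h1
    rcases h with h | h
    · rw [h]; omega
    · rw [h]; omega

theorem coef_memB {J : List Summand} {t : Summand} (ht : t ∈ J) : t.1.den ∣ (densB J).prod := by
  refine List.dvd_prod ?_
  unfold densB
  rw [List.mem_map]
  exact ⟨t.1, List.mem_append_left _ (List.mem_map.2 ⟨t, ht, rfl⟩), rfl⟩

theorem blocks_sub {J : List Summand} {t : Summand} (ht : t ∈ J) :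
    (t.2.flatMap fun p => [p.1, p.2.1]) ⊆ blocks J := by
  intro b hb
  unfold blocks
  rw [(dd_spec _).2, List.mem_flatMap]
  exact ⟨t, ht, hb⟩

theorem total_eqB (I : Input) (hI : Disjoint I) :
    ((totalB (I.1.length + 1) (densB I.2).prod (allL I.2).length (blocks I.2) I.2 : ℤ) : ℚ) =
      ip (C ((((densB I.2).prod : ℕ) : ℚ) *
        ((((densB I.2).prod : ℕ) : ℚ) ^ (allL I.2).length) ^ (blocks I.2).length) * value I)
        (C ((((densB I.2).prod : ℕ) : ℚ) *
        ((((densB I.2).prod : ℕ) : ℚ) ^ (allL I.2).length) ^ (blocks I.2).length) * value I) := by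
  have hok : ∀ t ∈ I.2, ∀ τ, ∀ q ∈ parts τ t.2, OK (densB I.2).prod (allL I.2).length q :=
    fun t ht τ => parts_OK ht τ
  have hcd : ∀ t ∈ I.2, t.1.den ∣ (densB I.2).prod := fun t ht => coef_memB ht
  have hbl : ∀ t ∈ I.2, (t.2.flatMap fun p => [p.1, p.2.1]) ⊆ blocks I.2 :=
    fun t ht => blocks_sub ht
  have hV : (blocks I.2).Nodup := (dd_spec _).1
  unfold value totalB
  generalize (densB I.2).prod = D at *
  generalize (allL I.2).length = n at *
  generalize blocks I.2 = V at *
  set c : ℚ := ((D : ℚ) ^ n) ^ V.length with hc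
  have h1 : C ((D : ℚ) * c) * (I.2.map fun t => C t.1 * (t.2.map (factor I.1.length)).prod).sum =
      (I.2.map fun t => C ((D : ℚ) * t.1) * (C c * (t.2.map (factor I.1.length)).prod)).sum := by
    rw [← List.sum_map_mul_left]
    congr 1
    refine List.map_congr_left fun t _ => ?_
    rw [C_mul, C_mul]
    ring
  rw [h1, ip_listsum_left, Int.cast_list_sum, List.map_map]
  congr 1
  refine List.map_congr_left fun t ht => ?_
  rw [ip_listsum_right, Function.comp_apply, Int.cast_list_sum, List.map_map]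
  congr 1
  refine List.map_congr_left fun t' ht' => ?_
  rw [Function.comp_apply, ip_C_mul_left, ip_C_mul_right, Int.cast_mul, Int.cast_mul,
    gr_eq hV (hI t ht) (hbl t ht) (hok t ht 0) (hI t' ht') (hbl t' ht') (hok t' ht' 1),
    zq_cast (hcd t ht), zq_cast (hcd t' ht')]
  ring

theorem decB_eq (I : Input) : decB I = true ↔ Disjoint I ∧ value I = 0 := by
  unfold decB
  rw [Bool.and_eq_true, decide_eq_true_iff, List.all_eq_true]
  have h1 : (∀ t ∈ I.2, nodupb (t.2.flatMap fun p => [p.1, p.2.1]) = true) ↔ Disjoint I := by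
    simp only [nodupb_iff]
    rfl
  rw [h1]
  refine and_congr_right fun hI => ?_
  have hD : (((densB I.2).prod : ℕ) : ℚ) ≠ 0 := by
    have : 0 < (densB I.2).prod := List.prod_pos fun d hd => by
      unfold densB at hd
      rw [List.mem_map] at hd
      obtain ⟨q, _, rfl⟩ := hd
      exact q.den_pos
    exact_mod_cast this.ne'
  have h2 := total_eqB I hI
  rw [← Int.cast_eq_zero (α := ℚ), h2, ip_self_eq_zero, mul_eq_zero, C_eq_zero]
  constructor
  · rintro (h | h)
    · exact absurd h (mul_ne_zero hD (pow_ne_zero _ (pow_ne_zero _ hD)))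
    · exact h
  · exact Or.inr

end Pool.Agent.NPC.H532.BM
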