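import Pool.Agent.NPC.Defs

/-!
# Sums of products of variable-disjoint two-block branching programs: definitions

The variables `x_{b,k}` are partitioned into blocks `X_b = (x_{b,0}, x_{b,1}, …)`.
-/

namespace Pool.Agent.H532R2.BlockSum

open Pool.Agent.NPC MvPolynomial

/-- A matrix of rational numbers, given by the list of its rows. -/
abbrev QMat : Type := List (List ℚ)

/-- The entry of a matrix in row `i` and column `j` (zero if it is not there). -/
def qentry (A : QMat) (i j : ℕ) : ℚ := (A.getD i []).getD j 0

/-- A layer `[(e₁, A₁), …, (eₗ, Aₗ)]` stands for the matrix `A₁ x ^ e₁ + ⋯ + Aₗ x ^ eₗ` of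
polynomials in a variable `x`. -/
abbrev Layer : Type := List (ℕ × QMat)

/-- The `(w + 1) × (w + 1)` matrix of polynomials in the variable `x_{b,k}` given by a layer. -/
noncomputable def layer (w b k : ℕ) (L : Layer) :
    Matrix (Fin (w + 1)) (Fin (w + 1)) (MvPolynomial (ℕ × ℕ) ℚ) :=
  Matrix.of fun s t => (L.map fun p => C (qentry p.2 s t) * X (b, k) ^ p.1).sum

/-- The product `L₀(x_{b,0}) L₁(x_{b,1}) L₂(x_{b,2}) ⋯` of the layers in a list. -/
noncomputable def layers (w b : ℕ) (Ls : List Layer) :
    Matrix (Fin (w + 1)) (Fin (w + 1)) (MvPolynomial (ℕ × ℕ) ℚ) :=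
  ((List.range Ls.length).map fun k => layer w b k (Ls.getD k [])).prod

/-- A factor `(u, v, L, R)` stands for the polynomial in the variables of the blocks `X_u` and
`X_v` computed by the read-once oblivious algebraic branching program (of width `w + 1`) with
layers `L₀(x_{u,0}), L₁(x_{u,1}), …, R₀(x_{v,0}), R₁(x_{v,1}), …`. -/
noncomputable def factor (w : ℕ) (p : ℕ × ℕ × List Layer × List Layer) :
    MvPolynomial (ℕ × ℕ) ℚ :=
  (layers w p.1 p.2.2.1 * layers w p.2.1 p.2.2.2) 0 0

/-- The inputs: the number `w` in unary and a list of summands; a summand `(c, [f₁, …, fᵣ])` stands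
for the product `c * f₁ * ⋯ * fᵣ`, where `f₁, …, fᵣ` are factors. -/
abbrev Input : Type := List Unit × List (ℚ × List (ℕ × ℕ × List Layer × List Layer))

/-- The polynomial computed by an input. -/
noncomputable def value (I : Input) : MvPolynomial (ℕ × ℕ) ℚ :=
  (I.2.map fun t => C t.1 * (t.2.map (factor I.1.length)).prod).sum

/-- In each summand the factors have pairwise disjoint pairs of blocks: the blocks
`u₁, v₁, u₂, v₂, …, uᵣ, vᵣ` of a summand are pairwise distinct. -/
def Disjoint (I : Input) : Prop :=
  ∀ t ∈ I.2, (t.2.flatMap fun p => [p.1, p.2.1]).Nodup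

end Pool.Agent.H532R2.BlockSum
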