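import Mathlib

/-!
# The standard inner product on polynomials
-/

namespace Pool.Agent.H532R2

open MvPolynomial Finset

variable {σ : Type*}

/-- The inner product for which the monomials are an orthonormal basis. -/
noncomputable def ip (f g : MvPolynomial σ ℚ) : ℚ := ∑ α ∈ f.support, coeff α f * coeff α g

theorem ip_eq_sum (f g : MvPolynomial σ ℚ) (s : Finset (σ →₀ ℕ)) (hs : f.support ⊆ s) :
    ip f g = ∑ α ∈ s, coeff α f * coeff α g := by
  unfold ip
  refine Finset.sum_subset hs fun α _ hα => ?_
  rw [notMem_support_iff] at hα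
  rw [hα]
  ring

theorem ip_add_left (f f' g : MvPolynomial σ ℚ) : ip (f + f') g = ip f g + ip f' g := by
  classical
  rw [ip_eq_sum (f + f') g (f.support ∪ f'.support) MvPolynomial.support_add,
    ip_eq_sum f g (f.support ∪ f'.support) Finset.subset_union_left,
    ip_eq_sum f' g (f.support ∪ f'.support) Finset.subset_union_right, ← Finset.sum_add_distrib]
  refine Finset.sum_congr rfl fun α _ => ?_
  rw [coeff_add]
  ring

theorem ip_add_right (f g g' : MvPolynomial σ ℚ) : ip f (g + g') = ip f g + ip f g' := by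
  unfold ip
  rw [← Finset.sum_add_distrib]
  refine Finset.sum_congr rfl fun α _ => ?_
  rw [coeff_add]
  ring

@[simp] theorem ip_zero_left (g : MvPolynomial σ ℚ) : ip 0 g = 0 := by simp [ip]

@[simp] theorem ip_zero_right (f : MvPolynomial σ ℚ) : ip f 0 = 0 := by simp [ip]

/-- The inner product as an additive map in the first argument. -/
noncomputable def ipL (g : MvPolynomial σ ℚ) : MvPolynomial σ ℚ →+ ℚ where
  toFun f := ip f g
  map_zero' := ip_zero_left g
  map_add' f f' := ip_add_left f f' g

/-- The inner product as an additive map in the second argument. -/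
noncomputable def ipR (f : MvPolynomial σ ℚ) : MvPolynomial σ ℚ →+ ℚ where
  toFun g := ip f g
  map_zero' := ip_zero_right f
  map_add' g g' := ip_add_right f g g'

theorem ip_sum_left {ι : Type*} (s : Finset ι) (f : ι → MvPolynomial σ ℚ)
    (g : MvPolynomial σ ℚ) : ip (∑ i ∈ s, f i) g = ∑ i ∈ s, ip (f i) g :=
  map_sum (ipL g) f s

theorem ip_sum_right {ι : Type*} (s : Finset ι) (f : MvPolynomial σ ℚ)
    (g : ι → MvPolynomial σ ℚ) : ip f (∑ i ∈ s, g i) = ∑ i ∈ s, ip f (g i) :=
  map_sum (ipR f) g s

theorem ip_listsum_left {ι : Type*} (s : List ι) (f : ι → MvPolynomial σ ℚ)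
    (g : MvPolynomial σ ℚ) : ip (s.map f).sum g = (s.map fun i => ip (f i) g).sum := by
  have := map_list_sum (ipL g) (s.map f)
  rw [List.map_map] at this
  exact this

theorem ip_listsum_right {ι : Type*} (s : List ι) (f : MvPolynomial σ ℚ)
    (g : ι → MvPolynomial σ ℚ) : ip f (s.map g).sum = (s.map fun i => ip f (g i)).sum := by
  have := map_list_sum (ipR f) (s.map g)
  rw [List.map_map] at this
  exact this

theorem ip_C_mul_left (c : ℚ) (f g : MvPolynomial σ ℚ) : ip (C c * f) g = c * ip f g := by
  classical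
  rw [ip_eq_sum (C c * f) g f.support (by
    intro α hα
    rw [mem_support_iff] at hα ⊢
    rw [coeff_C_mul] at hα
    exact right_ne_zero_of_mul hα), ip, Finset.mul_sum]
  refine Finset.sum_congr rfl fun α _ => ?_
  rw [coeff_C_mul]
  ring

theorem ip_C_mul_right (c : ℚ) (f g : MvPolynomial σ ℚ) : ip f (C c * g) = c * ip f g := by
  unfold ip
  rw [Finset.mul_sum]
  refine Finset.sum_congr rfl fun α _ => ?_
  rw [coeff_C_mul]
  ring

theorem ip_monomial (α β : σ →₀ ℕ) [Decidable (α = β)] (c d : ℚ) :
    ip (monomial α c) (monomial β d) = if α = β then c * d else 0 := by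
  classical
  rw [ip_eq_sum _ _ {α} support_monomial_subset, Finset.sum_singleton, coeff_monomial,
    coeff_monomial, if_pos rfl]
  by_cases h : α = β
  · rw [if_pos h, if_pos h.symm]
  · rw [if_neg h, if_neg (Ne.symm h), mul_zero]

theorem ip_one_one : ip (1 : MvPolynomial σ ℚ) 1 = 1 := by
  classical
  have h : (1 : MvPolynomial σ ℚ) = monomial 0 1 := rfl
  rw [h, ip_monomial, if_pos rfl, mul_one]

theorem ip_self_eq_zero (f : MvPolynomial σ ℚ) : ip f f = 0 ↔ f = 0 := by
  constructor
  · intro h
    unfold ip at h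
    have h1 : ∀ α ∈ f.support, 0 ≤ coeff α f * coeff α f := fun α _ => mul_self_nonneg _
    rw [Finset.sum_eq_zero_iff_of_nonneg h1] at h
    rw [← MvPolynomial.support_eq_empty, Finset.eq_empty_iff_forall_notMem]
    intro α hα
    have h2 := h α hα
    rw [mem_support_iff] at hα
    exact hα (mul_self_eq_zero.1 h2)
  · rintro rfl
    exact ip_zero_left 0

/-- All variables of the polynomial are in the set. -/
def On (S : Set σ) (f : MvPolynomial σ ℚ) : Prop := ∀ α ∈ f.support, ∀ i, α i ≠ 0 → i ∈ S

theorem On.mono {S T : Set σ} {f : MvPolynomial σ ℚ} (h : On S f) (hST : S ⊆ T) : On T f :=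
  fun α hα i hi => hST (h α hα i hi)

theorem On.mul {S : Set σ} {f g : MvPolynomial σ ℚ} (hf : On S f) (hg : On S g) :
    On S (f * g) := by
  classical
  intro α hα i hi
  have h1 := support_mul f g hα
  rw [Finset.mem_add] at h1
  obtain ⟨a, ha, b, hb, rfl⟩ := h1
  rw [Finsupp.add_apply] at hi
  rcases Nat.eq_zero_or_pos (a i) with h | h
  · exact hg b hb i (by omega)
  · exact hf a ha i (by omega)

theorem On.add {S : Set σ} {f g : MvPolynomial σ ℚ} (hf : On S f) (hg : On S g) :
    On S (f + g) := by
  classical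
  intro α hα i hi
  have h1 := MvPolynomial.support_add hα
  rw [Finset.mem_union] at h1
  rcases h1 with h1 | h1
  · exact hf α h1 i hi
  · exact hg α h1 i hi

theorem On.zero (S : Set σ) : On S (0 : MvPolynomial σ ℚ) := by
  intro α hα
  simp at hα

theorem On.C (S : Set σ) (c : ℚ) : On S (MvPolynomial.C c : MvPolynomial σ ℚ) := by
  classical
  intro α hα i hi
  rw [mem_support_iff, coeff_C] at hα
  by_cases h : 0 = α
  · rw [← h] at hi; simp at hi
  · rw [if_neg h] at hα; exact absurd rfl hα

theorem On.one (S : Set σ) : On S (1 : MvPolynomial σ ℚ) := On.C S 1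

theorem On.X_pow {S : Set σ} {i : σ} (hi : i ∈ S) (k : ℕ) :
    On S (X i ^ k : MvPolynomial σ ℚ) := by
  classical
  intro α hα j hj
  rw [mem_support_iff, coeff_X_pow] at hα
  by_cases h : Finsupp.single i k = α
  · rw [← h] at hj
    by_cases hij : j = i
    · rwa [hij]
    · rw [Finsupp.single_eq_of_ne hij] at hj; exact absurd rfl hj
  · rw [if_neg h] at hα; exact absurd rfl hα

theorem On.sum {S : Set σ} {ι : Type*} (s : Finset ι) (f : ι → MvPolynomial σ ℚ)
    (h : ∀ i ∈ s, On S (f i)) : On S (∑ i ∈ s, f i) := by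
  classical
  induction s using Finset.induction_on with
  | empty => simpa using On.zero S
  | insert a s ha ih =>
    rw [Finset.sum_insert ha]
    exact (h a (by simp)).add (ih fun i hi => h i (by simp [hi]))

theorem On.listsum {S : Set σ} (l : List (MvPolynomial σ ℚ)) (h : ∀ f ∈ l, On S f) :
    On S l.sum := by
  induction l with
  | nil => simpa using On.zero S
  | cons a l ih =>
    rw [List.sum_cons]
    exact (h a (by simp)).add (ih fun i hi => h i (by simp [hi]))

theorem On.listprod {S : Set σ} (l : List (MvPolynomial σ ℚ)) (h : ∀ f ∈ l, On S f) :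
    On S l.prod := by
  induction l with
  | nil => simpa using On.one S
  | cons a l ih =>
    rw [List.prod_cons]
    exact (h a (by simp)).mul (ih fun i hi => h i (by simp [hi]))

theorem ip_mul_sums {S T : Set σ} (hST : _root_.Disjoint S T) (A A' B B' : Finset (σ →₀ ℕ))
    (x x' y y' : (σ →₀ ℕ) → ℚ) (hA : ∀ α ∈ A, ∀ i, α i ≠ 0 → i ∈ S)
    (hA' : ∀ α ∈ A', ∀ i, α i ≠ 0 → i ∈ S) (hB : ∀ α ∈ B, ∀ i, α i ≠ 0 → i ∈ T)
    (hB' : ∀ α ∈ B', ∀ i, α i ≠ 0 → i ∈ T) :
    ip ((∑ a ∈ A, monomial a (x a)) * (∑ b ∈ B, monomial b (y b)))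
      ((∑ a ∈ A', monomial a (x' a)) * (∑ b ∈ B', monomial b (y' b))) =
    ip (∑ a ∈ A, monomial a (x a)) (∑ a ∈ A', monomial a (x' a)) *
      ip (∑ b ∈ B, monomial b (y b)) (∑ b ∈ B', monomial b (y' b)) := by
  classical
  simp only [Finset.sum_mul_sum, ip_sum_left, ip_sum_right, monomial_mul, ip_monomial]
  refine Finset.sum_congr rfl fun a' ha' => Finset.sum_congr rfl fun b' hb' =>
    Finset.sum_congr rfl fun a ha => Finset.sum_congr rfl fun b hb => ?_
  have hiff : a + b = a' + b' ↔ a = a' ∧ b = b' := by
    constructor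
    · intro h
      have key : ∀ i, a i = a' i ∧ b i = b' i := by
        intro i
        have hi := DFunLike.congr_fun h i
        rw [Finsupp.add_apply, Finsupp.add_apply] at hi
        by_cases hS : i ∈ S
        · have hT : i ∉ T := fun hT => (Set.disjoint_left.1 hST) hS hT
          have h1 : b i = 0 := by
            by_contra h1; exact hT (hB b hb i h1)
          have h2 : b' i = 0 := by
            by_contra h2; exact hT (hB' b' hb' i h2)
          omega
        · have h1 : a i = 0 := by
            by_contra h1; exact hS (hA a ha i h1)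
          have h2 : a' i = 0 := by
            by_contra h2; exact hS (hA' a' ha' i h2)
          omega
      exact ⟨Finsupp.ext fun i => (key i).1, Finsupp.ext fun i => (key i).2⟩
    · rintro ⟨rfl, rfl⟩; rfl
  by_cases h1 : a = a' <;> by_cases h2 : b = b'
  · rw [if_pos (hiff.2 ⟨h1, h2⟩), if_pos h1, if_pos h2]; ring
  · rw [if_neg (fun h => h2 (hiff.1 h).2), if_pos h1, if_neg h2, mul_zero]
  · rw [if_neg (fun h => h1 (hiff.1 h).1), if_neg h1, zero_mul]
  · rw [if_neg (fun h => h1 (hiff.1 h).1), if_neg h1, zero_mul]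

/-- The inner product is multiplicative for polynomials in disjoint sets of variables. -/
theorem ip_mul {S T : Set σ} (hST : _root_.Disjoint S T) {f f' g g' : MvPolynomial σ ℚ}
    (hf : On S f) (hf' : On S f') (hg : On T g) (hg' : On T g') :
    ip (f * g) (f' * g') = ip f f' * ip g g' := by
  have h := ip_mul_sums hST f.support f'.support g.support g'.support (fun α => coeff α f)
    (fun α => coeff α f') (fun α => coeff α g) (fun α => coeff α g') hf hf' hg hg'
  rwa [support_sum_monomial_coeff, support_sum_monomial_coeff, support_sum_monomial_coeff,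
    support_sum_monomial_coeff] at h

end Pool.Agent.H532R2
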