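import Pool.Agent.H532R2.PairAlg

/-!
# Sums over assignments, with values in commutative monoids
-/

namespace Pool.Agent.NPC.H532

open Finset

section

variable {R R' : Type*}

/-- Summation over the values at the leg `v`. -/
def smG [AddCommMonoid R] (N v : ℕ) (F : (ℕ → ℕ) → R) (α : ℕ → ℕ) : R :=
  ∑ a ∈ range N, F (Function.update α v a)

/-- Summation over the values at all legs of a list. -/
def SmG [AddCommMonoid R] (N : ℕ) : List ℕ → ((ℕ → ℕ) → R) → (ℕ → ℕ) → R
  | [], F, α => F α
  | v :: V, F, α => SmG N V (smG N v F) α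

theorem Sm_eq_SmG (N : ℕ) (V : List ℕ) : ∀ (F : (ℕ → ℕ) → ℤ) (α : ℕ → ℕ),
    Sm N V F α = SmG N V F α := by
  induction V with
  | nil => intro F α; rfl
  | cons v V ih => intro F α; exact ih _ α

theorem SmG_hom [AddCommMonoid R] [AddCommMonoid R'] (φ : R →+ R') (N : ℕ) (V : List ℕ) :
    ∀ (F : (ℕ → ℕ) → R) (α : ℕ → ℕ), φ (SmG N V F α) = SmG N V (fun β => φ (F β)) α := by
  induction V with
  | nil => intro F α; rfl
  | cons v V ih =>
    intro F α
    change φ (SmG N V (smG N v F) α) = SmG N V (smG N v fun β => φ (F β)) α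
    rw [ih]
    congr 1
    funext β
    exact map_sum φ _ _

theorem SmG_append [AddCommMonoid R] (N : ℕ) (V V' : List ℕ) :
    ∀ (F : (ℕ → ℕ) → R) (α : ℕ → ℕ),
      SmG N (V ++ V') F α = SmG N V' (fun β => SmG N V F β) α := by
  induction V with
  | nil => intro F α; rfl
  | cons v V ih =>
    intro F α
    exact ih (smG N v F) α

theorem SmG_congr [AddCommMonoid R] {N : ℕ} (V : List ℕ) (hV : ∀ v ∈ V, v ≠ 0) :
    ∀ (F G : (ℕ → ℕ) → R) (α : ℕ → ℕ), Good N α →
      (∀ β, Good N β → (∀ l, l ∉ V → β l = α l) → F β = G β) →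
      SmG N V F α = SmG N V G α := by
  induction V with
  | nil => intro F G α hα h; exact h α hα fun _ _ => rfl
  | cons v V ih =>
    intro F G α hα h
    refine ih (fun v hv => hV v (List.mem_cons_of_mem _ hv)) _ _ α hα fun β hβ hβα => ?_
    unfold smG
    refine Finset.sum_congr rfl fun a ha => ?_
    refine h _ (hβ.update (hV v (by simp)) (Finset.mem_range.1 ha)) fun l hl => ?_
    rw [List.mem_cons, not_or] at hl
    rw [Function.update_of_ne hl.1]
    exact hβα l hl.2

theorem SmG_mul_left [CommSemiring R] (N : ℕ) (V : List ℕ) (c : R) (F : (ℕ → ℕ) → R)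
    (α : ℕ → ℕ) : SmG N V (fun β => c * F β) α = c * SmG N V F α :=
  (SmG_hom (AddMonoidHom.mulLeft c) N V F α).symm

/-- Sums of products of functions of distinct legs. -/
theorem SmG_prod [CommSemiring R] (N : ℕ) : ∀ (l : List (ℕ × (ℕ → R))),
    (l.map Prod.fst).Nodup → ∀ α : ℕ → ℕ,
      SmG N (l.map Prod.fst) (fun β => (l.map fun p => p.2 (β p.1)).prod) α =
        (l.map fun p => ∑ r ∈ range N, p.2 r).prod
  | [], _, α => rfl
  | p :: l, h, α => by
    rw [List.map_cons, List.nodup_cons] at h
    have ih := SmG_prod N l h.2 α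
    rw [List.map_cons, List.map_cons, List.prod_cons, ← ih, ← SmG_mul_left]
    change SmG N (l.map Prod.fst) (smG N p.1 _) α = _
    congr 1
    funext β
    unfold smG
    rw [Finset.sum_mul]
    refine Finset.sum_congr rfl fun a _ => ?_
    simp only [List.map_cons, List.prod_cons, Function.update_self]
    congr 2
    refine List.map_congr_left fun q hq => ?_
    have hne : q.1 ≠ p.1 := fun h' => h.1 (h' ▸ List.mem_map_of_mem hq)
    rw [Function.update_of_ne hne]

end

end Pool.Agent.NPC.H532
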