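import Pool.Agent.H532R2.PairPoly
import Pool.Agent.H532R2.SmG
import Pool.Agent.H532R2.IP
import Pool.Agent.H532R2.BlockDefs

/-!
# Inner products of branching programs that read a block of variables
-/

namespace Pool.Agent.NPC.H532.BM

open Finset MvPolynomial Pool.Agent.H532R2 Pool.Agent.H532R2.BlockSum Pool.Agent.NPC.H532
  Pool.Agent.NPC.H532.RP Pool.Agent.NPC.H532.PM

/-- A layer with integer coefficients. -/
abbrev ZLayer : Type := List (ℕ × Mat)

/-- The transfer matrix for a variable. -/
def kr (N : ℕ) (A A' : ZLayer) : Mat := tab (N * N) fun i j =>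
  (A.map fun p => (A'.map fun p' => bif decide (p.1 = p'.1) then
    entry p.2 (i / N) (j / N) * entry p'.2 (i % N) (j % N) else 0).sum).sum

/-- The identity matrix. -/
def idm (n : ℕ) : Mat := tab n fun i j => bif decide (i = j) then 1 else 0

/-- The product of the transfer matrices of `n` variables. -/
def zk (N : ℕ) (A A' : ℕ → ZLayer) (n : ℕ) : Mat :=
  (List.range n).foldl (fun Z k => mmul (N * N) Z (kr N (A k) (A' k))) (idm (N * N))

theorem zk_succ (N : ℕ) (A A' : ℕ → ZLayer) (n : ℕ) :
    zk N A A' (n + 1) = mmul (N * N) (zk N A A' n) (kr N (A n) (A' n)) := by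
  unfold zk
  rw [List.range_succ, List.foldl_append, List.foldl_cons, List.foldl_nil]

/-- The polynomial of a layer. -/
noncomputable def zl (b k : ℕ) (A : ZLayer) (i j : ℕ) : MvPolynomial (ℕ × ℕ) ℚ :=
  (A.map fun p => C ((entry p.2 i j : ℤ) : ℚ) * X (b, k) ^ p.1).sum

/-- The entries of the products of layers. -/
noncomputable def pz (N b : ℕ) (A : ℕ → ZLayer) : ℕ → ℕ → ℕ → MvPolynomial (ℕ × ℕ) ℚ
  | 0, i, r => if i = r then 1 else 0
  | n + 1, i, r => ∑ s ∈ range N, pz N b A n i s * zl b n (A n) s r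

theorem zl_on (b k : ℕ) (A : ZLayer) (i j : ℕ) : On {x | x.1 = b ∧ x.2 = k} (zl b k A i j) := by
  refine On.listsum _ fun f hf => ?_
  rw [List.mem_map] at hf
  obtain ⟨p, _, rfl⟩ := hf
  exact (On.C _ _).mul (On.X_pow (by simp) _)

theorem pz_on (N b : ℕ) (A : ℕ → ZLayer) (n i r : ℕ) :
    On {x | x.1 = b ∧ x.2 < n} (pz N b A n i r) := by
  induction n generalizing r with
  | zero =>
    unfold pz
    split
    · exact On.one _
    · exact On.zero _
  | succ n ih =>
    unfold pz
    refine On.sum _ _ fun s _ => On.mul ((ih s).mono ?_) ((zl_on b n _ s r).mono ?_)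
    · rintro x ⟨h1, h2⟩; exact ⟨h1, h2.trans (Nat.lt_succ_self n)⟩
    · rintro x ⟨h1, h2⟩; exact ⟨h1, by rw [h2]; exact Nat.lt_succ_self n⟩

theorem ip_zl (b k : ℕ) (A A' : ZLayer) (i j i' j' : ℕ) :
    ip (zl b k A i j) (zl b k A' i' j') =
      (((A.map fun p => (A'.map fun p' => bif decide (p.1 = p'.1) then
        entry p.2 i j * entry p'.2 i' j' else 0).sum).sum : ℤ) : ℚ) := by
  classical
  unfold zl
  rw [ip_listsum_left, Int.cast_list_sum, List.map_map]
  congr 1
  refine List.map_congr_left fun p _ => ?_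
  rw [ip_listsum_right, Function.comp_apply, Int.cast_list_sum, List.map_map]
  congr 1
  refine List.map_congr_left fun p' _ => ?_
  rw [Function.comp_apply, ip_C_mul_left, ip_C_mul_right]
  have h1 : ∀ e : ℕ, (X (b, k) ^ e : MvPolynomial (ℕ × ℕ) ℚ) =
      monomial (Finsupp.single (b, k) e) 1 := fun e => X_pow_eq_monomial
  rw [h1, h1, ip_monomial]
  by_cases h : p.1 = p'.1
  · rw [if_pos (by rw [h]), decide_eq_true h, cond_true]
    push_cast
    ring
  · rw [if_neg (fun h' => h (Finsupp.single_injective _ h')), decide_eq_false h, cond_false]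
    simp

theorem sum_range_mul (M N : ℕ) (f : ℕ → ℚ) :
    ∑ k ∈ range (M * N), f k = ∑ a ∈ range M, ∑ b ∈ range N, f (a * N + b) := by
  induction M with
  | zero => simp
  | succ M ih => rw [Finset.sum_range_succ, ← ih, Nat.succ_mul, Finset.sum_range_add]

theorem div_aux {N a b : ℕ} (hb : b < N) : (a * N + b) / N = a ∧ (a * N + b) % N = b := by
  have hN : 0 < N := by omega
  constructor
  · rw [Nat.add_comm, Nat.mul_comm, Nat.add_mul_div_left _ _ hN, Nat.div_eq_of_lt hb, zero_add]
  · rw [Nat.add_comm, Nat.add_mul_mod_self_right, Nat.mod_eq_of_lt hb]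

theorem pair_lt {N i j : ℕ} (hi : i < N) (hj : j < N) : i * N + j < N * N := by
  calc i * N + j < i * N + N := by omega
    _ = (i + 1) * N := by ring
    _ ≤ N * N := Nat.mul_le_mul_right _ hi

theorem zk_eq {N : ℕ} (b : ℕ) (A A' : ℕ → ZLayer) (n : ℕ) {i j : ℕ} (hi : i < N) (hj : j < N) :
    ∀ {r s : ℕ}, r < N → s < N → ((entry (zk N A A' n) (i * N + j) (r * N + s) : ℤ) : ℚ) =
      ip (pz N b A n i r) (pz N b A' n j s) := by
  induction n with
  | zero =>
    intro r s hr hs
    unfold pz
    have h0 : zk N A A' 0 = idm (N * N) := rfl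
    rw [h0, idm, entry_tab _ (pair_lt hi hj) (pair_lt hr hs)]
    by_cases h : i = r
    · by_cases h' : j = s
      · rw [if_pos h, if_pos h', ip_one_one, h, h', decide_eq_true rfl]
        simp
      · have hne : i * N + j ≠ r * N + s := by rw [h]; omega
        rw [if_neg h', ip_zero_right, decide_eq_false hne]
        simp
    · have hne : i * N + j ≠ r * N + s := by
        intro h''
        apply h
        have := (div_aux (a := i) hj).1
        rw [h'', (div_aux (a := r) hs).1] at this
        exact this.symm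
      rw [if_neg h, ip_zero_left, decide_eq_false hne]
      simp
  | succ n ih =>
    intro r s hr hs
    rw [zk_succ, mmul, entry_tab _ (pair_lt hi hj) (pair_lt hr hs), lsum_range, Int.cast_sum,
      sum_range_mul]
    unfold pz
    rw [ip_sum_left]
    refine Finset.sum_congr rfl fun a ha => ?_
    rw [ip_sum_right]
    refine Finset.sum_congr rfl fun c hc => ?_
    have ha' := Finset.mem_range.1 ha
    have hc' := Finset.mem_range.1 hc
    have hdis : _root_.Disjoint {x : ℕ × ℕ | x.1 = b ∧ x.2 < n} {x | x.1 = b ∧ x.2 = n} := by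
      rw [Set.disjoint_left]
      rintro x ⟨_, h1⟩ ⟨_, h2⟩
      omega
    rw [ip_mul hdis (pz_on _ _ _ _ _ _) (pz_on _ _ _ _ _ _) (zl_on _ _ _ _ _) (zl_on _ _ _ _ _),
      ← ih ha' hc', Int.cast_mul]
    congr 1
    rw [kr, entry_tab _ (pair_lt ha' hc') (pair_lt hr hs), ip_zl, (div_aux hc').1, (div_aux hc').2,
      (div_aux hs).1, (div_aux hs).2]

/-- The layer with integer coefficients of a layer with rational coefficients. -/
def conv (D : ℕ) (L : Layer) : ZLayer := L.map fun p => (p.1, zmat D p.2)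

/-- The identity layer, scaled. -/
def idZ (N D : ℕ) : ZLayer := [(0, tab N fun i j => bif decide (i = j) then (D : ℤ) else 0)]

/-- A sequence of layers. -/
def seq (N D : ℕ) (Ls : List Layer) (k : ℕ) : ZLayer := (Ls.map (conv D)).getD k (idZ N D)

theorem zl_conv {D : ℕ} {L : Layer} (h : ∀ p ∈ L, ∀ r ∈ p.2, ∀ q ∈ r, q.den ∣ D) (b k i j : ℕ) :
    zl b k (conv D L) i j = C (D : ℚ) * (L.map fun p => C (qentry p.2 i j) * X (b, k) ^ p.1).sum := by
  unfold zl conv
  rw [List.map_map, ← List.sum_map_mul_left]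
  congr 1
  refine List.map_congr_left fun p hp => ?_
  rw [Function.comp_apply, entry_zmat, zq_cast (den_dvd (h p hp) i j), C_mul]
  unfold qentry
  ring

theorem zl_idZ {N D : ℕ} (b k : ℕ) {i j : ℕ} (hi : i < N) (hj : j < N) :
    zl b k (idZ N D) i j = C (D : ℚ) * (if i = j then 1 else 0) := by
  unfold zl idZ
  rw [List.map_cons, List.map_nil, List.sum_cons, List.sum_nil, add_zero, pow_zero, mul_one,
    entry_tab _ hi hj]
  by_cases h : i = j
  · rw [decide_eq_true h, cond_true, if_pos h]
    simp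
  · rw [decide_eq_false h, cond_false, if_neg h]
    simp

/-- The matrix of a layer, the identity matrix for indices outside the list. -/
noncomputable def lmat (w b : ℕ) (Ls : List Layer) (k : ℕ) :
    Matrix (Fin (w + 1)) (Fin (w + 1)) (MvPolynomial (ℕ × ℕ) ℚ) :=
  if k < Ls.length then layer w b k (Ls.getD k []) else 1

theorem zl_seq {w D : ℕ} {Ls : List Layer}
    (h : ∀ L ∈ Ls, ∀ p ∈ L, ∀ r ∈ p.2, ∀ q ∈ r, q.den ∣ D) (b k : ℕ) (i j : Fin (w + 1)) :
    zl b k (seq (w + 1) D Ls k) i j = C (D : ℚ) * lmat w b Ls k i j := by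
  unfold lmat seq
  by_cases hk : k < Ls.length
  · have h1 : (Ls.map (conv D)).getD k (idZ (w + 1) D) = conv D (Ls.getD k []) := by
      rw [List.getD_eq_getElem _ _ (by simpa using hk), List.getElem_map,
        List.getD_eq_getElem _ _ hk]
    rw [if_pos hk, h1, zl_conv]
    · rfl
    · refine h _ ?_
      rw [List.getD_eq_getElem _ _ hk]
      exact List.getElem_mem hk
  · rw [if_neg hk, List.getD_eq_default _ _ (by simpa using hk), zl_idZ _ _ i.2 j.2,
      Matrix.one_apply]
    simp only [Fin.ext_iff]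

theorem pz_lmat {w D : ℕ} {Ls : List Layer}
    (h : ∀ L ∈ Ls, ∀ p ∈ L, ∀ r ∈ p.2, ∀ q ∈ r, q.den ∣ D) (b n : ℕ) (i : Fin (w + 1)) :
    ∀ j : Fin (w + 1), pz (w + 1) b (seq (w + 1) D Ls) n i j =
      C ((D : ℚ) ^ n) * ((List.range n).map (lmat w b Ls)).prod i j := by
  induction n with
  | zero =>
    intro j
    unfold pz
    simp only [Fin.val_inj, pow_zero, C_1, one_mul, List.range_zero, List.map_nil, List.prod_nil,
      Matrix.one_apply]
  | succ n ih =>
    intro j
    unfold pz
    rw [List.range_succ, List.map_append, List.prod_append, List.map_cons, List.map_nil,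
      List.prod_cons, List.prod_nil, mul_one, Matrix.mul_apply, Finset.sum_range, Finset.mul_sum]
    refine Finset.sum_congr rfl fun s _ => ?_
    rw [ih s, zl_seq h, pow_succ, C_mul]
    ring

theorem lmat_prod {w : ℕ} {Ls : List Layer} {n : ℕ} (hn : Ls.length ≤ n) (b : ℕ) :
    ((List.range n).map (lmat w b Ls)).prod = layers w b Ls := by
  obtain ⟨d, rfl⟩ := Nat.exists_eq_add_of_le hn
  rw [List.range_add, List.map_append, List.prod_append]
  have h1 : ((List.range Ls.length).map (lmat w b Ls)).prod = layers w b Ls := by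
    unfold layers
    congr 1
    refine List.map_congr_left fun k hk => ?_
    rw [List.mem_range] at hk
    unfold lmat
    rw [if_pos hk]
  have h2 : (((List.range d).map fun x => Ls.length + x).map (lmat w b Ls)).prod = 1 := by
    refine List.prod_eq_one fun x hx => ?_
    rw [List.mem_map] at hx
    obtain ⟨k, hk, rfl⟩ := hx
    rw [List.mem_map] at hk
    obtain ⟨k', _, rfl⟩ := hk
    unfold lmat
    rw [if_neg (by omega)]
  rw [h1, h2, mul_one]

theorem pz_layers {w D : ℕ} {Ls : List Layer}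
    (h : ∀ L ∈ Ls, ∀ p ∈ L, ∀ r ∈ p.2, ∀ q ∈ r, q.den ∣ D) (b : ℕ) {n : ℕ} (hn : Ls.length ≤ n)
    (i j : Fin (w + 1)) : pz (w + 1) b (seq (w + 1) D Ls) n i j =
      C ((D : ℚ) ^ n) * layers w b Ls i j := by
  rw [pz_lmat h, lmat_prod hn]

end Pool.Agent.NPC.H532.BM
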