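import Pool.Agent.H532R2.BlockGram

/-!
# The Gram matrix of products of variable-disjoint two-block branching programs
-/

namespace Pool.Agent.NPC.H532.BM

open Finset MvPolynomial Pool.Agent.H532R2 Pool.Agent.H532R2.BlockSum Pool.Agent.NPC.H532
  Pool.Agent.NPC.H532.RP Pool.Agent.NPC.H532.PM

/-- The factors. -/
abbrev Fac : Type := ℕ × ℕ × List Layer × List Layer

/-- The parts of a product: block, label of the factor, side, layers. -/
abbrev Part : Type := ℕ × ℕ × Bool × List Layer

/-- The parts of a product. -/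
def parts (τ : ℕ) (fs : List Fac) : List Part :=
  fs.zipIdx.flatMap fun q => [(q.1.1, 2 * q.2 + τ + 1, false, q.1.2.2.1),
    (q.1.2.1, 2 * q.2 + τ + 1, true, q.1.2.2.2)]

/-- The part for a block. -/
def find (ps : List Part) (b : ℕ) : Part :=
  (ps.filter fun q => decide (q.1 = b)).headD (b, 0, false, [])

/-- The edge of a block. -/
def edge (N D n : ℕ) (q q' : Part) : Edge := (q.2.1, q'.2.1, tab N fun r s =>
  entry (zk N (seq N D q.2.2.2) (seq N D q'.2.2.2) n)
    ((bif q.2.2.1 then r else 0) * N + (bif q'.2.2.1 then s else 0))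
    ((bif q.2.2.1 then 0 else r) * N + (bif q'.2.2.1 then 0 else s)))

/-- The network. -/
def net (N D n : ℕ) (V : List ℕ) (ps ps' : List Part) : List Edge :=
  V.map fun b => edge N D n (find ps b) (find ps' b)

/-- The labels. -/
def labs (τ : ℕ) (fs : List Fac) : List ℕ := fs.zipIdx.map fun q => 2 * q.2 + τ + 1

/-- The inner product of two products. -/
def gr (N D n : ℕ) (V : List ℕ) (fs fs' : List Fac) : ℤ :=
  contr N (labs 0 fs ++ labs 1 fs') (net N D n V (parts 0 fs) (parts 1 fs'))

/-! ### Lists -/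

theorem labs_nodup (τ : ℕ) (fs : List Fac) : (labs τ fs).Nodup := by
  have h : labs τ fs = (fs.zipIdx.map Prod.snd).map fun k => 2 * k + τ + 1 := by
    unfold labs
    rw [List.map_map]
    rfl
  rw [h, List.zipIdx_map_snd]
  refine List.Nodup.map (fun a b hab => by omega) ?_
  exact List.nodup_range'

theorem labs_mem {τ : ℕ} {fs : List Fac} {l : ℕ} (h : l ∈ labs τ fs) : ∃ k, l = 2 * k + τ + 1 := by
  unfold labs at h
  rw [List.mem_map] at h
  obtain ⟨q, _, rfl⟩ := h
  exact ⟨q.2, rfl⟩

theorem parts_fst (τ : ℕ) (fs : List Fac) :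
    (parts τ fs).map Prod.fst = fs.flatMap fun p => [p.1, p.2.1] := by
  have h : ∀ k, ((fs.zipIdx k).flatMap fun q => [((q.1.1, 2 * q.2 + τ + 1, false, q.1.2.2.1) : Part),
    (q.1.2.1, 2 * q.2 + τ + 1, true, q.1.2.2.2)]).map Prod.fst =
      fs.flatMap fun p => [p.1, p.2.1] := by
    induction fs with
    | nil => intro k; rfl
    | cons f fs ih =>
      intro k
      rw [List.zipIdx_cons, List.flatMap_cons, List.map_append, ih, List.flatMap_cons]
      rfl
  exact h 0

theorem parts_lab_count (τ : ℕ) (fs : List Fac) (l : ℕ) :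
    ((parts τ fs).filter fun q => decide (q.2.1 = l)).length ≤ 2 := by
  have h : ∀ k, (((fs.zipIdx k).flatMap fun q => [((q.1.1, 2 * q.2 + τ + 1, false, q.1.2.2.1) : Part),
    (q.1.2.1, 2 * q.2 + τ + 1, true, q.1.2.2.2)]).filter fun q => decide (q.2.1 = l)).length =
      2 * ((fs.zipIdx k).map fun q => 2 * q.2 + τ + 1).count l := by
    induction fs with
    | nil => intro k; rfl
    | cons f fs ih =>
      intro k
      rw [List.zipIdx_cons, List.flatMap_cons, List.filter_append, List.length_append, ih,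
        List.map_cons, List.count_cons]
      simp only
      by_cases hl : 2 * k + τ + 1 = l
      · simp only [List.filter_cons, hl, decide_true, if_true, List.filter_nil, List.length_cons,
          List.length_nil, beq_self_eq_true]
        ring
      · have hl' : ((2 * k + τ + 1 == l) = true) ↔ False := by simp [hl]
        simp only [List.filter_cons, hl, decide_false, Bool.false_eq_true, if_false,
          List.filter_nil, List.length_nil, hl', if_false]
        ring
  have h1 := h 0
  have h2 := List.nodup_iff_count_le_one.1 (labs_nodup τ fs) l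
  unfold parts
  rw [h1]
  unfold labs at h2
  omega

theorem find_mem {ps : List Part} {b : ℕ} (h : (find ps b).2.1 ≠ 0) :
    find ps b ∈ ps ∧ (find ps b).1 = b := by
  unfold find at h ⊢
  cases hl : ps.filter fun q => decide (q.1 = b) with
  | nil => rw [hl] at h; exact absurd rfl h
  | cons q l =>
    rw [List.headD_cons]
    have hq : q ∈ ps.filter fun q => decide (q.1 = b) := by rw [hl]; simp
    rw [List.mem_filter] at hq
    exact ⟨hq.1, by simpa using hq.2⟩

theorem find_eq {ps : List Part} (h : (ps.map Prod.fst).Nodup) {q : Part} (hq : q ∈ ps) :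
    find ps q.1 = q := by
  unfold find
  have hq' : q ∈ ps.filter fun q' => decide (q'.1 = q.1) := by
    rw [List.mem_filter]
    exact ⟨hq, by simp⟩
  cases hl : ps.filter fun q' => decide (q'.1 = q.1) with
  | nil => rw [hl] at hq'; simp at hq'
  | cons q' l =>
    rw [List.headD_cons]
    have hq'' : q' ∈ ps.filter fun q'' => decide (q''.1 = q.1) := by rw [hl]; simp
    rw [List.mem_filter] at hq''
    have h1 : q'.1 = q.1 := by simpa using hq''.2
    exact List.inj_on_of_nodup_map h hq''.1 hq h1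

theorem find_none {ps : List Part} {b : ℕ} (h : b ∉ ps.map Prod.fst) :
    find ps b = (b, 0, false, []) := by
  unfold find
  have h1 : (ps.filter fun q => decide (q.1 = b)) = [] := by
    rw [List.filter_eq_nil_iff]
    intro q hq hb
    apply h
    rw [List.mem_map]
    exact ⟨q, hq, by simpa using hb⟩
  rw [h1]
  rfl

theorem find_fst (ps : List Part) (b : ℕ) : (find ps b).1 = b := by
  unfold find
  cases hl : ps.filter fun q => decide (q.1 = b) with
  | nil => rfl
  | cons q l =>
    rw [List.headD_cons]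
    have hq : q ∈ ps.filter fun q => decide (q.1 = b) := by rw [hl]; simp
    rw [List.mem_filter] at hq
    simpa using hq.2

theorem find_cases (ps : List Part) (b : ℕ) : find ps b ∈ ps ∨ find ps b = (b, 0, false, []) := by
  unfold find
  cases hl : ps.filter fun q => decide (q.1 = b) with
  | nil => exact Or.inr rfl
  | cons q l =>
    left
    rw [List.headD_cons]
    have hq : q ∈ ps.filter fun q => decide (q.1 = b) := by rw [hl]; simp
    rw [List.mem_filter] at hq
    exact hq.1

theorem sum_ite_eq (V : List ℕ) (p : ℕ → Prop) [DecidablePred p] :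
    (V.map fun b => if p b then 1 else 0).sum = (V.filter fun b => decide (p b)).length := by
  induction V with
  | nil => rfl
  | cons a V ih =>
    rw [List.map_cons, List.sum_cons, ih, List.filter_cons]
    by_cases h : p a
    · simp only [h, if_true, decide_true, List.length_cons]; omega
    · simp only [h, if_false, decide_false, Bool.false_eq_true]; omega

theorem count_find {V : List ℕ} (hV : V.Nodup) (τ : ℕ) (fs : List Fac) {l : ℕ} (hl : l ≠ 0) :
    (V.map fun b => if (find (parts τ fs) b).2.1 = l then 1 else 0).sum ≤ 2 := by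
  rw [sum_ite_eq]
  have h1 : (V.filter fun b => decide ((find (parts τ fs) b).2.1 = l)) ⊆
      ((parts τ fs).filter fun q => decide (q.2.1 = l)).map Prod.fst := by
    intro b hb
    rw [List.mem_filter, decide_eq_true_iff] at hb
    obtain ⟨h2, h3⟩ := find_mem (ps := parts τ fs) (b := b) (by rw [hb.2]; exact hl)
    rw [List.mem_map]
    exact ⟨_, List.mem_filter.2 ⟨h2, by simpa using hb.2⟩, h3⟩
  have h2 := ((hV.filter _).subperm h1).length_le
  rw [List.length_map] at h2
  exact h2.trans (parts_lab_count τ fs l)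

theorem lab_parity {τ : ℕ} {fs : List Fac} {b l : ℕ} (hl : l ≠ 0)
    (h : (find (parts τ fs) b).2.1 = l) : ∃ k, l = 2 * k + τ + 1 := by
  obtain ⟨h2, _⟩ := find_mem (ps := parts τ fs) (b := b) (by rw [h]; exact hl)
  unfold parts at h2
  rw [List.mem_flatMap] at h2
  obtain ⟨q, _, h3⟩ := h2
  simp only [List.mem_cons, List.not_mem_nil, or_false] at h3
  refine ⟨q.2, ?_⟩
  rw [← h]
  unfold parts
  rcases h3 with h3 | h3 <;> rw [h3]

theorem deg_net {V : List ℕ} (hV : V.Nodup) (N D n : ℕ) (fs fs' : List Fac) {l : ℕ} (hl : l ≠ 0) :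
    deg l (net N D n V (parts 0 fs) (parts 1 fs')) ≤ 2 := by
  have h1 : deg l (net N D n V (parts 0 fs) (parts 1 fs')) =
      (V.map fun b => if (find (parts 0 fs) b).2.1 = l then 1 else 0).sum +
      (V.map fun b => if (find (parts 1 fs') b).2.1 = l then 1 else 0).sum := by
    unfold deg net edge
    rw [List.map_map, ← List.sum_map_add]
    rfl
  rw [h1]
  have h2 := count_find hV 0 fs hl
  have h3 := count_find hV 1 fs' hl
  rcases Nat.even_or_odd' l with ⟨k, hk | hk⟩
  · have h4 : (V.map fun b => if (find (parts 0 fs) b).2.1 = l then 1 else 0).sum = 0 := by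
      refine List.sum_eq_zero fun x hx => ?_
      rw [List.mem_map] at hx
      obtain ⟨b, _, rfl⟩ := hx
      rw [if_neg]
      intro h
      obtain ⟨k', hk'⟩ := lab_parity hl h
      omega
    omega
  · have h4 : (V.map fun b => if (find (parts 1 fs') b).2.1 = l then 1 else 0).sum = 0 := by
      refine List.sum_eq_zero fun x hx => ?_
      rw [List.mem_map] at hx
      obtain ⟨b, _, rfl⟩ := hx
      rw [if_neg]
      intro h
      obtain ⟨k', hk'⟩ := lab_parity hl h
      omega
    omega

/-! ### Polynomials -/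

/-- The polynomial of a part at a state. -/
noncomputable def pp (N D n : ℕ) (q : Part) (r : ℕ) : MvPolynomial (ℕ × ℕ) ℚ :=
  bif q.2.2.1 then pz N q.1 (seq N D q.2.2.2) n r 0 else pz N q.1 (seq N D q.2.2.2) n 0 r

theorem pp_on (N D n : ℕ) (q : Part) (r : ℕ) : On {x | x.1 = q.1} (pp N D n q r) := by
  unfold pp
  cases q.2.2.1
  · exact (pz_on _ _ _ _ _ _).mono fun x hx => hx.1
  · exact (pz_on _ _ _ _ _ _).mono fun x hx => hx.1

theorem edge_entry {N D n : ℕ} {q q' : Part} (h : q.1 = q'.1) {r s : ℕ} (hr : r < N) (hs : s < N) :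
    ((entry (edge N D n q q').2.2 r s : ℤ) : ℚ) = ip (pp N D n q r) (pp N D n q' s) := by
  unfold edge pp
  have hN : 0 < N := by omega
  rw [entry_tab _ hr hs, ← h]
  cases q.2.2.1 <;> cases q'.2.2.1 <;> simp only [cond_false, cond_true]
  · exact zk_eq q.1 _ _ n hN hN hr hs
  · exact zk_eq q.1 _ _ n hN hs hr hN
  · exact zk_eq q.1 _ _ n hr hN hN hs
  · exact zk_eq q.1 _ _ n hr hs hN hN

theorem ip_prod {V : List ℕ} (hV : V.Nodup) (p q : ℕ → MvPolynomial (ℕ × ℕ) ℚ)
    (hp : ∀ b, On {x | x.1 = b} (p b)) (hq : ∀ b, On {x | x.1 = b} (q b)) :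
    ip (V.map p).prod (V.map q).prod = (V.map fun b => ip (p b) (q b)).prod := by
  have hon : ∀ (V : List ℕ) (p : ℕ → MvPolynomial (ℕ × ℕ) ℚ), (∀ b, On {x | x.1 = b} (p b)) →
      On {x | x.1 ∈ V} (V.map p).prod := by
    intro V p hp
    refine On.listprod _ fun f hf => ?_
    rw [List.mem_map] at hf
    obtain ⟨b, hb, rfl⟩ := hf
    refine (hp b).mono fun x hx => ?_
    rw [Set.mem_ofPred_eq] at hx ⊢
    rwa [hx]
  induction V with
  | nil => simp [ip_one_one]
  | cons b V ih =>
    rw [List.nodup_cons] at hV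
    have hdis : _root_.Disjoint {x : ℕ × ℕ | x.1 = b} {x | x.1 ∈ V} := by
      rw [Set.disjoint_left]
      intro x h1 h2
      rw [Set.mem_ofPred_eq] at h1 h2
      exact hV.1 (h1 ▸ h2)
    rw [List.map_cons, List.map_cons, List.map_cons, List.prod_cons, List.prod_cons,
      List.prod_cons, ip_mul hdis (hp b) (hq b) (hon V p hp) (hon V q hq), ih hV.2]

/-- The polynomial of a product at an assignment of the states. -/
noncomputable def TT (N D n : ℕ) (V : List ℕ) (ps : List Part) (α : ℕ → ℕ) :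
    MvPolynomial (ℕ × ℕ) ℚ :=
  (V.map fun b => pp N D n (find ps b) (α (find ps b).2.1)).prod

theorem W_net {N D n : ℕ} {V : List ℕ} (hV : V.Nodup) (ps ps' : List Part) {α : ℕ → ℕ}
    (hα : Good N α) : ((W (net N D n V ps ps') α : ℤ) : ℚ) =
      ip (TT N D n V ps α) (TT N D n V ps' α) := by
  unfold TT
  rw [ip_prod hV (fun b => pp N D n (find ps b) (α (find ps b).2.1))
    (fun b => pp N D n (find ps' b) (α (find ps' b).2.1))]
  · unfold W net
    rw [List.map_map, Int.cast_list_prod, List.map_map]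
    congr 1
    refine List.map_congr_left fun b _ => ?_
    exact edge_entry ((find_fst ps b).trans (find_fst ps' b).symm) (hα.2 _) (hα.2 _)
  · intro b
    have := pp_on N D n (find ps b) (α (find ps b).2.1)
    rwa [find_fst] at this
  · intro b
    have := pp_on N D n (find ps' b) (α (find ps' b).2.1)
    rwa [find_fst] at this

/-- The unscaled polynomial of a part at a state. -/
noncomputable def gq (w : ℕ) (q : Part) (r : ℕ) : MvPolynomial (ℕ × ℕ) ℚ :=
  if h : r < w + 1 then (bif q.2.2.1 then layers w q.1 q.2.2.2 ⟨r, h⟩ 0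
    else layers w q.1 q.2.2.2 0 ⟨r, h⟩) else 0

/-- The denominators divide `D` and the lists of layers have length at most `n`. -/
def OK (D n : ℕ) (q : Part) : Prop :=
  (∀ L ∈ q.2.2.2, ∀ p ∈ L, ∀ r ∈ p.2, ∀ z ∈ r, z.den ∣ D) ∧ q.2.2.2.length ≤ n

theorem pp_eq {w D n : ℕ} {q : Part} (h : OK D n q) {r : ℕ} (hr : r < w + 1) :
    pp (w + 1) D n q r = C ((D : ℚ) ^ n) * gq w q r := by
  unfold pp gq
  rw [dif_pos hr]
  cases q.2.2.1
  · simp only [cond_false]
    exact pz_layers h.1 q.1 h.2 0 ⟨r, hr⟩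
  · simp only [cond_true]
    exact pz_layers h.1 q.1 h.2 ⟨r, hr⟩ 0

theorem prod_eq_of_subset {V l : List ℕ} (hV : V.Nodup) (hl : l.Nodup) (h : l ⊆ V)
    (g : ℕ → MvPolynomial (ℕ × ℕ) ℚ) (hg : ∀ b ∈ V, b ∉ l → g b = 1) :
    (V.map g).prod = (l.map g).prod := by
  rw [← List.prod_toFinset g hV, ← List.prod_toFinset g hl]
  symm
  refine Finset.prod_subset ?_ ?_
  · intro b hb
    rw [List.mem_toFinset] at hb ⊢
    exact h hb
  · intro b hb hb'
    rw [List.mem_toFinset] at hb hb'
    exact hg b hb hb'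

/-- The polynomial of a factor at a state. -/
noncomputable def hf (w : ℕ) (f : Fac) (r : ℕ) : MvPolynomial (ℕ × ℕ) ℚ :=
  gq w (f.1, 0, false, f.2.2.1) r * gq w (f.2.1, 0, true, f.2.2.2) r

theorem parts_prod (w τ : ℕ) (α : ℕ → ℕ) (fs : List Fac) :
    ((parts τ fs).map fun q => gq w q (α q.2.1)).prod =
      (fs.zipIdx.map fun q => hf w q.1 (α (2 * q.2 + τ + 1))).prod := by
  have h3 : ∀ k, (((fs.zipIdx k).flatMap fun q => [((q.1.1, 2 * q.2 + τ + 1, false, q.1.2.2.1) : Part),
      (q.1.2.1, 2 * q.2 + τ + 1, true, q.1.2.2.2)]).map fun q => gq w q (α q.2.1)).prod =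
      ((fs.zipIdx k).map fun q => hf w q.1 (α (2 * q.2 + τ + 1))).prod := by
    induction fs with
    | nil => intro k; rfl
    | cons f fs ih =>
      intro k
      rw [List.zipIdx_cons, List.flatMap_cons, List.map_append, List.prod_append, ih,
        List.map_cons (l := fs.zipIdx _), List.prod_cons]
      congr 1
      simp only [List.map_cons, List.map_nil, List.prod_cons, List.prod_nil, mul_one]
      rfl
  exact h3 0

theorem TT_eq {w D n τ : ℕ} {V : List ℕ} {fs : List Fac} (hV : V.Nodup)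
    (hnd : (fs.flatMap fun p => [p.1, p.2.1]).Nodup) (hsub : (fs.flatMap fun p => [p.1, p.2.1]) ⊆ V)
    (hok : ∀ q ∈ parts τ fs, OK D n q) {α : ℕ → ℕ} (hα : Good (w + 1) α) :
    TT (w + 1) D n V (parts τ fs) α = C (((D : ℚ) ^ n) ^ V.length) *
      (fs.zipIdx.map fun q => hf w q.1 (α (2 * q.2 + τ + 1))).prod := by
  have hok0 : ∀ b, OK D n (find (parts τ fs) b) := by
    intro b
    rcases find_cases (parts τ fs) b with h | h
    · exact hok _ h
    · rw [h]
      exact ⟨fun L hL => by simp at hL, Nat.zero_le _⟩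
  have h1 : TT (w + 1) D n V (parts τ fs) α = C (((D : ℚ) ^ n) ^ V.length) *
      (V.map fun b => gq w (find (parts τ fs) b) (α (find (parts τ fs) b).2.1)).prod := by
    unfold TT
    rw [List.map_congr_left fun b _ => pp_eq (hok0 b) (hα.2 _), List.prod_map_mul]
    congr 1
    rw [List.map_const', List.prod_replicate]
    simp only [map_pow]
  rw [h1]
  congr 1
  rw [← parts_fst τ] at hnd hsub
  rw [prod_eq_of_subset hV hnd hsub]
  · rw [List.map_map]
    have h2 : (parts τ fs).map ((fun b => gq w (find (parts τ fs) b)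
        (α (find (parts τ fs) b).2.1)) ∘ Prod.fst) =
        (parts τ fs).map fun q => gq w q (α q.2.1) := by
      refine List.map_congr_left fun q hq => ?_
      rw [Function.comp_apply, find_eq hnd hq]
    rw [h2]
    exact parts_prod w τ α fs
  · intro b _ hb
    rw [find_none hb]
    unfold gq
    simp only [hα.1]
    rw [dif_pos (Nat.succ_pos w), cond_false]
    unfold layers
    simp

theorem sum_hf (w : ℕ) (f : Fac) : ∑ r ∈ range (w + 1), hf w f r = factor w f := by
  unfold factor
  rw [Finset.sum_range, Matrix.mul_apply]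
  refine Finset.sum_congr rfl fun r _ => ?_
  unfold hf gq
  rw [dif_pos r.2, dif_pos r.2, cond_false, cond_true]

/-- The unscaled polynomial of a product at an assignment of the states. -/
noncomputable def HH (w τ : ℕ) (fs : List Fac) (c : ℚ) (α : ℕ → ℕ) : MvPolynomial (ℕ × ℕ) ℚ :=
  C c * (fs.zipIdx.map fun q => hf w q.1 (α (2 * q.2 + τ + 1))).prod

theorem Sm_HH (w τ : ℕ) (fs : List Fac) (c : ℚ) (α : ℕ → ℕ) :
    SmG (w + 1) (labs τ fs) (HH w τ fs c) α = C c * (fs.map (factor w)).prod := by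
  unfold HH
  rw [SmG_mul_left]
  congr 1
  have h := SmG_prod (w + 1) (fs.zipIdx.map fun q => ((2 * q.2 + τ + 1, hf w q.1) :
    ℕ × (ℕ → MvPolynomial (ℕ × ℕ) ℚ))) (by
      rw [List.map_map]
      exact labs_nodup τ fs) α
  simp only [List.map_map] at h
  have h1 : (fs.zipIdx.map ((fun p : ℕ × (ℕ → MvPolynomial (ℕ × ℕ) ℚ) =>
      ∑ r ∈ range (w + 1), p.2 r) ∘ fun q => (2 * q.2 + τ + 1, hf w q.1))) =
      fs.map (factor w) := by
    have h2 : (fun p : ℕ × (ℕ → MvPolynomial (ℕ × ℕ) ℚ) =>
      ∑ r ∈ range (w + 1), p.2 r) ∘ (fun q : Fac × ℕ => (2 * q.2 + τ + 1, hf w q.1)) =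
        factor w ∘ Prod.fst := by
      funext q
      exact sum_hf w q.1
    rw [h2, ← List.map_map, List.zipIdx_map_fst]
  rw [h1] at h
  exact h

/-- The network computes the inner product. -/
theorem gr_eq {w D n : ℕ} {V : List ℕ} {fs fs' : List Fac} (hV : V.Nodup)
    (hnd : (fs.flatMap fun p => [p.1, p.2.1]).Nodup) (hsub : (fs.flatMap fun p => [p.1, p.2.1]) ⊆ V)
    (hok : ∀ q ∈ parts 0 fs, OK D n q)
    (hnd' : (fs'.flatMap fun p => [p.1, p.2.1]).Nodup)
    (hsub' : (fs'.flatMap fun p => [p.1, p.2.1]) ⊆ V)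
    (hok' : ∀ q ∈ parts 1 fs', OK D n q) :
    ((gr (w + 1) D n V fs fs' : ℤ) : ℚ) =
      ip (C (((D : ℚ) ^ n) ^ V.length) * (fs.map (factor w)).prod)
        (C (((D : ℚ) ^ n) ^ V.length) * (fs'.map (factor w)).prod) := by
  have hg : Good (w + 1) (fun _ => 0) := ⟨rfl, fun _ => Nat.succ_pos w⟩
  have hl0 : ∀ v ∈ labs 0 fs, v ≠ 0 := by
    intro v hv
    obtain ⟨k, hk⟩ := labs_mem hv
    omega
  have hl1 : ∀ v ∈ labs 1 fs', v ≠ 0 := by
    intro v hv
    obtain ⟨k, hk⟩ := labs_mem hv
    omega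
  have hl : ∀ v ∈ labs 0 fs ++ labs 1 fs', v ≠ 0 := by
    intro v hv
    rcases List.mem_append.1 hv with h | h
    · exact hl0 v h
    · exact hl1 v h
  set c : ℚ := ((D : ℚ) ^ n) ^ V.length with hc
  unfold gr contr
  rw [← Sm_W _ hl _ (fun w hw => deg_net hV _ _ _ _ _ hw) _ hg, Sm_eq_SmG]
  have h1 := SmG_hom (Int.castAddHom ℚ) (w + 1) (labs 0 fs ++ labs 1 fs')
    (W (net (w + 1) D n V (parts 0 fs) (parts 1 fs'))) (fun _ => 0)
  refine Eq.trans h1 ?_
  rw [SmG_congr _ hl _ (fun α => ip (HH w 0 fs c α) (HH w 1 fs' c α)) _ hg (by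
    intro β hβ _
    refine Eq.trans (W_net hV _ _ hβ) ?_
    rw [TT_eq hV hnd hsub hok hβ, TT_eq hV hnd' hsub' hok' hβ]
    rfl), SmG_append]
  have h2 : ∀ β, Good (w + 1) β →
      SmG (w + 1) (labs 0 fs) (fun α => ip (HH w 0 fs c α) (HH w 1 fs' c α)) β =
      ip (C c * (fs.map (factor w)).prod) (HH w 1 fs' c β) := by
    intro β hβ
    rw [← Sm_HH w 0 fs c β]
    have h3 := SmG_hom (ipL (HH w 1 fs' c β)) (w + 1) (labs 0 fs) (HH w 0 fs c) β
    refine Eq.trans ?_ h3.symm
    refine SmG_congr _ hl0 _ _ _ hβ fun α _ hαβ => ?_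
    have h4 : HH w 1 fs' c α = HH w 1 fs' c β := by
      unfold HH
      congr 2
      refine List.map_congr_left fun q _ => ?_
      rw [hαβ]
      intro hmem
      obtain ⟨k, hk⟩ := labs_mem hmem
      omega
    rw [h4]
    rfl
  rw [SmG_congr _ hl1 _ (fun β => ip (C c * (fs.map (factor w)).prod) (HH w 1 fs' c β)) _ hg
    (fun β hβ _ => h2 β hβ)]
  have h5 := SmG_hom (ipR (C c * (fs.map (factor w)).prod)) (w + 1) (labs 1 fs')
    (HH w 1 fs' c) (fun _ => 0)
  refine h5.symm.trans ?_
  rw [Sm_HH]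
  rfl

end Pool.Agent.NPC.H532.BM
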