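import Pool.Agent.H532R2.BlockDec

/-!
# The procedure runs in polynomial time
-/

namespace Pool.Agent.NPC.H532.BM

open Pool.Agent.H532R2 Pool.Agent.H532R2.BlockSum Pool.Agent.NPC.H532
  Pool.Agent.NPC.H532.RP Pool.Agent.NPC.H532.PM

/-- The layer has at most `b` coefficient matrices, with entries of bit length at most `b`. -/
def LB (A : ZLayer) (b : ℕ) : Prop := A.length ≤ b ∧ ∀ p ∈ A, MB p.2 b

theorem LB_sz (A : ZLayer) : LB A (sz A) := by
  refine ⟨(length_lt_sz A).le, fun p hp r hr z hz => ?_⟩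
  have h1 := MB_sz p.2 r hr z hz
  have h2 := sz_le_of_mem hp
  have h3 : sz p = sz p.1 + sz p.2 + 1 := by rw [← sz_pair]
  omega

theorem LB.mono {A : ZLayer} {b c : ℕ} (h : LB A b) (hbc : b ≤ c) : LB A c :=
  ⟨h.1.trans hbc, fun p hp r hr z hz => (h.2 p hp r hr z hz).trans hbc⟩

theorem kr_ib {N : ℕ} {A A' : ZLayer} {b : ℕ} (hA : LB A b) (hA' : LB A' b) (i j : ℕ) :
    ib (A.map fun p => (A'.map fun p' => bif decide (p.1 = p'.1) then
      entry p.2 (i / N) (j / N) * entry p'.2 (i % N) (j % N) else 0).sum).sum ≤ 4 * b := by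
  have h1 := ib_list_sum (A.map fun p => (A'.map fun p' => bif decide (p.1 = p'.1) then
      entry p.2 (i / N) (j / N) * entry p'.2 (i % N) (j % N) else 0).sum) (3 * b) (by
    intro z hz
    rw [List.mem_map] at hz
    obtain ⟨p, hp, rfl⟩ := hz
    have h2 := ib_list_sum (A'.map fun p' => bif decide (p.1 = p'.1) then
      entry p.2 (i / N) (j / N) * entry p'.2 (i % N) (j % N) else 0) (2 * b) (by
      intro z hz
      rw [List.mem_map] at hz
      obtain ⟨p', hp', rfl⟩ := hz
      cases decide (p.1 = p'.1)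
      · simp [ib_zero]
      · rw [cond_true]
        have h3 := ib_mul (entry p.2 (i / N) (j / N)) (entry p'.2 (i % N) (j % N))
        have h4 := ib_entry_le (hA.2 p hp) (i / N) (j / N)
        have h5 := ib_entry_le (hA'.2 p' hp') (i % N) (j % N)
        omega)
    rw [List.length_map] at h2
    have h6 := Poly.size_le_self A'.length
    have h7 := hA'.1
    omega)
  rw [List.length_map] at h1
  have h6 := Poly.size_le_self A.length
  have h7 := hA.1
  omega

theorem zk_bound {N b : ℕ} (A A' : ℕ → ZLayer) (hA : ∀ k, LB (A k) b) (hA' : ∀ k, LB (A' k) b) :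
    ∀ k, MB (zk N A A' k) (k * (4 * b + N * N) + 1) ∧
      sz (zk N A A' k) ≤ N * N * (N * N * (4 * (k * (4 * b + N * N) + 1) + 6) + 2) + 1
  | 0 => by
    have h : ∀ i < N * N, ∀ j < N * N, ib (bif decide (i = j) then 1 else 0) ≤ 1 := by
      intro i _ j _
      cases decide (i = j)
      · simp [ib_zero]
      · simp [ib_one]
    refine ⟨?_, ?_⟩
    · rw [zero_mul, zero_add]
      exact MB_tab h
    · rw [zero_mul, zero_add]
      exact sz_tab_le h
  | k + 1 => by
    have ih := (zk_bound (N := N) A A' hA hA' k).1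
    rw [zk_succ]
    have hkr : MB (kr N (A k) (A' k)) (4 * b) := MB_tab fun i _ j _ => kr_ib (hA k) (hA' k) i j
    have h : ∀ i < N * N, ∀ j < N * N, ib (((List.range (N * N)).map fun l =>
        entry (zk N A A' k) i l * entry (kr N (A k) (A' k)) l j).sum) ≤
          (k + 1) * (4 * b + N * N) + 1 := by
      intro i _ j _
      have h1 := MB_mmul (n := N * N) ih hkr i j
      have h2 := Poly.size_le_self (N * N)
      rw [add_mul, one_mul]
      omega
    exact ⟨MB_tab h, sz_tab_le h⟩

section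

variable {α : Type} [TEnc α]

/-- An entry of the transfer matrix. -/
def krE (N : ℕ) (A A' : ZLayer) (i j : ℕ) : ℤ :=
  (A.map fun p => (A'.map fun p' => bif decide (p.1 = p'.1) then
    entry p.2 (i / N) (j / N) * entry p'.2 (i % N) (j % N) else 0).sum).sum

theorem Poly_krE {n i j : α → ℕ} {A A' : α → ZLayer} (hn : Poly n) (hi : Poly i) (hj : Poly j)
    (hA : Poly A) (hA' : Poly A') : Poly (fun a => krE (n a) (A a) (A' a) (i a) (j a)) := by
  unfold krE
  refine Poly_sumZ ?_
  refine Poly.map (β := ℕ × Mat) (γ := ℤ)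
    (l := A) (F := fun x p => ((A' x).map fun p' => bif decide (p.1 = p'.1) then
    entry p.2 (i x / n x) (j x / n x) * entry p'.2 (i x % n x) (j x % n x) else 0).sum) hA ?_
  refine Poly_sumZ ?_
  refine Poly.map (α := α × ℕ × Mat) (β := ℕ × Mat) (γ := ℤ)
    (l := fun x => A' x.1) (F := fun x p' => bif decide (x.2.1 = p'.1) then
    entry x.2.2 (i x.1 / n x.1) (j x.1 / n x.1) * entry p'.2 (i x.1 % n x.1) (j x.1 % n x.1) else 0)
    (hA'.comp (Poly.fst Poly.id)) ?_
  have g1 : Poly (fun y : (α × ℕ × Mat) × ℕ × Mat => y.1.1) := Poly.fst (Poly.fst Poly.id)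
  have g2 : Poly (fun y : (α × ℕ × Mat) × ℕ × Mat => y.1.2) := Poly.snd (Poly.fst Poly.id)
  have g3 : Poly (fun y : (α × ℕ × Mat) × ℕ × Mat => y.2) := Poly.snd Poly.id
  have gn := hn.comp g1
  have gi := hi.comp g1
  have gj := hj.comp g1
  have e1 := Poly_entry (Poly.snd g2) (Poly.div gi gn) (Poly.div gj gn)
  have e2 := Poly_entry (Poly.snd g3) (Poly.mod gi gn) (Poly.mod gj gn)
  exact Poly.cond (Poly.decide_eq (Poly.fst g2) (Poly.fst g3)) (Poly_mulZ e1 e2) (Poly.const _)

theorem Poly_kr {n : α → ℕ} {A A' : α → ZLayer} (hn : UPoly n) (hA : Poly A) (hA' : Poly A') :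
    Poly (fun a => kr (n a) (A a) (A' a)) := by
  have h1 : Poly (fun p : (α × ℕ) × ℕ => p.1.1) := Poly.fst (Poly.fst Poly.id)
  have h2 : Poly (fun p : (α × ℕ) × ℕ => p.1.2) := Poly.snd (Poly.fst Poly.id)
  have h3 : Poly (fun p : (α × ℕ) × ℕ => p.2) := Poly.snd Poly.id
  exact Poly_tab (n := fun a => n a * n a) (f := fun a i j => krE (n a) (A a) (A' a) i j)
    (hn.mul hn) (Poly_krE (hn.toPoly.comp h1) h2 h3 (hA.comp h1) (hA'.comp h1))

theorem Poly_idm {n : α → ℕ} (hn : UPoly n) : Poly (fun a => idm (n a)) := by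
  unfold idm
  refine Poly_tab (f := fun a i j => bif decide (i = j) then 1 else 0) hn ?_
  exact Poly.cond (Poly.decide_eq (Poly.snd (Poly.fst Poly.id)) (Poly.snd Poly.id))
    (Poly.const _) (Poly.const _)

theorem Poly_zk {n m : α → ℕ} {l l' : α → List ZLayer} {d : α → ZLayer} (hn : UPoly n)
    (hm : UPoly m) (hl : Poly l) (hl' : Poly l') (hd : Poly d) :
    Poly (fun a => zk (n a) (fun k => (l a).getD k (d a)) (fun k => (l' a).getD k (d a)) (m a)) := by
  unfold zk
  let b : α → ℕ := fun a => sz (l a) + sz (l' a) + sz (d a)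
  have pb : PB b := ((PB.sz hl).add (PB.sz hl')).add (PB.sz hd)
  have pn : PB n := PB.of_upoly hn
  have pm : PB m := PB.of_upoly hm
  refine Poly_foldRange (σ := Mat) (n := m)
    (F := fun a Z k => mmul (n a * n a) Z (kr (n a) ((l a).getD k (d a)) ((l' a).getD k (d a))))
    hm (Poly_idm (hn.mul hn)) ?_
    (fun a => n a * n a * (n a * n a * (4 * (m a * (4 * b a + n a * n a) + 1) + 6) + 2) + 1) ?_ ?_
  · have h1 : Poly (fun p : α × Mat × ℕ => p.1) := Poly.fst Poly.id
    have h2 : Poly (fun p : α × Mat × ℕ => p.2.1) := Poly.fst (Poly.snd Poly.id)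
    have h3 : Poly (fun p : α × Mat × ℕ => p.2.2) := Poly.snd (Poly.snd Poly.id)
    exact Poly_mmul ((hn.mul hn).comp h1) h2 (Poly_kr (hn.comp h1)
      (Poly.getD (hl.comp h1) h3 (hd.comp h1)) (Poly.getD (hl'.comp h1) h3 (hd.comp h1)))
  · exact ((pn.mul pn).mul (((pn.mul pn).mul (((PB.const 4).mul ((pm.mul (((PB.const 4).mul pb).add
      (pn.mul pn))).add (PB.const 1))).add (PB.const 6))).add (PB.const 2))).add (PB.const 1)
  · intro a k hk
    have hLB : ∀ (l0 : List ZLayer), sz l0 ≤ b a → ∀ k, LB (l0.getD k (d a)) (b a) := by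
      intro l0 hl0 k
      rw [List.getD_eq_getElem?_getD]
      cases hx : l0[k]? with
      | none =>
        rw [Option.getD_none]
        exact (LB_sz (d a)).mono (Nat.le_add_left _ _)
      | some L =>
        rw [Option.getD_some]
        have h1 := sz_le_of_mem (List.mem_of_getElem? hx)
        exact (LB_sz L).mono (h1.le.trans hl0)
    have h1 := (zk_bound (N := n a) (b := b a) (fun k => (l a).getD k (d a))
      (fun k => (l' a).getD k (d a)) (hLB (l a) (by show sz (l a) ≤ sz (l a) + sz (l' a) + sz (d a); omega))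
      (hLB (l' a) (by show sz (l' a) ≤ sz (l a) + sz (l' a) + sz (d a); omega)) k).2
    refine h1.trans ?_
    gcongr

theorem Poly_conv {D : α → ℕ} {L : α → Layer} (hD : Poly D) (hL : Poly L) :
    Poly (fun a => conv (D a) (L a)) := by
  unfold conv
  refine Poly.map (β := ℕ × BlockSum.QMat) (γ := ℕ × Mat) (F := fun a p => (p.1, zmat (D a) p.2)) hL ?_
  exact Poly.pair (Poly.fst (Poly.snd Poly.id))
    (Poly_zmat (hD.comp (Poly.fst Poly.id)) (Poly.snd (Poly.snd Poly.id)))

theorem Poly_idZ {n D : α → ℕ} (hn : UPoly n) (hD : Poly D) :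
    Poly (fun a => idZ (n a) (D a)) := by
  unfold idZ
  refine Poly.cons (Poly.pair (Poly.const _) ?_) (Poly.const _)
  refine Poly_tab (f := fun a i j => bif decide (i = j) then ((D a : ℕ) : ℤ) else 0) hn ?_
  exact Poly.cond (Poly.decide_eq (Poly.snd (Poly.fst Poly.id)) (Poly.snd Poly.id))
    (Poly_ofNat (hD.comp (Poly.fst (Poly.fst Poly.id)))) (Poly.const _)

theorem Poly_edge {n D m : α → ℕ} {q q' : α → Part} (hn : UPoly n) (hD : Poly D) (hm : UPoly m)
    (hq : Poly q) (hq' : Poly q') : Poly (fun a => edge (n a) (D a) (m a) (q a) (q' a)) := by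
  unfold edge
  refine Poly.pair (Poly.fst (Poly.snd hq)) (Poly.pair (Poly.fst (Poly.snd hq')) ?_)
  refine Poly_tab (f := fun a r s =>
    entry (zk (n a) (seq (n a) (D a) (q a).2.2.2) (seq (n a) (D a) (q' a).2.2.2) (m a))
    ((bif (q a).2.2.1 then r else 0) * n a + (bif (q' a).2.2.1 then s else 0))
    ((bif (q a).2.2.1 then 0 else r) * n a + (bif (q' a).2.2.1 then 0 else s))) hn ?_
  have h1 : Poly (fun p : (α × ℕ) × ℕ => p.1.1) := Poly.fst (Poly.fst Poly.id)
  have h2 : Poly (fun p : (α × ℕ) × ℕ => p.1.2) := Poly.snd (Poly.fst Poly.id)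
  have h3 : Poly (fun p : (α × ℕ) × ℕ => p.2) := Poly.snd Poly.id
  have hz : Poly (fun a => zk (n a) (seq (n a) (D a) (q a).2.2.2)
      (seq (n a) (D a) (q' a).2.2.2) (m a)) := by
    refine Poly_zk (l := fun a => (q a).2.2.2.map (conv (D a)))
      (l' := fun a => (q' a).2.2.2.map (conv (D a))) (d := fun a => idZ (n a) (D a)) hn hm ?_ ?_
      (Poly_idZ hn hD)
    · exact Poly.map (β := Layer) (γ := ZLayer) (F := fun a L => conv (D a) L)
        (Poly.snd (Poly.snd (Poly.snd hq))) (Poly_conv (hD.comp (Poly.fst Poly.id))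
          (Poly.snd Poly.id))
    · exact Poly.map (β := Layer) (γ := ZLayer) (F := fun a L => conv (D a) L)
        (Poly.snd (Poly.snd (Poly.snd hq'))) (Poly_conv (hD.comp (Poly.fst Poly.id))
          (Poly.snd Poly.id))
  have hs : Poly (fun a => (q a).2.2.1) := Poly.fst (Poly.snd (Poly.snd hq))
  have hs' : Poly (fun a => (q' a).2.2.1) := Poly.fst (Poly.snd (Poly.snd hq'))
  have hN : Poly (fun p : (α × ℕ) × ℕ => n p.1.1) := hn.toPoly.comp h1
  exact Poly_entry (hz.comp h1)
    (Poly.add (Poly.mul (Poly.cond (hs.comp h1) h2 (Poly.const _)) hN)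
      (Poly.cond (hs'.comp h1) h3 (Poly.const _)))
    (Poly.add (Poly.mul (Poly.cond (hs.comp h1) (Poly.const _) h2) hN)
      (Poly.cond (hs'.comp h1) (Poly.const _) h3))

theorem Poly_parts (τ : ℕ) {fs : α → List Fac} (hf : Poly fs) :
    Poly (fun a => parts τ (fs a)) := by
  unfold parts
  refine Poly.flatMap (β := Fac × ℕ) (γ := Part) (l := fun a => (fs a).zipIdx)
    (F := fun _ q => [(q.1.1, 2 * q.2 + τ + 1, false, q.1.2.2.1),
    (q.1.2.1, 2 * q.2 + τ + 1, true, q.1.2.2.2)]) (Poly.zipIdx hf) ?_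
  have h1 : Poly (fun p : α × Fac × ℕ => p.2.1) := Poly.fst (Poly.snd Poly.id)
  have h2 : Poly (fun p : α × Fac × ℕ => 2 * p.2.2 + τ + 1) :=
    Poly.succ (Poly.add (Poly.mul (Poly.const _) (Poly.snd (Poly.snd Poly.id))) (Poly.const _))
  exact Poly.cons (Poly.pair (Poly.fst h1) (Poly.pair h2 (Poly.pair (Poly.const _)
    (Poly.fst (Poly.snd (Poly.snd h1)))))) (Poly.cons (Poly.pair (Poly.fst (Poly.snd h1))
    (Poly.pair h2 (Poly.pair (Poly.const _) (Poly.snd (Poly.snd (Poly.snd h1))))))
    (Poly.const _))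

theorem Poly_headD' {β : Type} [TEnc β] {l : α → List β} {d : α → β} (hl : Poly l) (hd : Poly d) :
    Poly (fun a => (l a).headD (d a)) := by
  refine (Poly.listCases (l := l) (g := d) (h := fun _ q _ => q) hl hd
    (Poly.fst (Poly.snd Poly.id))).congr fun a => ?_
  cases l a <;> rfl

theorem Poly_find {ps : α → List Part} {b : α → ℕ} (hp : Poly ps) (hb : Poly b) :
    Poly (fun a => find (ps a) (b a)) := by
  unfold find
  have h1 : Poly (fun a => (ps a).filter fun q => decide (q.1 = b a)) :=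
    Poly.filter (p := fun a q => decide (q.1 = b a)) hp
      (Poly.decide_eq (Poly.fst (Poly.snd Poly.id)) (hb.comp (Poly.fst Poly.id)))
  have h2 : Poly (fun a => ((b a, 0, false, []) : Part)) := Poly.pair hb (Poly.const _)
  exact Poly_headD' h1 h2

theorem Poly_net {n D m : α → ℕ} {V : α → List ℕ} {ps ps' : α → List Part} (hn : UPoly n)
    (hD : Poly D) (hm : UPoly m) (hV : Poly V) (hp : Poly ps) (hp' : Poly ps') :
    Poly (fun a => net (n a) (D a) (m a) (V a) (ps a) (ps' a)) := by
  unfold net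
  refine Poly.map (β := ℕ) (γ := Edge)
    (F := fun a b => edge (n a) (D a) (m a) (find (ps a) b) (find (ps' a) b)) hV ?_
  have h1 : Poly (fun p : α × ℕ => p.1) := Poly.fst Poly.id
  have h2 : Poly (fun p : α × ℕ => p.2) := Poly.snd Poly.id
  exact Poly_edge (hn.comp h1) (hD.comp h1) (hm.comp h1) (Poly_find (hp.comp h1) h2)
    (Poly_find (hp'.comp h1) h2)

theorem Poly_labs (τ : ℕ) {fs : α → List Fac} (hf : Poly fs) :
    Poly (fun a => labs τ (fs a)) := by
  unfold labs
  refine Poly.map (β := Fac × ℕ) (γ := ℕ) (l := fun a => (fs a).zipIdx)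
    (F := fun _ q => 2 * q.2 + τ + 1) (Poly.zipIdx hf) ?_
  exact Poly.succ (Poly.add (Poly.mul (Poly.const _) (Poly.snd (Poly.snd Poly.id)))
    (Poly.const _))

theorem Poly_gr {n D m : α → ℕ} {V : α → List ℕ} {fs fs' : α → List Fac} (hn : UPoly n)
    (hD : Poly D) (hm : UPoly m) (hV : Poly V) (hf : Poly fs) (hf' : Poly fs') :
    Poly (fun a => gr (n a) (D a) (m a) (V a) (fs a) (fs' a)) := by
  unfold gr
  exact Poly_contr hn (Poly.append (Poly_labs 0 hf) (Poly_labs 1 hf'))
    (Poly_net hn hD hm hV (Poly_parts 0 hf) (Poly_parts 1 hf'))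

theorem Poly_term {n D m : α → ℕ} {V : α → List ℕ} {t t' : α → Summand} (hn : UPoly n)
    (hD : Poly D) (hm : UPoly m) (hV : Poly V) (ht : Poly t) (ht' : Poly t') :
    Poly (fun a => zq (D a) (t a).1 * zq (D a) (t' a).1 *
      gr (n a) (D a) (m a) (V a) (t a).2 (t' a).2) := by
  have e1 := Poly_zq hD (Poly.fst ht)
  have e2 := Poly_zq hD (Poly.fst ht')
  have e3 := Poly_gr hn hD hm hV (Poly.snd ht) (Poly.snd ht')
  exact Poly_mulZ (Poly_mulZ e1 e2) e3

/-- A term of the norm. -/
def termB (N D n : ℕ) (V : List ℕ) (t t' : Summand) : ℤ :=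
  zq D t.1 * zq D t'.1 * gr N D n V t.2 t'.2

/-- A row of the norm. -/
def rowB (N D n : ℕ) (V : List ℕ) (J : List Summand) (t : Summand) : ℤ :=
  (J.map fun t' => termB N D n V t t').sum

theorem Poly_rowB {n D m : α → ℕ} {V : α → List ℕ} {J : α → List Summand} {t : α → Summand}
    (hn : UPoly n) (hD : Poly D) (hm : UPoly m) (hV : Poly V) (hJ : Poly J) (ht : Poly t) :
    Poly (fun a => rowB (n a) (D a) (m a) (V a) (J a) (t a)) := by
  unfold rowB
  refine Poly_sumZ ?_
  refine Poly.map (β := Summand) (γ := ℤ)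
    (F := fun a t' => termB (n a) (D a) (m a) (V a) (t a) t') hJ ?_
  have h1 : Poly (fun p : α × Summand => p.1) := Poly.fst Poly.id
  have h2 : Poly (fun p : α × Summand => p.2) := Poly.snd Poly.id
  exact Poly_term (hn.comp h1) (hD.comp h1) (hm.comp h1) (hV.comp h1) (ht.comp h1) h2

theorem Poly_totalB {n D m : α → ℕ} {V : α → List ℕ} {J : α → List Summand} (hn : UPoly n)
    (hD : Poly D) (hm : UPoly m) (hV : Poly V) (hJ : Poly J) :
    Poly (fun a => totalB (n a) (D a) (m a) (V a) (J a)) := by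
  have h1 : Poly (fun p : α × Summand => p.1) := Poly.fst Poly.id
  have h2 : Poly (fun p : α × Summand => p.2) := Poly.snd Poly.id
  exact Poly_sumZ (Poly.map (β := Summand) (γ := ℤ)
    (F := fun a t => rowB (n a) (D a) (m a) (V a) (J a) t) hJ
    (Poly_rowB (hn.comp h1) (hD.comp h1) (hm.comp h1) (hV.comp h1) (hJ.comp h1) h2))

theorem Poly_allL {J : α → List Summand} (hJ : Poly J) : Poly (fun a => allL (J a)) := by
  unfold allL
  refine Poly.flatMap (β := Summand) (γ := Layer)
    (F := fun _ t => t.2.flatMap fun p => p.2.2.1 ++ p.2.2.2) hJ ?_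
  refine Poly.flatMap (α := α × Summand) (β := Fac) (γ := Layer) (l := fun p => p.2.2)
    (F := fun _ p => p.2.2.1 ++ p.2.2.2) (Poly.snd (Poly.snd Poly.id)) ?_
  have h1 : Poly (fun p : (α × Summand) × Fac => p.2) := Poly.snd Poly.id
  exact Poly.append (Poly.fst (Poly.snd (Poly.snd h1))) (Poly.snd (Poly.snd (Poly.snd h1)))

theorem Poly_densB {J : α → List Summand} (hJ : Poly J) : Poly (fun a => densB (J a)) := by
  unfold densB
  refine Poly.map (β := ℚ) (γ := ℕ)
    (l := fun a => ((J a).map fun t => t.1) ++ (allL (J a)).flatMap fun L =>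
      L.flatMap fun a => a.2.flatten) (F := fun _ q => q.den) ?_ (Poly_den (Poly.snd Poly.id))
  refine Poly.append ?_ ?_
  · exact Poly.map (β := Summand) (γ := ℚ) (F := fun _ t => t.1)
      hJ (Poly.fst (Poly.snd Poly.id))
  · refine Poly.flatMap (β := Layer) (γ := ℚ) (l := fun a => allL (J a))
      (F := fun _ L => L.flatMap fun a => a.2.flatten) (Poly_allL hJ) ?_
    refine Poly.flatMap (α := α × Layer) (β := ℕ × BlockSum.QMat) (γ := ℚ) (l := fun p => p.2)
      (F := fun _ a => a.2.flatten) (Poly.snd Poly.id) ?_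
    exact Poly.flatten (Poly.snd (Poly.snd Poly.id))

theorem dd_sz (l : List ℕ) : sz (dd l) ≤ sz l := by
  induction l with
  | nil => exact le_rfl
  | cons a l ih =>
    have h : dd (a :: l) = bif decide (a ∈ dd l) then dd l else a :: dd l := rfl
    rw [h]
    cases decide (a ∈ dd l)
    · rw [cond_false, sz_list_cons, sz_list_cons]; omega
    · rw [cond_true, sz_list_cons]; omega

theorem Poly_dd {l : α → List ℕ} (hl : Poly l) : Poly (fun a => dd (l a)) := by
  unfold dd
  obtain ⟨r, hr⟩ := hl.sz_le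
  refine Poly.foldr (β := ℕ) (σ := List ℕ)
    (F := fun _ a s => bif decide (a ∈ s) then s else a :: s) hl (Poly.const _) ?_ r ?_
  · have h1 : Poly (fun p : α × ℕ × List ℕ => p.2.1) := Poly.fst (Poly.snd Poly.id)
    have h2 : Poly (fun p : α × ℕ × List ℕ => p.2.2) := Poly.snd (Poly.snd Poly.id)
    exact Poly.cond (Poly.decide_mem h1 h2) h2 (Poly.cons h1 h2)
  · intro a k _
    exact (dd_sz ((l a).drop k)).trans ((Poly.sz_drop_le (l a) k).trans (hr a))

end

theorem Poly_decB : Poly decB := by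
  unfold decB
  have h1 : Poly (fun I : Input => I.1) := Poly.fst Poly.id
  have h2 : Poly (fun I : Input => I.2) := Poly.snd Poly.id
  refine Poly.and ?_ ?_
  · refine Poly.all (α := Input) (β := Summand) (l := fun I => I.2)
      (p := fun _ t => nodupb (t.2.flatMap fun p => [p.1, p.2.1])) h2 ?_
    refine Poly_nodupb ?_
    refine Poly.flatMap (α := Input × Summand) (β := Fac) (γ := ℕ) (l := fun p => p.2.2)
      (F := fun _ p => [p.1, p.2.1]) (Poly.snd (Poly.snd Poly.id)) ?_
    have h3 : Poly (fun p : (Input × Summand) × Fac => p.2) := Poly.snd Poly.id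
    exact Poly.cons (Poly.fst h3) (Poly.cons (Poly.fst (Poly.snd h3)) (Poly.const _))
  · refine Poly.decide_eq (Poly_totalB ((UPoly.length h1).add (UPoly.const 1))
      (Poly_prodN (Poly_densB h2)) (UPoly.length (Poly_allL h2)) ?_ h2) (Poly.const _)
    unfold blocks
    refine Poly_dd ?_
    refine Poly.flatMap (α := Input) (β := Summand) (γ := ℕ) (l := fun I => I.2)
      (F := fun _ t => t.2.flatMap fun p => [p.1, p.2.1]) h2 ?_
    refine Poly.flatMap (α := Input × Summand) (β := Fac) (γ := ℕ) (l := fun p => p.2.2)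
      (F := fun _ p => [p.1, p.2.1]) (Poly.snd (Poly.snd Poly.id)) ?_
    have h3 : Poly (fun p : (Input × Summand) × Fac => p.2) := Poly.snd Poly.id
    exact Poly.cons (Poly.fst h3) (Poly.cons (Poly.fst (Poly.snd h3)) (Poly.const _))

open Classical in
/-- Identity testing for sums of products of variable-disjoint two-block read-once branching
programs takes polynomial time. -/
theorem block_result : Nonempty (Turing.TM2ComputableInPolyTime
    (bits : Input → List Bool) (bits : Bool → List Bool)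
    (fun I => decide (Disjoint I ∧ value I = 0))) := by
  have h : (fun I : Input => decide (Disjoint I ∧ value I = 0)) = decB := by
    funext I
    rw [Bool.eq_iff_iff, decB_eq, decide_eq_true_iff]
  rw [h]
  exact Poly.toTM Poly_decB

end Pool.Agent.NPC.H532.BM
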