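import Pool.Agent.H532R2.IntPoly

/-!
# Polynomially bounded quantities
-/

namespace Pool.Agent.NPC.H532

variable {α β γ σ : Type} [TEnc α] [TEnc β] [TEnc γ] [TEnc σ]

/-- The quantity `f` is bounded by a polynomial in the input size. -/
def PB (f : α → ℕ) : Prop := ∃ q : Polynomial ℕ, ∀ a, f a ≤ q.eval (sz a)

namespace PB

theorem mono {f g : α → ℕ} (hg : PB g) (h : ∀ a, f a ≤ g a) : PB f := by
  obtain ⟨q, hq⟩ := hg
  exact ⟨q, fun a => (h a).trans (hq a)⟩

theorem const (c : ℕ) : PB (fun _ : α => c) := ⟨Polynomial.C c, fun a => by simp⟩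

theorem add {f g : α → ℕ} (hf : PB f) (hg : PB g) : PB (fun a => f a + g a) := by
  obtain ⟨q, hq⟩ := hf
  obtain ⟨r, hr⟩ := hg
  refine ⟨q + r, fun a => ?_⟩
  rw [Polynomial.eval_add]
  exact Nat.add_le_add (hq a) (hr a)

theorem mul {f g : α → ℕ} (hf : PB f) (hg : PB g) : PB (fun a => f a * g a) := by
  obtain ⟨q, hq⟩ := hf
  obtain ⟨r, hr⟩ := hg
  refine ⟨q * r, fun a => ?_⟩
  rw [Polynomial.eval_mul]
  exact Nat.mul_le_mul (hq a) (hr a)

theorem max {f g : α → ℕ} (hf : PB f) (hg : PB g) : PB (fun a => Max.max (f a) (g a)) :=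
  (add hf hg).mono fun a => by omega

theorem sz {f : α → β} (hf : Poly f) : PB (fun a => sz (f a)) := hf.sz_le

theorem of_upoly {n : α → ℕ} (hn : UPoly n) : PB n := by
  obtain ⟨q, hq⟩ := Poly.sz_le hn
  refine ⟨q, fun a => le_trans ?_ (hq a)⟩
  have := length_lt_sz (List.replicate (n a) ())
  simp at this
  omega

theorem length {l : α → List β} (hl : Poly l) : PB (fun a => (l a).length) :=
  (sz hl).mono fun a => (length_lt_sz (l a)).le

theorem size {n : α → ℕ} (hn : PB n) : PB (fun a => (n a).size) :=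
  hn.mono fun a => Poly.size_le_self (n a)

end PB

/-- Left folds with polynomially bounded intermediate results. -/
theorem Poly_foldl {l : α → List β} {s : α → σ} {F : α → σ → β → σ} (hl : Poly l) (hs : Poly s)
    (hF : Poly (fun p : α × σ × β => F p.1 p.2.1 p.2.2)) (B : α → ℕ) (hB : PB B)
    (hq : ∀ a, ∀ k ≤ (l a).length, sz (((l a).take k).foldl (F a) (s a)) ≤ B a) :
    Poly (fun a => (l a).foldl (F a) (s a)) := by
  obtain ⟨q, hq'⟩ := hB
  exact Poly.foldl hl hs hF q fun a k hk => (hq a k hk).trans (hq' a)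

/-- Folds over `List.range`. -/
theorem Poly_foldRange {n : α → ℕ} {s : α → σ} {F : α → σ → ℕ → σ} (hn : UPoly n) (hs : Poly s)
    (hF : Poly (fun p : α × σ × ℕ => F p.1 p.2.1 p.2.2)) (B : α → ℕ) (hB : PB B)
    (hq : ∀ a, ∀ k ≤ n a, sz ((List.range k).foldl (F a) (s a)) ≤ B a) :
    Poly (fun a => (List.range (n a)).foldl (F a) (s a)) := by
  refine Poly_foldl hn.range hs hF B hB fun a k hk => ?_
  rw [List.length_range] at hk
  have : (List.range (n a)).take k = List.range k := by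
    rw [List.take_range, min_eq_left hk]
  rw [this]
  exact hq a k hk

theorem sz_list_le {l : List β} {B : ℕ} (h : ∀ a ∈ l, sz a ≤ B) :
    sz l ≤ l.length * (B + 1) + 1 := sz_le_length_mul l B h

end Pool.Agent.NPC.H532
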