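import Pool.Agent.H532R2.PairMain

/-!
# The procedure runs in polynomial time
-/

namespace Pool.Agent.NPC.H532.PM

open Pool.Agent.H532R2.PairSum Pool.Agent.NPC.H532 Pool.Agent.NPC.H532.RP

/-- The largest bit length of an entry. -/
def mb (A : Mat) : ℕ := (A.flatten.map ib).foldr max 0

theorem foldr_max_le {l : List ℕ} {b : ℕ} (h : ∀ x ∈ l, x ≤ b) : l.foldr max 0 ≤ b := by
  induction l with
  | nil => simp
  | cons a l ih =>
    rw [List.foldr_cons]
    exact max_le (h a (by simp)) (ih fun x hx => h x (List.mem_cons_of_mem _ hx))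

theorem le_foldr_max {l : List ℕ} {x : ℕ} (h : x ∈ l) : x ≤ l.foldr max 0 := by
  induction l with
  | nil => simp at h
  | cons a l ih =>
    rw [List.foldr_cons]
    rcases List.mem_cons.1 h with rfl | h
    · exact le_max_left _ _
    · exact (ih h).trans (le_max_right _ _)

theorem MB_mb (A : Mat) : MB A (mb A) := fun r hr z hz =>
  le_foldr_max (List.mem_map.2 ⟨z, List.mem_flatten.2 ⟨r, hr, hz⟩, rfl⟩)

theorem mb_le {A : Mat} {b : ℕ} (h : MB A b) : mb A ≤ b := by
  refine foldr_max_le fun x hx => ?_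
  rw [List.mem_map] at hx
  obtain ⟨z, hz, rfl⟩ := hx
  rw [List.mem_flatten] at hz
  obtain ⟨r, hr, hz⟩ := hz
  exact h r hr z hz

theorem mb_le_sz (A : Mat) : mb A ≤ sz A := mb_le (MB_sz A)

theorem ib_entry (A : Mat) (i j : ℕ) : ib (entry A i j) ≤ mb A := ib_entry_le (MB_mb A) i j

/-- The potential of a network. -/
def pot (c : ℕ) (E : List Edge) : ℕ := (E.map fun e => mb e.2.2 + c).sum

theorem pot_cons (c : ℕ) (e : Edge) (E : List Edge) : pot c (e :: E) = mb e.2.2 + c + pot c E := by
  simp [pot]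

theorem pot_filter (c : ℕ) (E : List Edge) (p : Edge → Bool) :
    pot c (E.filter p) + pot c (E.filter fun e => !(p e)) = pot c E := by
  induction E with
  | nil => simp [pot]
  | cons e E ih =>
    by_cases h : p e = true
    · simp only [List.filter_cons, h, if_true, Bool.not_true, Bool.false_eq_true, if_false,
        pot_cons]
      omega
    · simp only [Bool.not_eq_true] at h
      simp only [List.filter_cons, h, Bool.not_false, if_true, Bool.false_eq_true, if_false,
        pot_cons]
      omega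

theorem len_filter (E : List Edge) (p : Edge → Bool) :
    (E.filter p).length + (E.filter fun e => !(p e)).length = E.length := by
  induction E with
  | nil => simp
  | cons e E ih =>
    by_cases h : p e = true
    · simp only [List.filter_cons, h, if_true, Bool.not_true, Bool.false_eq_true, if_false,
        List.length_cons]
      omega
    · simp only [Bool.not_eq_true] at h
      simp only [List.filter_cons, h, Bool.not_false, if_true, Bool.false_eq_true, if_false,
        List.length_cons]
      omega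

theorem mb_tab_le {n : ℕ} {f : ℕ → ℕ → ℤ} {b : ℕ} (h : ∀ i < n, ∀ j < n, ib (f i j) ≤ b) :
    mb (tab n f) ≤ b := mb_le (MB_tab h)

theorem mb_orient (N v : ℕ) (e : Edge) : mb (orient N v e).2 ≤ mb e.2.2 := by
  unfold orient
  cases decide (e.2.1 = v)
  · exact mb_tab_le fun i _ j _ => ib_entry _ _ _
  · exact mb_tab_le fun i _ j _ => ib_entry _ _ _

theorem leg_orient (N v : ℕ) (e : Edge) : (orient N v e).1 = e.1 ∨ (orient N v e).1 = e.2.1 := by
  unfold orient
  cases decide (e.2.1 = v)
  · exact Or.inr rfl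
  · exact Or.inl rfl

theorem ib_rowsum (N : ℕ) (A : Mat) (i : ℕ) :
    ib (((List.range N).map fun k => entry A i k).sum) ≤ mb A + N.size := by
  have := ib_list_sum ((List.range N).map fun k => entry A i k) (mb A) (by
    intro z hz
    simp only [List.mem_map, List.mem_range] at hz
    obtain ⟨k, _, rfl⟩ := hz
    exact ib_entry _ _ _)
  simpa using this

theorem ib_mtr (N : ℕ) (A : Mat) : ib (mtr N A) ≤ mb A + N.size := by
  have := ib_list_sum ((List.range N).map fun i => entry A i i) (mb A) (by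
    intro z hz
    simp only [List.mem_map, List.mem_range] at hz
    obtain ⟨k, _, rfl⟩ := hz
    exact ib_entry _ _ _)
  simpa [mtr] using this

theorem mb_scal (z : ℤ) : mb (scal z).2.2 = ib z := by
  simp [mb, scal]

theorem sz_scal (z : ℤ) : sz (scal z).2.2 ≤ 4 * ib z + 9 := by
  have := sz_int_le z
  simp only [scal, sz_list_cons, sz_list_nil]
  omega

theorem sz_zero : sz (0 : ℕ) = 1 := by
  have h1 := sz_nat_le 0
  have h2 := sz_pos (0 : ℕ)
  simp only [Nat.size_zero] at h1
  omega

/-- The edge that is created has small potential, small legs and a small matrix. -/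
theorem merge_bound {N v c b B : ℕ} (hN : N.size ≤ c) (l : List Edge)
    (hl : ∀ e ∈ l, sz e.1 ≤ B ∧ sz e.2.1 ≤ B) (hB : 1 ≤ B) (hb : pot c l + 2 * c ≤ b) :
    mb (merge N v l).2.2 + c ≤ pot c l + 2 * c ∧ sz (merge N v l).1 ≤ B ∧
      sz (merge N v l).2.1 ≤ B ∧
      sz (merge N v l).2.2 ≤ N * (N * (4 * b + 6) + 2) + 1 + (4 * b + 9) := by
  have hor : ∀ e ∈ l, sz (orient N v e).1 ≤ B := by
    intro e he
    rcases leg_orient N v e with h | h
    · rw [h]; exact (hl e he).1
    · rw [h]; exact (hl e he).2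
  match l, hl, hb, hor with
  | [], _, hb, _ =>
    have h1 := mb_scal (N : ℤ)
    have h2 := sz_scal (N : ℤ)
    rw [ib_natCast] at h1 h2
    simp only [merge]
    simp only [pot, List.map_nil, List.sum_nil] at hb
    have h3 : (scal (N : ℤ)).1 = 0 := rfl
    have h4 : (scal (N : ℤ)).2.1 = 0 := rfl
    rw [h1, h3, h4, sz_zero]
    refine ⟨by omega, hB, hB, by omega⟩
  | [e], hl, hb, hor =>
    rw [pot_cons] at hb ⊢
    simp only [pot, List.map_nil, List.sum_nil] at hb ⊢
    have key : ∀ (bb : Bool) (m : Edge), m = (bif bb then scal (mtr N e.2.2)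
        else ((orient N v e).1, 0, tab N fun i _ =>
          ((List.range N).map fun k => entry (orient N v e).2 i k).sum)) →
        mb m.2.2 + c ≤ mb e.2.2 + c + 0 + 2 * c ∧ sz m.1 ≤ B ∧ sz m.2.1 ≤ B ∧
          sz m.2.2 ≤ N * (N * (4 * b + 6) + 2) + 1 + (4 * b + 9) := by
      intro bb m hm
      cases bb
      · have h1 : ∀ i < N, ∀ j < N, ib (((List.range N).map fun k =>
            entry (orient N v e).2 i k).sum) ≤ mb e.2.2 + c := by
          intro i _ _ _
          have h2 := ib_rowsum N (orient N v e).2 i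
          have h3 := mb_orient N v e
          omega
        have h4 := mb_tab_le h1
        have h5 := sz_tab_le h1
        rw [cond_false] at hm
        subst hm
        refine ⟨by simp only; omega, hor e (by simp), by simp only [sz_zero]; exact hB,
          h5.trans ?_⟩
        have h6 : N * (N * (4 * (mb e.2.2 + c) + 6) + 2) ≤ N * (N * (4 * b + 6) + 2) := by
          gcongr; omega
        omega
      · have h1 := mb_scal (mtr N e.2.2)
        have h2 := sz_scal (mtr N e.2.2)
        have h3 := ib_mtr N e.2.2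
        rw [cond_true] at hm
        subst hm
        have h4 : (scal (mtr N e.2.2)).1 = 0 := rfl
        have h5 : (scal (mtr N e.2.2)).2.1 = 0 := rfl
        rw [h1, h4, h5, sz_zero]
        refine ⟨by omega, hB, hB, by omega⟩
    exact key _ _ rfl
  | e :: e' :: l', hl, hb, hor =>
    rw [pot_cons, pot_cons] at hb ⊢
    unfold merge mmul
    have h1 : ∀ i < N, ∀ j < N, ib (((List.range N).map fun k =>
        entry (orient N v e).2 i k * entry (mtrans N (orient N v e').2) k j).sum) ≤
          mb e.2.2 + mb e'.2.2 + c := by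
      intro i _ j _
      have h2 : MB (mtrans N (orient N v e').2) (mb e'.2.2) := by
        refine MB_tab fun i _ j _ => ?_
        exact (ib_entry _ _ _).trans (mb_orient N v e')
      have h3 : MB (orient N v e).2 (mb e.2.2) := fun r hr z hz =>
        (MB_mb (orient N v e).2 r hr z hz).trans (mb_orient N v e)
      have h4 := MB_mmul (n := N) h3 h2 i j
      omega
    have h4 := mb_tab_le h1
    have h5 := sz_tab_le h1
    refine ⟨by simp only; omega, hor e (by simp), hor e' (by simp), h5.trans ?_⟩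
    have h6 : N * (N * (4 * (mb e.2.2 + mb e'.2.2 + c) + 6) + 2) ≤
        N * (N * (4 * b + 6) + 2) := by
      gcongr; omega
    omega

theorem elim_bound {N v c b B M : ℕ} (hN : N.size ≤ c) (E : List Edge)
    (hE : ∀ e ∈ E, sz e.1 ≤ B ∧ sz e.2.1 ≤ B ∧ sz e.2.2 ≤ M) (hB : 1 ≤ B)
    (hb : pot c E + 2 * c ≤ b) (hM : N * (N * (4 * b + 6) + 2) + 1 + (4 * b + 9) ≤ M) :
    (∀ e ∈ elim N v E, sz e.1 ≤ B ∧ sz e.2.1 ≤ B ∧ sz e.2.2 ≤ M) ∧
      pot c (elim N v E) ≤ pot c E + 2 * c ∧ (elim N v E).length ≤ E.length + 1 := by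
  have h1 := pot_filter c E (touches v)
  have h2 := len_filter E (touches v)
  obtain ⟨h3, h4, h5, h6⟩ := merge_bound (v := v) hN (E.filter (touches v)) (b := b) (B := B)
    (fun e he => ⟨(hE e (List.mem_of_mem_filter he)).1, (hE e (List.mem_of_mem_filter he)).2.1⟩) hB
    (by omega)
  unfold elim
  refine ⟨?_, ?_, ?_⟩
  · intro e he
    rcases List.mem_cons.1 he with rfl | he
    · exact ⟨h4, h5, h6.trans hM⟩
    · exact hE e (List.mem_of_mem_filter he)
  · rw [pot_cons]; omega
  · rw [List.length_cons]; omega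

theorem foldl_bound {N c b B M : ℕ} (hN : N.size ≤ c) (hB : 1 ≤ B)
    (hM : N * (N * (4 * b + 6) + 2) + 1 + (4 * b + 9) ≤ M) : ∀ (V : List ℕ) (E : List Edge),
    (∀ e ∈ E, sz e.1 ≤ B ∧ sz e.2.1 ≤ B ∧ sz e.2.2 ≤ M) → pot c E + V.length * (2 * c) ≤ b →
    (∀ e ∈ V.foldl (fun E v => elim N v E) E, sz e.1 ≤ B ∧ sz e.2.1 ≤ B ∧ sz e.2.2 ≤ M) ∧
      (V.foldl (fun E v => elim N v E) E).length ≤ E.length + V.length
  | [], E, hE, _ => ⟨hE, by simp⟩
  | v :: V, E, hE, hb => by
    rw [List.length_cons, add_mul, one_mul] at hb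
    obtain ⟨h1, h2, h3⟩ := elim_bound (v := v) hN E hE hB (b := b) (by omega) hM
    obtain ⟨h4, h5⟩ := foldl_bound hN hB hM V (elim N v E) h1 (by omega)
    rw [List.foldl_cons, List.length_cons]
    exact ⟨h4, by omega⟩

theorem pot_le (c : ℕ) (E : List Edge) : pot c E ≤ (c + 1) * sz E := by
  induction E with
  | nil => simp [pot]
  | cons e E ih =>
    rw [pot_cons, sz_list_cons]
    have h1 := mb_le_sz e.2.2
    have h2 : sz e = sz e.1 + (sz e.2.1 + sz e.2.2 + 1) + 1 := by
      rw [← sz_pair, ← sz_pair]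
    calc mb e.2.2 + c + pot c E ≤ (sz e + c) + (c + 1) * sz E := by omega
      _ ≤ (c + 1) * (sz e + sz E + 1) := by
        have : sz e ≤ (c + 1) * sz e := Nat.le_mul_of_pos_left _ (by omega)
        rw [mul_add, mul_add]
        omega

section

variable {α : Type} [TEnc α]

theorem Poly_mtrans {n : α → ℕ} {A : α → Mat} (hn : UPoly n) (hA : Poly A) :
    Poly (fun a => mtrans (n a) (A a)) := by
  unfold mtrans
  refine Poly_tab (f := fun a i j => entry (A a) j i) hn ?_
  exact Poly_entry (hA.comp (Poly.fst (Poly.fst Poly.id))) (Poly.snd Poly.id)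
    (Poly.snd (Poly.fst Poly.id))

theorem Poly_orient {n v : α → ℕ} {e : α → Edge} (hn : UPoly n) (hv : Poly v) (he : Poly e) :
    Poly (fun a => orient (n a) (v a) (e a)) := by
  unfold orient
  refine Poly.cond (Poly.decide_eq (Poly.fst (Poly.snd he)) hv) ?_ ?_
  · refine Poly.pair (Poly.fst he) ?_
    refine Poly_tab (f := fun a i j => entry (e a).2.2 i j) hn ?_
    exact Poly_entry (A := fun p : (α × ℕ) × ℕ => (e p.1.1).2.2)
      ((Poly.snd (Poly.snd he)).comp (Poly.fst (Poly.fst Poly.id)))
      (Poly.snd (Poly.fst Poly.id)) (Poly.snd Poly.id)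
  · exact Poly.pair (Poly.fst (Poly.snd he)) (Poly_mtrans hn (Poly.snd (Poly.snd he)))

theorem Poly_scal {z : α → ℤ} (hz : Poly z) : Poly (fun a => scal (z a)) := by
  unfold scal
  exact Poly.pair (Poly.const _) (Poly.pair (Poly.const _)
    (Poly.cons (Poly.cons hz (Poly.const _)) (Poly.const _)))

theorem Poly_merge {n v : α → ℕ} {l : α → List Edge} (hn : UPoly n) (hv : Poly v) (hl : Poly l) :
    Poly (fun a => merge (n a) (v a) (l a)) := by
  -- the function in terms of case distinctions
  have h1 : Poly (fun p : α × Edge × List Edge => p.1) := Poly.fst Poly.id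
  have h2 : Poly (fun p : α × Edge × List Edge => p.2.1) := Poly.fst (Poly.snd Poly.id)
  have h3 : Poly (fun p : α × Edge × List Edge => p.2.2) := Poly.snd (Poly.snd Poly.id)
  have hs : Poly (fun p : α × Edge × List Edge => bif decide (p.2.1.1 = v p.1) &&
      decide (p.2.1.2.1 = v p.1) then scal (mtr (n p.1) p.2.1.2.2)
      else ((orient (n p.1) (v p.1) p.2.1).1, 0, tab (n p.1) fun i _ =>
        ((List.range (n p.1)).map fun k => entry (orient (n p.1) (v p.1) p.2.1).2 i k).sum)) := by
    refine Poly.cond (Poly.and (Poly.decide_eq (Poly.fst h2) (hv.comp h1))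
      (Poly.decide_eq (Poly.fst (Poly.snd h2)) (hv.comp h1))) ?_ ?_
    · exact Poly_scal (Poly_mtr (hn.comp h1) (Poly.snd (Poly.snd h2)))
    · have ho := Poly_orient (hn.comp h1) (hv.comp h1) h2
      refine Poly.pair (Poly.fst ho) (Poly.pair (Poly.const _) ?_)
      refine Poly_tab (α := α × Edge × List Edge) (n := fun p => n p.1)
        (f := fun p i _ => ((List.range (n p.1)).map fun k =>
          entry (orient (n p.1) (v p.1) p.2.1).2 i k).sum) (hn.comp h1) ?_
      refine Poly_sumZ ?_
      refine Poly.map (α := ((α × Edge × List Edge) × ℕ) × ℕ)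
        (l := fun q => List.range (n q.1.1.1))
        (F := fun q k => entry (orient (n q.1.1.1) (v q.1.1.1) q.1.1.2.1).2 q.1.2 k)
        (hn.comp (h1.comp (Poly.fst (Poly.fst Poly.id)))).range ?_
      exact Poly_entry ((Poly.snd ho).comp (Poly.fst (Poly.fst (Poly.fst Poly.id))))
        (Poly.snd (Poly.fst (Poly.fst Poly.id))) (Poly.snd Poly.id)
  have hd : Poly (fun q : (α × Edge × List Edge) × Edge × List Edge =>
      (((orient (n q.1.1) (v q.1.1) q.1.2.1).1, (orient (n q.1.1) (v q.1.1) q.2.1).1,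
      mmul (n q.1.1) (orient (n q.1.1) (v q.1.1) q.1.2.1).2
        (mtrans (n q.1.1) (orient (n q.1.1) (v q.1.1) q.2.1).2)) : Edge)) := by
    have hn' := hn.comp (h1.comp (Poly.fst (Poly.id (α := (α × Edge × List Edge) × Edge × List Edge))))
    have hv' := hv.comp (h1.comp (Poly.fst (Poly.id (α := (α × Edge × List Edge) × Edge × List Edge))))
    have ho := Poly_orient hn' hv' (h2.comp (Poly.fst Poly.id))
    have ho' := Poly_orient (α := (α × Edge × List Edge) × Edge × List Edge)
      (e := fun q => q.2.1) hn' hv' (Poly.fst (Poly.snd Poly.id))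
    exact Poly.pair (Poly.fst ho) (Poly.pair (Poly.fst ho')
      (Poly_mmul hn' (Poly.snd ho) (Poly_mtrans hn' (Poly.snd ho'))))
  have hc := Poly.listCases (α := α × Edge × List Edge) (β := Edge) (γ := Edge)
    (l := fun p => p.2.2)
    (g := fun p : α × Edge × List Edge => bif decide (p.2.1.1 = v p.1) &&
      decide (p.2.1.2.1 = v p.1) then scal (mtr (n p.1) p.2.1.2.2)
      else ((orient (n p.1) (v p.1) p.2.1).1, 0, tab (n p.1) fun i _ =>
        ((List.range (n p.1)).map fun k => entry (orient (n p.1) (v p.1) p.2.1).2 i k).sum))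
    (h := fun p e' _ => ((orient (n p.1) (v p.1) p.2.1).1, (orient (n p.1) (v p.1) e').1,
      mmul (n p.1) (orient (n p.1) (v p.1) p.2.1).2
        (mtrans (n p.1) (orient (n p.1) (v p.1) e').2))) h3 hs hd
  have hf := Poly.listCases (α := α) (β := Edge) (γ := Edge) (l := l)
    (g := fun a => scal ((n a : ℕ) : ℤ))
    (h := fun a e r => merge (n a) (v a) (e :: r)) hl (Poly_scal (Poly_ofNat hn.toPoly)) ?_
  · refine hf.congr fun a => ?_
    rcases l a with _ | ⟨e, r⟩ <;> rfl
  · refine hc.congr fun p => ?_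
    obtain ⟨a, e, r⟩ := p
    rcases r with _ | ⟨e', r⟩ <;> rfl

theorem Poly_touches {v : α → ℕ} {e : α → Edge} (hv : Poly v) (he : Poly e) :
    Poly (fun a => touches (v a) (e a)) := by
  unfold touches
  exact Poly.or (Poly.decide_eq (Poly.fst he) hv) (Poly.decide_eq (Poly.fst (Poly.snd he)) hv)

theorem Poly_elim {n v : α → ℕ} {E : α → List Edge} (hn : UPoly n) (hv : Poly v) (hE : Poly E) :
    Poly (fun a => elim (n a) (v a) (E a)) := by
  unfold elim
  have h1 : Poly (fun p : α × Edge => touches (v p.1) p.2) :=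
    Poly_touches (hv.comp (Poly.fst Poly.id)) (Poly.snd Poly.id)
  refine Poly.cons (Poly_merge hn hv ?_) ?_
  · exact Poly.filter (p := fun a e => touches (v a) e) hE h1
  · exact Poly.filter (p := fun a e => !(touches (v a) e)) hE (Poly.not h1)

theorem Poly_contr {n : α → ℕ} {V : α → List ℕ} {E : α → List Edge} (hn : UPoly n) (hV : Poly V)
    (hE : Poly E) : Poly (fun a => contr (n a) (V a) (E a)) := by
  have hf : Poly (fun a => (V a).foldl (fun E v => elim (n a) v E) (E a)) := by
    -- the bounds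
    let c : α → ℕ := fun a => n a
    let b : α → ℕ := fun a => (n a + 1) * sz (E a) + (V a).length * (2 * n a)
    let M : α → ℕ := fun a => sz (E a) + (n a * (n a * (4 * b a + 6) + 2) + 1 + (4 * b a + 9))
    have pn : PB n := PB.of_upoly hn
    have pE : PB (fun a => sz (E a)) := PB.sz hE
    have pb : PB b := ((pn.add (PB.const 1)).mul pE).add ((PB.length hV).mul ((PB.const 2).mul pn))
    have pM : PB M := pE.add (((pn.mul ((pn.mul (((PB.const 4).mul pb).add (PB.const 6))).add
      (PB.const 2))).add (PB.const 1)).add (((PB.const 4).mul pb).add (PB.const 9)))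
    refine Poly_foldl (σ := List Edge) (F := fun a E v => elim (n a) v E) hV hE
      (Poly_elim (hn.comp (Poly.fst Poly.id)) (Poly.snd (Poly.snd Poly.id))
        (Poly.fst (Poly.snd Poly.id)))
      (fun a => ((E a).length + (V a).length) * (sz (E a) + sz (E a) + M a + 2 + 1) + 1) ?_ ?_
    · exact (((PB.length hE).add (PB.length hV)).mul ((((pE.add pE).add pM).add (PB.const 2)).add
        (PB.const 1))).add (PB.const 1)
    · intro a k hk
      have hmem : ∀ e ∈ E a, sz e.1 ≤ sz (E a) ∧ sz e.2.1 ≤ sz (E a) ∧ sz e.2.2 ≤ M a := by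
        intro e he
        have h1 := sz_le_of_mem he
        have h2 : sz e = sz e.1 + (sz e.2.1 + sz e.2.2 + 1) + 1 := by
          rw [← sz_pair, ← sz_pair]
        have h3 : sz (E a) ≤ M a := Nat.le_add_right _ _
        refine ⟨by omega, by omega, by omega⟩
      have hlen : ((V a).take k).length ≤ (V a).length := by simp
      obtain ⟨h1, h2⟩ := foldl_bound (N := n a) (c := n a) (b := b a) (B := sz (E a)) (M := M a)
        (Poly.size_le_self _) (sz_pos _) (Nat.le_add_left _ _) ((V a).take k) (E a) hmem (by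
          have h3 := pot_le (n a) (E a)
          have h4 : ((V a).take k).length * (2 * n a) ≤ (V a).length * (2 * n a) :=
            Nat.mul_le_mul_right _ hlen
          exact Nat.add_le_add h3 h4)
      refine (sz_list_le (B := sz (E a) + sz (E a) + M a + 2) ?_).trans ?_
      · intro e he
        obtain ⟨h3, h4, h5⟩ := h1 e he
        have h2 : sz e = sz e.1 + (sz e.2.1 + sz e.2.2 + 1) + 1 := by
          rw [← sz_pair, ← sz_pair]
        omega
      · have h3 : (((V a).take k).foldl (fun E v => elim (n a) v E) (E a)).length ≤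
            (E a).length + (V a).length := by omega
        exact Nat.add_le_add_right (Nat.mul_le_mul_right _ h3) 1
  unfold contr W
  refine Poly_prodZ (Poly.map (β := Edge) (γ := ℤ) (F := fun _ e => entry e.2.2 0 0) hf ?_)
  exact Poly_entry (Poly.snd (Poly.snd (Poly.snd Poly.id))) (Poly.const _) (Poly.const _)

theorem Poly_vm {n D : α → ℕ} {G : α → QMat} (hn : UPoly n) (hD : Poly D) (hG : Poly G) :
    Poly (fun a => vm (n a) (D a) (G a)) := by
  unfold vm
  have hv : Poly (fun a => vand (n a)) := by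
    unfold vand
    refine Poly_tab (f := fun a x i => pw (n a) (x : ℤ) i) hn ?_
    exact Poly_pw (α := (α × ℕ) × ℕ) (m := fun p => n p.1.1) (x := fun p => ((p.1.2 : ℕ) : ℤ))
      (hn.comp (Poly.fst (Poly.fst Poly.id))) (Poly_ofNat (Poly.snd (Poly.fst Poly.id)))
      (Poly.snd Poly.id)
  exact Poly_mmul hn (Poly_mmul hn hv (Poly_zmat hD hG)) (Poly_mtrans hn hv)

theorem Poly_edges {n D : α → ℕ} {t : α → Summand} (hn : UPoly n) (hD : Poly D) (ht : Poly t) :
    Poly (fun a => edges (n a) (D a) (t a)) := by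
  unfold edges
  refine Poly.map (β := ℕ × ℕ × QMat) (γ := Edge)
    (F := fun a p => (p.1 + 1, p.2.1 + 1, vm (n a) (D a) p.2.2)) (Poly.snd ht) ?_
  have h1 : Poly (fun p : α × ℕ × ℕ × QMat => p.2) := Poly.snd Poly.id
  exact Poly.pair (Poly.succ (Poly.fst h1)) (Poly.pair (Poly.succ (Poly.fst (Poly.snd h1)))
    (Poly_vm (hn.comp (Poly.fst Poly.id)) (hD.comp (Poly.fst Poly.id)) (Poly.snd (Poly.snd h1))))

theorem Poly_coef {L D : α → ℕ} {t : α → Summand} (hL : UPoly L) (hD : Poly D) (ht : Poly t) :
    Poly (fun a => coef (L a) (D a) (t a)) := by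
  unfold coef
  exact Poly_mulZ (Poly_zq hD (Poly.fst ht)) (Poly_pw hL (Poly_ofNat hD)
    (Poly.sub hL.toPoly (Poly.length (Poly.snd ht))))

theorem Poly_total {n L D : α → ℕ} {V : α → List ℕ} {I : α → Input} (hn : UPoly n) (hL : UPoly L)
    (hD : Poly D) (hV : Poly V) (hI : Poly I) :
    Poly (fun a => total (n a) (L a) (D a) (V a) (I a)) := by
  unfold total
  refine Poly_sumZ (Poly.map (β := Summand) (γ := ℤ) (F := fun a t => ((I a).map fun t' =>
    coef (L a) (D a) t * coef (L a) (D a) t' *
    contr (n a) (V a) (edges (n a) (D a) t ++ edges (n a) (D a) t')).sum) hI ?_)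
  refine Poly_sumZ (Poly.map (α := α × Summand) (β := Summand) (γ := ℤ)
    (l := fun p => I p.1) (F := fun p t' =>
    coef (L p.1) (D p.1) p.2 * coef (L p.1) (D p.1) t' *
    contr (n p.1) (V p.1) (edges (n p.1) (D p.1) p.2 ++ edges (n p.1) (D p.1) t'))
    (hI.comp (Poly.fst Poly.id)) ?_)
  have h1 : Poly (fun p : (α × Summand) × Summand => p.1.1) := Poly.fst (Poly.fst Poly.id)
  have h2 : Poly (fun p : (α × Summand) × Summand => p.1.2) := Poly.snd (Poly.fst Poly.id)
  have h3 : Poly (fun p : (α × Summand) × Summand => p.2) := Poly.snd Poly.id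
  exact Poly_mulZ (Poly_mulZ (Poly_coef (hL.comp h1) (hD.comp h1) h2)
    (Poly_coef (hL.comp h1) (hD.comp h1) h3)) (Poly_contr (hn.comp h1) (hV.comp h1)
    (Poly.append (Poly_edges (hn.comp h1) (hD.comp h1) h2)
      (Poly_edges (hn.comp h1) (hD.comp h1) h3)))

theorem Poly_nodupb {l : α → List ℕ} (hl : Poly l) : Poly (fun a => nodupb (l a)) := by
  unfold nodupb
  refine Poly.all (β := ℕ)
    (p := fun a x => decide (((l a).filter fun y => decide (y = x)).length ≤ 1)) hl ?_
  refine Poly.decide_le (Poly.length ?_) (Poly.const _)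
  exact Poly.filter (α := α × ℕ) (l := fun p => l p.1) (p := fun p y => decide (y = p.2))
    (hl.comp (Poly.fst Poly.id)) (Poly.decide_eq (Poly.snd Poly.id) (Poly.snd (Poly.fst Poly.id)))

end

theorem Poly_allE : Poly allE := by
  unfold allE
  refine Poly.flatMap (α := Input) (β := Summand) (γ := ℚ) (l := fun I => I)
    (F := fun _ t => t.2.flatMap fun p => p.2.2.flatMap fun r => 0 :: r) Poly.id ?_
  refine Poly.flatMap (α := Input × Summand) (β := ℕ × ℕ × QMat) (γ := ℚ) (l := fun p => p.2.2)
    (F := fun _ p => p.2.2.flatMap fun r => 0 :: r) (Poly.snd (Poly.snd Poly.id)) ?_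
  refine Poly.flatMap (α := (Input × Summand) × ℕ × ℕ × QMat) (β := List ℚ) (γ := ℚ)
    (l := fun p => p.2.2.2) (F := fun _ r => 0 :: r) (Poly.snd (Poly.snd (Poly.snd Poly.id))) ?_
  exact Poly.cons (Poly.const _) (Poly.snd Poly.id)

theorem UPoly_Nb : UPoly Nb := (UPoly.length Poly_allE).add (UPoly.const 1)

theorem UPoly_Lb : UPoly Lb := by
  unfold Lb
  refine UPoly.length ?_
  exact Poly.flatMap (α := Input) (β := Summand) (γ := ℕ × ℕ × QMat) (l := fun I => I)
    (F := fun _ t => t.2) Poly.id (Poly.snd (Poly.snd Poly.id))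

theorem Poly_dens : Poly dens := by
  unfold dens
  refine Poly.map (α := Input) (β := ℚ) (γ := ℕ)
    (l := fun I => (I.map fun t => t.1) ++ allE I) (F := fun _ q => q.den) ?_
    (Poly_den (Poly.snd Poly.id))
  refine Poly.append ?_ Poly_allE
  exact Poly.map (α := Input) (β := Summand) (γ := ℚ) (l := fun I => I) (F := fun _ t => t.1)
    Poly.id (Poly.fst (Poly.snd Poly.id))

theorem Poly_legs : Poly legs := by
  unfold legs
  refine Poly.flatMap (α := Input) (β := Summand) (γ := ℕ) (l := fun I => I)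
    (F := fun _ t => t.2.flatMap fun p => [p.1 + 1, p.2.1 + 1]) Poly.id ?_
  refine Poly.flatMap (α := Input × Summand) (β := ℕ × ℕ × QMat) (γ := ℕ) (l := fun p => p.2.2)
    (F := fun _ p => [p.1 + 1, p.2.1 + 1]) (Poly.snd (Poly.snd Poly.id)) ?_
  have h1 : Poly (fun p : (Input × Summand) × ℕ × ℕ × QMat => p.2) := Poly.snd Poly.id
  exact Poly.cons (Poly.succ (Poly.fst h1)) (Poly.cons (Poly.succ (Poly.fst (Poly.snd h1)))
    (Poly.const _))

theorem Poly_dec : Poly dec := by
  unfold dec
  refine Poly.and ?_ ?_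
  · refine Poly.all (α := Input) (β := Summand) (l := fun I => I)
      (p := fun _ t => nodupb (t.2.flatMap fun p => [p.1, p.2.1])) Poly.id ?_
    refine Poly_nodupb ?_
    refine Poly.flatMap (α := Input × Summand) (β := ℕ × ℕ × QMat) (γ := ℕ) (l := fun p => p.2.2)
      (F := fun _ p => [p.1, p.2.1]) (Poly.snd (Poly.snd Poly.id)) ?_
    have h1 : Poly (fun p : (Input × Summand) × ℕ × ℕ × QMat => p.2) := Poly.snd Poly.id
    exact Poly.cons (Poly.fst h1) (Poly.cons (Poly.fst (Poly.snd h1)) (Poly.const _))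
  · exact Poly.decide_eq (Poly_total UPoly_Nb UPoly_Lb (Poly_prodN Poly_dens) Poly_legs Poly.id)
      (Poly.const _)

end Pool.Agent.NPC.H532.PM
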