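import Pool.Agent.H532R2.CopyMath
import Pool.Agent.H532R2.RatPoly
import Pool.Agent.H532R2.PairPoly

/-!
# The decision procedure for sums of copies
-/

namespace Pool.Agent.NPC.H532.CP

open Finset MvPolynomial Pool.Agent.H532R2 Pool.Agent.H532R2.Copies Pool.Agent.NPC.H532
  Pool.Agent.NPC.H532.RP

/-- The inner product of two rows. -/
def zdot (A B : Mat) (v : ℕ) : ℤ :=
  ((List.range (A.getD v []).length).map fun k => entry A v k * entry B v k).sum

/-- A sum gate. -/
def addS (m D : ℕ) (p q : ℕ × ℤ) : ℕ × ℤ :=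
  bif decide (max p.1 q.1 ≤ m) then (max p.1 q.1,
    pw m (D : ℤ) (max p.1 q.1 - p.1) * p.2 + pw m (D : ℤ) (max p.1 q.1 - q.1) * q.2)
  else (m + 1, 0)

/-- A product gate. -/
def mulS (m : ℕ) (p q : ℕ × ℤ) : ℕ × ℤ :=
  bif decide (p.1 + q.1 ≤ m) then (p.1 + q.1, p.2 * q.2) else (m + 1, 0)

/-- A gate. -/
def stp (m D : ℕ) (A B : Mat) (vals : List (ℕ × ℤ)) (g : Gate) : ℕ × ℤ :=
  match g with
  | .inl x => (match x with
    | .inl v => (1, (D : ℤ) * zdot A B v)
    | .inr q => (1, zq D q))
  | .inr x => (match x with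
    | .inl p => addS m D (vals.getD p.1 (1, 0)) (vals.getD p.2 (1, 0))
    | .inr p => mulS m (vals.getD p.1 (1, 0)) (vals.getD p.2 (1, 0)))

/-- The results of all gates. -/
def runZ (m D : ℕ) (A B : Mat) (K : List Gate) : List (ℕ × ℤ) :=
  K.foldl (fun vals g => stp m D A B vals g :: vals) []

/-- The result of the circuit. -/
def outZ (m D : ℕ) (A B : Mat) (K : List Gate) : ℤ := ((runZ m D A B K).headD (1, 0)).2

/-- The Gram sum. -/
def totZ (m D : ℕ) (K : List Gate) (S : List (ℚ × List (List ℚ))) : ℤ :=
  (S.map fun t => (S.map fun t' => zq D t.1 * zq D t'.1 *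
    outZ m D (zmat D t.2) (zmat D t'.2) K).sum).sum

/-- The constants of a gate. -/
def gconst (g : Gate) : List ℚ :=
  match g with
  | .inl x => (match x with
    | .inl _ => []
    | .inr q => [q])
  | .inr _ => []

/-- All denominators. -/
def densC (I : Input) : List ℕ :=
  ((I.2.1.flatMap gconst) ++ (I.2.2.flatMap fun t => t.1 :: t.2.flatten)).map fun q => q.den

/-- The decision procedure. -/
def decC (I : Input) : Bool := decide (totZ I.1.length (densC I).prod I.2.1 I.2.2 = 0)

/-! ### Correctness -/

theorem run_append {R : Type*} [CommRing R] [Algebra ℚ R] (y : ℕ → R) (K : List Gate) (g : Gate) :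
    run y (K ++ [g]) = step y (run y K) g :: run y K := by
  unfold run
  rw [List.foldl_append, List.foldl_cons, List.foldl_nil]

theorem degs_append (K : List Gate) (g : Gate) :
    degs (K ++ [g]) = degStep (degs K) g :: degs K := by
  unfold degs
  rw [List.foldl_append, List.foldl_cons, List.foldl_nil]

theorem runZ_append (m D : ℕ) (A B : Mat) (K : List Gate) (g : Gate) :
    runZ m D A B (K ++ [g]) = stp m D A B (runZ m D A B K) g :: runZ m D A B K := by
  unfold runZ
  rw [List.foldl_append, List.foldl_cons, List.foldl_nil]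

theorem run_map {R R' : Type*} [CommRing R] [Algebra ℚ R] [CommRing R'] [Algebra ℚ R']
    (φ : R →ₐ[ℚ] R') (y : ℕ → R) (K : List Gate) :
    run (fun v => φ (y v)) K = (run y K).map φ := by
  induction K using List.reverseRecOn with
  | nil => rfl
  | append_singleton K g ih =>
    rw [run_append, run_append, ih, List.map_cons]
    congr 1
    have hd : ∀ a, ((run y K).map φ).getD a 0 = φ ((run y K).getD a 0) := by
      intro a
      rw [List.getD_eq_getElem?_getD, List.getD_eq_getElem?_getD, List.getElem?_map]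
      cases (run y K)[a]? <;> simp
    rcases g with (v | q) | (p | p)
    · rfl
    · simp only [step, AlgHom.commutes]
    · simp only [step, hd, map_add]
    · simp only [step, hd, map_mul]

theorem output_eq {R : Type*} [CommRing R] [Algebra ℚ R] (y : ℕ → R) (K : List Gate) :
    output y K = aeval y (poly K) := by
  unfold poly output
  have h := run_map (aeval y : MvPolynomial ℕ ℚ →ₐ[ℚ] R) X K
  have h2 : (fun v => (aeval y : MvPolynomial ℕ ℚ →ₐ[ℚ] R) (X v)) = y := by
    funext v
    exact aeval_X y v
  rw [h2] at h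
  rw [h]
  cases run (X : ℕ → MvPolynomial ℕ ℚ) K with
  | nil => simp
  | cons a l => rfl

theorem value_eq (I : Input) : value I = total I.2.2 (poly I.2.1) := by
  unfold value total
  congr 1
  exact List.map_congr_left fun t _ => by rw [output_eq]

theorem degs_pos (K : List Gate) : ∀ d ∈ degs K, 1 ≤ d := by
  induction K using List.reverseRecOn with
  | nil => simp [degs]
  | append_singleton K g ih =>
    rw [degs_append]
    have hd : ∀ a, 1 ≤ (degs K).getD a 1 := by
      intro a
      rw [List.getD_eq_getElem?_getD]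
      cases h : (degs K)[a]? with
      | none => simp
      | some d => exact ih d (List.mem_of_getElem? h)
    intro d hdm
    rcases List.mem_cons.1 hdm with rfl | hdm
    · rcases g with (v | q) | (p | p)
      · exact le_rfl
      · exact le_rfl
      · exact (hd p.1).trans (le_max_left _ _)
      · exact (hd p.1).trans (Nat.le_add_right _ _)
    · exact ih d hdm

/-- The procedure computes scaled results. -/
theorem runZ_spec {m D : ℕ} (A B : Mat) (K : List Gate)
    (hK : ∀ g ∈ K, ∀ q ∈ gconst g, q.den ∣ D) (hm : ∀ d ∈ degs K, d ≤ m) (a : ℕ) :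
    ((runZ m D A B K).getD a (1, 0)).1 = (degs K).getD a 1 ∧
    ((((runZ m D A B K).getD a (1, 0)).2 : ℤ) : ℚ) =
      (D : ℚ) ^ ((degs K).getD a 1) * (run (fun v => ((zdot A B v : ℤ) : ℚ)) K).getD a 0 := by
  induction K using List.reverseRecOn generalizing a with
  | nil => simp [runZ, degs, run]
  | append_singleton K g ih =>
    have ih' := ih (fun g hg => hK g (List.mem_append_left _ hg)) (fun d hd => hm d (by
      rw [degs_append]; exact List.mem_cons_of_mem _ hd))
    rw [runZ_append, degs_append, run_append]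
    cases a with
    | succ a => simpa using ih' a
    | zero =>
      simp only [List.getD_cons_zero]
      have hdm : degStep (degs K) g ≤ m := hm _ (by rw [degs_append]; simp)
      rcases g with (v | q) | (p | p)
      · refine ⟨rfl, ?_⟩
        simp only [stp, degStep, step]
        push_cast
        ring
      · have hq : q.den ∣ D := hK (.inl (.inr q)) (by simp) q (by simp [gconst])
        refine ⟨rfl, ?_⟩
        simp only [stp, degStep, step]
        rw [zq_cast hq]
        simp
      · obtain ⟨h1, h2⟩ := ih' p.1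
        obtain ⟨h3, h4⟩ := ih' p.2
        simp only [degStep] at hdm
        simp only [stp, degStep, step, addS]
        rw [h1, h3, decide_eq_true hdm, cond_true]
        refine ⟨rfl, ?_⟩
        rw [pw_eq ((Nat.sub_le _ _).trans hdm), pw_eq ((Nat.sub_le _ _).trans hdm), Int.cast_add,
          Int.cast_mul, Int.cast_mul, h2, h4, Int.cast_pow, Int.cast_pow, Int.cast_natCast,
          ← mul_assoc, ← pow_add, ← mul_assoc, ← pow_add, Nat.sub_add_cancel (le_max_left _ _),
          Nat.sub_add_cancel (le_max_right _ _), mul_add]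
      · obtain ⟨h1, h2⟩ := ih' p.1
        obtain ⟨h3, h4⟩ := ih' p.2
        simp only [degStep] at hdm
        simp only [stp, degStep, step, mulS]
        rw [h1, h3, decide_eq_true hdm, cond_true]
        refine ⟨rfl, ?_⟩
        rw [Int.cast_mul, h2, h4, pow_add]
        ring

theorem outZ_spec {m D : ℕ} (A B : Mat) (K : List Gate)
    (hK : ∀ g ∈ K, ∀ q ∈ gconst g, q.den ∣ D) (hm : ∀ d ∈ degs K, d ≤ m) :
    ((outZ m D A B K : ℤ) : ℚ) = (D : ℚ) ^ ((degs K).headD 1) *
      aeval (fun v => ((zdot A B v : ℤ) : ℚ)) (poly K) := by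
  have h := (runZ_spec A B K hK hm 0).2
  rw [← output_eq]
  unfold outZ output
  have e1 : ∀ (l : List (ℕ × ℤ)), l.getD 0 (1, 0) = l.headD (1, 0) := by
    intro l; cases l <;> rfl
  have e2 : ∀ (l : List ℕ), l.getD 0 1 = l.headD 1 := by
    intro l; cases l <;> rfl
  have e3 : ∀ (l : List ℚ), l.getD 0 0 = l.headD 0 := by
    intro l; cases l <;> rfl
  rw [e1, e2, e3] at h
  exact h

theorem zdot_spec {D : ℕ} (a b : List (List ℚ)) (ha : ∀ r ∈ a, ∀ q ∈ r, q.den ∣ D)
    (hb : ∀ r ∈ b, ∀ q ∈ r, q.den ∣ D) (v : ℕ) :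
    ((zdot (zmat D a) (zmat D b) v : ℤ) : ℚ) = (D : ℚ) ^ 2 * dot (a.getD v []) (b.getD v []) := by
  have hlen : ((zmat D a).getD v []).length = (a.getD v []).length := by
    unfold zmat
    rw [List.getD_eq_getElem?_getD, List.getD_eq_getElem?_getD, List.getElem?_map]
    cases a[v]? <;> simp
  unfold zdot dot
  rw [hlen, lsum_range, Int.cast_sum, Finset.mul_sum]
  refine Finset.sum_congr rfl fun k _ => ?_
  rw [Int.cast_mul, entry_zmat, entry_zmat, zq_cast (den_dvd ha v k), zq_cast (den_dvd hb v k)]
  ring

theorem totZ_spec (I : Input) (hI : Small I) :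
    ((totZ I.1.length (densC I).prod I.2.1 I.2.2 : ℤ) : ℚ) =
      (((densC I).prod : ℕ) : ℚ) ^ (2 + (degs I.2.1).headD 1) *
        gram I.2.2 (poly I.2.1) ((((densC I).prod : ℕ) : ℚ) ^ 2) := by
  have hK : ∀ g ∈ I.2.1, ∀ q ∈ gconst g, q.den ∣ (densC I).prod := by
    intro g hg q hq
    refine List.dvd_prod ?_
    unfold densC
    rw [List.mem_map]
    refine ⟨q, List.mem_append_left _ ?_, rfl⟩
    rw [List.mem_flatMap]
    exact ⟨g, hg, hq⟩
  have hS : ∀ t ∈ I.2.2, t.1.den ∣ (densC I).prod ∧
      ∀ r ∈ t.2, ∀ q ∈ r, q.den ∣ (densC I).prod := by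
    intro t ht
    constructor
    · refine List.dvd_prod ?_
      unfold densC
      rw [List.mem_map]
      refine ⟨t.1, List.mem_append_right _ ?_, rfl⟩
      rw [List.mem_flatMap]
      exact ⟨t, ht, by simp⟩
    · intro r hr q hq
      refine List.dvd_prod ?_
      unfold densC
      rw [List.mem_map]
      refine ⟨q, List.mem_append_right _ ?_, rfl⟩
      rw [List.mem_flatMap]
      exact ⟨t, ht, List.mem_cons_of_mem _ (List.mem_flatten.2 ⟨r, hr, hq⟩)⟩
  generalize (densC I).prod = D at *
  unfold totZ gram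
  rw [Int.cast_list_sum, List.map_map, ← List.sum_map_mul_left]
  congr 1
  refine List.map_congr_left fun t ht => ?_
  rw [Function.comp_apply, Int.cast_list_sum, List.map_map, ← List.sum_map_mul_left]
  congr 1
  refine List.map_congr_left fun t' ht' => ?_
  rw [Function.comp_apply, Int.cast_mul, Int.cast_mul, outZ_spec _ _ _ hK hI, zq_cast (hS t ht).1,
    zq_cast (hS t' ht').1]
  have h1 : (fun v => ((zdot (zmat D t.2) (zmat D t'.2) v : ℤ) : ℚ)) =
      fun v => (D : ℚ) ^ 2 * dot (t.2.getD v []) (t'.2.getD v []) := by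
    funext v
    exact zdot_spec t.2 t'.2 (hS t ht).2 (hS t' ht').2 v
  rw [h1, pow_add]
  ring

theorem decC_eq (I : Input) (hI : Small I) (hN : Nonneg I) : decC I = true ↔ value I = 0 := by
  have hD : (0 : ℚ) < (((densC I).prod : ℕ) : ℚ) := by
    have : 0 < (densC I).prod := List.prod_pos fun d hd => by
      unfold densC at hd
      rw [List.mem_map] at hd
      obtain ⟨q, _, rfl⟩ := hd
      exact q.den_pos
    exact_mod_cast this
  unfold decC
  rw [decide_eq_true_iff, ← Int.cast_eq_zero (α := ℚ), totZ_spec I hI, mul_eq_zero,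
    gram_eq_zero _ _ hN (pow_pos hD 2), value_eq]
  constructor
  · rintro (h | h)
    · exact absurd h (pow_pos hD _).ne'
    · exact h
  · exact Or.inr

end Pool.Agent.NPC.H532.CP
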