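import Pool.Agent.NPC.Defs

/-!
# Sums of copies of a circuit with nonnegative coefficients: definitions
-/

namespace Pool.Agent.H532R2.Copies

open Pool.Agent.NPC MvPolynomial

/-- A gate: `inl (inl v)` is the input `y_v`, `inl (inr q)` is the constant `q`, `inr (inl (a, b))`
is the sum and `inr (inr (a, b))` is the product of the results of two earlier gates.  Here `a = 0`
stands for the previous gate, `a = 1` for the gate before it, and so on. -/
abbrev Gate : Type := (ℕ ⊕ ℚ) ⊕ ((ℕ × ℕ) ⊕ (ℕ × ℕ))

/-- The result of a gate; `vals` is the list of the results of the earlier gates, the latest result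
first. -/
def step {R : Type*} [CommRing R] [Algebra ℚ R] (y : ℕ → R) (vals : List R) : Gate → R
  | .inl (.inl v) => y v
  | .inl (.inr q) => algebraMap ℚ R q
  | .inr (.inl (a, b)) => vals.getD a 0 + vals.getD b 0
  | .inr (.inr (a, b)) => vals.getD a 0 * vals.getD b 0

/-- The results of all gates of a circuit, the latest result first. -/
def run {R : Type*} [CommRing R] [Algebra ℚ R] (y : ℕ → R) (K : List Gate) : List R :=
  K.foldl (fun vals g => step y vals g :: vals) []

/-- The output of the circuit `K` at the inputs `y₀, y₁, …`: the result of its last gate. -/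
def output {R : Type*} [CommRing R] [Algebra ℚ R] (y : ℕ → R) (K : List Gate) : R :=
  (run y K).headD 0

/-- The polynomial computed by a circuit. -/
noncomputable def poly (K : List Gate) : MvPolynomial ℕ ℚ := output X K

/-- The formal degree of a gate, where inputs and constants have degree `1`. -/
def degStep (ds : List ℕ) : Gate → ℕ
  | .inl _ => 1
  | .inr (.inl (a, b)) => max (ds.getD a 1) (ds.getD b 1)
  | .inr (.inr (a, b)) => ds.getD a 1 + ds.getD b 1

/-- The formal degrees of all gates of a circuit. -/
def degs (K : List Gate) : List ℕ := K.foldl (fun ds g => degStep ds g :: ds) []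

/-- The linear form `∑ₖ a_{v,k} x_{v,k}` in the variables of the block `X_v = (x_{v,0}, x_{v,1}, …)`
given by the `v`-th list in `a`. -/
noncomputable def lin (a : List (List ℚ)) (v : ℕ) : MvPolynomial (ℕ × ℕ) ℚ :=
  ∑ k ∈ Finset.range (a.getD v []).length, C ((a.getD v []).getD k 0) * X (v, k)

/-- The inputs: a number `m` in unary, a circuit `K`, and a list of summands `(c, a)`. -/
abbrev Input : Type := List Unit × List Gate × List (ℚ × List (List ℚ))

/-- The polynomial computed by an input: the sum of `c * K(ℓ₀(X₀), ℓ₁(X₁), …)` over all summands
`(c, a)`, where `ℓ_v = lin a v`. -/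
noncomputable def value (I : Input) : MvPolynomial (ℕ × ℕ) ℚ :=
  (I.2.2.map fun t => C t.1 * output (lin t.2) I.2.1).sum

/-- The formal degrees of all gates of the circuit are at most `m`. -/
def Small (I : Input) : Prop := ∀ d ∈ degs I.2.1, d ≤ I.1.length

/-- The polynomial computed by the circuit has nonnegative coefficients. -/
def Nonneg (I : Input) : Prop := ∀ α, 0 ≤ coeff α (poly I.2.1)

end Pool.Agent.H532R2.Copies
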