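import Pool.Agent.H532R2.Fischer
import Pool.Agent.H532R2.CopyDefs

/-!
# Sums of copies of a polynomial with nonnegative coefficients
-/

namespace Pool.Agent.H532R2.Copies

open MvPolynomial Finset

/-- The inner product of two coefficient lists. -/
def dot (a b : List ℚ) : ℚ := ∑ k ∈ range a.length, a.getD k 0 * b.getD k 0

/-- A product of linear forms. -/
noncomputable def PW (a : List (List ℚ)) (w : List ℕ) : MvPolynomial (ℕ × ℕ) ℚ :=
  (w.map (lin a)).prod

theorem pderiv_lin (b : List (List ℚ)) (u v k : ℕ) :
    pderiv (v, k) (lin b u) = if u = v then C ((b.getD v []).getD k 0) else 0 := by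
  classical
  unfold lin
  rw [map_sum]
  simp only [pderiv_C_mul, pderiv_X]
  by_cases h : u = v
  · subst h
    rw [if_pos rfl]
    by_cases hk : k < (b.getD u []).length
    · rw [Finset.sum_eq_single k]
      · simp
      · intro k' _ hk'
        rw [Pi.single_eq_of_ne (by simpa using hk')]
        simp
      · intro h
        exact absurd (Finset.mem_range.2 hk) h
    · rw [List.getD_eq_default (b.getD u []) _ (by omega), C_0]
      refine Finset.sum_eq_zero fun k' hk' => ?_
      have := Finset.mem_range.1 hk'
      rw [Pi.single_eq_of_ne (by simp; omega)]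
      simp
  · rw [if_neg h]
    refine Finset.sum_eq_zero fun k' _ => ?_
    rw [Pi.single_eq_of_ne (by simp [h])]
    simp

theorem lin_mul_erase (b : List (List ℚ)) {v : ℕ} {w : List ℕ} (h : v ∈ w) :
    lin b v * PW b (w.erase v) = PW b w := by
  unfold PW
  exact List.prod_map_erase (lin b) h

theorem pderiv_PW (b : List (List ℚ)) (v k : ℕ) (w : List ℕ) :
    pderiv (v, k) (PW b w) =
      C ((w.count v : ℚ) * (b.getD v []).getD k 0) * PW b (w.erase v) := by
  induction w with
  | nil => simp [PW]
  | cons u w ih =>
    have h : PW b (u :: w) = lin b u * PW b w := by simp [PW]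
    rw [h, Derivation.leibniz, ih, pderiv_lin, smul_eq_mul, smul_eq_mul]
    by_cases huv : u = v
    · subst huv
      rw [if_pos rfl, List.erase_cons_head, List.count_cons_self]
      by_cases hm : u ∈ w
      · have h1 := lin_mul_erase b hm
        have h2 : lin b u * (C ((w.count u : ℚ) * (b.getD u []).getD k 0) * PW b (w.erase u)) =
            C ((w.count u : ℚ) * (b.getD u []).getD k 0) * PW b w := by
          rw [← h1]; ring
        rw [h2]
        push_cast
        simp only [C_mul, C_add, map_natCast, C_1]
        ring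
      · rw [List.count_eq_zero_of_not_mem hm]
        simp only [Nat.cast_zero, zero_mul, C_0, mul_zero, zero_add, Nat.cast_one, one_mul]
        ring
    · rw [if_neg huv, mul_zero, add_zero, List.erase_cons_tail (by simpa using huv),
        List.count_cons_of_ne huv]
      have h3 : PW b (u :: w.erase v) = lin b u * PW b (w.erase v) := by simp [PW]
      rw [h3]
      ring

/-- The product of the multiplicities. -/
def mult : List ℕ → ℕ
  | [] => 1
  | u :: w => (u :: w).count u * mult w

theorem mult_pos : ∀ w : List ℕ, 0 < mult w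
  | [] => Nat.one_pos
  | u :: w => by
    unfold mult
    rw [List.count_cons_self]
    exact Nat.mul_pos (Nat.succ_pos _) (mult_pos w)

theorem fis_one : fis (1 : MvPolynomial (ℕ × ℕ) ℚ) 1 = 1 := by
  have h : (1 : MvPolynomial (ℕ × ℕ) ℚ) = monomial 0 1 := rfl
  rw [h, fis_monomial_left, coeff_monomial, if_pos rfl, mfac_zero]
  norm_num

theorem fis_PW (a b : List (List ℚ)) : ∀ w : List ℕ,
    fis (PW a w) (PW b w) = mult w * (w.map fun v => dot (a.getD v []) (b.getD v [])).prod
  | [] => by
    simp only [PW, List.map_nil, List.prod_nil, mult, fis_one]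
    norm_num
  | u :: w => by
    have h : PW a (u :: w) = ∑ k ∈ range (a.getD u []).length,
        C ((a.getD u []).getD k 0) * (X (u, k) * PW a w) := by
      have h1 : PW a (u :: w) = lin a u * PW a w := by simp [PW]
      rw [h1]
      unfold lin
      rw [Finset.sum_mul]
      exact Finset.sum_congr rfl fun k _ => by ring
    rw [h, fis_sum_left]
    have h2 : ∀ k ∈ range (a.getD u []).length,
        fis (C ((a.getD u []).getD k 0) * (X (u, k) * PW a w)) (PW b (u :: w)) =
        ((u :: w).count u : ℚ) * fis (PW a w) (PW b w) *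
          ((a.getD u []).getD k 0 * (b.getD u []).getD k 0) := by
      intro k _
      rw [fis_C_mul_left, fis_X_mul, pderiv_PW, List.erase_cons_head, fis_C_mul_right]
      ring
    have h3 : ∑ k ∈ range (a.getD u []).length, (a.getD u []).getD k 0 * (b.getD u []).getD k 0 =
        dot (a.getD u []) (b.getD u []) := rfl
    have h4 : mult (u :: w) = (u :: w).count u * mult w := rfl
    rw [Finset.sum_congr rfl h2, ← Finset.mul_sum, fis_PW a b w, List.map_cons, List.prod_cons, h3,
      h4]
    push_cast
    ring

/-- The word of a monomial. -/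
noncomputable def word (m : ℕ →₀ ℕ) : List ℕ := (Finsupp.toMultiset m).toList

theorem word_prod {R : Type*} [CommMonoid R] (m : ℕ →₀ ℕ) (g : ℕ → R) :
    ((word m).map g).prod = m.prod fun v k => g v ^ k := by
  have h1 : ((word m).map g).prod = ((Finsupp.toMultiset m).map g).prod := by
    unfold word
    conv_rhs => rw [← Multiset.coe_toList (Finsupp.toMultiset m), Multiset.map_coe,
      Multiset.prod_coe]
  rw [h1]
  clear h1
  induction m using Finsupp.induction_linear with
  | zero => simp
  | add m m' h h' =>
    rw [map_add, Multiset.map_add, Multiset.prod_add, Finsupp.prod_add_index' (by simp)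
      (by intros; rw [pow_add])]
    rw [h, h']
  | single v k =>
    rw [Finsupp.toMultiset_single, Multiset.map_nsmul, Multiset.prod_nsmul,
      Finsupp.prod_single_index (by simp)]
    simp

/-- The part of a given multidegree. -/
noncomputable def TM (S : List (ℚ × List (List ℚ))) (m : ℕ →₀ ℕ) : MvPolynomial (ℕ × ℕ) ℚ :=
  (S.map fun t => C t.1 * PW t.2 (word m)).sum

/-- The Gram sum of a given multidegree. -/
noncomputable def QM (S : List (ℚ × List (List ℚ))) (m : ℕ →₀ ℕ) : ℚ :=
  (S.map fun t => (S.map fun t' => t.1 * t'.1 *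
    ((word m).map fun v => dot (t.2.getD v []) (t'.2.getD v [])).prod).sum).sum

theorem fis_listsum_left {ι : Type*} (s : List ι) (f : ι → MvPolynomial (ℕ × ℕ) ℚ)
    (g : MvPolynomial (ℕ × ℕ) ℚ) : fis (s.map f).sum g = (s.map fun i => fis (f i) g).sum := by
  induction s with
  | nil => simp
  | cons a s ih => simp [fis_add_left, ih]

theorem fis_listsum_right {ι : Type*} (s : List ι) (f : MvPolynomial (ℕ × ℕ) ℚ)
    (g : ι → MvPolynomial (ℕ × ℕ) ℚ) : fis f (s.map g).sum = (s.map fun i => fis f (g i)).sum := by
  induction s with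
  | nil => simp
  | cons a s ih => simp [fis_add_right, ih]

theorem fis_TM (S : List (ℚ × List (List ℚ))) (m : ℕ →₀ ℕ) :
    fis (TM S m) (TM S m) = mult (word m) * QM S m := by
  unfold TM QM
  rw [fis_listsum_left, ← List.sum_map_mul_left]
  congr 1
  refine List.map_congr_left fun t _ => ?_
  rw [fis_listsum_right, ← List.sum_map_mul_left]
  congr 1
  refine List.map_congr_left fun t' _ => ?_
  rw [fis_C_mul_left, fis_C_mul_right, fis_PW]
  ring

theorem fis_self_nonneg (f : MvPolynomial (ℕ × ℕ) ℚ) : 0 ≤ fis f f := by
  unfold fis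
  exact Finset.sum_nonneg fun α _ => mul_nonneg (mul_self_nonneg _) (mfac_pos α).le

theorem QM_nonneg (S : List (ℚ × List (List ℚ))) (m : ℕ →₀ ℕ) : 0 ≤ QM S m := by
  have h1 := fis_self_nonneg (TM S m)
  rw [fis_TM] at h1
  have h2 : (0 : ℚ) < mult (word m) := by exact_mod_cast mult_pos _
  exact nonneg_of_mul_nonneg_right h1 h2

theorem QM_eq_zero (S : List (ℚ × List (List ℚ))) (m : ℕ →₀ ℕ) : QM S m = 0 ↔ TM S m = 0 := by
  have h2 : (mult (word m) : ℚ) ≠ 0 := by exact_mod_cast (mult_pos _).ne'
  rw [← fis_self_eq_zero, fis_TM, mul_eq_zero]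
  constructor
  · exact Or.inr
  · rintro (h | h)
    · exact absurd h h2
    · exact h

/-- Evaluation of a polynomial at linear forms. -/
theorem aeval_lin (a : List (List ℚ)) (K : MvPolynomial ℕ ℚ) :
    aeval (lin a) K = ∑ m ∈ K.support, C (coeff m K) * PW a (word m) := by
  rw [aeval_def, eval₂_eq]
  refine Finset.sum_congr rfl fun m _ => ?_
  unfold PW
  rw [word_prod]
  rfl

/-- The sum of copies. -/
noncomputable def total (S : List (ℚ × List (List ℚ))) (K : MvPolynomial ℕ ℚ) :
    MvPolynomial (ℕ × ℕ) ℚ := (S.map fun t => C t.1 * aeval (lin t.2) K).sum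

theorem total_eq_sum (S : List (ℚ × List (List ℚ))) (K : MvPolynomial ℕ ℚ) :
    total S K = ∑ m ∈ K.support, C (coeff m K) * TM S m := by
  unfold total TM
  induction S with
  | nil => simp
  | cons t S ih =>
    simp only [List.map_cons, List.sum_cons, mul_add, Finset.sum_add_distrib] at ih ⊢
    rw [ih, aeval_lin, Finset.mul_sum]
    congr 1
    exact Finset.sum_congr rfl fun m _ => by ring

/-- The grading homomorphism. -/
noncomputable def gh : MvPolynomial (ℕ × ℕ) ℚ →ₐ[ℚ] MvPolynomial ℕ (MvPolynomial (ℕ × ℕ) ℚ) :=
  aeval fun x => X x.1 * C (X x)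

theorem gh_C (c : ℚ) : gh (C c) = C (C c) := by
  unfold gh
  rw [aeval_C]
  rfl

theorem gh_lin (a : List (List ℚ)) (v : ℕ) : gh (lin a v) = X v * C (lin a v) := by
  unfold lin
  rw [map_sum, map_sum, Finset.mul_sum]
  refine Finset.sum_congr rfl fun k _ => ?_
  rw [map_mul, gh_C, C_mul]
  have h : gh (X (v, k)) = X v * C (X (v, k)) := by
    unfold gh
    rw [aeval_X]
  rw [h]
  ring

theorem gh_PW (a : List (List ℚ)) (m : ℕ →₀ ℕ) :
    gh (PW a (word m)) = monomial m (PW a (word m)) := by
  have h1 : gh (PW a (word m)) = ((word m).map fun v => X v * C (lin a v)).prod := by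
    unfold PW
    rw [map_list_prod, List.map_map]
    congr 1
    exact List.map_congr_left fun v _ => gh_lin a v
  rw [h1, List.prod_map_mul, word_prod m (fun v => (X v : MvPolynomial ℕ (MvPolynomial (ℕ × ℕ) ℚ)))]
  have h2 : ((word m).map fun v => (C (lin a v) : MvPolynomial ℕ (MvPolynomial (ℕ × ℕ) ℚ))).prod =
      C (PW a (word m)) := by
    unfold PW
    rw [map_list_prod, List.map_map]
    rfl
  rw [h2, mul_comm, monomial_eq]

theorem gh_TM (S : List (ℚ × List (List ℚ))) (m : ℕ →₀ ℕ) :
    gh (TM S m) = monomial m (TM S m) := by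
  unfold TM
  rw [map_list_sum, List.map_map]
  have h : ∀ l : List (MvPolynomial (ℕ × ℕ) ℚ), (monomial m l.sum : MvPolynomial ℕ _) =
      (l.map fun p => monomial m p).sum := by
    intro l
    induction l with
    | nil => simp
    | cons p l ih => simp [ih]
  rw [h, List.map_map]
  congr 1
  refine List.map_congr_left fun t _ => ?_
  rw [Function.comp_apply, Function.comp_apply, map_mul, gh_C, gh_PW, C_mul_monomial]

/-- The sum of copies is zero if and only if all its parts are zero. -/
theorem total_eq_zero (S : List (ℚ × List (List ℚ))) (K : MvPolynomial ℕ ℚ) :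
    total S K = 0 ↔ ∀ m ∈ K.support, TM S m = 0 := by
  classical
  rw [total_eq_sum]
  constructor
  · intro h m hm
    have h1 := congrArg gh h
    rw [map_zero, map_sum] at h1
    have h2 : ∀ m ∈ K.support, gh (C (coeff m K) * TM S m) =
        monomial m (C (coeff m K) * TM S m) := by
      intro m _
      rw [map_mul, gh_C, gh_TM, C_mul_monomial]
    rw [Finset.sum_congr rfl h2] at h1
    have h3 := congrArg (coeff m) h1
    rw [coeff_sum, Finset.sum_eq_single m] at h3
    · rw [coeff_monomial, if_pos rfl, coeff_zero, mul_eq_zero, C_eq_zero] at h3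
      rcases h3 with h3 | h3
      · exact absurd h3 (mem_support_iff.1 hm)
      · exact h3
    · intro m' _ hne
      rw [coeff_monomial, if_neg hne]
    · intro h4
      exact absurd hm h4
  · intro h
    exact Finset.sum_eq_zero fun m hm => by rw [h m hm, mul_zero]

/-- The Gram sum. -/
noncomputable def gram (S : List (ℚ × List (List ℚ))) (K : MvPolynomial ℕ ℚ) (s : ℚ) : ℚ :=
  (S.map fun t => (S.map fun t' => t.1 * t'.1 *
    aeval (fun v => s * dot (t.2.getD v []) (t'.2.getD v [])) K).sum).sum

theorem gram_eq_sum (S : List (ℚ × List (List ℚ))) (K : MvPolynomial ℕ ℚ) (s : ℚ) :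
    gram S K s = ∑ m ∈ K.support, coeff m K * (s ^ (word m).length * QM S m) := by
  have h1 : ∀ t t' : ℚ × List (List ℚ),
      aeval (fun v => s * dot (t.2.getD v []) (t'.2.getD v [])) K =
      ∑ m ∈ K.support, coeff m K * (s ^ (word m).length *
        ((word m).map fun v => dot (t.2.getD v []) (t'.2.getD v [])).prod) := by
    intro t t'
    rw [aeval_def, eval₂_eq]
    refine Finset.sum_congr rfl fun m _ => ?_
    have h2 := word_prod m (fun v => s * dot (t.2.getD v []) (t'.2.getD v []))
    rw [List.prod_map_mul, List.map_const', List.prod_replicate] at h2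
    rw [h2]
    rfl
  unfold gram QM
  have h2 : ∀ (L L' : List (ℚ × List (List ℚ))),
      (L.map fun t => (L'.map fun t' => t.1 * t'.1 *
        aeval (fun v => s * dot (t.2.getD v []) (t'.2.getD v [])) K).sum).sum =
      ∑ m ∈ K.support, coeff m K * (s ^ (word m).length * (L.map fun t => (L'.map fun t' =>
        t.1 * t'.1 * ((word m).map fun v => dot (t.2.getD v []) (t'.2.getD v [])).prod).sum).sum) := by
    intro L L'
    induction L with
    | nil => simp
    | cons t L ih =>
      simp only [List.map_cons, List.sum_cons, mul_add, Finset.sum_add_distrib]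
      rw [ih]
      congr 1
      clear ih
      induction L' with
      | nil => simp
      | cons t' L' ih' =>
        simp only [List.map_cons, List.sum_cons, mul_add, Finset.sum_add_distrib]
        rw [ih', h1, Finset.mul_sum]
        congr 1
        exact Finset.sum_congr rfl fun m _ => by ring
  exact h2 S S

/-- The main equivalence. -/
theorem gram_eq_zero (S : List (ℚ × List (List ℚ))) (K : MvPolynomial ℕ ℚ)
    (hK : ∀ α, 0 ≤ coeff α K) {s : ℚ} (hs : 0 < s) : gram S K s = 0 ↔ total S K = 0 := by
  rw [gram_eq_sum, total_eq_zero, Finset.sum_eq_zero_iff_of_nonneg fun m _ =>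
    mul_nonneg (hK m) (mul_nonneg (pow_pos hs _).le (QM_nonneg S m))]
  refine forall₂_congr fun m hm => ?_
  rw [mul_eq_zero, mul_eq_zero, QM_eq_zero]
  have h1 := mem_support_iff.1 hm
  have h2 : s ^ (word m).length ≠ 0 := (pow_pos hs _).ne'
  tauto

end Pool.Agent.H532R2.Copies
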