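import Pool.Agent.H532R2.CopyDec

/-!
# The procedure for sums of copies runs in polynomial time
-/

namespace Pool.Agent.NPC.H532.CP

open Pool.Agent.H532R2 Pool.Agent.H532R2.Copies Pool.Agent.NPC.H532
  Pool.Agent.NPC.H532.RP Pool.Agent.NPC.H532.PM

theorem ib_pow (D : ℤ) (e : ℕ) : ib (D ^ e) ≤ e * ib D + 1 := by
  induction e with
  | zero => simp [ib_one]
  | succ e ih =>
    have := ib_mul (D ^ e) D
    rw [pow_succ, add_mul, one_mul]
    omega

/-- Bounds for the states. -/
def Inv (m b k : ℕ) (vals : List (ℕ × ℤ)) : Prop :=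
  ∀ p ∈ vals, 1 ≤ p.1 ∧ p.1 ≤ m + 1 ∧ ib p.2 ≤ p.1 * (b + 2 * k)

theorem Inv.getD {m b k : ℕ} {vals : List (ℕ × ℤ)} (h : Inv m b k vals) (a : ℕ) :
    1 ≤ (vals.getD a (1, 0)).1 ∧ (vals.getD a (1, 0)).1 ≤ m + 1 ∧
      ib (vals.getD a (1, 0)).2 ≤ (vals.getD a (1, 0)).1 * (b + 2 * k) := by
  rw [List.getD_eq_getElem?_getD]
  cases hx : vals[a]? with
  | none => simp [ib_zero]
  | some p => exact h p (List.mem_of_getElem? hx)

theorem ib_zdot (A B : Mat) (v : ℕ) : ib (zdot A B v) ≤ 2 * sz A + sz B := by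
  unfold zdot
  have h := ib_list_sum ((List.range (A.getD v []).length).map fun k => entry A v k * entry B v k)
    (sz A + sz B) (by
    intro z hz
    rw [List.mem_map] at hz
    obtain ⟨k, _, rfl⟩ := hz
    have h1 := ib_mul (entry A v k) (entry B v k)
    have h2 := ib_entry_le (MB_sz A) v k
    have h3 := ib_entry_le (MB_sz B) v k
    omega)
  rw [List.length_map, List.length_range] at h
  have h1 := Poly.size_le_self (A.getD v []).length
  have h2 : (A.getD v []).length ≤ sz A := by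
    rw [List.getD_eq_getElem?_getD]
    cases hx : A[v]? with
    | none => simp
    | some r =>
      have h3 := length_lt_sz r
      have h4 := sz_le_of_mem (List.mem_of_getElem? hx)
      rw [Option.getD_some]
      omega
  omega

theorem ib_zq (D : ℕ) (q : ℚ) : ib (zq D q) ≤ sz q + sz D := by
  unfold zq
  have h1 := ib_mul q.num ((D / q.den : ℕ) : ℤ)
  rw [ib_natCast] at h1
  have h2 := ib_le_sz q.num
  have h3 : sz q = sz q.num + sz q.den + 1 := by
    have : sz q = sz (q.num, q.den) := rfl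
    rw [this, sz_pair]
  have h4 : (D / q.den).size ≤ D.size := Nat.size_le_size (Nat.div_le_self _ _)
  have h5 := size_le_sz D
  omega

/-- A step preserves the bounds. -/
theorem Inv.step {m D b k : ℕ} {A B : Mat} {vals : List (ℕ × ℤ)} (h : Inv m b k vals)
    (hb : ib (D : ℤ) + 2 * sz A + sz B ≤ b) (g : Gate) (hg : sz g + sz D ≤ b) :
    Inv m b (k + 1) (stp m D A B vals g :: vals) := by
  intro p hp
  rcases List.mem_cons.1 hp with rfl | hp
  · rcases g with (v | q) | (c | c)
    · simp only [stp]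
      have h1 := ib_mul (D : ℤ) (zdot A B v)
      have h2 := ib_zdot A B v
      refine ⟨le_rfl, by omega, by omega⟩
    · simp only [stp]
      have h1 := ib_zq D q
      have h2 : sz (Sum.inl (Sum.inr q) : Gate) = sz q + 4 + 2 := by
        rw [sz_inl, sz_inr]
      refine ⟨le_rfl, by omega, by omega⟩
    · simp only [stp, addS]
      obtain ⟨h1, h2, h3⟩ := h.getD c.1
      obtain ⟨h4, h5, h6⟩ := h.getD c.2
      generalize vals.getD c.1 (1, 0) = x at *
      generalize vals.getD c.2 (1, 0) = y at *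
      by_cases hd : max x.1 y.1 ≤ m
      · rw [decide_eq_true hd, cond_true]
        refine ⟨h1.trans (le_max_left _ _), by simp only; omega, ?_⟩
        simp only
        rw [pw_eq ((Nat.sub_le _ _).trans hd), pw_eq ((Nat.sub_le _ _).trans hd)]
        have e1 := ib_add ((D : ℤ) ^ (max x.1 y.1 - x.1) * x.2)
          ((D : ℤ) ^ (max x.1 y.1 - y.1) * y.2)
        have key : ∀ z : ℕ × ℤ, 1 ≤ z.1 → z.1 ≤ max x.1 y.1 → ib z.2 ≤ z.1 * (b + 2 * k) →
            ib ((D : ℤ) ^ (max x.1 y.1 - z.1) * z.2) ≤ max x.1 y.1 * (b + 2 * k) + 1 := by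
          intro z _ hz2 hz3
          have e2 := ib_mul ((D : ℤ) ^ (max x.1 y.1 - z.1)) z.2
          have e3 := ib_pow (D : ℤ) (max x.1 y.1 - z.1)
          have e4 : (max x.1 y.1 - z.1) * ib (D : ℤ) ≤ (max x.1 y.1 - z.1) * (b + 2 * k) :=
            Nat.mul_le_mul_left _ (by omega)
          have e5 : (max x.1 y.1 - z.1) * (b + 2 * k) + z.1 * (b + 2 * k) =
              max x.1 y.1 * (b + 2 * k) := by
            rw [← add_mul, Nat.sub_add_cancel hz2]
          omega
        have k1 := key x h1 (le_max_left _ _) h3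
        have k2 := key y h4 (le_max_right _ _) h6
        have e6 : max x.1 y.1 * (b + 2 * (k + 1)) = max x.1 y.1 * (b + 2 * k) +
            max x.1 y.1 * 2 := by ring
        have e7 : 1 ≤ max x.1 y.1 := h1.trans (le_max_left _ _)
        rw [e6]
        generalize max x.1 y.1 * (b + 2 * k) = M at *
        omega
      · rw [decide_eq_false hd, cond_false]
        refine ⟨Nat.le_add_left 1 m, le_rfl, ?_⟩
        simp only
        rw [ib_zero]
        exact Nat.zero_le _
    · simp only [stp, mulS]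
      obtain ⟨h1, h2, h3⟩ := h.getD c.1
      obtain ⟨h4, h5, h6⟩ := h.getD c.2
      generalize vals.getD c.1 (1, 0) = x at *
      generalize vals.getD c.2 (1, 0) = y at *
      by_cases hd : x.1 + y.1 ≤ m
      · rw [decide_eq_true hd, cond_true]
        refine ⟨by simp only; omega, by simp only; omega, ?_⟩
        simp only
        have e1 := ib_mul x.2 y.2
        have e2 : (x.1 + y.1) * (b + 2 * (k + 1)) = x.1 * (b + 2 * k) + y.1 * (b + 2 * k) +
            (x.1 + y.1) * 2 := by ring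
        rw [e2]
        omega
      · rw [decide_eq_false hd, cond_false]
        refine ⟨Nat.le_add_left 1 m, le_rfl, ?_⟩
        simp only
        rw [ib_zero]
        exact Nat.zero_le _
  · obtain ⟨h1, h2, h3⟩ := h p hp
    refine ⟨h1, h2, h3.trans (Nat.mul_le_mul_left _ (by omega))⟩

theorem foldl_inv {m D b : ℕ} {A B : Mat} (hb : ib (D : ℤ) + 2 * sz A + sz B ≤ b) :
    ∀ (K : List Gate), (∀ g ∈ K, sz g + sz D ≤ b) → ∀ (k : ℕ) (vals : List (ℕ × ℤ)),
      Inv m b k vals → Inv m b (k + K.length)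
        (K.foldl (fun vals g => stp m D A B vals g :: vals) vals) ∧
      (K.foldl (fun vals g => stp m D A B vals g :: vals) vals).length = vals.length + K.length
  | [], _, k, vals, h => ⟨h, rfl⟩
  | g :: K, hK, k, vals, h => by
    obtain ⟨h1, h2⟩ := foldl_inv hb K (fun g hg => hK g (List.mem_cons_of_mem _ hg)) (k + 1)
      (stp m D A B vals g :: vals) (h.step hb g (hK g (by simp)))
    rw [List.foldl_cons, List.length_cons]
    refine ⟨?_, ?_⟩
    · have e : k + (K.length + 1) = k + 1 + K.length := by omega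
      rw [e]
      exact h1
    · rw [h2, List.length_cons]; omega

section

variable {α : Type} [TEnc α]

theorem Poly_zdot {A B : α → Mat} {v : α → ℕ} (hA : Poly A) (hB : Poly B) (hv : Poly v) :
    Poly (fun a => zdot (A a) (B a) (v a)) := by
  unfold zdot
  have h1 : Poly (fun a => (A a).getD (v a) []) := Poly.getD hA hv (Poly.const _)
  refine Poly_sumZ (Poly.map (β := ℕ) (γ := ℤ)
    (F := fun a k => entry (A a) (v a) k * entry (B a) (v a) k) (UPoly.length h1).range ?_)
  have g1 : Poly (fun p : α × ℕ => p.1) := Poly.fst Poly.id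
  have g2 : Poly (fun p : α × ℕ => p.2) := Poly.snd Poly.id
  exact Poly_mulZ (Poly_entry (hA.comp g1) (hv.comp g1) g2)
    (Poly_entry (hB.comp g1) (hv.comp g1) g2)

theorem Poly_addS {m D : α → ℕ} {p q : α → ℕ × ℤ} (hm : UPoly m) (hD : Poly D) (hp : Poly p)
    (hq : Poly q) : Poly (fun a => addS (m a) (D a) (p a) (q a)) := by
  unfold addS
  have hmax := Poly.max (Poly.fst hp) (Poly.fst hq)
  refine Poly.cond (Poly.decide_le hmax hm.toPoly) (Poly.pair hmax ?_)
    (Poly.pair (Poly.succ hm.toPoly) (Poly.const _))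
  exact Poly_addZ (Poly_mulZ (Poly_pw hm (Poly_ofNat hD) (Poly.sub hmax (Poly.fst hp)))
    (Poly.snd hp)) (Poly_mulZ (Poly_pw hm (Poly_ofNat hD) (Poly.sub hmax (Poly.fst hq)))
    (Poly.snd hq))

theorem Poly_mulS {m : α → ℕ} {p q : α → ℕ × ℤ} (hm : UPoly m) (hp : Poly p)
    (hq : Poly q) : Poly (fun a => mulS (m a) (p a) (q a)) := by
  unfold mulS
  have hs := Poly.add (Poly.fst hp) (Poly.fst hq)
  exact Poly.cond (Poly.decide_le hs hm.toPoly) (Poly.pair hs (Poly_mulZ (Poly.snd hp)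
    (Poly.snd hq))) (Poly.pair (Poly.succ hm.toPoly) (Poly.const _))

theorem Poly_stp {m D : α → ℕ} {A B : α → Mat} {vals : α → List (ℕ × ℤ)} {g : α → Gate}
    (hm : UPoly m) (hD : Poly D) (hA : Poly A) (hB : Poly B) (hv : Poly vals) (hg : Poly g) :
    Poly (fun a => stp (m a) (D a) (A a) (B a) (vals a) (g a)) := by
  have key := Poly.sumCases (o := g)
    (g := fun a (x : ℕ ⊕ ℚ) => stp (m a) (D a) (A a) (B a) (vals a) (.inl x))
    (h := fun a (x : (ℕ × ℕ) ⊕ (ℕ × ℕ)) => stp (m a) (D a) (A a) (B a) (vals a) (.inr x)) hg ?_ ?_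
  · refine key.congr fun a => ?_
    rcases g a with x | x <;> rfl
  · have g1 : Poly (fun p : α × (ℕ ⊕ ℚ) => p.1) := Poly.fst Poly.id
    have g2 : Poly (fun p : α × (ℕ ⊕ ℚ) => p.2) := Poly.snd Poly.id
    have k := Poly.sumCases (α := α × (ℕ ⊕ ℚ)) (o := fun p => p.2)
      (g := fun p (v : ℕ) => ((1, (D p.1 : ℤ) * zdot (A p.1) (B p.1) v) : ℕ × ℤ))
      (h := fun p (q : ℚ) => ((1, zq (D p.1) q) : ℕ × ℤ)) g2 ?_ ?_
    · refine k.congr fun p => ?_
      obtain ⟨a, x⟩ := p
      rcases x with v | q <;> rfl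
    · have h1 : Poly (fun p : (α × (ℕ ⊕ ℚ)) × ℕ => p.1.1) := Poly.fst (Poly.fst Poly.id)
      exact Poly.pair (Poly.const _) (Poly_mulZ (Poly_ofNat (hD.comp h1))
        (Poly_zdot (hA.comp h1) (hB.comp h1) (Poly.snd Poly.id)))
    · have h1 : Poly (fun p : (α × (ℕ ⊕ ℚ)) × ℚ => p.1.1) := Poly.fst (Poly.fst Poly.id)
      exact Poly.pair (Poly.const _) (Poly_zq (hD.comp h1) (Poly.snd Poly.id))
  · have g1 : Poly (fun p : α × ((ℕ × ℕ) ⊕ (ℕ × ℕ)) => p.1) := Poly.fst Poly.id
    have g2 : Poly (fun p : α × ((ℕ × ℕ) ⊕ (ℕ × ℕ)) => p.2) := Poly.snd Poly.id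
    have h1 : Poly (fun p : (α × ((ℕ × ℕ) ⊕ (ℕ × ℕ))) × (ℕ × ℕ) => p.1.1) :=
      Poly.fst (Poly.fst Poly.id)
    have h2 : Poly (fun p : (α × ((ℕ × ℕ) ⊕ (ℕ × ℕ))) × (ℕ × ℕ) => p.2) := Poly.snd Poly.id
    have e1 : Poly (fun p : (α × ((ℕ × ℕ) ⊕ (ℕ × ℕ))) × (ℕ × ℕ) =>
        (vals p.1.1).getD p.2.1 (1, 0)) :=
      Poly.getD (hv.comp h1) (Poly.fst h2) (Poly.const _)
    have e2 : Poly (fun p : (α × ((ℕ × ℕ) ⊕ (ℕ × ℕ))) × (ℕ × ℕ) =>
        (vals p.1.1).getD p.2.2 (1, 0)) :=
      Poly.getD (hv.comp h1) (Poly.snd h2) (Poly.const _)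
    have k := Poly.sumCases (α := α × ((ℕ × ℕ) ⊕ (ℕ × ℕ))) (o := fun p => p.2)
      (g := fun p (c : ℕ × ℕ) => addS (m p.1) (D p.1) ((vals p.1).getD c.1 (1, 0))
        ((vals p.1).getD c.2 (1, 0)))
      (h := fun p (c : ℕ × ℕ) => mulS (m p.1) ((vals p.1).getD c.1 (1, 0))
        ((vals p.1).getD c.2 (1, 0))) g2 (Poly_addS (hm.comp h1) (hD.comp h1) e1 e2)
      (Poly_mulS (hm.comp h1) e1 e2)
    refine k.congr fun p => ?_
    obtain ⟨a, x⟩ := p
    rcases x with c | c <;> rfl

theorem Poly_runZ {m D : α → ℕ} {A B : α → Mat} {K : α → List Gate}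
    (hm : UPoly m) (hD : Poly D) (hA : Poly A) (hB : Poly B) (hK : Poly K) :
    Poly (fun a => runZ (m a) (D a) (A a) (B a) (K a)) := by
  unfold runZ
  let b : α → ℕ := fun a => 2 * sz (D a) + 2 * sz (A a) + sz (B a) + sz (K a)
  have pb : PB b := ((((PB.const 2).mul (PB.sz hD)).add ((PB.const 2).mul (PB.sz hA))).add
    (PB.sz hB)).add (PB.sz hK)
  have pm : PB m := PB.of_upoly hm
  have pK : PB (fun a => (K a).length) := PB.length hK
  refine Poly_foldl (σ := List (ℕ × ℤ)) (F := fun a vals g => stp (m a) (D a) (A a) (B a) vals g :: vals)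
    hK (Poly.const _) ?_
    (fun a => (K a).length * ((4 * (m a + 1) + 1) + (4 * ((m a + 1) * (b a + 2 * (K a).length)) + 5)
      + 1 + 1) + 1) ?_ ?_
  · have h1 : Poly (fun p : α × List (ℕ × ℤ) × Gate => p.1) := Poly.fst Poly.id
    have h2 : Poly (fun p : α × List (ℕ × ℤ) × Gate => p.2.1) := Poly.fst (Poly.snd Poly.id)
    have h3 : Poly (fun p : α × List (ℕ × ℤ) × Gate => p.2.2) := Poly.snd (Poly.snd Poly.id)
    exact Poly.cons (Poly_stp (hm.comp h1) (hD.comp h1) (hA.comp h1) (hB.comp h1) h2 h3) h2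
  · exact (pK.mul ((((((PB.const 4).mul (pm.add (PB.const 1))).add (PB.const 1)).add
      (((PB.const 4).mul ((pm.add (PB.const 1)).mul (pb.add ((PB.const 2).mul pK)))).add
      (PB.const 5))).add (PB.const 1)).add (PB.const 1))).add (PB.const 1)
  · intro a k hk
    have hlen : ((K a).take k).length ≤ (K a).length := by simp
    obtain ⟨h1, h2⟩ := foldl_inv (m := m a) (D := D a) (b := b a) (A := A a) (B := B a) (by
        have h3 : ib ((D a : ℕ) : ℤ) ≤ sz (D a) := by
          rw [ib_natCast]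
          have := size_le_sz (D a)
          omega
        show ib ((D a : ℕ) : ℤ) + 2 * sz (A a) + sz (B a) ≤
          2 * sz (D a) + 2 * sz (A a) + sz (B a) + sz (K a)
        omega) ((K a).take k) (by
        intro g hg
        have h3 := sz_le_of_mem (List.mem_of_mem_take hg)
        show sz g + sz (D a) ≤ 2 * sz (D a) + 2 * sz (A a) + sz (B a) + sz (K a)
        omega) 0 [] (by intro p hp; simp at hp)
    refine (sz_list_le (B := (4 * (m a + 1) + 1) +
      (4 * ((m a + 1) * (b a + 2 * (K a).length)) + 5) + 1) ?_).trans ?_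
    · intro p hp
      obtain ⟨h3, h4, h5⟩ := h1 p hp
      rw [show sz p = sz p.1 + sz p.2 + 1 from sz_pair p.1 p.2]
      have h6 := sz_nat_le p.1
      have h7 := Poly.size_le_self p.1
      have h8 := sz_int_le p.2
      have h9 : p.1 * (b a + 2 * (0 + ((K a).take k).length)) ≤
          (m a + 1) * (b a + 2 * (K a).length) := Nat.mul_le_mul h4 (by omega)
      omega
    · rw [h2]
      have h3 : ([] : List (ℕ × ℤ)).length + ((K a).take k).length ≤ (K a).length := by
        simp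
      exact Nat.add_le_add_right (Nat.mul_le_mul_right _ h3) 1

/-- A term of the Gram sum. -/
def termC (m D : ℕ) (K : List Gate) (t t' : ℚ × List (List ℚ)) : ℤ :=
  zq D t.1 * zq D t'.1 * outZ m D (zmat D t.2) (zmat D t'.2) K

theorem Poly_termC {m D : α → ℕ} {K : α → List Gate} {t t' : α → ℚ × List (List ℚ)}
    (hm : UPoly m) (hD : Poly D) (hK : Poly K) (ht : Poly t) (ht' : Poly t') :
    Poly (fun a => termC (m a) (D a) (K a) (t a) (t' a)) := by
  have e1 := Poly_zq hD (Poly.fst ht)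
  have e2 := Poly_zq hD (Poly.fst ht')
  have e3 := Poly_runZ hm hD (Poly_zmat hD (Poly.snd ht)) (Poly_zmat hD (Poly.snd ht')) hK
  have e4 : Poly (fun a => outZ (m a) (D a) (zmat (D a) (t a).2) (zmat (D a) (t' a).2) (K a)) :=
    Poly.snd ((Poly.head?_getD e3 ((1, 0) : ℕ × ℤ)).congr fun a => by
      cases runZ (m a) (D a) (zmat (D a) (t a).2) (zmat (D a) (t' a).2) (K a) <;> rfl)
  exact Poly_mulZ (Poly_mulZ e1 e2) e4

/-- A row of the Gram sum. -/
def rowC (m D : ℕ) (K : List Gate) (S : List (ℚ × List (List ℚ))) (t : ℚ × List (List ℚ)) : ℤ :=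
  (S.map fun t' => termC m D K t t').sum

theorem Poly_rowC {m D : α → ℕ} {K : α → List Gate} {S : α → List (ℚ × List (List ℚ))}
    {t : α → ℚ × List (List ℚ)} (hm : UPoly m) (hD : Poly D) (hK : Poly K) (hS : Poly S)
    (ht : Poly t) : Poly (fun a => rowC (m a) (D a) (K a) (S a) (t a)) := by
  unfold rowC
  refine Poly_sumZ ?_
  refine Poly.map (β := ℚ × List (List ℚ)) (γ := ℤ)
    (F := fun a t' => termC (m a) (D a) (K a) (t a) t') hS ?_
  have h1 : Poly (fun p : α × ℚ × List (List ℚ) => p.1) := Poly.fst Poly.id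
  have h2 : Poly (fun p : α × ℚ × List (List ℚ) => p.2) := Poly.snd Poly.id
  exact Poly_termC (hm.comp h1) (hD.comp h1) (hK.comp h1) (ht.comp h1) h2

theorem Poly_totZ {m D : α → ℕ} {K : α → List Gate} {S : α → List (ℚ × List (List ℚ))}
    (hm : UPoly m) (hD : Poly D) (hK : Poly K) (hS : Poly S) :
    Poly (fun a => totZ (m a) (D a) (K a) (S a)) := by
  have h1 : Poly (fun p : α × ℚ × List (List ℚ) => p.1) := Poly.fst Poly.id
  have h2 : Poly (fun p : α × ℚ × List (List ℚ) => p.2) := Poly.snd Poly.id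
  exact Poly_sumZ (Poly.map (β := ℚ × List (List ℚ)) (γ := ℤ)
    (F := fun a t => rowC (m a) (D a) (K a) (S a) t) hS
    (Poly_rowC (hm.comp h1) (hD.comp h1) (hK.comp h1) (hS.comp h1) h2))

end

theorem Poly_gconst : Poly gconst := by
  have key := Poly.sumCases (α := Gate) (o := fun g => g)
    (g := fun _ (x : ℕ ⊕ ℚ) => gconst (.inl x))
    (h := fun _ (_ : (ℕ × ℕ) ⊕ (ℕ × ℕ)) => ([] : List ℚ)) Poly.id ?_ (Poly.const _)
  · refine key.congr fun g => ?_
    rcases g with x | x <;> rfl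
  · have k := Poly.sumCases (α := Gate × (ℕ ⊕ ℚ)) (o := fun p => p.2)
      (g := fun _ (_ : ℕ) => ([] : List ℚ)) (h := fun _ (q : ℚ) => [q]) (Poly.snd Poly.id)
      (Poly.const _) (Poly.cons (Poly.snd Poly.id) (Poly.const _))
    refine k.congr fun p => ?_
    obtain ⟨a, x⟩ := p
    rcases x with c | c <;> rfl

theorem Poly_densC : Poly densC := by
  unfold densC
  have h1 : Poly (fun I : Input => I.2.1) := Poly.fst (Poly.snd Poly.id)
  have h2 : Poly (fun I : Input => I.2.2) := Poly.snd (Poly.snd Poly.id)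
  refine Poly.map (α := Input) (β := ℚ) (γ := ℕ)
    (l := fun I => (I.2.1.flatMap gconst) ++ (I.2.2.flatMap fun t => t.1 :: t.2.flatten))
    (F := fun _ q => q.den) ?_ (Poly_den (Poly.snd Poly.id))
  refine Poly.append ?_ ?_
  · exact Poly.flatMap (α := Input) (β := Gate) (γ := ℚ) (l := fun I => I.2.1)
      (F := fun _ g => gconst g) h1 (Poly_gconst.comp (Poly.snd Poly.id))
  · refine Poly.flatMap (α := Input) (β := ℚ × List (List ℚ)) (γ := ℚ) (l := fun I => I.2.2)
      (F := fun _ t => t.1 :: t.2.flatten) h2 ?_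
    exact Poly.cons (Poly.fst (Poly.snd Poly.id)) (Poly.flatten (Poly.snd (Poly.snd Poly.id)))

theorem Poly_decC : Poly decC := by
  unfold decC
  have h0 : Poly (fun I : Input => I.1) := Poly.fst Poly.id
  have h1 : Poly (fun I : Input => I.2.1) := Poly.fst (Poly.snd Poly.id)
  have h2 : Poly (fun I : Input => I.2.2) := Poly.snd (Poly.snd Poly.id)
  exact Poly.decide_eq (Poly_totZ (UPoly.length h0) (Poly_prodN Poly_densC) h1 h2) (Poly.const _)

/-- Identity testing for sums of copies of a polynomial with nonnegative coefficients. -/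
theorem copies_result : ∃ F : Input → Bool,
    Nonempty (Turing.TM2ComputableInPolyTime (bits : Input → List Bool)
      (bits : Bool → List Bool) F) ∧
    ∀ I : Input, Small I → Nonneg I → (F I = true ↔ value I = 0) :=
  ⟨decC, Poly.toTM Poly_decC, fun I hI hN => decC_eq I hI hN⟩

end Pool.Agent.NPC.H532.CP
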