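import Mathlib

/-!
# Finite differences: products as combinations of powers
-/

namespace Pool.Agent.H532R2

variable {R : Type*} [CommRing R]

/-- The difference operator. -/
def dif (q : R) (g : R → R) : R → R := fun y => g (y + q) - g y

/-- `g` is a polynomial function of degree at most `d` with `a` as coefficient of degree `d`. -/
def IsP (d : ℕ) (a : R) (g : R → R) : Prop :=
  ∃ P : Polynomial R, P.natDegree ≤ d ∧ P.coeff d = a ∧ ∀ y, g y = P.eval y

theorem IsP.pow (m : ℕ) : IsP m (1 : R) (fun y => y ^ m) :=
  ⟨Polynomial.X ^ m, Polynomial.natDegree_X_pow_le m, by simp, fun y => by simp⟩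

theorem IsP.dif {d : ℕ} {a : R} {g : R → R} (h : IsP (d + 1) a g) (q : R) :
    IsP d ((d + 1 : ℕ) * a * q) (dif q g) := by
  obtain ⟨P, h1, h2, h3⟩ := h
  refine ⟨Polynomial.taylor q P - P, ?_, ?_, ?_⟩
  · rw [Polynomial.natDegree_le_iff_coeff_eq_zero]
    intro k hk
    rw [Polynomial.coeff_sub]
    rcases Nat.lt_or_ge (d + 1) k with hk' | hk'
    · rw [Polynomial.coeff_eq_zero_of_natDegree_lt (lt_of_le_of_lt h1 hk'),
        Polynomial.coeff_eq_zero_of_natDegree_lt (by rw [Polynomial.natDegree_taylor]; omega),
        sub_zero]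
    · obtain rfl : k = d + 1 := by omega
      have h4 : (Polynomial.hasseDeriv (d + 1) P).natDegree < 1 := by
        have := Polynomial.natDegree_hasseDeriv_le P (d + 1)
        omega
      rw [Polynomial.taylor_coeff, sub_eq_zero, Polynomial.eval_eq_sum_range' h4]
      simp [Polynomial.hasseDeriv_coeff]
  · have h4 : (Polynomial.hasseDeriv d P).natDegree < 2 := by
      have := Polynomial.natDegree_hasseDeriv_le P d
      omega
    rw [Polynomial.coeff_sub, Polynomial.taylor_coeff, Polynomial.eval_eq_sum_range' h4,
      Finset.sum_range_succ, Finset.sum_range_one, Polynomial.hasseDeriv_coeff,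
      Polynomial.hasseDeriv_coeff]
    have h5 : (1 + d).choose d = d + 1 := by rw [Nat.add_comm 1 d, Nat.choose_succ_self_right]
    rw [h5, Nat.add_comm 1 d, h2]
    simp
  · intro y
    simp only [Pool.Agent.H532R2.dif, h3, Polynomial.eval_sub, Polynomial.taylor_eval]

theorem IsP.dif_iter {d : ℕ} (e : ℕ) : ∀ {a : R} {g : R → R}, IsP (d + e) a g → ∀ (q : R),
    IsP d (((d + e).descFactorial e : ℕ) * a * q ^ e) ((Pool.Agent.H532R2.dif q)^[e] g) := by
  induction e with
  | zero => intro a g h q; simpa using h
  | succ e ih =>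
    intro a g h q
    have h' : IsP (d + e + 1) a g := h
    have h1 := ih (IsP.dif h' q) q
    rw [Function.iterate_succ_apply]
    convert h1 using 1
    rw [← Nat.add_assoc, Nat.succ_descFactorial_succ]
    push_cast
    ring

/-- Iterated differences for a list of increments with multiplicities. -/
def difs (F : List (R × ℕ)) (g : R → R) : R → R := F.foldr (fun p g => (dif p.1)^[p.2] g) g

theorem difs_pow (F : List (R × ℕ)) : ∀ d : ℕ, ∀ {a : R} {g : R → R},
    IsP (d + (F.map Prod.snd).sum) a g →
      IsP d (((d + (F.map Prod.snd).sum).descFactorial (F.map Prod.snd).sum : ℕ) * a *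
        (F.map fun p => p.1 ^ p.2).prod) (difs F g) := by
  induction F with
  | nil => intro d a g h; simpa [difs] using h
  | cons p F ih =>
    intro d a g h
    have e : d + ((p :: F).map Prod.snd).sum = (d + p.2) + (F.map Prod.snd).sum := by
      simp; ring
    rw [e] at h
    have h1 := (ih (d + p.2) h).dif_iter p.2 p.1
    change IsP d _ ((dif p.1)^[p.2] (difs F g))
    convert h1 using 1
    rw [e]
    simp only [List.map_cons, List.sum_cons, List.prod_cons]
    have h2 := Nat.descFactorial_mul_descFactorial (n := d + p.2 + (F.map Prod.snd).sum)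
      (k := (F.map Prod.snd).sum) (m := p.2 + (F.map Prod.snd).sum) (by omega)
    rw [Nat.add_sub_cancel, Nat.add_sub_cancel] at h2
    rw [← h2]
    push_cast
    ring

theorem difs_pow_zero (F : List (R × ℕ)) (m : ℕ) (hm : (F.map Prod.snd).sum = m) (y : R) :
    difs F (fun y => y ^ m) y = (m.factorial : R) * (F.map fun p => p.1 ^ p.2).prod := by
  have h := difs_pow F 0 (a := (1 : R)) (g := fun y => y ^ m) (by
    rw [zero_add, hm]
    exact IsP.pow m)
  rw [zero_add, hm, Nat.descFactorial_self, mul_one] at h
  obtain ⟨P, h1, h2, h3⟩ := h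
  rw [h3, Polynomial.eq_C_of_natDegree_le_zero h1, Polynomial.eval_C, h2]

end Pool.Agent.H532R2
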