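import Pool.Agent.H532R2.Bounds
import Pool.Agent.H532R2.Diff

/-!
# Expanding products of powers into sums of powers, as an algorithm on integer matrices
-/

namespace Pool.Agent.NPC.H532

open Pool.Agent.H532R2

/-- One step of Pascal's triangle with alternating signs. -/
def dstep (l : List ℤ) : List ℤ := ((0 :: l).zip (l ++ [0])).map fun p => p.1 - p.2

/-- The coefficients of `(x - 1) ^ e`, where `e` is the length of `u`. -/
def dl (u : List ℕ) : List ℤ := u.foldl (fun acc _ => dstep acc) [1]

/-- Adding multiples of a matrix, with weights. -/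
def spread (n : ℕ) (l : List ℤ) (A : Mat) (p : ℤ × Mat) : List (ℤ × Mat) :=
  l.zipIdx.map fun x => (p.1 * x.1, tab n fun i j => entry p.2 i j + (x.2 : ℤ) * entry A i j)

/-- The weighted matrices whose powers add up to a product of powers (up to a factorial). -/
def expand (n : ℕ) (c : ℤ) (F : List (Mat × List ℕ)) : List (ℤ × Mat) :=
  F.foldl (fun L p => L.flatMap (spread n (dl p.2) p.1)) [(c, [])]

/-! ### Correctness -/

section Correct

variable {R : Type*} [CommRing R]

/-- The weighted sum of the values of `g` along an arithmetic progression. -/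
def act (g : R → R) (q : R) : List ℤ → R → R
  | [], _ => 0
  | c :: l, y => c * g y + act g q l (y + q)

theorem act_sub (g : R → R) (q : R) : ∀ (l l' : List ℤ), l.length = l'.length → ∀ y,
    act g q ((l.zip l').map fun p => p.1 - p.2) y = act g q l y - act g q l' y
  | [], [], _, y => by simp [act]
  | a :: l, b :: l', h, y => by
    have ih := act_sub g q l l' (by simpa using h) (y + q)
    simp only [List.zip_cons_cons, List.map_cons, act, ih]
    push_cast
    ring

theorem act_append_zero (g : R → R) (q : R) : ∀ (l : List ℤ) (y : R),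
    act g q (l ++ [0]) y = act g q l y
  | [], y => by simp [act]
  | a :: l, y => by simp [act, act_append_zero g q l]

theorem act_dif (g : R → R) (q : R) : ∀ (l : List ℤ) (y : R),
    act (dif q g) q l y = act g q l (y + q) - act g q l y
  | [], y => by simp [act]
  | a :: l, y => by
    simp only [act, act_dif g q l, dif]
    ring

theorem act_dstep (g : R → R) (q : R) (l : List ℤ) (y : R) :
    act g q (dstep l) y = act (dif q g) q l y := by
  unfold dstep
  rw [act_sub g q _ _ (by simp), act_append_zero, act_dif]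
  simp [act]

theorem act_foldl (q : R) (u : List ℕ) : ∀ (l : List ℤ) (g : R → R) (y : R),
    act g q (u.foldl (fun acc _ => dstep acc) l) y = act ((dif q)^[u.length] g) q l y := by
  induction u using List.reverseRecOn with
  | nil => intro l g y; rfl
  | append_singleton u x ih =>
    intro l g y
    rw [List.foldl_append]
    simp only [List.foldl_cons, List.foldl_nil]
    rw [act_dstep, ih, List.length_append, List.length_singleton, Function.iterate_succ_apply]

theorem act_dl (q : R) (u : List ℕ) (g : R → R) (y : R) :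
    act g q (dl u) y = ((dif q)^[u.length] g) y := by
  unfold dl
  rw [act_foldl]
  simp [act]

/-- A linear map from matrices, compatible with tabulation. -/
def IsLin (n : ℕ) (Q : Mat → R) : Prop :=
  Q [] = 0 ∧ ∀ (S A : Mat) (k : ℕ),
    Q (tab n fun i j => entry S i j + (k : ℤ) * entry A i j) = Q S + k * Q A

/-- The weighted sum of the values of `g`. -/
def vals (Q : Mat → R) (g : R → R) (L : List (ℤ × Mat)) : R :=
  (L.map fun p => (p.1 : R) * g (Q p.2)).sum

theorem vals_spread {n : ℕ} {Q : Mat → R} (hQ : IsLin n Q) (g : R → R) (A : Mat) (p : ℤ × Mat)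
    (l : List ℤ) : vals Q g (spread n l A p) = p.1 * act g (Q A) l (Q p.2) := by
  have key : ∀ (l : List ℤ) (k : ℕ), vals Q g ((l.zipIdx k).map fun x =>
      (p.1 * x.1, tab n fun i j => entry p.2 i j + (x.2 : ℤ) * entry A i j)) =
      p.1 * act g (Q A) l (Q p.2 + k * Q A) := by
    intro l
    induction l with
    | nil => intro k; simp [vals, act]
    | cons a l ih =>
      intro k
      have h := ih (k + 1)
      unfold vals at h ⊢
      rw [List.zipIdx_cons, List.map_cons, List.map_cons, List.sum_cons, h, act]
      simp only [hQ.2]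
      push_cast
      rw [show Q p.2 + ((k : R) + 1) * Q A = Q p.2 + (k : R) * Q A + Q A by ring]
      ring
  have := key l 0
  simpa [spread] using this

theorem vals_flatMap {β : Type*} (Q : Mat → R) (g : R → R) (f : β → List (ℤ × Mat)) :
    ∀ L : List β, vals Q g (L.flatMap f) = (L.map fun p => vals Q g (f p)).sum
  | [] => by simp [vals]
  | p :: L => by
    have := vals_flatMap Q g f L
    unfold vals at this ⊢
    simp [this]

theorem vals_foldl {n : ℕ} {Q : Mat → R} (hQ : IsLin n Q) (F : List (Mat × List ℕ)) :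
    ∀ (L : List (ℤ × Mat)) (g : R → R),
      vals Q g (F.foldl (fun L p => L.flatMap (spread n (dl p.2) p.1)) L) =
        vals Q (difs (F.map fun p => (Q p.1, p.2.length)) g) L := by
  induction F with
  | nil => intro L g; simp [difs]
  | cons p F ih =>
    intro L g
    rw [List.foldl_cons, ih, vals_flatMap, List.map_cons]
    unfold vals
    congr 1
    refine List.map_congr_left fun x _ => ?_
    have := vals_spread hQ (difs (F.map fun p => (Q p.1, p.2.length)) g) p.1 x (dl p.2)
    unfold vals at this
    rw [this, act_dl]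
    rfl

theorem vals_expand {n : ℕ} {Q : Mat → R} (hQ : IsLin n Q) (c : ℤ) (F : List (Mat × List ℕ))
    (m : ℕ) (hm : (F.map fun p => p.2.length).sum = m) :
    vals Q (fun y => y ^ m) (expand n c F) =
      c * (m.factorial * (F.map fun p => Q p.1 ^ p.2.length).prod) := by
  unfold expand
  rw [vals_foldl hQ]
  unfold vals
  rw [List.map_singleton, List.sum_singleton, difs_pow_zero _ m (by
    rw [List.map_map]
    exact hm), List.map_map]
  rfl

end Correct

/-! ### Bounds -/

theorem dl_bound (u : List ℕ) : (dl u).length = u.length + 1 ∧ ∀ z ∈ dl u, ib z ≤ u.length + 1 := by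
  unfold dl
  induction u using List.reverseRecOn with
  | nil => simp [ib_one]
  | append_singleton u x ih =>
    rw [List.foldl_append]
    simp only [List.foldl_cons, List.foldl_nil]
    set l := u.foldl (fun acc _ => dstep acc) [1] with hl
    obtain ⟨h1, h2⟩ := ih
    unfold dstep
    refine ⟨by simp [h1], ?_⟩
    intro z hz
    rw [List.mem_map] at hz
    obtain ⟨p, hp, rfl⟩ := hz
    have hp' := List.of_mem_zip (a := p.1) (b := p.2) hp
    have h3 : ib p.1 ≤ u.length + 1 := by
      rcases List.mem_cons.1 hp'.1 with h | h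
      · rw [h, ib_zero]; omega
      · exact h2 _ h
    have h4 : ib p.2 ≤ u.length + 1 := by
      rcases List.mem_append.1 hp'.2 with h | h
      · exact h2 _ h
      · rw [List.mem_singleton.1 h, ib_zero]; omega
    have h5 := ib_add p.1 (-p.2)
    rw [ib_neg] at h5
    rw [sub_eq_add_neg, List.length_append, List.length_singleton]
    omega

theorem expand_bound (n : ℕ) (c : ℤ) (b e : ℕ) (F : List (Mat × List ℕ))
    (hF : ∀ p ∈ F, MB p.1 b ∧ p.2.length ≤ e) :
    (expand n c F).length = (F.map fun p => p.2.length + 1).prod ∧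
      ∀ x ∈ expand n c F, ib x.1 ≤ ib c + F.length * (e + 1) ∧ MB x.2 (F.length * (b + e + 1)) ∧
        sz x.2 ≤ n * (n * (4 * (F.length * (b + e + 1)) + 6) + 2) + 1 := by
  unfold expand
  induction F using List.reverseRecOn with
  | nil =>
    refine ⟨by simp, ?_⟩
    intro x hx
    simp only [List.foldl_nil, List.mem_singleton] at hx
    subst hx
    refine ⟨by simp, fun r hr => by simp at hr, by simp⟩
  | append_singleton F p ih =>
    obtain ⟨h1, h2⟩ := ih fun q hq => hF q (List.mem_append_left _ hq)
    obtain ⟨hp1, hp2⟩ := hF p (by simp)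
    rw [List.foldl_append]
    simp only [List.foldl_cons, List.foldl_nil]
    set L := F.foldl (fun L p => L.flatMap (spread n (dl p.2) p.1)) [(c, [])] with hL
    constructor
    · rw [List.length_flatMap, List.map_append, List.prod_append]
      have : ∀ x ∈ L, (spread n (dl p.2) p.1 x).length = p.2.length + 1 := by
        intro x _
        simp [spread, (dl_bound p.2).1]
      rw [List.map_congr_left this]
      simp [h1]
    · intro x hx
      rw [List.mem_flatMap] at hx
      obtain ⟨y, hy, hx⟩ := hx
      obtain ⟨h3, h4, h5⟩ := h2 y hy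
      unfold spread at hx
      rw [List.mem_map] at hx
      obtain ⟨z, hz, rfl⟩ := hx
      have hz' : z.1 ∈ dl p.2 ∧ z.2 < (dl p.2).length := by
        have := List.mem_zipIdx (x := z.1) (i := z.2) hz
        refine ⟨?_, by omega⟩
        rw [this.2.2]
        exact List.getElem_mem _
      have h6 := (dl_bound p.2).2 _ hz'.1
      rw [(dl_bound p.2).1] at hz'
      have hlen : (F ++ [p]).length = F.length + 1 := by simp
      have h7 : ∀ i j, ib (entry y.2 i j + (z.2 : ℤ) * entry p.1 i j) ≤
          (F.length + 1) * (b + e + 1) := by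
        intro i j
        have h8 := ib_add (entry y.2 i j) ((z.2 : ℤ) * entry p.1 i j)
        have h9 := ib_mul (z.2 : ℤ) (entry p.1 i j)
        rw [ib_natCast] at h9
        have h10 := Poly.size_le_self z.2
        have h11 := ib_entry_le h4 i j
        have h12 := ib_entry_le hp1 i j
        have h13 : (F.length + 1) * (b + e + 1) = F.length * (b + e + 1) + (b + e + 1) := by ring
        rw [h13]
        omega
      rw [hlen]
      refine ⟨?_, MB_tab fun i _ j _ => h7 i j, sz_tab_le fun i _ j _ => h7 i j⟩
      have h8 := ib_mul y.1 z.1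
      have h9 : (F.length + 1) * (e + 1) = F.length * (e + 1) + (e + 1) := by ring
      simp only
      rw [h9]
      omega

section PolyE

variable {α : Type} [TEnc α]

theorem Poly_dstep {l : α → List ℤ} (hl : Poly l) : Poly (fun a => dstep (l a)) := by
  unfold dstep
  refine Poly.map (F := fun _ (p : ℤ × ℤ) => p.1 - p.2)
    (Poly.zip (Poly.cons (Poly.const 0) hl) (Poly.append hl (Poly.const [0]))) ?_
  exact Poly_subZ (Poly.fst (Poly.snd Poly.id)) (Poly.snd (Poly.snd Poly.id))

theorem Poly_dl {u : α → List ℕ} (hu : Poly u) : Poly (fun a => dl (u a)) := by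
  unfold dl
  refine Poly_foldl (s := fun _ => ([1] : List ℤ)) (F := fun _ (acc : List ℤ) (_ : ℕ) => dstep acc)
    hu (Poly.const _) (Poly_dstep (Poly.fst (Poly.snd Poly.id)))
    (fun a => ((u a).length + 1) * (4 * ((u a).length + 1) + 6) + 1) ?_ ?_
  · have h := (PB.length hu).add (PB.const 1)
    exact (h.mul (((PB.const 4).mul h).add (PB.const 6))).add (PB.const 1)
  · intro a k hk
    obtain ⟨h1, h2⟩ := dl_bound ((u a).take k)
    change sz (dl ((u a).take k)) ≤ _
    have h3 : ((u a).take k).length ≤ (u a).length := by simp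
    refine (sz_list_le (B := 4 * ((u a).length + 1) + 5) ?_).trans ?_
    · intro z hz
      have := sz_int_le z
      have := h2 z hz
      omega
    · rw [h1]
      gcongr

theorem Poly_spread {n : α → ℕ} {l : α → List ℤ} {A : α → Mat} {p : α → ℤ × Mat} (hn : UPoly n)
    (hl : Poly l) (hA : Poly A) (hp : Poly p) :
    Poly (fun a => spread (n a) (l a) (A a) (p a)) := by
  unfold spread
  refine Poly.map (F := fun a (x : ℤ × ℕ) => ((p a).1 * x.1, tab (n a) fun i j =>
    entry (p a).2 i j + (x.2 : ℤ) * entry (A a) i j)) (Poly.zipIdx hl) ?_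
  refine Poly.pair (Poly_mulZ (Poly.fst (hp.comp (Poly.fst Poly.id)))
    (Poly.fst (Poly.snd Poly.id))) ?_
  refine Poly_tab (α := α × ℤ × ℕ) (n := fun x => n x.1) (f := fun x i j =>
    entry (p x.1).2 i j + (x.2.2 : ℤ) * entry (A x.1) i j) (hn.comp (Poly.fst Poly.id)) ?_
  have h1 : Poly (fun q : ((α × ℤ × ℕ) × ℕ) × ℕ => q.1.1.1) :=
    Poly.fst (Poly.fst (Poly.fst Poly.id))
  have h2 : Poly (fun q : ((α × ℤ × ℕ) × ℕ) × ℕ => q.1.2) := Poly.snd (Poly.fst Poly.id)
  have h3 : Poly (fun q : ((α × ℤ × ℕ) × ℕ) × ℕ => q.2) := Poly.snd Poly.id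
  have h4 : Poly (fun q : ((α × ℤ × ℕ) × ℕ) × ℕ => q.1.1.2.2) :=
    Poly.snd (Poly.snd (Poly.fst (Poly.fst Poly.id)))
  exact Poly_addZ (Poly_entry (Poly.snd (hp.comp h1)) h2 h3)
    (Poly_mulZ (Poly_ofNat h4) (Poly_entry (hA.comp h1) h2 h3))

theorem prod_take_le (l : List ℕ) (h : ∀ x ∈ l, 0 < x) (k : ℕ) : (l.take k).prod ≤ l.prod := by
  conv_rhs => rw [← List.take_append_drop k l, List.prod_append]
  have h1 : 0 < (l.drop k).prod := List.prod_pos fun x hx => h x (List.mem_of_mem_drop hx)
  exact Nat.le_mul_of_pos_right _ h1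

theorem Poly_expand {n : α → ℕ} {c : α → ℤ} {F : α → List (Mat × List ℕ)} (hn : UPoly n)
    (hc : Poly c) (hF : Poly F) (M : α → ℕ) (hM : PB M)
    (hprod : ∀ a, ((F a).map fun p => p.2.length + 1).prod ≤ M a) :
    Poly (fun a => expand (n a) (c a) (F a)) := by
  unfold expand
  have hstep : Poly (fun p : α × List (ℤ × Mat) × (Mat × List ℕ) =>
      p.2.1.flatMap (spread (n p.1) (dl p.2.2.2) p.2.2.1)) := by
    refine Poly.flatMap (α := α × List (ℤ × Mat) × (Mat × List ℕ)) (β := ℤ × Mat) (γ := ℤ × Mat)
      (l := fun p => p.2.1) (F := fun p x => spread (n p.1) (dl p.2.2.2) p.2.2.1 x)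
      (Poly.fst (Poly.snd Poly.id)) ?_
    have h1 : Poly (fun q : (α × List (ℤ × Mat) × (Mat × List ℕ)) × (ℤ × Mat) => q.1.1) :=
      Poly.fst (Poly.fst Poly.id)
    have h2 : Poly (fun q : (α × List (ℤ × Mat) × (Mat × List ℕ)) × (ℤ × Mat) => q.1.2.2) :=
      Poly.snd (Poly.snd (Poly.fst Poly.id))
    exact Poly_spread (hn.comp h1) (Poly_dl (Poly.snd h2)) (Poly.fst h2) (Poly.snd Poly.id)
  refine Poly_foldl (s := fun a => [(c a, ([] : Mat))])
    (F := fun a (L : List (ℤ × Mat)) (p : Mat × List ℕ) =>
      L.flatMap (spread (n a) (dl p.2) p.1)) hF (Poly.cons (Poly.pair hc (Poly.const _))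
        (Poly.const _)) hstep
    (fun a => M a * (((4 * (sz (c a) + (F a).length * (sz (F a) + 1)) + 5) +
      (n a * (n a * (4 * ((F a).length * (sz (F a) + sz (F a) + 1)) + 6) + 2) + 1) + 1) + 1) + 1)
    ?_ ?_
  · have hn' := PB.of_upoly hn
    have hc' := PB.sz hc
    have hF' := PB.sz hF
    have hl := PB.length hF
    have h1 : PB (fun a => sz (c a) + (F a).length * (sz (F a) + 1)) :=
      hc'.add (hl.mul (hF'.add (PB.const 1)))
    have h2 : PB (fun a => (F a).length * (sz (F a) + sz (F a) + 1)) :=
      hl.mul ((hF'.add hF').add (PB.const 1))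
    have h3 : PB (fun a => n a * (n a * (4 * ((F a).length * (sz (F a) + sz (F a) + 1)) + 6) + 2)
        + 1) := (hn'.mul ((hn'.mul (((PB.const 4).mul h2).add (PB.const 6))).add (PB.const 2))).add
      (PB.const 1)
    have h4 : PB (fun a => (4 * (sz (c a) + (F a).length * (sz (F a) + 1)) + 5) +
      (n a * (n a * (4 * ((F a).length * (sz (F a) + sz (F a) + 1)) + 6) + 2) + 1) + 1) :=
      ((((PB.const 4).mul h1).add (PB.const 5)).add h3).add (PB.const 1)
    exact (hM.mul (h4.add (PB.const 1))).add (PB.const 1)
  · intro a k hk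
    have hb := expand_bound (n a) (c a) (sz (F a)) (sz (F a)) ((F a).take k) (by
      intro p hp
      have hp' := List.mem_of_mem_take hp
      have h1 := sz_le_of_mem hp'
      have h2 : sz p = sz p.1 + sz p.2 + 1 := sz_pair p.1 p.2
      refine ⟨fun r hr z hz => ?_, ?_⟩
      · have := MB_sz p.1 r hr z hz
        omega
      · have := length_lt_sz p.2
        omega)
    change sz (expand (n a) (c a) ((F a).take k)) ≤ _
    obtain ⟨h1, h2⟩ := hb
    have hlen : ((F a).take k).length ≤ (F a).length := by simp
    refine (sz_list_le (B := (4 * (sz (c a) + (F a).length * (sz (F a) + 1)) + 5) +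
      (n a * (n a * (4 * ((F a).length * (sz (F a) + sz (F a) + 1)) + 6) + 2) + 1) + 1) ?_).trans ?_
    · intro x hx
      obtain ⟨h3, _, h5⟩ := h2 x hx
      have h6 : sz x = sz x.1 + sz x.2 + 1 := sz_pair x.1 x.2
      have h7 := sz_int_le x.1
      have h8 := ib_le_sz (c a)
      have h9 : ((F a).take k).length * (sz (F a) + 1) ≤ (F a).length * (sz (F a) + 1) := by gcongr
      have h10 : n a * (n a * (4 * (((F a).take k).length * (sz (F a) + sz (F a) + 1)) + 6) + 2)
          ≤ n a * (n a * (4 * ((F a).length * (sz (F a) + sz (F a) + 1)) + 6) + 2) := by gcongr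
      omega
    · rw [h1]
      have h3 : (((F a).take k).map fun p => p.2.length + 1).prod ≤ M a := by
        rw [List.map_take]
        refine (prod_take_le _ ?_ k).trans (hprod a)
        intro x hx
        rw [List.mem_map] at hx
        obtain ⟨p, _, rfl⟩ := hx
        omega
      gcongr

end PolyE

end Pool.Agent.NPC.H532
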