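import Mathlib

/-!
# The Fischer inner product on polynomials and powers of quadratic forms

`fis f g = ∑ α, α! f_α g_α`.  Multiplication by a variable is adjoint to differentiation.  From
this we get a recursion for the inner products of powers of two quadratic forms.
-/

namespace Pool.Agent.H532R2

open MvPolynomial Finset

variable {σ : Type*}

/-- The factorial of a multi-index. -/
noncomputable def mfac (α : σ →₀ ℕ) : ℚ := α.prod fun _ k => (k.factorial : ℚ)

theorem mfac_pos (α : σ →₀ ℕ) : 0 < mfac α := by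
  unfold mfac
  refine Finset.prod_pos fun i _ => ?_
  simpa using Nat.factorial_pos (α i)

theorem mfac_zero : mfac (0 : σ →₀ ℕ) = 1 := by simp [mfac]

theorem mfac_add_single (α : σ →₀ ℕ) (i : σ) :
    mfac (α + Finsupp.single i 1) = (α i + 1) * mfac α := by
  classical
  unfold mfac
  have h1 : (α + Finsupp.single i 1).prod (fun _ k => (k.factorial : ℚ)) =
      ∏ j ∈ insert i α.support, (((α + Finsupp.single i 1 : σ →₀ ℕ) j).factorial : ℚ) := by
    refine Finsupp.prod_of_support_subset _ ?_ _ (by intros; rfl)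
    intro j hj
    rw [Finsupp.mem_support_iff] at hj
    rw [Finset.mem_insert, Finsupp.mem_support_iff]
    by_contra h
    push Not at h
    apply hj
    rw [Finsupp.add_apply, h.2, Finsupp.single_eq_of_ne h.1, add_zero]
  have h2 : α.prod (fun _ k => (k.factorial : ℚ)) =
      ∏ j ∈ insert i α.support, ((α j).factorial : ℚ) :=
    Finsupp.prod_of_support_subset _ (Finset.subset_insert _ _) _ (by intros; rfl)
  rw [h1, h2, ← Finset.mul_prod_erase _ _ (Finset.mem_insert_self i _),
    ← Finset.mul_prod_erase (insert i α.support) (fun j => ((α j).factorial : ℚ))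
      (Finset.mem_insert_self i _)]
  have h3 : ∏ x ∈ (insert i α.support).erase i, (((α + Finsupp.single i 1 : σ →₀ ℕ) x).factorial : ℚ) =
      ∏ x ∈ (insert i α.support).erase i, ((α x).factorial : ℚ) := by
    refine Finset.prod_congr rfl fun j hj => ?_
    have hji : j ≠ i := Finset.ne_of_mem_erase hj
    rw [Finsupp.add_apply, Finsupp.single_eq_of_ne hji, add_zero]
  rw [h3, Finsupp.add_apply, Finsupp.single_eq_same, Nat.factorial_succ]
  push_cast
  ring

/-- The Fischer inner product. -/
noncomputable def fis (f g : MvPolynomial σ ℚ) : ℚ :=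
  ∑ α ∈ f.support, coeff α f * coeff α g * mfac α

theorem fis_eq_sum (f g : MvPolynomial σ ℚ) (s : Finset (σ →₀ ℕ)) (hs : f.support ⊆ s) :
    fis f g = ∑ α ∈ s, coeff α f * coeff α g * mfac α := by
  unfold fis
  refine Finset.sum_subset hs fun α _ hα => ?_
  rw [notMem_support_iff] at hα
  rw [hα]
  ring

theorem fis_add_left (f f' g : MvPolynomial σ ℚ) : fis (f + f') g = fis f g + fis f' g := by
  classical
  rw [fis_eq_sum (f + f') g (f.support ∪ f'.support) MvPolynomial.support_add,
    fis_eq_sum f g (f.support ∪ f'.support) Finset.subset_union_left,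
    fis_eq_sum f' g (f.support ∪ f'.support) Finset.subset_union_right, ← Finset.sum_add_distrib]
  refine Finset.sum_congr rfl fun α _ => ?_
  rw [coeff_add]
  ring

theorem fis_add_right (f g g' : MvPolynomial σ ℚ) : fis f (g + g') = fis f g + fis f g' := by
  unfold fis
  rw [← Finset.sum_add_distrib]
  refine Finset.sum_congr rfl fun α _ => ?_
  rw [coeff_add]
  ring

theorem fis_C_mul_left (c : ℚ) (f g : MvPolynomial σ ℚ) : fis (C c * f) g = c * fis f g := by
  classical
  rw [fis_eq_sum (C c * f) g f.support (by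
    intro α hα
    rw [mem_support_iff] at hα ⊢
    rw [coeff_C_mul] at hα
    exact right_ne_zero_of_mul hα), fis, Finset.mul_sum]
  refine Finset.sum_congr rfl fun α _ => ?_
  rw [coeff_C_mul]
  ring

theorem fis_C_mul_right (c : ℚ) (f g : MvPolynomial σ ℚ) : fis f (C c * g) = c * fis f g := by
  unfold fis
  rw [Finset.mul_sum]
  refine Finset.sum_congr rfl fun α _ => ?_
  rw [coeff_C_mul]
  ring

@[simp] theorem fis_zero_left (g : MvPolynomial σ ℚ) : fis 0 g = 0 := by simp [fis]

@[simp] theorem fis_zero_right (f : MvPolynomial σ ℚ) : fis f 0 = 0 := by simp [fis]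

theorem fis_sum_left {ι : Type*} (s : Finset ι) (f : ι → MvPolynomial σ ℚ) (g : MvPolynomial σ ℚ) :
    fis (∑ i ∈ s, f i) g = ∑ i ∈ s, fis (f i) g := by
  classical
  induction s using Finset.induction_on with
  | empty => simp
  | insert a s ha ih => rw [Finset.sum_insert ha, Finset.sum_insert ha, fis_add_left, ih]

theorem fis_sum_right {ι : Type*} (s : Finset ι) (f : MvPolynomial σ ℚ)
    (g : ι → MvPolynomial σ ℚ) : fis f (∑ i ∈ s, g i) = ∑ i ∈ s, fis f (g i) := by
  classical
  induction s using Finset.induction_on with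
  | empty => simp
  | insert a s ha ih => rw [Finset.sum_insert ha, Finset.sum_insert ha, fis_add_right, ih]

theorem fis_monomial_left (α : σ →₀ ℕ) (c : ℚ) (g : MvPolynomial σ ℚ) :
    fis (monomial α c) g = c * coeff α g * mfac α := by
  classical
  rw [fis_eq_sum _ g {α} support_monomial_subset, Finset.sum_singleton, coeff_monomial, if_pos rfl]

theorem fis_comm (f g : MvPolynomial σ ℚ) : fis f g = fis g f := by
  classical
  rw [fis_eq_sum f g (f.support ∪ g.support) Finset.subset_union_left,
    fis_eq_sum g f (f.support ∪ g.support) Finset.subset_union_right]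
  refine Finset.sum_congr rfl fun α _ => by ring

theorem fis_self_eq_zero (f : MvPolynomial σ ℚ) : fis f f = 0 ↔ f = 0 := by
  constructor
  · intro h
    unfold fis at h
    have h1 : ∀ α ∈ f.support, 0 ≤ coeff α f * coeff α f * mfac α := fun α _ =>
      mul_nonneg (mul_self_nonneg _) (mfac_pos α).le
    rw [Finset.sum_eq_zero_iff_of_nonneg h1] at h
    rw [← MvPolynomial.support_eq_empty, Finset.eq_empty_iff_forall_notMem]
    intro α hα
    have h2 := h α hα
    rw [mem_support_iff] at hα
    have h3 := (mfac_pos α).ne'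
    exact (mul_ne_zero (mul_ne_zero hα hα) h3) h2
  · rintro rfl
    simp

/-- Multiplication by a variable is adjoint to differentiation. -/
theorem fis_X_mul (i : σ) (f g : MvPolynomial σ ℚ) :
    fis (X i * f) g = fis f (pderiv i g) := by
  classical
  induction f using MvPolynomial.induction_on' with
  | monomial u a =>
    have h : X i * monomial u a = monomial (u + Finsupp.single i 1) a := by
      rw [mul_comm, X, monomial_mul, mul_one]
    rw [h, fis_monomial_left, fis_monomial_left, coeff_pderiv, mfac_add_single]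
    ring
  | add p q hp hq => rw [mul_add, fis_add_left, fis_add_left, hp, hq]

/-! ### Powers of quadratic forms -/

section Quad

variable {ι : Type*} [Fintype ι] [DecidableEq ι]

/-- The quadratic form of a matrix. -/
noncomputable def qf (S : Matrix ι ι ℚ) : MvPolynomial ι ℚ := ∑ i, ∑ j, C (S i j) * (X i * X j)

/-- The linear form given by a row of a matrix. -/
noncomputable def lf (S : Matrix ι ι ℚ) (i : ι) : MvPolynomial ι ℚ := ∑ j, C (S i j) * X j

theorem pderiv_qf (S : Matrix ι ι ℚ) (hS : S.transpose = S) (k : ι) :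
    pderiv k (qf S) = C 2 * lf S k := by
  have hs : ∀ i j, S i j = S j i := fun i j => by
    conv_lhs => rw [← hS]
    rfl
  unfold qf lf
  have h1 : ∀ i j : ι, pderiv k (C (S i j) * ((X i : MvPolynomial ι ℚ) * X j)) =
      (if j = k then C (S i k) * X i else 0) + (if i = k then C (S k j) * X j else 0) := by
    intro i j
    rw [pderiv_C_mul, Derivation.leibniz, pderiv_X, pderiv_X, smul_eq_mul, smul_eq_mul]
    by_cases hj : j = k <;> by_cases hi : i = k
    · subst hj; subst hi; simp; ring
    · subst hj; simp [hi]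
    · subst hi; simp [hj]
    · simp [hj, hi]
  simp only [map_sum, h1, Finset.sum_add_distrib]
  simp only [Finset.sum_ite_eq', Finset.mem_univ, if_true]
  have h2 : ∑ i, ∑ j, (if i = k then C (S k j) * (X j : MvPolynomial ι ℚ) else 0) =
      ∑ j, C (S k j) * (X j : MvPolynomial ι ℚ) := by
    rw [Finset.sum_comm]
    refine Finset.sum_congr rfl fun j _ => ?_
    simp
  rw [h2, ← Finset.sum_add_distrib, Finset.mul_sum]
  refine Finset.sum_congr rfl fun j _ => ?_
  rw [hs j k]
  rw [show (C 2 : MvPolynomial ι ℚ) = 2 from rfl]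
  ring

theorem fis_lin_lin (S : Matrix ι ι ℚ) (hS : S.transpose = S) (T : Matrix ι ι ℚ)
    (a b : ℕ) (j l : ι) :
    fis (X j * qf S ^ a) (X l * qf T ^ b) = (if j = l then fis (qf S ^ a) (qf T ^ b) else 0) +
      2 * a * ∑ k, S l k * fis (X j * X k * qf S ^ (a - 1)) (qf T ^ b) := by
  rw [fis_comm, fis_X_mul, fis_comm, Derivation.leibniz, fis_add_left, Derivation.leibniz_pow,
    pderiv_qf S hS, pderiv_X, add_comm]
  congr 1
  · by_cases h : j = l
    · subst h
      simp
    · rw [if_neg h]
      simp [h]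
  · have h1 : (X j : MvPolynomial ι ℚ) • (a • qf S ^ (a - 1) • (C 2 * lf S l)) =
        ∑ k, C (2 * a * S l k) * (X j * X k * qf S ^ (a - 1)) := by
      unfold lf
      simp only [smul_eq_mul, nsmul_eq_mul, Finset.mul_sum]
      refine Finset.sum_congr rfl fun k _ => ?_
      rw [C_mul, C_mul]
      have : (C (a : ℚ) : MvPolynomial ι ℚ) = (a : MvPolynomial ι ℚ) := by simp
      rw [this]
      ring
    rw [h1, fis_sum_left, Finset.mul_sum]
    refine Finset.sum_congr rfl fun k _ => ?_
    rw [fis_C_mul_left]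
    ring

omit [DecidableEq ι] in
theorem fis_qf_mul (D : Matrix ι ι ℚ) (f g : MvPolynomial ι ℚ) :
    fis (qf D * f) g = ∑ i, ∑ j, D i j * fis (X i * X j * f) g := by
  unfold qf
  simp only [Finset.sum_mul, fis_sum_left]
  refine Finset.sum_congr rfl fun i _ => Finset.sum_congr rfl fun j _ => ?_
  rw [mul_assoc, fis_C_mul_left]

theorem fis_step (D S T : Matrix ι ι ℚ) (hS : S.transpose = S) (hT : T.transpose = T) (a b : ℕ) :
    fis (qf D * qf S ^ a) (qf T ^ (b + 1)) = 2 * (b + 1) * ((T * D).trace * fis (qf S ^ a) (qf T ^ b)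
      + 2 * a * fis (qf (S * T * D) * qf S ^ (a - 1)) (qf T ^ b)) := by
  have hs : ∀ i j, S i j = S j i := fun i j => by
    conv_lhs => rw [← hS]
    rfl
  have ht : ∀ i j, T i j = T j i := fun i j => by
    conv_lhs => rw [← hT]
    rfl
  rw [fis_qf_mul]
  have h1 : ∀ i j : ι, fis (X i * X j * qf S ^ a) (qf T ^ (b + 1)) =
      2 * (b + 1) * ∑ l, T i l * fis (X j * qf S ^ a) (X l * qf T ^ b) := by
    intro i j
    rw [mul_assoc, fis_X_mul, Derivation.leibniz_pow, pderiv_qf T hT, Nat.add_sub_cancel]
    have h2 : (b + 1) • qf T ^ b • (C 2 * lf T i) =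
        ∑ l, C (2 * ((b : ℚ) + 1) * T i l) * (X l * qf T ^ b) := by
      unfold lf
      simp only [smul_eq_mul, nsmul_eq_mul, Finset.mul_sum]
      refine Finset.sum_congr rfl fun k _ => ?_
      rw [C_mul, C_mul]
      have : (C ((b : ℚ) + 1) : MvPolynomial ι ℚ) = ((b + 1 : ℕ) : MvPolynomial ι ℚ) := by simp
      rw [this]
      ring
    rw [h2, fis_sum_right, Finset.mul_sum]
    refine Finset.sum_congr rfl fun l _ => ?_
    rw [fis_C_mul_right]
    ring
  set F := fis (qf S ^ a) (qf T ^ b) with hF
  set Φ : ι → ι → ℚ := fun j k => fis (X j * X k * qf S ^ (a - 1)) (qf T ^ b) with hΦ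
  have hΦs : ∀ j k, Φ j k = Φ k j := fun j k => by
    simp only [hΦ]
    rw [mul_comm (X j : MvPolynomial ι ℚ) (X k)]
  have h3 : ∀ j l : ι, fis (X j * qf S ^ a) (X l * qf T ^ b) =
      (if j = l then F else 0) + 2 * a * ∑ k, S l k * Φ j k := fun j l => fis_lin_lin S hS T a b j l
  simp only [h1, h3]
  rw [fis_qf_mul]
  have e1 : (T * D).trace = ∑ i, ∑ j, D i j * T i j := by
    rw [Matrix.trace, Finset.sum_comm]
    refine Finset.sum_congr rfl fun j _ => ?_
    rw [Matrix.diag_apply, Matrix.mul_apply]
    refine Finset.sum_congr rfl fun i _ => ?_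
    rw [ht j i]
    ring
  have e2 : ∑ k, ∑ j, (S * T * D) k j * fis (X k * X j * qf S ^ (a - 1)) (qf T ^ b) =
      ∑ i, ∑ j, D i j * ∑ l, T i l * ∑ k, S l k * Φ j k := by
    have : ∀ k j, (S * T * D) k j * fis (X k * X j * qf S ^ (a - 1)) (qf T ^ b) =
        ∑ i, ∑ l, D i j * (T i l * (S l k * Φ j k)) := by
      intro k j
      change _ * Φ k j = _
      rw [hΦs k j, Matrix.mul_apply, Finset.sum_mul]
      refine Finset.sum_congr rfl fun i _ => ?_
      rw [Matrix.mul_apply, Finset.sum_mul, Finset.sum_mul]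
      refine Finset.sum_congr rfl fun l _ => ?_
      rw [hs k l, ht l i]
      ring
    simp only [this, Finset.mul_sum]
    rw [Finset.sum_comm]
    conv_lhs => enter [2, j]; rw [Finset.sum_comm]
    rw [Finset.sum_comm]
    refine Finset.sum_congr rfl fun i _ => Finset.sum_congr rfl fun j _ => ?_
    rw [Finset.sum_comm]
  rw [e1, e2]
  have e3 : ∀ i j : ι, D i j * (2 * ((b : ℚ) + 1) * ∑ l, T i l * ((if j = l then F else 0) +
      2 * a * ∑ k, S l k * Φ j k)) = 2 * (b + 1) * (D i j * T i j * F) +
      2 * (b + 1) * (2 * a * (D i j * ∑ l, T i l * ∑ k, S l k * Φ j k)) := by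
    intro i j
    have : ∑ l, T i l * ((if j = l then F else 0) + 2 * a * ∑ k, S l k * Φ j k) =
        T i j * F + 2 * a * ∑ l, T i l * ∑ k, S l k * Φ j k := by
      simp only [mul_add, Finset.sum_add_distrib]
      congr 1
      · simp
      · rw [Finset.mul_sum]
        refine Finset.sum_congr rfl fun l _ => by ring
    rw [this]
    ring
  simp only [e3, Finset.sum_add_distrib, ← Finset.mul_sum, ← Finset.sum_mul]
  ring

end Quad

end Pool.Agent.H532R2
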