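import Pool.Agent.NPC.Num

/-!
# Polynomial-time closure properties for integers and matrices of integers
-/

namespace Pool.Agent.NPC.H532

variable {α β γ σ : Type} [TEnc α] [TEnc β] [TEnc γ] [TEnc σ]

/-- The integer with given sign bit and absolute value. -/
def mkInt (s : Bool) (m : ℕ) : ℤ := if s then -(m : ℤ) else m

theorem toT_int (z : ℤ) : toT z = toT (decide (z < 0), z.natAbs) := rfl

theorem toT_mkInt (s : Bool) (m : ℕ) : toT (mkInt s m) = toT ((s && !(decide (m = 0))), m) := by
  rw [toT_int]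
  unfold mkInt
  cases s
  · have : decide ((m : ℤ) < 0) = false := by rw [decide_eq_false_iff_not]; omega
    simp [this]
  · by_cases hm : m = 0
    · subst hm; simp
    · have : decide (-(m : ℤ) < 0) = true := by rw [decide_eq_true_iff]; omega
      simp only [if_true, this, hm, decide_false, Bool.not_false, Bool.and_true, toT_pair,
        Int.natAbs_neg, Int.natAbs_natCast]

theorem mkInt_self (z : ℤ) : mkInt (decide (z < 0)) z.natAbs = z := by
  unfold mkInt
  by_cases h : z < 0
  · rw [decide_eq_true h, if_pos rfl]; omega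
  · rw [decide_eq_false h, if_neg (by simp)]; omega

/-- The bit length of an integer. -/
def ib (z : ℤ) : ℕ := z.natAbs.size

theorem sz_int_le (z : ℤ) : sz z ≤ 4 * ib z + 5 := by
  have h : sz z = sz (decide (z < 0), z.natAbs) := rfl
  rw [h, sz_pair]
  have h1 := sz_bool_le (decide (z < 0))
  have h2 := sz_nat_le z.natAbs
  unfold ib
  omega

theorem ib_le_sz (z : ℤ) : ib z ≤ sz z := by
  have h : sz z = sz (decide (z < 0), z.natAbs) := rfl
  rw [h, sz_pair]
  have h2 := size_le_sz z.natAbs
  unfold ib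
  omega

theorem ib_le_iff (z : ℤ) (n : ℕ) : ib z ≤ n ↔ z.natAbs < 2 ^ n := Nat.size_le

theorem ib_zero : ib 0 = 0 := by simp [ib]

theorem ib_one : ib 1 = 1 := by simp [ib]

theorem ib_mul (a b : ℤ) : ib (a * b) ≤ ib a + ib b := by
  rw [ib_le_iff, Int.natAbs_mul, pow_add]
  have h1 := (ib_le_iff a _).1 le_rfl
  have h2 := (ib_le_iff b _).1 le_rfl
  exact Nat.mul_lt_mul'' h1 h2

theorem ib_neg (a : ℤ) : ib (-a) = ib a := by simp [ib]

theorem ib_add (a b : ℤ) : ib (a + b) ≤ max (ib a) (ib b) + 1 := by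
  rw [ib_le_iff, pow_succ]
  have h1 := (ib_le_iff a _).1 (le_max_left (ib a) (ib b))
  have h2 := (ib_le_iff b _).1 (le_max_right (ib a) (ib b))
  have := Int.natAbs_add_le a b
  omega

theorem ib_natCast (n : ℕ) : ib (n : ℤ) = n.size := by simp [ib]

/-- Bit length of a sum of `n` integers. -/
theorem ib_list_sum (l : List ℤ) (b : ℕ) (h : ∀ z ∈ l, ib z ≤ b) :
    ib l.sum ≤ b + l.length.size := by
  have h1 : ∀ l : List ℤ, (∀ z ∈ l, ib z ≤ b) → l.sum.natAbs ≤ l.length * (2 ^ b - 1) := by
    intro l hl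
    induction l with
    | nil => simp
    | cons a l ih =>
      have h2 := ih fun z hz => hl z (List.mem_cons_of_mem _ hz)
      have h3 := (ib_le_iff a b).1 (hl a (by simp))
      have h4 := Int.natAbs_add_le a l.sum
      rw [List.sum_cons, List.length_cons, add_mul, one_mul]
      omega
  rw [ib_le_iff, pow_add]
  have h2 := h1 l h
  have h3 : l.length < 2 ^ l.length.size := Nat.lt_size_self _
  have h4 : 0 < 2 ^ b := by positivity
  calc l.sum.natAbs ≤ l.length * (2 ^ b - 1) := h2
    _ ≤ l.length * 2 ^ b := Nat.mul_le_mul_left _ (Nat.sub_le _ _)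
    _ < 2 ^ l.length.size * 2 ^ b := Nat.mul_lt_mul_of_pos_right h3 h4
    _ = 2 ^ b * 2 ^ l.length.size := mul_comm _ _

/-! ### Closure properties -/

theorem Poly_natAbs {f : α → ℤ} (hf : Poly f) : Poly (fun a => (f a).natAbs) :=
  Poly.snd (f := fun a => (decide (f a < 0), (f a).natAbs)) hf

theorem Poly_isNeg {f : α → ℤ} (hf : Poly f) : Poly (fun a => decide (f a < 0)) :=
  Poly.fst (f := fun a => (decide (f a < 0), (f a).natAbs)) hf

theorem Poly_mkInt {s : α → Bool} {m : α → ℕ} (hs : Poly s) (hm : Poly m) :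
    Poly (fun a => mkInt (s a) (m a)) := by
  refine Poly.of_toT ?_
  have h : Poly (fun a => ((s a && !(decide (m a = 0))), m a)) :=
    Poly.pair (Poly.and hs (Poly.not (Poly.decide_eq hm (Poly.const 0)))) hm
  exact h.toT'.congr fun a => (toT_mkInt _ _).symm

theorem Poly_neg {f : α → ℤ} (hf : Poly f) : Poly (fun a => -(f a)) := by
  refine (Poly_mkInt (Poly.not (Poly_isNeg hf)) (Poly_natAbs hf)).congr fun a => ?_
  unfold mkInt
  by_cases h : f a < 0
  · rw [decide_eq_true h, Bool.not_true, if_neg (by simp)]; omega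
  · rw [decide_eq_false h, Bool.not_false, if_pos rfl]; omega

theorem Poly_ofNat {m : α → ℕ} (hm : Poly m) : Poly (fun a => (m a : ℤ)) :=
  (Poly_mkInt (Poly.const false) hm).congr fun a => by simp [mkInt]

theorem Poly_mulZ {f g : α → ℤ} (hf : Poly f) (hg : Poly g) : Poly (fun a => f a * g a) := by
  refine (Poly_mkInt (Poly.xor (Poly_isNeg hf) (Poly_isNeg hg))
    (Poly.mul (Poly_natAbs hf) (Poly_natAbs hg))).congr fun a => ?_
  conv_rhs => rw [← mkInt_self (f a), ← mkInt_self (g a)]
  unfold mkInt
  by_cases h : f a < 0 <;> by_cases h' : g a < 0 <;> simp [h, h']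

theorem Poly_addZ {f g : α → ℤ} (hf : Poly f) (hg : Poly g) : Poly (fun a => f a + g a) := by
  have h1 := Poly_isNeg hf
  have h2 := Poly_isNeg hg
  have h3 := Poly_natAbs hf
  have h4 := Poly_natAbs hg
  refine (Poly.cond (Poly.xor h1 h2)
    (Poly.cond (Poly.decide_le h4 h3) (Poly_mkInt h1 (Poly.sub h3 h4))
      (Poly_mkInt h2 (Poly.sub h4 h3)))
    (Poly_mkInt h1 (Poly.add h3 h4))).congr fun a => ?_
  unfold mkInt
  by_cases h : f a < 0 <;> by_cases h' : g a < 0 <;>
    by_cases h'' : (g a).natAbs ≤ (f a).natAbs <;>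
    simp only [h, h', h'', decide_true, decide_false, Bool.xor_self, Bool.xor_true, Bool.xor_false,
      Bool.not_false, cond_true, cond_false, if_true, Bool.false_eq_true,
      if_false] <;> omega

theorem Poly_subZ {f g : α → ℤ} (hf : Poly f) (hg : Poly g) : Poly (fun a => f a - g a) :=
  (Poly_addZ hf (Poly_neg hg)).congr fun a => by ring

theorem Poly_sumZ {l : α → List ℤ} (hl : Poly l) : Poly (fun a => (l a).sum) := by
  obtain ⟨r, hr⟩ := hl.sz_le
  refine (Poly.foldl (s := fun _ => (0 : ℤ)) (F := fun _ s b => s + b) hl (Poly.const _)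
    (Poly_addZ (Poly.fst (Poly.snd Poly.id)) (Poly.snd (Poly.snd Poly.id)))
    (Polynomial.C 8 * r + Polynomial.C 5) ?_).congr fun a => ?_
  · intro a k hk
    have e : ((l a).take k).foldl (fun s b => s + b) 0 = ((l a).take k).sum :=
      List.sum_eq_foldl.symm
    rw [e]
    have h1 := sz_int_le ((l a).take k).sum
    have h2 := ib_list_sum ((l a).take k) (sz (l a)) (by
      intro z hz
      exact (ib_le_sz z).trans (sz_le_of_mem (List.mem_of_mem_take hz)).le)
    have h3 : ((l a).take k).length.size ≤ sz (l a) := by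
      have := length_lt_sz (l a)
      have := Poly.size_le_self ((l a).take k).length
      have h5 : ((l a).take k).length ≤ (l a).length := by simp
      omega
    have h4 := hr a
    simp only [Polynomial.eval_add, Polynomial.eval_mul, Polynomial.eval_C]
    omega
  · exact List.sum_eq_foldl.symm

/-! ### Matrices of integers -/

/-- Matrices as lists of rows. -/
abbrev Mat : Type := List (List ℤ)

/-- An entry of a matrix, zero outside the given entries. -/
def entry (A : Mat) (i j : ℕ) : ℤ := (A.getD i []).getD j 0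

/-- The `n × n` matrix with given entries. -/
def tab (n : ℕ) (f : ℕ → ℕ → ℤ) : Mat :=
  (List.range n).map fun i => (List.range n).map fun j => f i j

theorem entry_tab {n : ℕ} (f : ℕ → ℕ → ℤ) {i j : ℕ} (hi : i < n) (hj : j < n) :
    entry (tab n f) i j = f i j := by
  unfold entry tab
  have h1 : ((List.range n).map fun i => (List.range n).map fun j => f i j).getD i [] =
      (List.range n).map fun j => f i j := by
    rw [List.getD_eq_getElem _ _ (by simpa using hi)]
    simp
  rw [h1, List.getD_eq_getElem _ _ (by simpa using hj)]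
  simp

/-- Matrix product. -/
def mmul (n : ℕ) (A B : Mat) : Mat :=
  tab n fun i j => ((List.range n).map fun k => entry A i k * entry B k j).sum

/-- Trace. -/
def mtr (n : ℕ) (A : Mat) : ℤ := ((List.range n).map fun i => entry A i i).sum

theorem Poly_entry {A : α → Mat} {i j : α → ℕ} (hA : Poly A) (hi : Poly i) (hj : Poly j) :
    Poly (fun a => entry (A a) (i a) (j a)) := by
  unfold entry
  exact Poly.getD (Poly.getD hA hi (Poly.const _)) hj (Poly.const _)

theorem Poly_tab {n : α → ℕ} {f : α → ℕ → ℕ → ℤ} (hn : UPoly n)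
    (hf : Poly (fun p : (α × ℕ) × ℕ => f p.1.1 p.1.2 p.2)) :
    Poly (fun a => tab (n a) (f a)) := by
  unfold tab
  refine Poly.map (F := fun a i => (List.range (n a)).map fun j => f a i j) hn.range ?_
  exact Poly.map (α := α × ℕ) (F := fun p j => f p.1 p.2 j) (hn.comp (Poly.fst Poly.id)).range hf

theorem Poly_mmul {n : α → ℕ} {A B : α → Mat} (hn : UPoly n) (hA : Poly A) (hB : Poly B) :
    Poly (fun a => mmul (n a) (A a) (B a)) := by
  unfold mmul
  refine Poly_tab (f := fun a i j => ((List.range (n a)).map fun k =>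
    entry (A a) i k * entry (B a) k j).sum) hn ?_
  refine Poly_sumZ ?_
  have h1 : Poly (fun p : (α × ℕ) × ℕ => p.1.1) := Poly.fst (Poly.fst Poly.id)
  refine Poly.map (α := (α × ℕ) × ℕ)
    (F := fun p k => entry (A p.1.1) p.1.2 k * entry (B p.1.1) k p.2) (hn.comp h1).range ?_
  have h2 : Poly (fun p : ((α × ℕ) × ℕ) × ℕ => p.1.1.1) := Poly.fst (Poly.fst (Poly.fst Poly.id))
  have h3 : Poly (fun p : ((α × ℕ) × ℕ) × ℕ => p.1.1.2) := Poly.snd (Poly.fst (Poly.fst Poly.id))
  have h4 : Poly (fun p : ((α × ℕ) × ℕ) × ℕ => p.1.2) := Poly.snd (Poly.fst Poly.id)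
  have h5 : Poly (fun p : ((α × ℕ) × ℕ) × ℕ => p.2) := Poly.snd Poly.id
  exact Poly_mulZ (Poly_entry (hA.comp h2) h3 h5) (Poly_entry (hB.comp h2) h5 h4)

theorem Poly_mtr {n : α → ℕ} {A : α → Mat} (hn : UPoly n) (hA : Poly A) :
    Poly (fun a => mtr (n a) (A a)) := by
  unfold mtr
  refine Poly_sumZ (Poly.map (F := fun a i => entry (A a) i i) hn.range ?_)
  exact Poly_entry (hA.comp (Poly.fst Poly.id)) (Poly.snd Poly.id) (Poly.snd Poly.id)

/-- All entries have bit length at most `b`. -/
def MB (A : Mat) (b : ℕ) : Prop := ∀ r ∈ A, ∀ z ∈ r, ib z ≤ b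

theorem ib_entry_le {A : Mat} {b : ℕ} (h : MB A b) (i j : ℕ) : ib (entry A i j) ≤ b := by
  unfold entry
  by_cases hi : i < A.length
  · rw [List.getD_eq_getElem _ _ hi]
    by_cases hj : j < A[i].length
    · rw [List.getD_eq_getElem _ _ hj]
      exact h _ (List.getElem_mem _) _ (List.getElem_mem _)
    · rw [List.getD_eq_default _ _ (not_lt.1 hj), ib_zero]
      exact Nat.zero_le _
  · rw [List.getD_eq_default _ _ (not_lt.1 hi)]
    simp [ib_zero]

theorem MB_sz (A : Mat) : MB A (sz A) := fun _ hr z hz =>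
  (ib_le_sz z).trans ((sz_le_of_mem hz).le.trans (sz_le_of_mem hr).le)

theorem MB_tab {n : ℕ} {f : ℕ → ℕ → ℤ} {b : ℕ} (h : ∀ i < n, ∀ j < n, ib (f i j) ≤ b) :
    MB (tab n f) b := by
  intro r hr z hz
  unfold tab at hr
  simp only [List.mem_map, List.mem_range] at hr
  obtain ⟨i, hi, rfl⟩ := hr
  simp only [List.mem_map, List.mem_range] at hz
  obtain ⟨j, hj, rfl⟩ := hz
  exact h i hi j hj

theorem sz_tab_le {n : ℕ} {f : ℕ → ℕ → ℤ} {b : ℕ} (h : ∀ i < n, ∀ j < n, ib (f i j) ≤ b) :
    sz (tab n f) ≤ n * (n * (4 * b + 6) + 2) + 1 := by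
  unfold tab
  refine (sz_le_length_mul _ (n * (4 * b + 6) + 1) ?_).trans (by simp)
  intro r hr
  simp only [List.mem_map, List.mem_range] at hr
  obtain ⟨i, hi, rfl⟩ := hr
  refine (sz_le_length_mul _ (4 * b + 5) ?_).trans (by simp)
  intro z hz
  simp only [List.mem_map, List.mem_range] at hz
  obtain ⟨j, hj, rfl⟩ := hz
  have := sz_int_le (f i j)
  have := h i hi j hj
  omega

theorem MB_mmul {n : ℕ} {A B : Mat} {a b : ℕ} (hA : MB A a) (hB : MB B b) :
    ∀ i j, ib (((List.range n).map fun k => entry A i k * entry B k j).sum) ≤ a + b + n.size := by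
  intro i j
  have := ib_list_sum ((List.range n).map fun k => entry A i k * entry B k j) (a + b) (by
    intro z hz
    simp only [List.mem_map, List.mem_range] at hz
    obtain ⟨k, _, rfl⟩ := hz
    have h1 := ib_mul (entry A i k) (entry B k j)
    have h2 := ib_entry_le hA i k
    have h3 := ib_entry_le hB k j
    omega)
  simpa using this

/-- From a polynomial-time function between encoded types to a Turing machine of Mathlib. -/
theorem Poly.toTM {f : α → β} (h : Poly f) :
    Nonempty (Turing.TM2ComputableInPolyTime (bits : α → List Bool) (bits : β → List Bool) f) := by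
  obtain ⟨c, p, h⟩ := h
  have key : ∀ x : α, ∃ t, t ≤ p.eval (bits x).length + 1 ∧
      Nonempty (Turing.TM2OutputsInTime (c.map (Fin.ofNat (c.bd + 1))).toTM (bits x)
        (some (bits (f x))) t) := by
    intro x
    obtain ⟨t, ht, hr⟩ := h x
    have h1 := hr.restrict (n := c.bd) (by omega)
    refine ⟨t + 1, by simpa using ht, toTM_outputs ?_⟩
    convert! h1 using 1
    · funext i
      by_cases hi : i = 0
      · subst hi; simp [inp]
      · have : (i : ℕ) ≠ 0 := fun h => hi (Fin.ext h)
        simp [inp, hi, this]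
    · funext i
      by_cases hi : i = 0
      · subst hi; simp [inp]
      · have : (i : ℕ) ≠ 0 := fun h => hi (Fin.ext h)
        simp [inp, hi, this]
  refine ⟨{ tm := (c.map (Fin.ofNat (c.bd + 1))).toTM
            inputAlphabet := Equiv.refl Bool
            outputAlphabet := Equiv.refl Bool
            time := p + 1
            outputsFun := ?_ }⟩
  intro x
  have hx := key x
  have ht := hx.choose_spec.1
  have hm := hx.choose_spec.2.some
  refine outputs_conv (List.map_id _).symm (List.map_id _).symm (ht.trans ?_) hm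
  simp

end Pool.Agent.NPC.H532
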