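import Pool.Agent.NPC.Defs

/-!
# Sums of products of variable-disjoint bivariate polynomials: definitions
-/

namespace Pool.Agent.H532R2.PairSum

open Pool.Agent.NPC MvPolynomial

/-- A matrix of rational numbers, given by the list of its rows (of arbitrary lengths). -/
abbrev QMat : Type := List (List ℚ)

/-- The entry of a matrix in row `i` and column `j` (zero if it is not there). -/
def qentry (A : QMat) (i j : ℕ) : ℚ := (A.getD i []).getD j 0

/-- The bivariate polynomial `∑ₐᵦ Gₐᵦ x_u ^ a x_v ^ b`. -/
noncomputable def biv (u v : ℕ) (G : QMat) : MvPolynomial ℕ ℚ :=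
  ∑ a ∈ Finset.range G.length, ∑ b ∈ Finset.range (G.getD a []).length,
    C (qentry G a b) * (X u ^ a * X v ^ b)

/-- The inputs: a list of summands; a summand `(c, [(u₁, v₁, G₁), …, (uᵣ, vᵣ, Gᵣ)])` stands for
`c * g₁ * ⋯ * gᵣ`, where `gⱼ` is the polynomial in the two variables `x_uⱼ`, `x_vⱼ` with
coefficient matrix `Gⱼ`. -/
abbrev Input : Type := List (ℚ × List (ℕ × ℕ × QMat))

/-- The polynomial computed by an input. -/
noncomputable def value (I : Input) : MvPolynomial ℕ ℚ :=
  (I.map fun t => C t.1 * (t.2.map fun p => biv p.1 p.2.1 p.2.2).prod).sum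

/-- In each summand the factors have pairwise disjoint pairs of variables: the variables
`u₁, v₁, u₂, v₂, …, uᵣ, vᵣ` of the summand are pairwise distinct. -/
def Disjoint (I : Input) : Prop :=
  ∀ t ∈ I, (t.2.flatMap fun p => [p.1, p.2.1]).Nodup

end Pool.Agent.H532R2.PairSum
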