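import Pool.Agent.H532R2.Bounds
import Pool.Agent.H532R2.PairDefs

/-!
# Contracting networks in which each variable occurs at most twice
-/

namespace Pool.Agent.NPC.H532

open Finset

/-- An edge: two legs (`0` is a dummy leg) and a matrix. -/
abbrev Edge : Type := ℕ × ℕ × Mat

/-- The value of a network at an assignment of the legs. -/
def W (E : List Edge) (α : ℕ → ℕ) : ℤ := (E.map fun e => entry e.2.2 (α e.1) (α e.2.1)).prod

/-- Transposition. -/
def mtrans (N : ℕ) (A : Mat) : Mat := tab N fun i j => entry A j i

/-- The edge `e` containing the leg `v`, oriented such that `v` is the second leg. -/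
def orient (N v : ℕ) (e : Edge) : ℕ × Mat :=
  bif decide (e.2.1 = v) then (e.1, tab N fun i j => entry e.2.2 i j)
  else (e.2.1, mtrans N e.2.2)

/-- Does the edge contain the leg `v`? -/
def touches (v : ℕ) (e : Edge) : Bool := decide (e.1 = v) || decide (e.2.1 = v)

/-- The matrix of size `1`. -/
def scal (z : ℤ) : Edge := (0, 0, [[z]])

/-- The edge that replaces the edges containing the leg `v`. -/
def merge (N v : ℕ) : List Edge → Edge
  | [] => scal N
  | [e] => bif decide (e.1 = v) && decide (e.2.1 = v) then scal (mtr N e.2.2)
      else ((orient N v e).1, 0, tab N fun i _ =>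
        ((List.range N).map fun k => entry (orient N v e).2 i k).sum)
  | e :: e' :: _ => ((orient N v e).1, (orient N v e').1,
      mmul N (orient N v e).2 (mtrans N (orient N v e').2))

/-- Elimination of the leg `v`. -/
def elim (N v : ℕ) (E : List Edge) : List Edge :=
  merge N v (E.filter (touches v)) :: E.filter (fun e => !(touches v e))

/-- The number of occurrences of the leg `v`. -/
def deg (v : ℕ) (E : List Edge) : ℕ :=
  (E.map fun e => (if e.1 = v then 1 else 0) + (if e.2.1 = v then 1 else 0)).sum

/-- Bounded assignments with value zero at the dummy leg. -/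
def Good (N : ℕ) (α : ℕ → ℕ) : Prop := α 0 = 0 ∧ ∀ l, α l < N

/-- Summation over the values at the leg `v`. -/
def sm (N v : ℕ) (F : (ℕ → ℕ) → ℤ) (α : ℕ → ℕ) : ℤ := ∑ a ∈ range N, F (Function.update α v a)

theorem W_filter (E : List Edge) (p : Edge → Bool) (α : ℕ → ℕ) :
    W E α = W (E.filter p) α * W (E.filter fun e => !(p e)) α := by
  unfold W
  induction E with
  | nil => simp
  | cons e E ih =>
    rw [List.map_cons, List.prod_cons, ih]
    by_cases h : p e = true
    · simp only [List.filter_cons, h, if_true, Bool.not_true, Bool.false_eq_true, if_false,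
        List.map_cons, List.prod_cons]
      ring
    · simp only [Bool.not_eq_true] at h
      simp only [List.filter_cons, h, Bool.not_false, if_true, Bool.false_eq_true, if_false,
        List.map_cons, List.prod_cons]
      ring

theorem entry_update_of_not {v : ℕ} {e : Edge} (h : touches v e = false) (α : ℕ → ℕ) (a : ℕ) :
    entry e.2.2 (Function.update α v a e.1) (Function.update α v a e.2.1) =
      entry e.2.2 (α e.1) (α e.2.1) := by
  unfold touches at h
  rw [Bool.or_eq_false_iff, decide_eq_false_iff_not, decide_eq_false_iff_not] at h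
  rw [Function.update_of_ne h.1, Function.update_of_ne h.2]

theorem W_update_of_not {v : ℕ} {E : List Edge} (h : ∀ e ∈ E, touches v e = false) (α : ℕ → ℕ)
    (a : ℕ) : W E (Function.update α v a) = W E α := by
  unfold W
  congr 1
  refine List.map_congr_left fun e he => ?_
  exact entry_update_of_not (h e he) α a

theorem entry_mtrans {N : ℕ} (A : Mat) {i j : ℕ} (hi : i < N) (hj : j < N) :
    entry (mtrans N A) i j = entry A j i := entry_tab _ hi hj

/-- An oriented edge has the same value. -/
theorem orient_entry {N v : ℕ} {e : Edge} (he : touches v e = true)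
    (hne : ¬ (e.1 = v ∧ e.2.1 = v)) {α : ℕ → ℕ} (hα : Good N α) {a : ℕ} (ha : a < N) :
    entry e.2.2 (Function.update α v a e.1) (Function.update α v a e.2.1) =
      entry (orient N v e).2 (α (orient N v e).1) a := by
  unfold orient
  by_cases h : e.2.1 = v
  · have h1 : e.1 ≠ v := fun h' => hne ⟨h', h⟩
    rw [decide_eq_true h, cond_true]
    simp only
    rw [Function.update_of_ne h1, h, Function.update_self, entry_tab _ (hα.2 _) ha]
  · have h1 : e.1 = v := by
      unfold touches at he
      rw [Bool.or_eq_true, decide_eq_true_iff, decide_eq_true_iff] at he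
      tauto
    rw [decide_eq_false h, cond_false]
    simp only
    rw [Function.update_of_ne h, h1, Function.update_self, entry_mtrans _ (hα.2 _) ha]

theorem lsum_range (N : ℕ) (f : ℕ → ℤ) : ((List.range N).map f).sum = ∑ i ∈ range N, f i := by
  induction N with
  | zero => simp
  | succ N ih => rw [Finset.sum_range_succ, List.range_succ, List.map_append,
      List.sum_append, ih]; simp

theorem deg_cons (v : ℕ) (e : Edge) (E : List Edge) : deg v (e :: E) =
    (if e.1 = v then 1 else 0) + (if e.2.1 = v then 1 else 0) + deg v E := by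
  simp [deg]

theorem deg_pos {v : ℕ} {e : Edge} (he : touches v e = true) :
    1 ≤ (if e.1 = v then 1 else 0) + (if e.2.1 = v then 1 else 0) := by
  unfold touches at he
  rw [Bool.or_eq_true, decide_eq_true_iff, decide_eq_true_iff] at he
  rcases he with h | h <;> simp [h]

theorem merge_correct {N v : ℕ} {A : List Edge} (hA : ∀ e ∈ A, touches v e = true)
    (hdeg : deg v A ≤ 2) {α : ℕ → ℕ} (hα : Good N α) :
    ∑ a ∈ range N, W A (Function.update α v a) = W [merge N v A] α := by
  have hN : 0 < N := lt_of_le_of_lt (Nat.zero_le _) (hα.2 0)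
  match A, hA, hdeg with
  | [], _, _ =>
    simp [W, merge, scal, hα.1, entry]
  | [e], hA, _ =>
    have he := hA e (by simp)
    have hm : merge N v [e] = bif decide (e.1 = v) && decide (e.2.1 = v) then scal (mtr N e.2.2)
      else ((orient N v e).1, 0, tab N fun i _ =>
        ((List.range N).map fun k => entry (orient N v e).2 i k).sum) := rfl
    rw [hm]
    by_cases h : e.1 = v ∧ e.2.1 = v
    · have hd : (decide (e.1 = v) && decide (e.2.1 = v)) = true := by simp [h.1, h.2]
      rw [hd, cond_true]
      simp only [W, List.map_cons, List.map_nil, List.prod_cons, List.prod_nil, mul_one, scal,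
        hα.1]
      rw [h.1, h.2]
      simp only [Function.update_self]
      unfold mtr
      rw [lsum_range]
      rfl
    · have hd : (decide (e.1 = v) && decide (e.2.1 = v)) = false := by
        rw [Bool.and_eq_false_iff, decide_eq_false_iff_not, decide_eq_false_iff_not]
        tauto
      rw [hd, cond_false]
      simp only [W, List.map_cons, List.map_nil, List.prod_cons, List.prod_nil, mul_one]
      rw [hα.1, entry_tab _ (hα.2 _) hN, lsum_range]
      exact Finset.sum_congr rfl fun a ha => orient_entry he h hα (Finset.mem_range.1 ha)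
  | e :: e' :: A, hA, hdeg =>
    have he := hA e (by simp)
    have he' := hA e' (by simp)
    have h1 := deg_pos he
    have h2 := deg_pos he'
    rw [deg_cons, deg_cons] at hdeg
    have hAn : A = [] := by
      cases A with
      | nil => rfl
      | cons e'' A =>
        have h3 := deg_pos (hA e'' (by simp))
        rw [deg_cons] at hdeg
        omega
    subst hAn
    have hne : ¬ (e.1 = v ∧ e.2.1 = v) := by
      rintro ⟨h3, h4⟩
      rw [if_pos h3, if_pos h4] at hdeg
      omega
    have hne' : ¬ (e'.1 = v ∧ e'.2.1 = v) := by
      rintro ⟨h3, h4⟩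
      rw [if_pos h3, if_pos h4] at hdeg
      omega
    have hm : merge N v [e, e'] = ((orient N v e).1, (orient N v e').1,
      mmul N (orient N v e).2 (mtrans N (orient N v e').2)) := rfl
    rw [hm]
    simp only [W, List.map_cons, List.map_nil, List.prod_cons, List.prod_nil, mul_one]
    unfold mmul
    rw [entry_tab _ (hα.2 _) (hα.2 _), lsum_range]
    refine Finset.sum_congr rfl fun a ha => ?_
    rw [orient_entry he hne hα (Finset.mem_range.1 ha),
      orient_entry he' hne' hα (Finset.mem_range.1 ha),
      entry_mtrans _ (Finset.mem_range.1 ha) (hα.2 _)]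

theorem W_cons (e : Edge) (E : List Edge) (α : ℕ → ℕ) : W (e :: E) α = W [e] α * W E α := by
  simp [W]

theorem deg_filter_le (v : ℕ) (p : Edge → Bool) (E : List Edge) :
    deg v (E.filter p) ≤ deg v E := by
  induction E with
  | nil => simp
  | cons e E ih =>
    rw [List.filter_cons]
    split
    · rw [deg_cons, deg_cons]; omega
    · rw [deg_cons]; omega

theorem elim_correct {N v : ℕ} {E : List Edge} (hdeg : deg v E ≤ 2) {α : ℕ → ℕ}
    (hα : Good N α) : sm N v (W E) α = W (elim N v E) α := by
  unfold sm elim
  rw [W_cons]
  have h1 : ∀ a, W E (Function.update α v a) =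
      W (E.filter (touches v)) (Function.update α v a) *
        W (E.filter fun e => !(touches v e)) α := by
    intro a
    rw [W_filter E (touches v), W_update_of_not (E := E.filter fun e => !(touches v e))]
    intro e he
    have := (List.mem_filter.1 he).2
    simpa using this
  simp only [h1]
  rw [← Finset.sum_mul, merge_correct (fun e he => (List.mem_filter.1 he).2)
    ((deg_filter_le _ _ _).trans hdeg) hα]

theorem deg_split (w : ℕ) (p : Edge → Bool) (E : List Edge) :
    deg w E = deg w (E.filter p) + deg w (E.filter fun e => !(p e)) := by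
  induction E with
  | nil => simp [deg]
  | cons e E ih =>
    rw [List.filter_cons, List.filter_cons]
    by_cases h : p e = true
    · simp only [h, if_true, Bool.not_true, Bool.false_eq_true, if_false]
      rw [deg_cons, deg_cons, ih]
      omega
    · simp only [Bool.not_eq_true] at h
      simp only [h, Bool.not_false, Bool.false_eq_true, if_false, if_true]
      rw [deg_cons, deg_cons, ih]
      omega

theorem orient_deg {N v w : ℕ} (e : Edge) :
    (if (orient N v e).1 = w then 1 else 0) ≤
      (if e.1 = w then 1 else 0) + (if e.2.1 = w then 1 else 0) := by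
  unfold orient
  by_cases h : e.2.1 = v
  · rw [decide_eq_true h, cond_true]
    simp only
    omega
  · rw [decide_eq_false h, cond_false]
    simp only
    omega

theorem merge_deg {N v w : ℕ} (hw : w ≠ 0) (A : List Edge) :
    deg w [merge N v A] ≤ deg w A := by
  match A with
  | [] => simp [merge, scal, deg, Ne.symm hw]
  | [e] =>
    have hm : merge N v [e] = bif decide (e.1 = v) && decide (e.2.1 = v) then scal (mtr N e.2.2)
      else ((orient N v e).1, 0, tab N fun i _ =>
        ((List.range N).map fun k => entry (orient N v e).2 i k).sum) := rfl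
    rw [hm]
    cases hc : decide (e.1 = v) && decide (e.2.1 = v) with
    | true =>
      rw [cond_true]
      simp [scal, deg, Ne.symm hw]
    | false =>
      rw [cond_false]
      have h1 := orient_deg (N := N) (v := v) (w := w) e
      rw [deg_cons, deg_cons]
      simp only [Ne.symm hw, if_false]
      omega
  | e :: e' :: A =>
    have h1 := orient_deg (N := N) (v := v) (w := w) e
    have h2 := orient_deg (N := N) (v := v) (w := w) e'
    have hm : merge N v (e :: e' :: A) = ((orient N v e).1, (orient N v e').1,
      mmul N (orient N v e).2 (mtrans N (orient N v e').2)) := rfl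
    rw [hm, deg_cons, deg_cons, deg_cons]
    simp only [deg, List.map_nil, List.sum_nil]
    omega

theorem elim_deg {N v w : ℕ} (hw : w ≠ 0) (E : List Edge) :
    deg w (elim N v E) ≤ deg w E := by
  unfold elim
  rw [deg_cons, deg_split w (touches v) E]
  have h := merge_deg (N := N) (v := v) hw (E.filter (touches v))
  rw [deg_cons] at h
  simp only [deg, List.map_nil, List.sum_nil] at h ⊢
  omega

/-- Summation over the values at all legs of a list. -/
def Sm (N : ℕ) : List ℕ → ((ℕ → ℕ) → ℤ) → (ℕ → ℕ) → ℤ
  | [], F, α => F α
  | v :: V, F, α => Sm N V (sm N v F) α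

theorem Good.update {N : ℕ} {α : ℕ → ℕ} (hα : Good N α) {v a : ℕ} (hv : v ≠ 0) (ha : a < N) :
    Good N (Function.update α v a) := by
  refine ⟨by rw [Function.update_of_ne (Ne.symm hv)]; exact hα.1, fun l => ?_⟩
  by_cases h : l = v
  · subst h; rwa [Function.update_self]
  · rw [Function.update_of_ne h]; exact hα.2 l

theorem Sm_congr {N : ℕ} (V : List ℕ) (hV : ∀ v ∈ V, v ≠ 0) :
    ∀ (F G : (ℕ → ℕ) → ℤ), (∀ β, Good N β → F β = G β) → ∀ α, Good N α →
      Sm N V F α = Sm N V G α := by
  induction V with
  | nil => intro F G h α hα; exact h α hα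
  | cons v V ih =>
    intro F G h α hα
    refine ih (fun v hv => hV v (List.mem_cons_of_mem _ hv)) _ _ (fun β hβ => ?_) α hα
    unfold sm
    exact Finset.sum_congr rfl fun a ha =>
      h _ (hβ.update (hV v (by simp)) (Finset.mem_range.1 ha))

/-- Elimination of all legs computes the sum over all assignments. -/
theorem Sm_W {N : ℕ} (V : List ℕ) (hV : ∀ v ∈ V, v ≠ 0) : ∀ (E : List Edge),
    (∀ w, w ≠ 0 → deg w E ≤ 2) → ∀ α, Good N α →
      Sm N V (W E) α = W (V.foldl (fun E v => elim N v E) E) α := by
  induction V with
  | nil => intro E _ α _; rfl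
  | cons v V ih =>
    intro E hE α hα
    have hV' : ∀ v ∈ V, v ≠ 0 := fun v hv => hV v (List.mem_cons_of_mem _ hv)
    rw [List.foldl_cons, ← ih hV' (elim N v E) (fun w hw => (elim_deg hw E).trans (hE w hw)) α hα]
    exact Sm_congr V hV' _ _ (fun β hβ => elim_correct (hE v (hV v (by simp))) hβ) α hα

theorem Sm_add {N : ℕ} (V : List ℕ) : ∀ (F G : (ℕ → ℕ) → ℤ) (α : ℕ → ℕ),
    Sm N V (fun β => F β + G β) α = Sm N V F α + Sm N V G α := by
  induction V with
  | nil => intro F G α; rfl
  | cons v V ih =>
    intro F G α
    have h : sm N v (fun β => F β + G β) = fun β => sm N v F β + sm N v G β := by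
      funext β
      exact Finset.sum_add_distrib
    change Sm N V (sm N v _) α = _
    rw [h, ih]
    rfl

theorem Sm_mul {N : ℕ} (V : List ℕ) (c : ℤ) : ∀ (F : (ℕ → ℕ) → ℤ) (α : ℕ → ℕ),
    Sm N V (fun β => c * F β) α = c * Sm N V F α := by
  induction V with
  | nil => intro F α; rfl
  | cons v V ih =>
    intro F α
    have h : sm N v (fun β => c * F β) = fun β => c * sm N v F β := by
      funext β
      exact (Finset.mul_sum _ _ _).symm
    change Sm N V (sm N v _) α = _
    rw [h, ih]
    rfl

theorem Sm_list {N : ℕ} (V : List ℕ) {β : Type} (L : List β) (F : β → (ℕ → ℕ) → ℤ) (α : ℕ → ℕ) :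
    Sm N V (fun γ => (L.map fun x => F x γ).sum) α = (L.map fun x => Sm N V (F x) α).sum := by
  induction L with
  | nil =>
    have := Sm_mul (N := N) V 0 (fun _ => 0) α
    simpa using this
  | cons x L ih =>
    simp only [List.map_cons, List.sum_cons]
    rw [Sm_add V (F x) (fun γ => (L.map fun x => F x γ).sum) α, ih]

theorem Sm_nonneg {N : ℕ} (V : List ℕ) : ∀ (F : (ℕ → ℕ) → ℤ), (∀ β, 0 ≤ F β) → ∀ α,
    0 ≤ Sm N V F α := by
  induction V with
  | nil => intro F h α; exact h α
  | cons v V ih =>
    intro F h α
    exact ih _ (fun β => Finset.sum_nonneg fun a _ => h _) α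

theorem Sm_eq_zero {N : ℕ} (V : List ℕ) : ∀ (F : (ℕ → ℕ) → ℤ), (∀ β, 0 ≤ F β) → ∀ α,
    Sm N V F α = 0 → ∀ β : ℕ → ℕ, (∀ l, l ∉ V → β l = α l) → (∀ l ∈ V, β l < N) → F β = 0 := by
  induction V with
  | nil =>
    intro F _ α h β hβ _
    have : β = α := funext fun l => hβ l (by simp)
    rw [this]
    exact h
  | cons v V ih =>
    intro F hF α h β hβ hβ'
    set γ : ℕ → ℕ := if v ∈ V then β else Function.update β v (α v) with hγ
    have h1 : sm N v F γ = 0 := by
      refine ih (sm N v F) (fun β => Finset.sum_nonneg fun a _ => hF _) α h γ ?_ ?_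
      · intro l hl
        by_cases hv : v ∈ V
        · simp only [hγ, hv, if_true]
          have hlv : l ≠ v := fun h' => hl (h' ▸ hv)
          exact hβ l (by simp [hlv, hl])
        · simp only [hγ, hv, if_false]
          by_cases hlv : l = v
          · subst hlv; rw [Function.update_self]
          · rw [Function.update_of_ne hlv]
            exact hβ l (by simp [hlv, hl])
      · intro l hl
        by_cases hv : v ∈ V
        · simp only [hγ, hv, if_true]
          exact hβ' l (List.mem_cons_of_mem _ hl)
        · simp only [hγ, hv, if_false]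
          have hlv : l ≠ v := fun h' => hv (h' ▸ hl)
          rw [Function.update_of_ne hlv]
          exact hβ' l (List.mem_cons_of_mem _ hl)
    unfold sm at h1
    rw [Finset.sum_eq_zero_iff_of_nonneg fun a _ => hF _] at h1
    have h2 := h1 (β v) (Finset.mem_range.2 (hβ' v (by simp)))
    have h3 : Function.update γ v (β v) = β := by
      by_cases hv : v ∈ V
      · simp only [hγ, hv, if_true, Function.update_eq_self]
      · simp only [hγ, hv, if_false, Function.update_idem, Function.update_eq_self]
    rwa [h3] at h2

end Pool.Agent.NPC.H532
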