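import Pool.Agent.H532R2.PairAlg
import Pool.Agent.H532R2.RatPoly

/-!
# Identity testing for sums of products of variable-disjoint bivariate polynomials
-/

namespace Pool.Agent.NPC.H532.PM

open Finset MvPolynomial Pool.Agent.H532R2.PairSum Pool.Agent.NPC.H532 Pool.Agent.NPC.H532.RP

/-- The summands. -/
abbrev Summand : Type := ℚ × List (ℕ × ℕ × QMat)

/-- All entries of all rows, with an additional entry for each row. -/
def allE (I : Input) : List ℚ :=
  I.flatMap fun t => t.2.flatMap fun p => p.2.2.flatMap fun r => 0 :: r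

/-- A strict bound for all degrees and dimensions. -/
def Nb (I : Input) : ℕ := (allE I).length + 1

/-- The number of all factors. -/
def Lb (I : Input) : ℕ := (I.flatMap fun t => t.2).length

/-- All denominators. -/
def dens (I : Input) : List ℕ := ((I.map fun t => t.1) ++ allE I).map fun q => q.den

/-- The Vandermonde matrix. -/
def vand (N : ℕ) : Mat := tab N fun x a => pw N (x : ℤ) a

/-- The matrix of values of a bivariate polynomial. -/
def vm (N D : ℕ) (G : QMat) : Mat := mmul N (mmul N (vand N) (zmat D G)) (mtrans N (vand N))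

/-- The edges of a summand. -/
def edges (N D : ℕ) (t : Summand) : List Edge :=
  t.2.map fun p => (p.1 + 1, p.2.1 + 1, vm N D p.2.2)

/-- The coefficient of a summand. -/
def coef (L D : ℕ) (t : Summand) : ℤ := zq D t.1 * pw L (D : ℤ) (L - t.2.length)

/-- All legs. -/
def legs (I : Input) : List ℕ := I.flatMap fun t => t.2.flatMap fun p => [p.1 + 1, p.2.1 + 1]

/-- Two lists of edges are contracted. -/
def contr (N : ℕ) (V : List ℕ) (E : List Edge) : ℤ :=
  W (V.foldl (fun E v => elim N v E) E) (fun _ => 0)

/-- The sum of the squares of the values. -/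
def total (N L D : ℕ) (V : List ℕ) (I : Input) : ℤ :=
  (I.map fun t => (I.map fun t' => coef L D t * coef L D t' *
    contr N V (edges N D t ++ edges N D t')).sum).sum

/-- Duplicate-freeness. -/
def nodupb (l : List ℕ) : Bool :=
  l.all fun x => decide ((l.filter fun y => decide (y = x)).length ≤ 1)

/-- The decision procedure. -/
def dec (I : Input) : Bool :=
  (I.all fun t => nodupb (t.2.flatMap fun p => [p.1, p.2.1])) &&
    decide (total (Nb I) (Lb I) (dens I).prod (legs I) I = 0)

/-! ### Correctness -/

theorem biv_eq {N : ℕ} (u v : ℕ) (G : QMat) (h1 : G.length ≤ N) (h2 : ∀ r ∈ G, r.length ≤ N) :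
    biv u v G = ∑ a ∈ range N, ∑ b ∈ range N, C (qentry G a b) * (X u ^ a * X v ^ b) := by
  unfold biv
  have h3 : ∀ a, (G.getD a []).length ≤ N := by
    intro a
    rw [List.getD_eq_getElem?_getD]
    cases ha : G[a]? with
    | none => simp
    | some r => exact h2 r (List.mem_of_getElem? ha)
  have h4 : ∀ a, ∑ b ∈ Finset.range (G.getD a []).length,
      (C (qentry G a b) * (X u ^ a * X v ^ b) : MvPolynomial ℕ ℚ) =
      ∑ b ∈ range N, C (qentry G a b) * (X u ^ a * X v ^ b) := by
    intro a
    refine Finset.sum_subset (Finset.range_mono (h3 a)) fun b _ hb => ?_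
    have : qentry G a b = 0 := by
      unfold qentry
      rw [List.getD_eq_default _ _ (by simpa using hb)]
    rw [this]
    simp
  simp only [h4]
  refine Finset.sum_subset (Finset.range_mono h1) fun a _ ha => ?_
  refine Finset.sum_eq_zero fun b _ => ?_
  have : qentry G a b = 0 := by
    unfold qentry
    rw [List.getD_eq_default G _ (by simpa using ha)]
    simp
  rw [this]
  simp

theorem entry_vm {N D : ℕ} (G : QMat) (h1 : G.length ≤ N) (h2 : ∀ r ∈ G, r.length ≤ N)
    (h3 : ∀ r ∈ G, ∀ q ∈ r, q.den ∣ D) (u v : ℕ) (β : ℕ → ℚ) {x y : ℕ} (hx : x < N) (hy : y < N)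
    (hu : β u = x) (hv : β v = y) :
    ((entry (vm N D G) x y : ℤ) : ℚ) = D * eval β (biv u v G) := by
  rw [biv_eq u v G h1 h2]
  unfold vm
  rw [mmul, entry_tab _ hx hy, lsum_range]
  have e1 : ∀ b ∈ range N, entry (mmul N (vand N) (zmat D G)) x b *
      entry (mtrans N (vand N)) b y =
      (∑ a ∈ range N, (x : ℤ) ^ a * entry (zmat D G) a b) * (y : ℤ) ^ b := by
    intro b hb
    have hb' := Finset.mem_range.1 hb
    rw [entry_mtrans _ hb' hy, mmul, entry_tab _ hx hb', lsum_range, vand, entry_tab _ hy hb',
      pw_eq hb'.le]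
    congr 1
    refine Finset.sum_congr rfl fun a ha => ?_
    have ha' := Finset.mem_range.1 ha
    rw [entry_tab _ hx ha', pw_eq ha'.le]
  rw [Finset.sum_congr rfl e1]
  push_cast
  simp only [map_sum, map_mul, map_pow, eval_C, eval_X, hu, hv, Finset.sum_mul, Finset.mul_sum]
  rw [Finset.sum_comm]
  refine Finset.sum_congr rfl fun a _ => Finset.sum_congr rfl fun b _ => ?_
  rw [entry_zmat, zq_cast (den_dvd h3 a b)]
  unfold qentry
  ring

theorem W_edges {N D : ℕ} (l : List (ℕ × ℕ × QMat)) (h1 : ∀ p ∈ l, p.2.2.length ≤ N)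
    (h2 : ∀ p ∈ l, ∀ r ∈ p.2.2, r.length ≤ N)
    (h3 : ∀ p ∈ l, ∀ r ∈ p.2.2, ∀ q ∈ r, q.den ∣ D) {α : ℕ → ℕ} (hα : Good N α) :
    ((W (l.map fun p => (p.1 + 1, p.2.1 + 1, vm N D p.2.2)) α : ℤ) : ℚ) =
      D ^ l.length * eval (fun v => (α (v + 1) : ℚ)) (l.map fun p => biv p.1 p.2.1 p.2.2).prod := by
  induction l with
  | nil => simp [W]
  | cons p l ih =>
    have ih' := ih (fun p hp => h1 p (List.mem_cons_of_mem _ hp))
      (fun p hp => h2 p (List.mem_cons_of_mem _ hp)) (fun p hp => h3 p (List.mem_cons_of_mem _ hp))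
    unfold W at ih' ⊢
    rw [List.map_cons, List.map_cons, List.prod_cons, Int.cast_mul, ih', List.map_cons,
      List.prod_cons, map_mul, List.length_cons, pow_succ]
    simp only
    rw [entry_vm p.2.2 (h1 p (by simp)) (h2 p (by simp)) (h3 p (by simp)) p.1 p.2.1
      (fun v => (α (v + 1) : ℚ)) (hα.2 _) (hα.2 _) rfl rfl]
    ring

/-- The values of the polynomial, scaled to integers. -/
def Fv (N L D : ℕ) (I : Input) (α : ℕ → ℕ) : ℤ :=
  (I.map fun t => coef L D t * W (edges N D t) α).sum

theorem row_le {I : Input} {t : Summand} (ht : t ∈ I) {p : ℕ × ℕ × QMat} (hp : p ∈ t.2) :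
    (p.2.2.flatMap fun r => 0 :: r).length ≤ (allE I).length := by
  have h1 : (p.2.2.flatMap fun r => (0 : ℚ) :: r).Sublist (t.2.flatMap fun p =>
      p.2.2.flatMap fun r => 0 :: r) := by
    rw [List.flatMap_def (l := t.2)]
    exact List.sublist_flatten_of_mem (List.mem_map.2 ⟨p, hp, rfl⟩)
  have h2 : (t.2.flatMap fun p => p.2.2.flatMap fun r => (0 : ℚ) :: r).Sublist (allE I) := by
    unfold allE
    rw [List.flatMap_def (l := I)]
    exact List.sublist_flatten_of_mem (List.mem_map.2 ⟨t, ht, rfl⟩)
  exact (h1.trans h2).length_le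

theorem flat_len (A : QMat) : (A.flatMap fun r => (0 : ℚ) :: r).length =
    A.length + A.flatten.length := by
  induction A with
  | nil => simp
  | cons r A ih => simp [ih]; omega

theorem mat_len {I : Input} {t : Summand} (ht : t ∈ I) {p : ℕ × ℕ × QMat} (hp : p ∈ t.2) :
    p.2.2.length ≤ Nb I ∧ ∀ r ∈ p.2.2, r.length ≤ Nb I := by
  have h1 := row_le ht hp
  rw [flat_len] at h1
  unfold Nb
  refine ⟨by omega, fun r hr => ?_⟩
  have h2 := (List.sublist_flatten_of_mem hr).length_le
  omega

theorem entry_mem {I : Input} {t : Summand} (ht : t ∈ I) {p : ℕ × ℕ × QMat} (hp : p ∈ t.2)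
    {r : List ℚ} (hr : r ∈ p.2.2) {q : ℚ} (hq : q ∈ r) : q.den ∣ (dens I).prod := by
  refine List.dvd_prod ?_
  unfold dens
  rw [List.mem_map]
  refine ⟨q, List.mem_append_right _ ?_, rfl⟩
  unfold allE
  rw [List.mem_flatMap]
  refine ⟨t, ht, ?_⟩
  rw [List.mem_flatMap]
  refine ⟨p, hp, ?_⟩
  rw [List.mem_flatMap]
  exact ⟨r, hr, List.mem_cons_of_mem _ hq⟩

theorem coef_mem {I : Input} {t : Summand} (ht : t ∈ I) : t.1.den ∣ (dens I).prod := by
  refine List.dvd_prod ?_
  unfold dens
  rw [List.mem_map]
  exact ⟨t.1, List.mem_append_left _ (List.mem_map.2 ⟨t, ht, rfl⟩), rfl⟩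

theorem len_le {I : Input} {t : Summand} (ht : t ∈ I) : t.2.length ≤ Lb I := by
  unfold Lb
  rw [List.flatMap_def]
  exact (List.sublist_flatten_of_mem (List.mem_map.2 ⟨t, ht, rfl⟩)).length_le

theorem Fv_eq (I : Input) {α : ℕ → ℕ} (hα : Good (Nb I) α) :
    ((Fv (Nb I) (Lb I) (dens I).prod I α : ℤ) : ℚ) =
      ((dens I).prod : ℚ) ^ (Lb I + 1) * eval (fun v => (α (v + 1) : ℚ)) (value I) := by
  unfold Fv value
  rw [map_list_sum, List.map_map, ← List.sum_map_mul_left, Int.cast_list_sum, List.map_map]
  congr 1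
  refine List.map_congr_left fun t ht => ?_
  simp only [Function.comp_apply, map_mul, eval_C]
  have hc := coef_mem ht
  have hW := W_edges t.2 (fun p hp => (mat_len ht hp).1) (fun p hp => (mat_len ht hp).2)
    (fun p hp r hr q hq => entry_mem ht hp hr hq) hα
  generalize (dens I).prod = D at hc hW ⊢
  unfold edges coef
  rw [Int.cast_mul, Int.cast_mul, hW, zq_cast hc, pw_eq (Nat.sub_le _ _), Int.cast_pow,
    Int.cast_natCast]
  have e : (D : ℚ) ^ (Lb I + 1) = D * (D ^ (Lb I - t.2.length) * D ^ t.2.length) := by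
    rw [← pow_add, Nat.sub_add_cancel (len_le ht), pow_succ]
    ring
  rw [e]
  ring

theorem W_append (E E' : List Edge) (α : ℕ → ℕ) : W (E ++ E') α = W E α * W E' α := by
  simp [W]

theorem deg_append (w : ℕ) (E E' : List Edge) : deg w (E ++ E') = deg w E + deg w E' := by
  simp [deg]

theorem deg_edges_le {N D w : ℕ} {t : Summand} (h : (t.2.flatMap fun p => [p.1, p.2.1]).Nodup)
    (hw : w ≠ 0) : deg w (edges N D t) ≤ 1 := by
  obtain ⟨v, rfl⟩ := Nat.exists_eq_succ_of_ne_zero hw
  have h1 : deg (v + 1) (edges N D t) = (t.2.flatMap fun p => [p.1, p.2.1]).count v := by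
    unfold edges
    induction t.2 with
    | nil => simp [deg]
    | cons p l ih =>
      rw [List.map_cons, deg_cons, List.flatMap_cons, List.count_append, ih]
      simp only [List.count_cons, List.count_nil, Nat.add_right_cancel_iff, beq_iff_eq]
      omega
  rw [Nat.succ_eq_add_one, h1]
  exact List.nodup_iff_count_le_one.1 h v

theorem total_eq (I : Input) (hI : Disjoint I) :
    total (Nb I) (Lb I) (dens I).prod (legs I) I =
      Sm (Nb I) (legs I) (fun α => Fv (Nb I) (Lb I) (dens I).prod I α ^ 2) (fun _ => 0) := by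
  have hV : ∀ v ∈ legs I, v ≠ 0 := by
    intro v hv
    unfold legs at hv
    rw [List.mem_flatMap] at hv
    obtain ⟨t, _, hv⟩ := hv
    rw [List.mem_flatMap] at hv
    obtain ⟨p, _, hv⟩ := hv
    simp only [List.mem_cons, List.not_mem_nil, or_false] at hv
    omega
  have hg : Good (Nb I) (fun _ => 0) := ⟨rfl, fun _ => by unfold Nb; simp⟩
  have h1 : (fun α => Fv (Nb I) (Lb I) (dens I).prod I α ^ 2) = fun α =>
      (I.map fun t => (I.map fun t' => coef (Lb I) (dens I).prod t * coef (Lb I) (dens I).prod t' *
        W (edges (Nb I) (dens I).prod t ++ edges (Nb I) (dens I).prod t') α).sum).sum := by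
    funext α
    unfold Fv
    rw [sq, ← List.sum_map_mul_right]
    congr 1
    refine List.map_congr_left fun t _ => ?_
    rw [← List.sum_map_mul_left]
    congr 1
    refine List.map_congr_left fun t' _ => ?_
    rw [W_append]
    ring
  rw [h1, Sm_list]
  unfold total
  congr 1
  refine List.map_congr_left fun t ht => ?_
  rw [Sm_list]
  congr 1
  refine List.map_congr_left fun t' ht' => ?_
  rw [Sm_mul]
  congr 1
  unfold contr
  rw [Sm_W (legs I) hV _ _ _ hg]
  intro w hw
  rw [deg_append]
  have h2 := deg_edges_le (N := Nb I) (D := (dens I).prod) (hI t ht) hw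
  have h3 := deg_edges_le (N := Nb I) (D := (dens I).prod) (hI t' ht') hw
  omega

theorem totalDegree_biv (u v : ℕ) (G : QMat) :
    (biv u v G).totalDegree ≤ G.length + G.flatten.length := by
  unfold biv
  refine totalDegree_finsetSum_le fun a ha => totalDegree_finsetSum_le fun b hb => ?_
  refine (totalDegree_mul _ _).trans ?_
  rw [totalDegree_C, zero_add]
  refine (totalDegree_mul _ _).trans ?_
  rw [totalDegree_X_pow, totalDegree_X_pow]
  have h1 := Finset.mem_range.1 ha
  have h2 := Finset.mem_range.1 hb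
  have h3 : (G.getD a []).length ≤ G.flatten.length := by
    rw [List.getD_eq_getElem _ _ h1]
    exact (List.sublist_flatten_of_mem (List.getElem_mem h1)).length_le
  omega

theorem totalDegree_value (I : Input) : (value I).totalDegree < Nb I := by
  unfold Nb
  rw [Nat.lt_succ_iff]
  unfold value allE
  induction I with
  | nil => simp
  | cons t I ih =>
    rw [List.map_cons, List.sum_cons, List.flatMap_cons, List.length_append]
    refine (totalDegree_add _ _).trans (max_le ?_ (ih.trans (Nat.le_add_left _ _)))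
    refine le_trans ?_ (Nat.le_add_right _ _)
    refine (totalDegree_mul _ _).trans ?_
    rw [totalDegree_C, zero_add]
    induction t.2 with
    | nil => simp
    | cons p l ih =>
      rw [List.map_cons, List.prod_cons, List.flatMap_cons, List.length_append]
      refine (totalDegree_mul _ _).trans (Nat.add_le_add ?_ ih)
      rw [flat_len]
      exact totalDegree_biv _ _ _

/-- A polynomial that vanishes on a large grid is zero. -/
theorem eq_zero_of_grid (f : MvPolynomial ℕ ℚ) (N : ℕ) (hdeg : f.totalDegree < N)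
    (h : ∀ β : ℕ → ℕ, (∀ i, β i < N) → eval (fun i => (β i : ℚ)) f = 0) : f = 0 := by
  obtain ⟨s, g, hg⟩ := MvPolynomial.exists_finset_rename f
  have hinj : Function.Injective (Subtype.val : {x // x ∈ s} → ℕ) := Subtype.val_injective
  have hN : 0 < N := by omega
  have hgz : g = 0 := by
    refine eq_zero_of_eval_zero_at_prod_finset g
      (fun _ => (Finset.range N).image (fun k : ℕ => (k : ℚ))) ?_ ?_
    · intro i
      rw [Finset.card_image_of_injective _ Nat.cast_injective, Finset.card_range]
      have h1 : degreeOf i g = degreeOf i.1 f := by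
        rw [hg, degreeOf_rename_of_injective hinj]
      rw [h1]
      exact (degreeOf_le_totalDegree f _).trans_lt hdeg
    · intro x hx
      have hx' : ∀ i, ∃ k : ℕ, k < N ∧ (k : ℚ) = x i := by
        intro i
        have := hx i
        rw [Finset.mem_image] at this
        obtain ⟨k, hk, hk'⟩ := this
        exact ⟨k, Finset.mem_range.1 hk, hk'⟩
      choose k hk hk' using hx'
      have h2 := h (fun i => if hi : i ∈ s then k ⟨i, hi⟩ else 0) (by
        intro i
        by_cases hi : i ∈ s
        · simp only [hi, dif_pos]; exact hk _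
        · simp only [hi, dif_neg, not_false_iff]; exact hN)
      rw [hg, eval_rename] at h2
      rw [← h2]
      congr 2
      funext i
      simp [← hk' i]
  rw [hg, hgz, map_zero]

theorem eval_value_congr (I : Input) (β γ : ℕ → ℚ) (h : ∀ v, v + 1 ∈ legs I → β v = γ v) :
    eval β (value I) = eval γ (value I) := by
  unfold value
  rw [map_list_sum, map_list_sum, List.map_map, List.map_map]
  congr 1
  refine List.map_congr_left fun t ht => ?_
  simp only [Function.comp_apply, map_mul, eval_C, map_list_prod, List.map_map]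
  congr 2
  refine List.map_congr_left fun p hp => ?_
  have hm : p.1 + 1 ∈ legs I ∧ p.2.1 + 1 ∈ legs I := by
    unfold legs
    simp only [List.mem_flatMap]
    exact ⟨⟨t, ht, p, hp, by simp⟩, ⟨t, ht, p, hp, by simp⟩⟩
  simp only [Function.comp_apply]
  unfold biv
  simp only [map_sum, map_mul, map_pow, eval_C, eval_X, h _ hm.1, h _ hm.2]

theorem nodupb_iff (l : List ℕ) : nodupb l = true ↔ l.Nodup := by
  unfold nodupb
  rw [List.all_eq_true, List.nodup_iff_count_le_one]
  have h1 : ∀ x, (l.filter fun y => decide (y = x)).length = l.count x := by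
    intro x
    rw [List.count, List.countP_eq_length_filter]
    congr 1
  simp only [decide_eq_true_iff, h1]
  constructor
  · intro h x
    by_cases hx : x ∈ l
    · exact h x hx
    · rw [List.count_eq_zero_of_not_mem hx]; omega
  · intro h x _
    exact h x

theorem dec_eq (I : Input) : dec I = true ↔ Disjoint I ∧ value I = 0 := by
  unfold dec
  rw [Bool.and_eq_true, decide_eq_true_iff, List.all_eq_true]
  have h1 : (∀ t ∈ I, nodupb (t.2.flatMap fun p => [p.1, p.2.1]) = true) ↔ Disjoint I := by
    simp only [nodupb_iff]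
    rfl
  rw [h1]
  refine and_congr_right fun hI => ?_
  rw [total_eq I hI]
  have hD : (((dens I).prod : ℕ) : ℚ) ≠ 0 := by
    have : 0 < (dens I).prod := List.prod_pos fun d hd => by
      unfold dens at hd
      rw [List.mem_map] at hd
      obtain ⟨q, _, rfl⟩ := hd
      exact q.den_pos
    exact_mod_cast this.ne'
  have hg : Good (Nb I) (fun _ => 0) := ⟨rfl, fun _ => by unfold Nb; simp⟩
  constructor
  · intro h
    refine eq_zero_of_grid (value I) (Nb I) (totalDegree_value I) fun β hβ => ?_
    set α : ℕ → ℕ := fun l => if l ∈ legs I then β (l - 1) else 0 with hα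
    have hl0 : 0 ∉ legs I := by
      unfold legs
      simp
    have hgα : Good (Nb I) α := by
      refine ⟨by simp [hα, hl0], fun l => ?_⟩
      simp only [hα]
      split
      · exact hβ _
      · unfold Nb; simp
    have h2 := Sm_eq_zero (legs I) (fun α => Fv (Nb I) (Lb I) (dens I).prod I α ^ 2)
      (fun α => sq_nonneg _) _ h α (fun l hl => by simp [hα, hl]) (fun l _ => hgα.2 l)
    have h3 : Fv (Nb I) (Lb I) (dens I).prod I α = 0 := by
      simpa using h2
    have h4 := Fv_eq I hgα
    rw [h3, Int.cast_zero] at h4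
    have h5 : eval (fun v => (α (v + 1) : ℚ)) (value I) = 0 := by
      have := h4.symm
      rw [mul_eq_zero] at this
      exact this.resolve_left (pow_ne_zero _ hD)
    rw [← h5]
    refine eval_value_congr I _ _ fun v hv => ?_
    simp [hα, hv]
  · intro h
    have h2 : ∀ α, Good (Nb I) α → Fv (Nb I) (Lb I) (dens I).prod I α ^ 2 = 0 := by
      intro α hα
      have h3 := Fv_eq I hα
      rw [h, map_zero, mul_zero] at h3
      have h4 : Fv (Nb I) (Lb I) (dens I).prod I α = 0 := by exact_mod_cast h3
      rw [h4]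
      norm_num
    have hV : ∀ v ∈ legs I, v ≠ 0 := by
      intro v hv
      rintro rfl
      unfold legs at hv
      simp at hv
    rw [Sm_congr (legs I) hV _ (fun _ => 0) h2 _ hg]
    have := Sm_mul (N := Nb I) (legs I) 0 (fun _ => 0) (fun _ => 0)
    simpa using this

end Pool.Agent.NPC.H532.PM
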