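import Pool.Agent.H532R2.QuadMain

/-!
# The decision procedure for sums of products of powers of quadratic polynomials
-/

namespace Pool.Agent.NPC.H532

open Finset MvPolynomial Pool.Agent.H532R2 Pool.Agent.H532R2.SPQ

/-- The summands. -/
abbrev Summand : Type := ℚ × List (QMat × ℕ)

/-- The product of the numbers `e + 1`. -/
def wt (t : Summand) : ℕ := (t.2.map fun p => p.2 + 1).prod

/-- All denominators. -/
def dens (E : List Summand) : List ℕ :=
  E.flatMap fun t => t.1.den :: t.2.flatMap fun p => p.1.flatten.map fun q => q.den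

/-- An integer multiple of a rational number. -/
def zq (D : ℕ) (q : ℚ) : ℤ := q.num * ((D / q.den : ℕ) : ℤ)

/-- An integer multiple of a rational matrix. -/
def zmat (D : ℕ) (A : QMat) : Mat := A.map fun r => r.map fun q => zq D q

/-- A list of length `e` (for `e ≤ m`). -/
def un (m e : ℕ) : List ℕ := (List.range m).filter fun k => decide (k < e)

/-- The factors of a summand, with the constant factor that makes the total exponent `m`. -/
def facs (m D : ℕ) (t : Summand) : List (Mat × List ℕ) :=
  bif decide (wt t ≤ m) then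
    ([[(D : ℤ)]], un m (m - (t.2.map fun p => p.2).sum)) :: t.2.map fun p => (zmat D p.1, un m p.2)
  else []

/-- The list of the weighted matrices. -/
def plist (n m D : ℕ) (E : List Summand) : List (ℤ × Mat) :=
  E.flatMap fun t => expand (n + 1) (zq D t.1) (facs m D t)

/-- The decision procedure. -/
def dec (I : Input) : Bool :=
  (I.2.2.all fun t => decide (wt t ≤ I.2.1.length)) &&
    decide (total I.1.length I.2.1.length
      ((plist I.1.length I.2.1.length (dens I.2.2).prod I.2.2).map fun x =>
        (x.1, symm I.1.length x.2)) = 0)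

/-! ### Correctness -/

theorem un_length {m e : ℕ} (h : e ≤ m) : (un m e).length = e := by
  unfold un
  have : (List.range m).filter (fun k => decide (k < e)) = List.range e := by
    obtain ⟨d, rfl⟩ := Nat.exists_eq_add_of_le h
    rw [List.range_add, List.filter_append]
    have h1 : (List.range e).filter (fun k => decide (k < e)) = List.range e := by
      rw [List.filter_eq_self]
      intro k hk
      simpa using hk
    have h2 : ((List.range d).map (fun x => e + x)).filter (fun k => decide (k < e)) = [] := by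
      rw [List.filter_eq_nil_iff]
      intro k hk
      simp at hk ⊢
      omega
    rw [h1, h2, List.append_nil]
  rw [this, List.length_range]

theorem zq_cast {D : ℕ} {q : ℚ} (h : q.den ∣ D) : ((zq D q : ℤ) : ℚ) = D * q := by
  unfold zq
  obtain ⟨k, rfl⟩ := h
  rw [Nat.mul_div_cancel_left _ q.den_pos]
  have h1 : (q.num : ℚ) = q * q.den := (Rat.mul_den_eq_num q).symm
  push_cast
  rw [h1]
  ring

theorem zq_zero (D : ℕ) : zq D 0 = 0 := by simp [zq]

theorem entry_zmat (D : ℕ) (A : QMat) (i j : ℕ) : entry (zmat D A) i j = zq D (qentry A i j) := by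
  unfold entry zmat qentry
  simp only [List.getD_eq_getElem?_getD, List.getElem?_map]
  cases A[i]? with
  | none => simp [zq_zero]
  | some r =>
    simp only [Option.map_some, Option.getD_some, List.getElem?_map]
    cases r[j]? with
    | none => simp [zq_zero]
    | some q => simp

theorem Qp_zmat (n D : ℕ) (A : QMat) (h : ∀ r ∈ A, ∀ q ∈ r, q.den ∣ D) :
    Qp n (zmat D A) = C (D : ℚ) * quad n A := by
  unfold Qp quad
  rw [Finset.mul_sum]
  refine Finset.sum_congr rfl fun i _ => ?_
  rw [Finset.mul_sum]
  refine Finset.sum_congr rfl fun j _ => ?_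
  have h1 : (qentry A i j).den ∣ D := by
    unfold qentry
    simp only [List.getD_eq_getElem?_getD]
    cases hi : A[i]? with
    | none => simp
    | some r =>
      simp only [Option.getD_some]
      cases hj : r[j]? with
      | none => simp
      | some q =>
        simp only [Option.getD_some]
        exact h r (List.mem_of_getElem? hi) q (List.mem_of_getElem? hj)
  rw [entry_zmat, zq_cast h1, C_mul]
  ring

theorem Qp_const (n : ℕ) (D : ℤ) : Qp n [[D]] = C (D : ℚ) := by
  unfold Qp
  rw [Finset.sum_eq_single 0, Finset.sum_eq_single 0]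
  · simp [entry, hv]
  · intro j _ hj
    obtain ⟨k, rfl⟩ := Nat.exists_eq_succ_of_ne_zero hj
    simp [entry]
  · simp
  · intro i _ hi
    obtain ⟨k, rfl⟩ := Nat.exists_eq_succ_of_ne_zero hi
    simp [entry]
  · simp

theorem sum_le_prod : ∀ l : List ℕ, l.sum + 1 ≤ (l.map fun e => e + 1).prod
  | [] => by simp
  | e :: l => by
    have ih := sum_le_prod l
    simp only [List.sum_cons, List.map_cons, List.prod_cons]
    have h := Nat.mul_le_mul_left (e + 1) ih
    nlinarith [Nat.zero_le (e * l.sum)]

theorem le_prod {l : List ℕ} {e : ℕ} (h : e ∈ l) : e + 1 ≤ (l.map fun e => e + 1).prod := by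
  have h1 : e ≤ l.sum := List.le_sum_of_mem h
  have h2 := sum_le_prod l
  omega

theorem wt_sum {m : ℕ} {t : Summand} (h : wt t ≤ m) : (t.2.map fun p => p.2).sum + 1 ≤ m := by
  have := sum_le_prod (t.2.map fun p => p.2)
  rw [List.map_map] at this
  exact this.trans h

theorem wt_mem {m : ℕ} {t : Summand} (h : wt t ≤ m) {p : QMat × ℕ} (hp : p ∈ t.2) : p.2 ≤ m := by
  have := le_prod (l := t.2.map fun p => p.2) (e := p.2) (List.mem_map.2 ⟨p, hp, rfl⟩)
  rw [List.map_map] at this
  have h2 := this.trans h
  omega

theorem vals_facs (n m D : ℕ) (t : Summand) (h : wt t ≤ m) (h1 : t.1.den ∣ D)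
    (h2 : ∀ p ∈ t.2, ∀ r ∈ p.1, ∀ q ∈ r, q.den ∣ D) :
    vals (Qp n) (fun y => y ^ m) (expand (n + 1) (zq D t.1) (facs m D t)) =
      C ((m.factorial : ℚ) * D ^ (m + 1)) * (C t.1 * (t.2.map fun p => quad n p.1 ^ p.2).prod) := by
  have hs := wt_sum h
  have e1 : (t.2.map fun p => (un m p.2).length) = t.2.map fun p => p.2 :=
    List.map_congr_left fun p hp => un_length (wt_mem h hp)
  unfold facs
  rw [decide_eq_true h, cond_true, vals_expand (isLin_Qp n) _ _ m]
  · rw [List.map_cons, List.prod_cons, List.map_map]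
    simp only [Function.comp_def]
    rw [un_length (by omega), Qp_const]
    have e2 : (t.2.map fun p => Qp n (zmat D p.1) ^ (un m p.2).length).prod =
        C ((D : ℚ) ^ (t.2.map fun p => p.2).sum) * (t.2.map fun p => quad n p.1 ^ p.2).prod := by
      have key : ∀ l : List (QMat × ℕ), (∀ p ∈ l, p.2 ≤ m) →
          (∀ p ∈ l, ∀ r ∈ p.1, ∀ q ∈ r, q.den ∣ D) →
          (l.map fun p => Qp n (zmat D p.1) ^ (un m p.2).length).prod =
          C ((D : ℚ) ^ (l.map fun p => p.2).sum) * (l.map fun p => quad n p.1 ^ p.2).prod := by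
        intro l
        induction l with
        | nil => intro _ _; simp
        | cons p l ih =>
          intro hl hl'
          rw [List.map_cons, List.prod_cons, ih (fun p hp => hl p (List.mem_cons_of_mem _ hp))
            (fun p hp => hl' p (List.mem_cons_of_mem _ hp)), un_length (hl p (by simp)),
            Qp_zmat n D p.1 (hl' p (by simp)), List.map_cons, List.sum_cons, List.map_cons,
            List.prod_cons, pow_add, C_mul, mul_pow, ← C_pow]
          ring
      exact key t.2 (fun p hp => wt_mem h hp) h2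
    rw [e2]
    have e3 : ((zq D t.1 : ℤ) : MvPolynomial ℕ ℚ) = C (D * t.1 : ℚ) := by
      rw [← zq_cast h1]
      simp
    have e4 : (m.factorial : MvPolynomial ℕ ℚ) = C (m.factorial : ℚ) := by simp
    rw [e3, e4, ← C_pow, Int.cast_natCast]
    have e5 : (D : ℚ) ^ m = D ^ (m - (t.2.map fun p => p.2).sum) *
        D ^ (t.2.map fun p => p.2).sum := by
      rw [← pow_add, Nat.sub_add_cancel (by omega)]
    rw [pow_succ, e5]
    simp only [C_mul]
    ring
  · rw [List.map_cons, List.sum_cons, List.map_map]
    simp only [Function.comp_def]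
    rw [e1, un_length (by omega)]
    omega

theorem vals_plist (n m D : ℕ) (E : List Summand) (h : ∀ t ∈ E, wt t ≤ m)
    (h1 : ∀ t ∈ E, t.1.den ∣ D) (h2 : ∀ t ∈ E, ∀ p ∈ t.2, ∀ r ∈ p.1, ∀ q ∈ r, q.den ∣ D) :
    vals (Qp n) (fun y => y ^ m) (plist n m D E) = C ((m.factorial : ℚ) * D ^ (m + 1)) *
      (E.map fun t => C t.1 * (t.2.map fun p => quad n p.1 ^ p.2).prod).sum := by
  unfold plist
  rw [vals_flatMap, ← List.sum_map_mul_left]
  congr 1
  refine List.map_congr_left fun t ht => ?_
  exact vals_facs n m D t (h t ht) (h1 t ht) (h2 t ht)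

theorem vals_symm (n m : ℕ) (L : List (ℤ × Mat)) :
    vals (Qp n) (fun y => y ^ m) (L.map fun x => (x.1, symm n x.2)) =
      2 ^ m * vals (Qp n) (fun y => y ^ m) L := by
  unfold vals
  rw [List.map_map, ← List.sum_map_mul_left]
  congr 1
  refine List.map_congr_left fun x _ => ?_
  simp only [Function.comp_apply, Qp_symm, mul_pow]
  ring

theorem dens_pos (E : List Summand) : ∀ d ∈ dens E, 0 < d := by
  intro d hd
  unfold dens at hd
  rw [List.mem_flatMap] at hd
  obtain ⟨t, _, hd⟩ := hd
  rcases List.mem_cons.1 hd with rfl | hd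
  · exact t.1.den_pos
  · rw [List.mem_flatMap] at hd
    obtain ⟨p, _, hd⟩ := hd
    rw [List.mem_map] at hd
    obtain ⟨q, _, rfl⟩ := hd
    exact q.den_pos

theorem dec_eq (I : Input) : dec I = true ↔ Small I ∧ value I = 0 := by
  unfold dec
  rw [Bool.and_eq_true, List.all_eq_true, decide_eq_true_iff]
  have h1 : (∀ t ∈ I.2.2, decide (wt t ≤ I.2.1.length) = true) ↔ Small I := by
    simp only [decide_eq_true_iff]
    rfl
  rw [h1]
  refine and_congr_right fun hs => ?_
  rw [total_eq_zero]
  · rw [vals_symm, vals_plist _ _ _ _ (fun t ht => hs t ht)]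
    · have hD : (((dens I.2.2).prod : ℕ) : ℚ) ≠ 0 := by
        exact_mod_cast (List.prod_pos (dens_pos I.2.2)).ne'
      have hf : ((I.2.1.length.factorial : ℕ) : ℚ) ≠ 0 := by
        exact_mod_cast (Nat.factorial_pos _).ne'
      have h3 : (C ((I.2.1.length.factorial : ℚ) * ((dens I.2.2).prod : ℚ) ^ (I.2.1.length + 1)) :
          MvPolynomial ℕ ℚ) ≠ 0 := by
        rw [Ne, C_eq_zero]
        positivity
      have h4 : (2 : MvPolynomial ℕ ℚ) ^ I.2.1.length ≠ 0 := by
        apply pow_ne_zero
        exact two_ne_zero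
      rw [mul_eq_zero, mul_eq_zero]
      simp only [h3, h4, false_or]
      rfl
    · intro t ht
      refine List.dvd_prod ?_
      unfold dens
      rw [List.mem_flatMap]
      exact ⟨t, ht, by simp⟩
    · intro t ht p hp r hr q hq
      refine List.dvd_prod ?_
      unfold dens
      rw [List.mem_flatMap]
      refine ⟨t, ht, List.mem_cons_of_mem _ ?_⟩
      rw [List.mem_flatMap]
      refine ⟨p, hp, ?_⟩
      rw [List.mem_map]
      exact ⟨q, List.mem_flatten.2 ⟨r, hr, hq⟩, rfl⟩
  · intro p hp
    rw [List.mem_map] at hp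
    obtain ⟨x, _, rfl⟩ := hp
    exact toM_symm _ _

end Pool.Agent.NPC.H532
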