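import Pool.Agent.NPC.Defs

/-!
# Sums of products of powers of quadratic polynomials: definitions

Expressions `∑ᵢ cᵢ ∏ⱼ qᵢⱼ ^ eᵢⱼ` with rational numbers `cᵢ` and quadratic polynomials `qᵢⱼ` with
rational coefficients, given explicitly.
-/

namespace Pool.Agent.H532R2.SPQ

open Pool.Agent.NPC MvPolynomial

/-- A matrix of rational numbers, given by the list of its rows. -/
abbrev QMat : Type := List (List ℚ)

/-- The entry of a matrix in row `i` and column `j` (zero if it is not there). -/
def qentry (A : QMat) (i j : ℕ) : ℚ := (A.getD i []).getD j 0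

/-- The sequence `1, x₀, x₁, x₂, …` of polynomials. -/
noncomputable def hv : ℕ → MvPolynomial ℕ ℚ
  | 0 => 1
  | i + 1 => X i

/-- The quadratic polynomial (of degree at most two) in the variables `x₀, …, xₙ₋₁` given by a
matrix `A` with rows and columns indexed by `0, …, n`: it is `∑ᵢⱼ Aᵢⱼ vᵢ vⱼ` with `v₀ = 1` and
`vᵢ₊₁ = xᵢ`. -/
noncomputable def quad (n : ℕ) (A : QMat) : MvPolynomial ℕ ℚ :=
  ∑ i ∈ Finset.range (n + 1), ∑ j ∈ Finset.range (n + 1), C (qentry A i j) * (hv i * hv j)

/-- The inputs: the number `n` of variables in unary, a number `m` in unary, and the list of the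
summands; a summand `(c, [(A₁, e₁), …, (Aᵣ, eᵣ)])` stands for `c * q₁ ^ e₁ * ⋯ * qᵣ ^ eᵣ`, where
`qⱼ` is the quadratic polynomial of `Aⱼ`. -/
abbrev Input : Type := List Unit × List Unit × List (ℚ × List (QMat × ℕ))

/-- The polynomial computed by an input. -/
noncomputable def value (I : Input) : MvPolynomial ℕ ℚ :=
  (I.2.2.map fun t => C t.1 * (t.2.map fun p => quad I.1.length p.1 ^ p.2).prod).sum

/-- In each summand the product of the numbers `eⱼ + 1` is at most `m`. -/
def Small (I : Input) : Prop :=
  ∀ t ∈ I.2.2, (t.2.map fun p => p.2 + 1).prod ≤ I.2.1.length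

end Pool.Agent.H532R2.SPQ
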