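import Pool.Agent.H532R2.QuadDec

/-!
# The decision procedure for sums of products of powers of quadratic polynomials runs in
# polynomial time
-/

namespace Pool.Agent.NPC.H532

open Pool.Agent.H532R2 Pool.Agent.H532R2.SPQ

section

variable {α β : Type} [TEnc α] [TEnc β]

theorem Poly_num {f : α → ℚ} (hf : Poly f) : Poly (fun a => (f a).num) :=
  Poly.fst (f := fun a => ((f a).num, (f a).den)) hf

theorem Poly_den {f : α → ℚ} (hf : Poly f) : Poly (fun a => (f a).den) :=
  Poly.snd (f := fun a => ((f a).num, (f a).den)) hf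

theorem size_mul_le (a b : ℕ) : (a * b).size ≤ a.size + b.size := by
  rw [Nat.size_le, pow_add]
  exact Nat.mul_lt_mul'' (Nat.lt_size_self a) (Nat.lt_size_self b)

theorem size_prod_le : ∀ l : List ℕ, l.prod.size ≤ sz l
  | [] => by simp [Nat.size_one]
  | a :: l => by
    have h1 := size_prod_le l
    have h2 := size_mul_le a l.prod
    have h3 := size_le_sz a
    rw [List.prod_cons, sz_list_cons]
    omega

theorem Poly_prodN {l : α → List ℕ} (hl : Poly l) : Poly (fun a => (l a).prod) := by
  refine (Poly_foldl (s := fun _ => (1 : ℕ)) (F := fun _ (s : ℕ) (b : ℕ) => s * b) hl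
    (Poly.const _) (Poly.mul (Poly.fst (Poly.snd Poly.id)) (Poly.snd (Poly.snd Poly.id)))
    (fun a => 4 * sz (l a) + 1) ?_ ?_).congr fun a => ?_
  · exact ((PB.const 4).mul (PB.sz hl)).add (PB.const 1)
  · intro a k hk
    have e : ((l a).take k).foldl (fun s b => s * b) 1 = ((l a).take k).prod :=
      List.prod_eq_foldl.symm
    rw [e]
    have h1 := sz_nat_le ((l a).take k).prod
    have h2 := size_prod_le ((l a).take k)
    have h3 := Poly.sz_take_le (l a) k
    omega
  · exact List.prod_eq_foldl.symm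

theorem Poly_wt {t : α → Summand} (ht : Poly t) : Poly (fun a => wt (t a)) := by
  unfold wt
  exact Poly_prodN (Poly.map (β := QMat × ℕ) (F := fun _ p => p.2 + 1) (Poly.snd ht)
    (Poly.succ (Poly.snd (Poly.snd Poly.id))))

theorem Poly_dens {E : α → List Summand} (hE : Poly E) : Poly (fun a => dens (E a)) := by
  unfold dens
  refine Poly.flatMap (β := Summand) (γ := ℕ)
    (F := fun _ t => t.1.den :: t.2.flatMap fun p => p.1.flatten.map fun q => q.den) hE ?_
  refine Poly.cons (Poly_den (Poly.fst (Poly.snd Poly.id))) ?_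
  refine Poly.flatMap (α := α × Summand) (β := QMat × ℕ) (γ := ℕ)
    (F := fun _ p => p.1.flatten.map fun q => q.den) (Poly.snd (Poly.snd Poly.id)) ?_
  exact Poly.map (α := (α × Summand) × QMat × ℕ) (β := ℚ) (γ := ℕ)
    (F := fun _ q => q.den) (Poly.flatten (Poly.fst (Poly.snd Poly.id)))
    (Poly_den (Poly.snd Poly.id))

theorem Poly_zq {D : α → ℕ} {q : α → ℚ} (hD : Poly D) (hq : Poly q) :
    Poly (fun a => zq (D a) (q a)) := by
  unfold zq
  exact Poly_mulZ (Poly_num hq) (Poly_ofNat (Poly.div hD (Poly_den hq)))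

theorem Poly_zmat {D : α → ℕ} {A : α → QMat} (hD : Poly D) (hA : Poly A) :
    Poly (fun a => zmat (D a) (A a)) := by
  unfold zmat
  refine Poly.map (β := List ℚ) (γ := List ℤ) (F := fun a r => r.map fun q => zq (D a) q) hA ?_
  exact Poly.map (α := α × List ℚ) (β := ℚ) (γ := ℤ) (F := fun x q => zq (D x.1) q)
    (Poly.snd Poly.id) (Poly_zq (hD.comp (Poly.fst (Poly.fst Poly.id))) (Poly.snd Poly.id))

theorem Poly_un {m e : α → ℕ} (hm : UPoly m) (he : Poly e) : Poly (fun a => un (m a) (e a)) := by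
  unfold un
  exact Poly.filter (p := fun a k => decide (k < e a)) hm.range
    (Poly.decide_lt (Poly.snd Poly.id) (he.comp (Poly.fst Poly.id)))

theorem Poly_facs {m D : α → ℕ} {t : α → Summand} (hm : UPoly m) (hD : Poly D) (ht : Poly t) :
    Poly (fun a => facs (m a) (D a) (t a)) := by
  unfold facs
  refine Poly.cond (Poly.decide_le (Poly_wt ht) hm.toPoly) (Poly.cons ?_ ?_) (Poly.const _)
  · refine Poly.pair (Poly.cons (Poly.cons (Poly_ofNat hD) (Poly.const _)) (Poly.const _)) ?_
    refine Poly_un hm (Poly.sub hm.toPoly (Poly.sum ?_))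
    exact Poly.map (β := QMat × ℕ) (γ := ℕ) (F := fun _ p => p.2) (Poly.snd ht)
      (Poly.snd (Poly.snd Poly.id))
  · refine Poly.map (β := QMat × ℕ) (γ := Mat × List ℕ)
      (F := fun a p => (zmat (D a) p.1, un (m a) p.2)) (Poly.snd ht) ?_
    exact Poly.pair (Poly_zmat (hD.comp (Poly.fst Poly.id)) (Poly.fst (Poly.snd Poly.id)))
      (Poly_un (hm.comp (Poly.fst Poly.id)) (Poly.snd (Poly.snd Poly.id)))

theorem facs_prod_le (m D : ℕ) (t : Summand) :
    ((facs m D t).map fun p => p.2.length + 1).prod ≤ (m + 1) * (m + 1) := by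
  unfold facs
  by_cases h : wt t ≤ m
  · rw [decide_eq_true h, cond_true, List.map_cons, List.prod_cons, List.map_map]
    have hs := wt_sum h
    rw [un_length (by omega)]
    have e1 : (t.2.map ((fun p : Mat × List ℕ => p.2.length + 1) ∘
        fun p => (zmat D p.1, un m p.2))) = t.2.map fun p => p.2 + 1 :=
      List.map_congr_left fun p hp => by
        simp only [Function.comp_apply]
        rw [un_length (wt_mem h hp)]
    rw [e1]
    have h1 : (t.2.map fun p => p.2 + 1).prod ≤ m := h
    exact Nat.mul_le_mul (by omega) (by omega)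
  · rw [decide_eq_false h, cond_false]
    simp

theorem Poly_plist {n m D : α → ℕ} {E : α → List Summand} (hn : UPoly n) (hm : UPoly m)
    (hD : Poly D) (hE : Poly E) : Poly (fun a => plist (n a) (m a) (D a) (E a)) := by
  unfold plist
  refine Poly.flatMap (β := Summand) (γ := ℤ × Mat)
    (F := fun a t => expand (n a + 1) (zq (D a) t.1) (facs (m a) (D a) t)) hE ?_
  have h1 : Poly (fun x : α × Summand => x.1) := Poly.fst Poly.id
  have h2 : Poly (fun x : α × Summand => x.2) := Poly.snd Poly.id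
  have hm1 : UPoly (fun x : α × Summand => m x.1) := hm.comp h1
  refine Poly_expand (n := fun x : α × Summand => n x.1 + 1)
    (c := fun x => zq (D x.1) x.2.1) (F := fun x => facs (m x.1) (D x.1) x.2)
    (UPoly.add (hn.comp h1) (UPoly.const 1)) (Poly_zq (hD.comp h1) (Poly.fst h2))
    (Poly_facs hm1 (hD.comp h1) h2)
    (fun x => (m x.1 + 1) * (m x.1 + 1)) ?_ fun x => facs_prod_le _ _ _
  have h3 := (PB.of_upoly hm1).add (PB.const 1)
  exact h3.mul h3

theorem Poly_symm {n : α → ℕ} {S : α → Mat} (hn : UPoly n) (hS : Poly S) :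
    Poly (fun a => symm (n a) (S a)) := by
  unfold symm
  refine Poly_tab (n := fun a => n a + 1) (f := fun a i j => entry (S a) i j + entry (S a) j i)
    (UPoly.add hn (UPoly.const 1)) ?_
  have h1 : Poly (fun p : (α × ℕ) × ℕ => p.1.1) := Poly.fst (Poly.fst Poly.id)
  have h2 : Poly (fun p : (α × ℕ) × ℕ => p.1.2) := Poly.snd (Poly.fst Poly.id)
  have h3 : Poly (fun p : (α × ℕ) × ℕ => p.2) := Poly.snd Poly.id
  exact Poly_addZ (Poly_entry (hS.comp h1) h2 h3) (Poly_entry (hS.comp h1) h3 h2)

theorem Poly_total {n m : α → ℕ} {L : α → List (ℤ × Mat)} (hn : UPoly n) (hm : UPoly m)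
    (hL : Poly L) : Poly (fun a => total (n a) (m a) (L a)) := by
  unfold total
  refine Poly_sumZ (Poly.map (β := ℤ × Mat) (γ := ℤ)
    (F := fun a p => ((L a).map fun q => p.1 * q.1 * gram (n a + 1) (m a) p.2 q.2).sum) hL ?_)
  have h1 : Poly (fun x : α × ℤ × Mat => x.1) := Poly.fst Poly.id
  refine Poly_sumZ (Poly.map (α := α × ℤ × Mat) (β := ℤ × Mat) (γ := ℤ)
    (F := fun x q => x.2.1 * q.1 * gram (n x.1 + 1) (m x.1) x.2.2 q.2) (hL.comp h1) ?_)
  have h2 : Poly (fun y : (α × ℤ × Mat) × ℤ × Mat => y.1.1) := Poly.fst (Poly.fst Poly.id)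
  have h3 : Poly (fun y : (α × ℤ × Mat) × ℤ × Mat => y.1.2) := Poly.snd (Poly.fst Poly.id)
  have h4 : Poly (fun y : (α × ℤ × Mat) × ℤ × Mat => y.2) := Poly.snd Poly.id
  exact Poly_mulZ (Poly_mulZ (Poly.fst h3) (Poly.fst h4))
    (Poly_gram (UPoly.add (hn.comp h2) (UPoly.const 1)) (hm.comp h2) (Poly.snd h3) (Poly.snd h4))

end

theorem Poly_dec : Poly dec := by
  unfold dec
  have h1 : Poly (fun I : Input => I.1) := Poly.fst Poly.id
  have h2 : Poly (fun I : Input => I.2.1) := Poly.fst (Poly.snd Poly.id)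
  have h3 : Poly (fun I : Input => I.2.2) := Poly.snd (Poly.snd Poly.id)
  have hn : UPoly (fun I : Input => I.1.length) := UPoly.length h1
  have hm : UPoly (fun I : Input => I.2.1.length) := UPoly.length h2
  refine Poly.and ?_ ?_
  · exact Poly.all (β := Summand) (p := fun I t => decide (wt t ≤ I.2.1.length)) h3
      (Poly.decide_le (Poly_wt (Poly.snd Poly.id)) (hm.comp (Poly.fst Poly.id)).toPoly)
  · refine Poly.decide_eq (Poly_total hn hm ?_) (Poly.const 0)
    refine Poly.map (β := ℤ × Mat) (γ := ℤ × Mat) (F := fun I x => (x.1, symm I.1.length x.2))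
      (Poly_plist hn hm (Poly_prodN (Poly_dens h3)) h3) ?_
    exact Poly.pair (Poly.fst (Poly.snd Poly.id))
      (Poly_symm (hn.comp (Poly.fst Poly.id)) (Poly.snd (Poly.snd Poly.id)))

open Classical in
/-- Identity testing for sums of products of powers of quadratic polynomials takes polynomial
time. -/
theorem quad_result : Nonempty (Turing.TM2ComputableInPolyTime
    (bits : Input → List Bool) (bits : Bool → List Bool)
    (fun I => decide (Small I ∧ value I = 0))) := by
  have h : (fun I : Input => decide (Small I ∧ value I = 0)) = dec := by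
    funext I
    rw [Bool.eq_iff_iff, dec_eq, decide_eq_true_iff]
  rw [h]
  exact Poly.toTM Poly_dec

end Pool.Agent.NPC.H532
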