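import Pool.Agent.H532R2.IntPoly
import Pool.Agent.H532R2.Fischer

/-!
# Computing the Fischer inner product of powers of two quadratic forms
-/

namespace Pool.Agent.NPC.H532

open Finset MvPolynomial Pool.Agent.H532R2

section Rec

variable {ι : Type*} [Fintype ι] [DecidableEq ι]

theorem fis_rec (S T : Matrix ι ι ℚ) (hS : S.transpose = S) (hT : T.transpose = T) :
    ∀ (a k : ℕ), fis (qf ((S * T) ^ k * S) * qf S ^ a) (qf T ^ (a + 1)) =
      (a.factorial : ℚ) * (a + 1).factorial * ∑ j ∈ range (a + 1),
        2 * 4 ^ j * ((S * T) ^ (k + 1 + j)).trace *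
          (fis (qf S ^ (a - j)) (qf T ^ (a - j)) / ((a - j).factorial : ℚ) ^ 2)
  | 0, k => by
    rw [fis_step _ S T hS hT]
    have h1 : (T * ((S * T) ^ k * S)).trace = ((S * T) ^ (k + 1)).trace := by
      rw [Matrix.trace_mul_comm, pow_succ, Matrix.mul_assoc]
    rw [h1]
    simp
    ring
  | a + 1, k => by
    rw [fis_step _ S T hS hT]
    have h1 : (T * ((S * T) ^ k * S)).trace = ((S * T) ^ (k + 1)).trace := by
      rw [Matrix.trace_mul_comm, pow_succ, Matrix.mul_assoc]
    have h2 : S * T * ((S * T) ^ k * S) = (S * T) ^ (k + 1) * S := by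
      rw [← Matrix.mul_assoc, ← pow_succ']
    rw [h1, h2, Nat.add_sub_cancel, fis_rec S T hS hT a (k + 1), Finset.sum_range_succ' _ (a + 1)]
    have h3 : ∀ j ∈ range (a + 1), 2 * 4 ^ (j + 1) * ((S * T) ^ (k + 1 + (j + 1))).trace *
          (fis (qf S ^ (a + 1 - (j + 1))) (qf T ^ (a + 1 - (j + 1))) /
            ((a + 1 - (j + 1)).factorial : ℚ) ^ 2) =
          4 * (2 * 4 ^ j * ((S * T) ^ (k + 1 + 1 + j)).trace *
          (fis (qf S ^ (a - j)) (qf T ^ (a - j)) / ((a - j).factorial : ℚ) ^ 2)) := by
      intro j _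
      have e1 : a + 1 - (j + 1) = a - j := by omega
      have e2 : k + 1 + (j + 1) = k + 1 + 1 + j := by omega
      rw [e1, e2]
      ring
    rw [Finset.sum_congr rfl h3, ← Finset.mul_sum]
    have hf1 : ((a + 1).factorial : ℚ) = (a + 1) * a.factorial := by
      rw [Nat.factorial_succ]; push_cast; ring
    have hf2 : ((a + 1 + 1).factorial : ℚ) = (a + 2) * (a + 1).factorial := by
      rw [Nat.factorial_succ]; push_cast; ring
    have hne : ((a + 1).factorial : ℚ) ≠ 0 := by exact_mod_cast (Nat.factorial_pos _).ne'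
    simp only [pow_zero, mul_one, Nat.sub_zero, add_zero]
    rw [hf2]
    field_simp
    rw [hf1]
    push_cast
    ring

/-- The normalised inner product of two `d`-th powers. -/
noncomputable def Hv (S T : Matrix ι ι ℚ) (d : ℕ) : ℚ :=
  2 ^ d * fis (qf S ^ d) (qf T ^ d) / d.factorial

omit [DecidableEq ι] in
theorem Hv_zero (S T : Matrix ι ι ℚ) : Hv S T 0 = 1 := by
  unfold Hv
  have h : fis (1 : MvPolynomial ι ℚ) 1 = 1 := by
    have := fis_monomial_left (0 : ι →₀ ℕ) 1 1
    rw [mfac_zero] at this
    simpa using this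
  simp [h]

theorem Hv_succ (S T : Matrix ι ι ℚ) (hS : S.transpose = S) (hT : T.transpose = T) (a : ℕ) :
    Hv S T (a + 1) = ∑ j ∈ range (a + 1), (4 * 8 ^ j * ((S * T) ^ (j + 1)).trace) *
      ((a.descFactorial j : ℚ) * Hv S T (a - j)) := by
  have h1 := fis_rec S T hS hT a 0
  rw [pow_zero, one_mul, ← pow_succ'] at h1
  unfold Hv
  rw [h1]
  have hne : ((a + 1).factorial : ℚ) ≠ 0 := by exact_mod_cast (Nat.factorial_pos _).ne'
  rw [Finset.mul_sum, Finset.mul_sum, Finset.sum_div]
  refine Finset.sum_congr rfl fun j hj => ?_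
  have hj' : j ≤ a := by simpa [Nat.lt_succ_iff] using hj
  have h2 : ((a.descFactorial j : ℕ) : ℚ) * (a - j).factorial = a.factorial := by
    have := Nat.factorial_mul_descFactorial hj'
    rw [mul_comm]
    exact_mod_cast this
  have hne2 : ((a - j).factorial : ℚ) ≠ 0 := by exact_mod_cast (Nat.factorial_pos _).ne'
  rw [← h2]
  have h3 : (2 : ℚ) ^ (a + 1) = 2 * 2 ^ j * 2 ^ (a - j) := by
    rw [mul_assoc, ← pow_add, Nat.add_sub_cancel' hj', pow_succ']
  have h4 : (8 : ℚ) ^ j = 2 ^ j * 4 ^ j := by rw [← mul_pow]; norm_num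
  rw [h3, h4, zero_add, add_comm 1 j]
  field_simp
  ring

end Rec

/-! ### The algorithm -/

/-- The list of the matrices `Y, Y W, Y W ^ 2, …` in reverse order. -/
def pows (n : ℕ) (W Y : Mat) (m : ℕ) : List Mat :=
  (List.range m).foldl (fun acc _ => mmul n (acc.headD []) W :: acc) [Y]

/-- Eight times a matrix. -/
def smul8 (n : ℕ) (A : Mat) : Mat := tab n fun i j => 8 * entry A i j

/-- The scaled traces. -/
def trs (n : ℕ) (S T : Mat) (m : ℕ) : List ℤ :=
  (pows n (smul8 n (mmul n S T)) (mmul n S T) m).reverse.map fun Y => 4 * mtr n Y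

/-- One step of the recursion. -/
def hstep (s : List ℤ) (x : ℤ × List ℤ) : ℤ × List ℤ :=
  (x.1 + 1, ((s.zip x.2).map fun p => p.1 * p.2).sum :: x.2.map fun y => x.1 * y)

/-- The inner products of the powers of two quadratic forms, in a suitable normalisation. -/
def gram (n m : ℕ) (S T : Mat) : ℤ :=
  ((List.range m).foldl (fun x _ => hstep (trs n S T m) x) (1, [1])).2.headD 0

/-- The rational matrix of a list of lists. -/
def toM (n : ℕ) (A : Mat) : Matrix (Fin n) (Fin n) ℚ := fun i j => (entry A i j : ℚ)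

theorem sum_map_range {M : Type*} [AddCommMonoid M] (n : ℕ) (f : ℕ → M) :
    ((List.range n).map f).sum = ∑ i ∈ range n, f i := by
  induction n with
  | zero => simp
  | succ n ih => rw [List.range_succ, List.map_append, List.sum_append, ih,
      Finset.sum_range_succ]; simp

theorem toM_tab (n : ℕ) (f : ℕ → ℕ → ℤ) : toM n (tab n f) = fun (i j : Fin n) => (f i j : ℚ) := by
  funext i j
  unfold toM
  rw [entry_tab f i.2 j.2]

theorem toM_mmul (n : ℕ) (A B : Mat) : toM n (mmul n A B) = toM n A * toM n B := by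
  unfold mmul
  rw [toM_tab]
  funext i j
  rw [Matrix.mul_apply, sum_map_range, Finset.sum_range]
  unfold toM
  push_cast
  rfl

theorem cast_mtr (n : ℕ) (A : Mat) : ((mtr n A : ℤ) : ℚ) = (toM n A).trace := by
  unfold mtr Matrix.trace
  rw [sum_map_range, Finset.sum_range]
  push_cast
  rfl

theorem toM_smul8 (n : ℕ) (A : Mat) : toM n (smul8 n A) = (8 : ℚ) • toM n A := by
  unfold smul8
  rw [toM_tab]
  funext i j
  simp [toM]

theorem pows_eq (n : ℕ) (W Y : Mat) (m : ℕ) : ∃ Z : ℕ → Mat,
    pows n W Y m = ((List.range (m + 1)).map Z).reverse ∧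
      ∀ k, toM n (Z k) = toM n Y * toM n W ^ k := by
  set Z : ℕ → Mat := fun k => (fun B => mmul n B W)^[k] Y with hZ
  refine ⟨Z, ?_, ?_⟩
  · induction m with
    | zero => simp [pows, hZ]
    | succ m ih =>
      unfold pows at ih ⊢
      rw [List.range_succ, List.foldl_append, ih]
      simp only [List.foldl_cons, List.foldl_nil]
      rw [List.range_succ (n := m + 1), List.map_append, List.reverse_append]
      simp only [List.map_cons, List.map_nil, List.reverse_cons, List.reverse_nil, List.nil_append,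
        List.cons_append]
      congr 1
      rw [List.range_succ, List.map_append, List.reverse_append]
      simp only [List.map_cons, List.map_nil, List.reverse_cons, List.reverse_nil, List.nil_append,
        List.cons_append, List.headD_cons]
      simp only [hZ, Function.iterate_succ_apply']
  · intro k
    induction k with
    | zero => simp [hZ]
    | succ k ih =>
      simp only [hZ, Function.iterate_succ_apply'] at ih ⊢
      rw [toM_mmul, ih, pow_succ, mul_assoc]

theorem trs_eq (n : ℕ) (S T : Mat) (m : ℕ) : ∃ s : ℕ → ℤ,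
    trs n S T m = (List.range (m + 1)).map s ∧
      ∀ k, (s k : ℚ) = 4 * 8 ^ k * ((toM n S * toM n T) ^ (k + 1)).trace := by
  obtain ⟨Z, hZ, hZ'⟩ := pows_eq n (smul8 n (mmul n S T)) (mmul n S T) m
  refine ⟨fun k => 4 * mtr n (Z k), ?_, ?_⟩
  · unfold trs
    rw [hZ, List.reverse_reverse, List.map_map]
    rfl
  · intro k
    push_cast
    rw [cast_mtr, hZ', toM_smul8, toM_mmul, smul_pow, Matrix.mul_smul, Matrix.trace_smul,
      ← pow_succ', smul_eq_mul]
    ring

theorem gram_state (n : ℕ) (S T : Mat) (hS : (toM n S).transpose = toM n S)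
    (hT : (toM n T).transpose = toM n T) (m : ℕ) : ∀ d ≤ m, ∃ h : ℕ → ℤ,
      (List.range d).foldl (fun x _ => hstep (trs n S T m) x) (1, [1]) =
        (((d + 1 : ℕ) : ℤ), (List.range (d + 1)).map h) ∧
      ∀ k ≤ d, (h k : ℚ) = (d.descFactorial k : ℚ) * Hv (toM n S) (toM n T) (d - k) := by
  obtain ⟨s, hs, hs'⟩ := trs_eq n S T m
  intro d
  induction d with
  | zero =>
    intro _
    refine ⟨fun _ => 1, by simp, fun k hk => ?_⟩
    obtain rfl : k = 0 := by omega
    simp [Hv_zero]
  | succ d ih =>
    intro hd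
    obtain ⟨h, h1, h2⟩ := ih (by omega)
    refine ⟨fun k => if k = 0 then ∑ j ∈ range (d + 1), s j * h j else (d + 1) * h (k - 1),
      ?_, ?_⟩
    · rw [List.range_succ, List.foldl_append, h1]
      simp only [List.foldl_cons, List.foldl_nil]
      unfold hstep
      rw [hs]
      have e1 : ((List.range (m + 1)).map s).zip ((List.range (d + 1)).map h) =
          (List.range (d + 1)).map fun j => (s j, h j) := by
        apply List.ext_getElem
        · simp; omega
        · intro i hi hi'
          simp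
      rw [e1, List.map_map, sum_map_range, List.map_map, List.range_succ_eq_map (n := d + 1),
        List.map_cons, List.map_map]
      simp only [if_true]
      refine Prod.ext (by push_cast; ring) ?_
      simp only
      congr 1
    · intro k hk
      rcases k with _ | k
      · simp only [if_true, Nat.descFactorial_zero, Nat.cast_one, one_mul, Nat.sub_zero]
        rw [Hv_succ _ _ hS hT]
        push_cast
        refine Finset.sum_congr rfl fun j hj => ?_
        rw [hs', h2 j (by simpa [Nat.lt_succ_iff] using hj)]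
      · change (((d + 1) * h (k + 1 - 1) : ℤ) : ℚ) = _
        rw [Nat.add_sub_cancel]
        push_cast
        rw [h2 k (by omega), Nat.succ_descFactorial_succ]
        push_cast
        ring

theorem gram_eq (n m : ℕ) (S T : Mat) (hS : (toM n S).transpose = toM n S)
    (hT : (toM n T).transpose = toM n T) : ((gram n m S T : ℤ) : ℚ) =
      2 ^ m * fis (qf (toM n S) ^ m) (qf (toM n T) ^ m) / m.factorial := by
  obtain ⟨h, h1, h2⟩ := gram_state n S T hS hT m m le_rfl
  unfold gram
  rw [h1, List.range_succ_eq_map, List.map_cons, List.headD_cons, h2 0 (Nat.zero_le _)]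
  simp [Hv]

end Pool.Agent.NPC.H532
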