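import Pool.Agent.H532R2.Bounds
import Pool.Agent.H532R2.QuadGram

/-!
# The inner products of powers of quadratic forms are computable in polynomial time
-/

namespace Pool.Agent.NPC.H532

variable {α : Type} [TEnc α]

theorem Poly_headD {β : Type} [TEnc β] {l : α → List β} (hl : Poly l) (d : β) :
    Poly (fun a => (l a).headD d) :=
  (Poly.head?_getD hl d).congr fun a => by cases l a <;> rfl

theorem pows_bound (n : ℕ) (W Y : Mat) (b c : ℕ) (hY : MB Y b) (hW : MB W c) :
    ∀ k, (pows n W Y k).length = k + 1 ∧ ∀ Z ∈ pows n W Y k, MB Z (b + k * (c + n.size)) ∧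
      sz Z ≤ sz Y + (n * (n * (4 * (b + k * (c + n.size)) + 6) + 2) + 1) := by
  intro k
  induction k with
  | zero =>
    refine ⟨by simp [pows], ?_⟩
    intro Z hZ
    simp only [pows, List.range_zero, List.foldl_nil, List.mem_singleton] at hZ
    subst hZ
    simpa using hY
  | succ k ih =>
    obtain ⟨h1, h2⟩ := ih
    have e : pows n W Y (k + 1) =
        mmul n ((pows n W Y k).headD []) W :: pows n W Y k := by
      unfold pows
      rw [List.range_succ, List.foldl_append]
      rfl
    have hk : b + k * (c + n.size) ≤ b + (k + 1) * (c + n.size) := by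
      have : k * (c + n.size) ≤ (k + 1) * (c + n.size) := Nat.mul_le_mul_right _ (by omega)
      omega
    rw [e]
    refine ⟨by simp [h1], ?_⟩
    intro Z hZ
    rcases List.mem_cons.1 hZ with rfl | hZ
    · have hh : MB ((pows n W Y k).headD []) (b + k * (c + n.size)) := by
        cases hp : pows n W Y k with
        | nil => intro r hr; simp at hr
        | cons A l => exact (h2 A (by rw [hp]; simp)).1
      have h3 : ∀ i j, ib (((List.range n).map fun k' =>
          entry ((pows n W Y k).headD []) i k' * entry W k' j).sum) ≤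
          b + (k + 1) * (c + n.size) := by
        intro i j
        refine (MB_mmul hh hW i j).trans (le_of_eq ?_)
        ring
      refine ⟨MB_tab fun i _ j _ => h3 i j, ?_⟩
      exact (sz_tab_le fun i _ j _ => h3 i j).trans (Nat.le_add_left _ _)
    · obtain ⟨h3, h4⟩ := h2 Z hZ
      refine ⟨fun r hr z hz => (h3 r hr z hz).trans hk, h4.trans ?_⟩
      gcongr

theorem Poly_pows {n m : α → ℕ} {W Y : α → Mat} (hn : UPoly n) (hm : UPoly m) (hW : Poly W)
    (hY : Poly Y) : Poly (fun a => pows (n a) (W a) (Y a) (m a)) := by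
  unfold pows
  have hF : Poly (fun p : α × List Mat × ℕ =>
      (mmul (n p.1) (p.2.1.headD []) (W p.1) :: p.2.1 : List Mat)) := by
    have h1 : Poly (fun p : α × List Mat × ℕ => p.1) := Poly.fst Poly.id
    have h2 : Poly (fun p : α × List Mat × ℕ => p.2.1) := Poly.fst (Poly.snd Poly.id)
    exact Poly.cons (Poly_mmul (hn.comp h1) (Poly_headD h2 _) (hW.comp h1)) h2
  refine Poly_foldRange (s := fun a => [Y a])
    (F := fun a (acc : List Mat) (_ : ℕ) => mmul (n a) (acc.headD []) (W a) :: acc) hm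
    (Poly.cons hY (Poly.const _)) hF
    (fun a => (m a + 1) * ((sz (Y a) + (n a * (n a * (4 * (sz (Y a) + m a * (sz (W a) + n a)) + 6)
      + 2) + 1)) + 1) + 1) ?_ ?_
  · have hn' := PB.of_upoly hn
    have hm' := PB.of_upoly hm
    have hY' := PB.sz hY
    have hW' := PB.sz hW
    have h1 := hY'.add (hm'.mul (hW'.add hn'))
    have h2 := (hn'.mul ((hn'.mul (((PB.const 4).mul h1).add (PB.const 6))).add (PB.const 2))).add
      (PB.const 1)
    exact (((hm'.add (PB.const 1)).mul ((hY'.add h2).add (PB.const 1))).add (PB.const 1))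
  · intro a k hk
    have h := pows_bound (n a) (W a) (Y a) _ _ (MB_sz _) (MB_sz _) k
    change sz (pows (n a) (W a) (Y a) k) ≤ _
    refine (sz_list_le (B := sz (Y a) + (n a * (n a * (4 * (sz (Y a) + m a * (sz (W a) + n a)) + 6)
      + 2) + 1)) ?_).trans ?_
    · intro Z hZ
      refine (h.2 Z hZ).2.trans ?_
      have h5 : k * (sz (W a) + (n a).size) ≤ m a * (sz (W a) + n a) :=
        Nat.mul_le_mul hk (Nat.add_le_add_left (Poly.size_le_self _) _)
      gcongr
    · rw [h.1]
      gcongr

theorem Poly_smul8 {n : α → ℕ} {A : α → Mat} (hn : UPoly n) (hA : Poly A) :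
    Poly (fun a => smul8 (n a) (A a)) := by
  unfold smul8
  refine Poly_tab (f := fun a i j => 8 * entry (A a) i j) hn ?_
  exact Poly_mulZ (Poly.const _) (Poly_entry (hA.comp (Poly.fst (Poly.fst Poly.id)))
    (Poly.snd (Poly.fst Poly.id)) (Poly.snd Poly.id))

theorem Poly_trs {n m : α → ℕ} {S T : α → Mat} (hn : UPoly n) (hm : UPoly m) (hS : Poly S)
    (hT : Poly T) : Poly (fun a => trs (n a) (S a) (T a) (m a)) := by
  unfold trs
  refine Poly.map (F := fun a Y => 4 * mtr (n a) Y)
    (Poly.reverse (Poly_pows hn hm (Poly_smul8 hn (Poly_mmul hn hS hT)) (Poly_mmul hn hS hT))) ?_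
  exact Poly_mulZ (Poly.const _) (Poly_mtr (hn.comp (Poly.fst Poly.id)) (Poly.snd Poly.id))

theorem Poly_hstep {s : α → List ℤ} {x : α → ℤ × List ℤ} (hs : Poly s) (hx : Poly x) :
    Poly (fun a => hstep (s a) (x a)) := by
  unfold hstep
  refine Poly.pair (Poly_addZ (Poly.fst hx) (Poly.const 1)) (Poly.cons ?_ ?_)
  · refine Poly_sumZ (Poly.map (F := fun _ (p : ℤ × ℤ) => p.1 * p.2) (Poly.zip hs (Poly.snd hx)) ?_)
    exact Poly_mulZ (Poly.fst (Poly.snd Poly.id)) (Poly.snd (Poly.snd Poly.id))
  · refine Poly.map (F := fun a (y : ℤ) => (x a).1 * y) (Poly.snd hx) ?_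
    exact Poly_mulZ (Poly.fst (hx.comp (Poly.fst Poly.id))) (Poly.snd Poly.id)

theorem hstate_bound (s : List ℤ) (b : ℕ) (hs : ∀ z ∈ s, ib z ≤ b) : ∀ k,
    (((List.range k).foldl (fun x _ => hstep s x) ((1 : ℤ), [(1 : ℤ)])).1 = (k : ℤ) + 1) ∧
    ((List.range k).foldl (fun x _ => hstep s x) ((1 : ℤ), [(1 : ℤ)])).2.length = k + 1 ∧
    ∀ z ∈ ((List.range k).foldl (fun x _ => hstep s x) ((1 : ℤ), [(1 : ℤ)])).2,
      ib z ≤ 1 + k * (b + (k + 1)) := by
  intro k
  induction k with
  | zero => simp [ib_one]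
  | succ k ih =>
    obtain ⟨h1, h2, h3⟩ := ih
    rw [List.range_succ, List.foldl_append]
    simp only [List.foldl_cons, List.foldl_nil]
    set x := (List.range k).foldl (fun x _ => hstep s x) ((1 : ℤ), [(1 : ℤ)]) with hx
    have hmono : 1 + k * (b + (k + 1)) + (b + (k + 1)) ≤ 1 + (k + 1) * (b + (k + 1 + 1)) := by
      nlinarith
    unfold hstep
    refine ⟨by rw [h1]; push_cast; ring, by simp [h2], ?_⟩
    intro z hz
    rcases List.mem_cons.1 hz with rfl | hz
    · have h4 := ib_list_sum ((s.zip x.2).map fun p => p.1 * p.2) (b + (1 + k * (b + (k + 1)))) (by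
        intro z hz
        rw [List.mem_map] at hz
        obtain ⟨p, hp, rfl⟩ := hz
        have hp' := List.of_mem_zip (a := p.1) (b := p.2) hp
        exact (ib_mul _ _).trans (Nat.add_le_add (hs _ hp'.1) (h3 _ hp'.2)))
      have h5 : ((s.zip x.2).map fun p => p.1 * p.2).length ≤ k + 1 := by
        rw [List.length_map, List.length_zip, h2]
        exact min_le_right _ _
      have h6 := Poly.size_le_self ((s.zip x.2).map fun p => p.1 * p.2).length
      omega
    · rw [List.mem_map] at hz
      obtain ⟨y, hy, rfl⟩ := hz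
      have h4 := ib_mul x.1 y
      have h5 := h3 y hy
      have h6 : ib x.1 ≤ k + 1 := by
        rw [h1]
        have : ((k : ℤ) + 1) = ((k + 1 : ℕ) : ℤ) := by push_cast; ring
        rw [this, ib_natCast]
        exact Poly.size_le_self _
      omega

theorem Poly_gram {n m : α → ℕ} {S T : α → Mat} (hn : UPoly n) (hm : UPoly m) (hS : Poly S)
    (hT : Poly T) : Poly (fun a => gram (n a) (m a) (S a) (T a)) := by
  unfold gram
  have ht := Poly_trs hn hm hS hT
  have hF : Poly (fun p : α × (ℤ × List ℤ) × ℕ =>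
      hstep (trs (n p.1) (S p.1) (T p.1) (m p.1)) p.2.1) :=
    Poly_hstep (ht.comp (Poly.fst Poly.id)) (Poly.fst (Poly.snd Poly.id))
  refine Poly_headD (Poly.snd (Poly_foldRange (s := fun _ => ((1 : ℤ), [(1 : ℤ)]))
    (F := fun a (x : ℤ × List ℤ) (_ : ℕ) => hstep (trs (n a) (S a) (T a) (m a)) x) hm
    (Poly.const _) hF
    (fun a => 4 * (m a + 1) + 5 + ((m a + 1) * ((4 * (1 + m a * (sz (trs (n a) (S a) (T a) (m a)) +
      (m a + 1))) + 5) + 1) + 1) + 1) ?_ ?_)) 0
  · have hn' := PB.of_upoly hn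
    have hm' := PB.of_upoly hm
    have ht' := PB.sz ht
    have h1 := hm'.add (PB.const 1)
    have h2 := (PB.const 1).add (hm'.mul (ht'.add h1))
    exact ((((PB.const 4).mul h1).add (PB.const 5)).add ((h1.mul ((((PB.const 4).mul h2).add
      (PB.const 5)).add (PB.const 1))).add (PB.const 1))).add (PB.const 1)
  · intro a k hk
    obtain ⟨h1, h2, h3⟩ := hstate_bound (trs (n a) (S a) (T a) (m a))
      (sz (trs (n a) (S a) (T a) (m a))) (fun z hz => (ib_le_sz z).trans (sz_le_of_mem hz).le) k
    have e : ∀ x : ℤ × List ℤ, sz x = sz x.1 + sz x.2 + 1 := fun x => sz_pair x.1 x.2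
    rw [e]
    have h4 : sz ((List.range k).foldl (fun x _ => hstep (trs (n a) (S a) (T a) (m a)) x)
        ((1 : ℤ), [(1 : ℤ)])).1 ≤ 4 * (m a + 1) + 5 := by
      rw [h1]
      refine (sz_int_le _).trans ?_
      have : ((k : ℤ) + 1) = ((k + 1 : ℕ) : ℤ) := by push_cast; ring
      rw [this, ib_natCast]
      have := Poly.size_le_self (k + 1)
      omega
    have h5 : sz ((List.range k).foldl (fun x _ => hstep (trs (n a) (S a) (T a) (m a)) x)
        ((1 : ℤ), [(1 : ℤ)])).2 ≤ (m a + 1) * ((4 * (1 + m a * (sz (trs (n a) (S a) (T a) (m a)) +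
      (m a + 1))) + 5) + 1) + 1 := by
      refine (sz_list_le (B := 4 * (1 + m a * (sz (trs (n a) (S a) (T a) (m a)) +
        (m a + 1))) + 5) ?_).trans ?_
      · intro z hz
        have h6 := sz_int_le z
        have h7 := h3 z hz
        have h8 : k * (sz (trs (n a) (S a) (T a) (m a)) + (k + 1)) ≤
            m a * (sz (trs (n a) (S a) (T a) (m a)) + (m a + 1)) := by gcongr
        omega
      · rw [h2]
        gcongr
    omega

end Pool.Agent.NPC.H532
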