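import Pool.Agent.H532R2.QuadDefs
import Pool.Agent.H532R2.QuadPoly
import Pool.Agent.H532R2.Expand

/-!
# Identity testing for sums of products of powers of quadratic polynomials
-/

namespace Pool.Agent.NPC.H532

open Finset MvPolynomial Pool.Agent.H532R2 Pool.Agent.H532R2.SPQ

/-! ### The quadratic polynomial of an integer matrix -/

/-- The quadratic polynomial of an integer matrix of size `n + 1`. -/
noncomputable def Qp (n : ℕ) (S : Mat) : MvPolynomial ℕ ℚ :=
  ∑ i ∈ range (n + 1), ∑ j ∈ range (n + 1), C ((entry S i j : ℤ) : ℚ) * (hv i * hv j)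

theorem Qp_tab (n : ℕ) (f : ℕ → ℕ → ℤ) : Qp n (tab (n + 1) f) =
    ∑ i ∈ range (n + 1), ∑ j ∈ range (n + 1), C ((f i j : ℤ) : ℚ) * (hv i * hv j) := by
  unfold Qp
  refine Finset.sum_congr rfl fun i hi => Finset.sum_congr rfl fun j hj => ?_
  rw [entry_tab f (Finset.mem_range.1 hi) (Finset.mem_range.1 hj)]

theorem isLin_Qp (n : ℕ) : IsLin (n + 1) (Qp n) := by
  constructor
  · unfold Qp
    simp [entry]
  · intro S A k
    rw [Qp_tab]
    unfold Qp
    rw [Finset.mul_sum, ← Finset.sum_add_distrib]
    refine Finset.sum_congr rfl fun i _ => ?_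
    rw [Finset.mul_sum, ← Finset.sum_add_distrib]
    refine Finset.sum_congr rfl fun j _ => ?_
    push_cast
    rw [map_add, map_mul]
    simp only [map_natCast]
    ring

/-- Symmetrisation. -/
def symm (n : ℕ) (S : Mat) : Mat := tab (n + 1) fun i j => entry S i j + entry S j i

theorem Qp_symm (n : ℕ) (S : Mat) : Qp n (symm n S) = 2 * Qp n S := by
  unfold symm
  rw [Qp_tab]
  have h : ∑ i ∈ range (n + 1), ∑ j ∈ range (n + 1), C ((entry S j i : ℤ) : ℚ) * (hv i * hv j) =
      Qp n S := by
    rw [Finset.sum_comm]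
    unfold Qp
    refine Finset.sum_congr rfl fun i _ => Finset.sum_congr rfl fun j _ => ?_
    ring
  rw [two_mul]
  conv_rhs => rw [← h]
  rw [h]
  conv_rhs => enter [1]; rw [Qp]
  rw [← h, ← Finset.sum_add_distrib]
  refine Finset.sum_congr rfl fun i _ => ?_
  rw [← Finset.sum_add_distrib]
  refine Finset.sum_congr rfl fun j _ => ?_
  push_cast
  rw [map_add]
  ring

theorem toM_symm (n : ℕ) (S : Mat) :
    (toM (n + 1) (symm n S)).transpose = toM (n + 1) (symm n S) := by
  unfold symm
  rw [toM_tab]
  funext i j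
  change ((entry S j i + entry S i j : ℤ) : ℚ) = ((entry S i j + entry S j i : ℤ) : ℚ)
  rw [add_comm]

/-! ### Dehomogenisation -/

/-- Setting the first variable to one. -/
noncomputable def dehom (n : ℕ) : MvPolynomial (Fin (n + 1)) ℚ →ₐ[ℚ] MvPolynomial ℕ ℚ :=
  aeval fun i => hv i

theorem dehom_qf (n : ℕ) (S : Mat) : dehom n (qf (toM (n + 1) S)) = Qp n S := by
  unfold dehom qf Qp
  simp only [map_sum, map_mul, aeval_X, aeval_C, algebraMap_eq]
  rw [Finset.sum_range]
  refine Finset.sum_congr rfl fun i _ => ?_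
  rw [Finset.sum_range]
  rfl

/-- The sum of the powers of the quadratic forms of a list of weighted matrices. -/
noncomputable def hsum (n m : ℕ) (L : List (ℤ × Mat)) : MvPolynomial (Fin (n + 1)) ℚ :=
  (L.map fun p => C ((p.1 : ℤ) : ℚ) * qf (toM (n + 1) p.2) ^ m).sum

theorem dehom_hsum (n m : ℕ) (L : List (ℤ × Mat)) :
    dehom n (hsum n m L) = vals (Qp n) (fun y => y ^ m) L := by
  unfold hsum vals
  rw [map_list_sum, List.map_map]
  congr 1
  refine List.map_congr_left fun p _ => ?_
  simp only [Function.comp_apply, map_mul, map_pow, dehom_qf]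
  congr 1
  simp [dehom]

theorem eval_hsum_smul (n m : ℕ) (L : List (ℤ × Mat)) (a : Fin (n + 1) → ℚ) (c : ℚ) :
    eval (fun i => c * a i) (hsum n m L) = c ^ (2 * m) * eval a (hsum n m L) := by
  have h1 : ∀ S : Matrix (Fin (n + 1)) (Fin (n + 1)) ℚ, eval (fun i => c * a i) (qf S) =
      c ^ 2 * eval a (qf S) := by
    intro S
    unfold qf
    simp only [map_sum, map_mul, eval_C, eval_X, Finset.mul_sum]
    refine Finset.sum_congr rfl fun i _ => Finset.sum_congr rfl fun j _ => ?_
    ring
  unfold hsum
  rw [map_list_sum, map_list_sum, List.map_map, List.map_map, ← List.sum_map_mul_left]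
  congr 1
  refine List.map_congr_left fun p _ => ?_
  simp only [Function.comp_apply, map_mul, map_pow, h1, eval_C, mul_pow, ← pow_mul]
  ring

theorem eval_dehom (n : ℕ) (F : MvPolynomial (Fin (n + 1)) ℚ) (b : ℕ → ℚ) :
    eval b (dehom n F) = eval (fun i : Fin (n + 1) => eval b (hv i)) F := by
  induction F using MvPolynomial.induction_on with
  | C a => simp [dehom]
  | add p q hp hq => rw [map_add, map_add, map_add, hp, hq]
  | mul_X p i hp => rw [map_mul, map_mul, map_mul, hp]; simp [dehom]

theorem hsum_eq_zero (n m : ℕ) (L : List (ℤ × Mat)) :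
    hsum n m L = 0 ↔ vals (Qp n) (fun y => y ^ m) L = 0 := by
  constructor
  · intro h
    rw [← dehom_hsum, h, map_zero]
  · intro h
    have h1 : (X 0 : MvPolynomial (Fin (n + 1)) ℚ) * hsum n m L = 0 := by
      apply MvPolynomial.funext
      intro a
      rw [map_mul, eval_X, map_zero]
      by_cases ha : a 0 = 0
      · rw [ha, zero_mul]
      · have h2 : a = fun i : Fin (n + 1) => a 0 * (eval (fun k : ℕ => (a (Fin.ofNat (n + 1) (k + 1))) / a 0)
            (hv i)) := by
          funext i
          rcases i with ⟨i, hi⟩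
          rcases i with _ | i
          · simp [hv]
          · simp only [hv, eval_X]
            rw [mul_div_cancel₀ _ ha]
            congr 1
            apply Fin.ext
            simp [Nat.mod_eq_of_lt hi]
        rw [h2, eval_hsum_smul, ← eval_dehom, dehom_hsum, h]
        simp
    rcases mul_eq_zero.1 h1 with h2 | h2
    · exact absurd h2 (X_ne_zero _)
    · exact h2

/-! ### The test for sums of powers -/

theorem fis_list_sum_left {σ β : Type*} (L : List β) (f : β → MvPolynomial σ ℚ)
    (g : MvPolynomial σ ℚ) : fis (L.map f).sum g = (L.map fun p => fis (f p) g).sum := by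
  induction L with
  | nil => simp
  | cons a L ih => simp [fis_add_left, ih]

theorem fis_list_sum_right {σ β : Type*} (L : List β) (f : MvPolynomial σ ℚ)
    (g : β → MvPolynomial σ ℚ) : fis f (L.map g).sum = (L.map fun p => fis f (g p)).sum := by
  induction L with
  | nil => simp
  | cons a L ih => simp [fis_add_right, ih]

/-- The square of the norm of a sum of powers, up to a factor. -/
def total (n m : ℕ) (L : List (ℤ × Mat)) : ℤ :=
  (L.map fun p => (L.map fun q => p.1 * q.1 * gram (n + 1) m p.2 q.2).sum).sum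

theorem total_eq (n m : ℕ) (L : List (ℤ × Mat))
    (hL : ∀ p ∈ L, (toM (n + 1) p.2).transpose = toM (n + 1) p.2) :
    ((total n m L : ℤ) : ℚ) = 2 ^ m / m.factorial * fis (hsum n m L) (hsum n m L) := by
  unfold total
  conv_rhs => rw [hsum, fis_list_sum_left]
  rw [← List.sum_map_mul_left]
  push_cast
  rw [List.map_map]
  congr 1
  refine List.map_congr_left fun p hp => ?_
  conv_rhs => rw [← hsum]
  conv_rhs => rw [hsum, fis_list_sum_right]
  simp only [Function.comp_apply]
  rw [← List.sum_map_mul_left]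
  push_cast
  rw [List.map_map]
  congr 1
  refine List.map_congr_left fun q hq => ?_
  simp only [Function.comp_apply]
  rw [fis_C_mul_left, fis_C_mul_right]
  push_cast
  rw [gram_eq _ _ _ _ (hL p hp) (hL q hq)]
  ring

theorem total_eq_zero (n m : ℕ) (L : List (ℤ × Mat))
    (hL : ∀ p ∈ L, (toM (n + 1) p.2).transpose = toM (n + 1) p.2) :
    total n m L = 0 ↔ vals (Qp n) (fun y => y ^ m) L = 0 := by
  rw [← hsum_eq_zero, ← fis_self_eq_zero, ← Int.cast_eq_zero (α := ℚ), total_eq n m L hL]
  have h1 : (2 : ℚ) ^ m / m.factorial ≠ 0 := by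
    have : (m.factorial : ℚ) ≠ 0 := by exact_mod_cast (Nat.factorial_pos _).ne'
    positivity
  rw [mul_eq_zero]
  simp [h1]

end Pool.Agent.NPC.H532
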