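import Pool.Agent.H532R2.ThinMath

/-!
# Branching programs with few exponent differences: the decision procedure
-/

namespace Pool.Agent.NPC.H532.TH

open Finset MvPolynomial Pool.Agent.H532R2 Pool.Agent.H532R2.Thin Pool.Agent.NPC.H532
  Pool.Agent.NPC.H532.RP

/-- The function given by a list. -/
def fn (δ : List ℤ) : ℕ → ℤ := fun v => δ.getD v 0

/-- The set of differences of a state. -/
def SetOf (V : State) : Set (ℕ → ℤ) := {δ | ∃ x ∈ V, fn x.1 = δ}

theorem fn_inj {r : ℕ} {δ δ' : List ℤ} (h : δ.length = r) (h' : δ'.length = r)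
    (he : fn δ = fn δ') : δ = δ' := by
  refine List.ext_getElem (h.trans h'.symm) fun i hi hi' => ?_
  have := congrFun he i
  unfold fn at this
  rwa [List.getD_eq_getElem _ _ hi, List.getD_eq_getElem _ _ hi'] at this

/-- The layers with integer coefficients. -/
def conv (D : ℕ) (L : Layer) : ZLayer := L.map fun p => (p.1, zmat D p.2)

theorem zdeg_conv (D : ℕ) (L : Layer) (v : ℕ) : zdeg v (conv D L) = Thin.deg v L := by
  unfold zdeg conv Thin.deg
  rw [List.map_map]
  rfl

theorem zbound_conv (D : ℕ) (Ls : List Layer) (v : ℕ) :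
    zbound (Ls.map (conv D)) v = bound Ls v := by
  unfold zbound bound
  rw [List.map_map]
  congr 1
  exact List.map_congr_left fun L _ => zdeg_conv D L v

/-- All exponent lists of the layer have length at most `r`. -/
def Short (r : ℕ) (L : Layer) : Prop := ∀ p ∈ L, p.1.length ≤ r

theorem mem_keys {r D : ℕ} {L : Layer} {Ls : List Layer} {V : State} {κ : List ℤ} :
    κ ∈ keys r (conv D L) (Ls.map (conv D)) V ↔
      (∃ x ∈ V, ∃ p ∈ L, ∃ q ∈ L, shift r x.1 p.1 q.1 = κ) ∧
        ∀ v < r, (κ.getD v 0).natAbs ≤ bound Ls v := by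
  unfold keys
  rw [(ddL_spec _).2, List.mem_filter]
  unfold cands keep conv
  simp only [List.mem_flatMap, List.mem_map, List.all_eq_true, List.mem_range,
    decide_eq_true_eq]
  constructor
  · rintro ⟨⟨x, hx, p', ⟨p, hp, rfl⟩, q', ⟨q, hq, rfl⟩, h⟩, h2⟩
    refine ⟨⟨x, hx, p, hp, q, hq, h⟩, fun v hv => ?_⟩
    rw [← zbound_conv D]
    exact h2 v hv
  · rintro ⟨⟨x, hx, p, hp, q, hq, h⟩, h2⟩
    refine ⟨⟨x, hx, _, ⟨p, hp, rfl⟩, _, ⟨q, hq, rfl⟩, h⟩, fun v hv => ?_⟩
    have := h2 v hv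
    rw [← zbound_conv D] at this
    exact this

theorem keys_length {r D : ℕ} {L : Layer} {Ls : List Layer} {V : State} {κ : List ℤ}
    (h : κ ∈ keys r (conv D L) (Ls.map (conv D)) V) : κ.length = r := by
  obtain ⟨⟨x, _, p, _, q, _, rfl⟩, _⟩ := mem_keys.1 h
  simp [shift]

theorem next_eq {r D : ℕ} {L : Layer} {Ls : List Layer} {V : State}
    (hV : ∀ x ∈ V, x.1.length ≤ r) (hL : Short r L) :
    next L Ls (SetOf V) = {δ | ∃ κ ∈ keys r (conv D L) (Ls.map (conv D)) V, fn κ = δ} := by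
  ext δ'
  unfold next SetOf
  simp only [Set.mem_ofPred_eq]
  constructor
  · rintro ⟨⟨δ, ⟨x, hx, rfl⟩, p, hp, q, hq, h⟩, hb⟩
    have hfn : fn (shift r x.1 p.1 q.1) = δ' := by
      funext v
      unfold fn
      rw [shift_getD' (hV x hx) (hL p hp) (hL q hq), h v]
      rfl
    refine ⟨shift r x.1 p.1 q.1, mem_keys.2 ⟨⟨x, hx, p, hp, q, hq, rfl⟩, fun v _ => ?_⟩, hfn⟩
    have h1 := hb v
    rw [← hfn, Int.abs_eq_natAbs] at h1
    unfold fn at h1
    omega
  · rintro ⟨κ, hκ, rfl⟩
    obtain ⟨⟨x, hx, p, hp, q, hq, rfl⟩, h2⟩ := mem_keys.1 hκ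
    refine ⟨⟨fn x.1, ⟨x, hx, rfl⟩, p, hp, q, hq, fun v => ?_⟩, fun v => ?_⟩
    · unfold fn
      exact shift_getD' (hV x hx) (hL p hp) (hL q hq) v
    · unfold fn
      by_cases hv : v < r
      · have := h2 v hv
        rw [Int.abs_eq_natAbs]
        omega
      · rw [List.getD_eq_default _ _ (by simp [shift]; omega)]
        simp

theorem ncard_keys {r : ℕ} {l : List (List ℤ)} (hl : l.Nodup) (hr : ∀ κ ∈ l, κ.length = r) :
    ({δ | ∃ κ ∈ l, fn κ = δ} : Set (ℕ → ℤ)).ncard = l.length := by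
  classical
  have h1 : ({δ | ∃ κ ∈ l, fn κ = δ} : Set (ℕ → ℤ)) = ((l.toFinset.image fn : Finset (ℕ → ℤ)) :
      Set (ℕ → ℤ)) := by
    ext δ
    simp
  rw [h1, Set.ncard_coe_finset, Finset.card_image_of_injOn, List.toFinset_card_of_nodup hl]
  intro a ha b hb hab
  rw [Finset.mem_coe, List.mem_toFinset] at ha hb
  exact fn_inj (hr a ha) (hr b hb) hab

theorem setOf_nextV {N r D : ℕ} {L : Layer} {Ls : List Layer} {V : State} :
    SetOf (nextV N r (conv D L) (Ls.map (conv D)) V) =
      {δ | ∃ κ ∈ keys r (conv D L) (Ls.map (conv D)) V, fn κ = δ} := by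
  unfold SetOf nextV
  ext δ
  simp only [Set.mem_ofPred_eq, List.mem_map]
  constructor
  · rintro ⟨x, ⟨κ, hκ, rfl⟩, h⟩
    exact ⟨κ, hκ, h⟩
  · rintro ⟨κ, hκ, h⟩
    exact ⟨_, ⟨κ, hκ, rfl⟩, h⟩

/-- Reading all layers. -/
def go (N r m : ℕ) : List ZLayer → Bool → State → Bool × State
  | [], b, V => (b, V)
  | L :: Ls, b, V => bif decide ((keys r L Ls V).length ≤ m) then go N r m Ls b (nextV N r L Ls V)
      else go N r m Ls false []

theorem keys_nil (r : ℕ) (L : ZLayer) (Ls : List ZLayer) : keys r L Ls [] = [] := by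
  simp [keys, cands, ddL]

theorem go_false (N r m : ℕ) : ∀ (Ls : List ZLayer) (V : State), (go N r m Ls false V).1 = false
  | [], V => rfl
  | L :: Ls, V => by
    unfold go
    cases decide ((keys r L Ls V).length ≤ m)
    · rw [cond_false]; exact go_false N r m Ls _
    · rw [cond_true]; exact go_false N r m Ls _

theorem go_spec (w r m D : ℕ) : ∀ (Ls : List Layer) (V : State), (∀ L ∈ Ls, Short r L) →
    (∀ x ∈ V, x.1.length ≤ r) →
    ((go (w + 1) r m (Ls.map (conv D)) true V).1 = true ↔ Few m Ls (SetOf V)) ∧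
    ((go (w + 1) r m (Ls.map (conv D)) true V).1 = true →
      ((finV (go (w + 1) r m (Ls.map (conv D)) true V).2 : ℤ) : ℚ) = wt w V (Ls.map (conv D)))
  | [], V, _, _ => by
    refine ⟨⟨fun _ => trivial, fun _ => rfl⟩, fun _ => finV_eq w V⟩
  | L :: Ls, V, hLs, hV => by
    have hL : Short r L := hLs L (by simp)
    have hcard := ncard_keys (r := r) (l := keys r (conv D L) (Ls.map (conv D)) V)
      (ddL_spec _).1 fun κ hκ => keys_length hκ
    rw [← next_eq hV hL] at hcard
    rw [List.map_cons]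
    unfold go Few
    rw [hcard]
    by_cases hm : (keys r (conv D L) (Ls.map (conv D)) V).length ≤ m
    · rw [decide_eq_true hm, cond_true]
      have hV' : ∀ x ∈ nextV (w + 1) r (conv D L) (Ls.map (conv D)) V, x.1.length ≤ r := by
        intro x hx
        unfold nextV at hx
        rw [List.mem_map] at hx
        obtain ⟨κ, hκ, rfl⟩ := hx
        exact (keys_length hκ).le
      obtain ⟨h1, h2⟩ := go_spec w r m D Ls _ (fun L hL => hLs L (List.mem_cons_of_mem _ hL)) hV'
      rw [setOf_nextV, ← next_eq hV hL] at h1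
      refine ⟨⟨fun h => ⟨hm, h1.1 h⟩, fun h => h1.2 h.2⟩, fun h => ?_⟩
      rw [h2 h]
      refine wt_next w _ _ V hV ?_
      intro p hp
      unfold conv at hp
      rw [List.mem_map] at hp
      obtain ⟨p', hp', rfl⟩ := hp
      exact hL p' hp'
    · rw [decide_eq_false hm, cond_false, go_false]
      refine ⟨⟨fun h => absurd h (by simp), fun h => absurd h.1 hm⟩, fun h => absurd h (by simp)⟩

/-- All exponents. -/
def exps (Ls : List Layer) : List ℕ := Ls.flatMap fun L => L.flatMap fun p => p.1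

/-- All denominators. -/
def densT (Ls : List Layer) : List ℕ :=
  (Ls.flatMap fun L => L.flatMap fun p => p.2.flatten).map fun q => q.den

/-- The initial state. -/
def V0 : State := [([], [[1]])]

/-- The decision procedure. -/
def decT (I : Input) : Bool :=
  (go (I.1.length + 1) (exps I.2.2).length I.2.1.length (I.2.2.map (conv (densT I.2.2).prod)) true
    V0).1 &&
  decide (finV (go (I.1.length + 1) (exps I.2.2).length I.2.1.length
    (I.2.2.map (conv (densT I.2.2).prod)) true V0).2 = 0)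

theorem short_exps (Ls : List Layer) : ∀ L ∈ Ls, Short (exps Ls).length L := by
  intro L hL p hp
  have h1 : p.1.Sublist (L.flatMap fun p => p.1) := by
    rw [List.flatMap_def]
    exact List.sublist_flatten_of_mem (List.mem_map.2 ⟨p, hp, rfl⟩)
  have h2 : (L.flatMap fun p => p.1).Sublist (exps Ls) := by
    unfold exps
    rw [List.flatMap_def (l := Ls)]
    exact List.sublist_flatten_of_mem (List.mem_map.2 ⟨L, hL, rfl⟩)
  exact (h1.trans h2).length_le

theorem dens_mem {Ls : List Layer} {L : Layer} (hL : L ∈ Ls) {p : List ℕ × QMat} (hp : p ∈ L)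
    {r : List ℚ} (hr : r ∈ p.2) {q : ℚ} (hq : q ∈ r) : q.den ∣ (densT Ls).prod := by
  refine List.dvd_prod ?_
  unfold densT
  rw [List.mem_map]
  refine ⟨q, ?_, rfl⟩
  rw [List.mem_flatMap]
  refine ⟨L, hL, ?_⟩
  rw [List.mem_flatMap]
  exact ⟨p, hp, List.mem_flatten.2 ⟨r, hr, hq⟩⟩

theorem zlayer_conv {w D : ℕ} {L : Layer} (h : ∀ p ∈ L, ∀ r ∈ p.2, ∀ q ∈ r, q.den ∣ D) :
    zlayer w (conv D L) = (C (D : ℚ) : MvPolynomial ℕ ℚ) • layer w L := by
  ext1 i j
  rw [Matrix.smul_apply, smul_eq_mul]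
  unfold zlayer layer conv
  rw [Matrix.of_apply, Matrix.of_apply, List.map_map, ← List.sum_map_mul_left]
  congr 1
  refine List.map_congr_left fun p hp => ?_
  rw [Function.comp_apply, entry_zmat, zq_cast (den_dvd (h p hp) i j), C_mul]
  unfold qentry
  ring

theorem prod_conv {w D : ℕ} (Ls : List Layer)
    (h : ∀ L ∈ Ls, ∀ p ∈ L, ∀ r ∈ p.2, ∀ q ∈ r, q.den ∣ D) :
    ((Ls.map (conv D)).map (zlayer w)).prod =
      (C ((D : ℚ) ^ Ls.length) : MvPolynomial ℕ ℚ) • (Ls.map (layer w)).prod := by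
  induction Ls with
  | nil => simp
  | cons L Ls ih =>
    rw [List.map_cons, List.map_cons, List.prod_cons, ih fun L hL => h L (List.mem_cons_of_mem _ hL),
      zlayer_conv (h L (by simp)), List.map_cons, List.prod_cons, Matrix.smul_mul, Matrix.mul_smul,
      smul_smul, List.length_cons, pow_succ', C_mul]

theorem wt_V0 (w : ℕ) (Ls : List ZLayer) : wt w V0 Ls = ip (col w Ls 0) (col w Ls 0) := by
  unfold wt V0
  rw [List.map_cons, List.map_nil, List.sum_cons, List.sum_nil, add_zero,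
    Finset.sum_eq_single 0, Finset.sum_eq_single 0]
  · have h1 : entry [[1]] ((0 : Fin (w + 1)) : ℕ) ((0 : Fin (w + 1)) : ℕ) = 1 := rfl
    rw [h1]
    unfold sip
    have h2 : posp [] = 0 := by ext v; rw [posp_apply]; rfl
    have h3 : negp [] = 0 := by ext v; rw [negp_apply]; rfl
    rw [h2, h3]
    have h4 : (monomial 0 1 : MvPolynomial ℕ ℚ) = 1 := rfl
    rw [h4, one_mul]
    simp
  · intro j _ hj
    have h1 : entry [[1]] ((0 : Fin (w + 1)) : ℕ) (j : ℕ) = 0 := by
      have hj' : (j : ℕ) ≠ 0 := fun h => hj (Fin.ext h)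
      unfold entry
      obtain ⟨k, hk⟩ := Nat.exists_eq_succ_of_ne_zero hj'
      rw [hk]
      rfl
    rw [h1]
    simp
  · intro h; exact absurd (Finset.mem_univ _) h
  · intro i _ hi
    refine Finset.sum_eq_zero fun j _ => ?_
    have h1 : entry [[1]] (i : ℕ) (j : ℕ) = 0 := by
      have hi' : (i : ℕ) ≠ 0 := fun h => hi (Fin.ext h)
      unfold entry
      obtain ⟨k, hk⟩ := Nat.exists_eq_succ_of_ne_zero hi'
      rw [hk]
      rfl
    rw [h1]
    simp
  · intro h; exact absurd (Finset.mem_univ _) h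

theorem decT_eq (I : Input) : decT I = true ↔ Thin I ∧ value I = 0 := by
  unfold decT Thin
  rw [Bool.and_eq_true, decide_eq_true_iff]
  obtain ⟨h1, h2⟩ := go_spec I.1.length (exps I.2.2).length I.2.1.length (densT I.2.2).prod I.2.2 V0
    (short_exps I.2.2) (by intro x hx; simp [V0] at hx; rw [hx]; simp)
  have hset : SetOf V0 = {0} := by
    unfold SetOf V0
    ext δ
    simp only [Set.mem_ofPred_eq, List.mem_singleton, Set.mem_singleton_iff, exists_eq_left]
    constructor
    · intro h; rw [← h]; rfl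
    · intro h; rw [h]; rfl
  rw [hset] at h1
  rw [h1]
  refine and_congr_right fun hF => ?_
  have h3 := h2 (h1.2 hF)
  rw [wt_V0] at h3
  have hD : (((densT I.2.2).prod : ℕ) : ℚ) ≠ 0 := by
    have : 0 < (densT I.2.2).prod := List.prod_pos fun d hd => by
      unfold densT at hd
      rw [List.mem_map] at hd
      obtain ⟨q, _, rfl⟩ := hd
      exact q.den_pos
    exact_mod_cast this.ne'
  have h4 : col I.1.length (I.2.2.map (conv (densT I.2.2).prod)) 0 =
      C ((((densT I.2.2).prod : ℕ) : ℚ) ^ I.2.2.length) * value I := by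
    unfold col value
    rw [prod_conv I.2.2 fun L hL p hp r hr q hq => dens_mem hL hp hr hq, Matrix.smul_apply,
      smul_eq_mul]
  rw [← Int.cast_eq_zero (α := ℚ), h3, ip_self_eq_zero, h4, mul_eq_zero, C_eq_zero]
  constructor
  · rintro (h | h)
    · exact absurd h (pow_ne_zero _ hD)
    · exact h
  · exact Or.inr

end Pool.Agent.NPC.H532.TH
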