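import Pool.Agent.NPC.Defs

/-!
# Branching programs with few exponent differences: definitions
-/

namespace Pool.Agent.H532R2.Thin

open Pool.Agent.NPC MvPolynomial

/-- A matrix of rational numbers, given by the list of its rows. -/
abbrev QMat : Type := List (List ℚ)

/-- The entry of a matrix in row `i` and column `j` (zero if it is not there). -/
def qentry (A : QMat) (i j : ℕ) : ℚ := (A.getD i []).getD j 0

/-- A layer `[(α₁, A₁), …, (αₜ, Aₜ)]` stands for the matrix `x ^ α₁ A₁ + ⋯ + x ^ αₜ Aₜ` of
polynomials in the variables `x₀, x₁, …`. -/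
abbrev Layer : Type := List (List ℕ × QMat)

/-- The monomial `x ^ α = x₀ ^ α₀ x₁ ^ α₁ ⋯`. -/
noncomputable def mon (α : List ℕ) : MvPolynomial ℕ ℚ :=
  ∏ v ∈ Finset.range α.length, X v ^ α.getD v 0

/-- The `(w + 1) × (w + 1)` matrix of polynomials given by a layer. -/
noncomputable def layer (w : ℕ) (L : Layer) :
    Matrix (Fin (w + 1)) (Fin (w + 1)) (MvPolynomial ℕ ℚ) :=
  Matrix.of fun s t => (L.map fun p => C (qentry p.2 s t) * mon p.1).sum

/-- The inputs: a number `w` in unary, a number `m` in unary and a list of layers. -/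
abbrev Input : Type := List Unit × List Unit × List Layer

/-- The polynomial computed by an input `(w, m, [L₁, …, Lₙ])`: the entry in the upper left corner
of the product `L₁ L₂ ⋯ Lₙ`. -/
noncomputable def value (I : Input) : MvPolynomial ℕ ℚ :=
  (I.2.2.map (layer I.1.length)).prod 0 0

/-- The largest exponent of `x_v` in a layer. -/
def deg (v : ℕ) (L : Layer) : ℕ := (L.map fun p => p.1.getD v 0).foldr max 0

/-- The sum of the largest exponents of `x_v` in the layers of a list. -/
def bound (Ls : List Layer) (v : ℕ) : ℕ := (Ls.map (deg v)).sum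

/-- The differences `δ + α - β`, where `δ` is in `D` and `α` and `β` are exponents of `L`, of which
every component is in absolute value at most the sum of the largest exponents in the layers `Ls`
which follow `L`. -/
def next (L : Layer) (Ls : List Layer) (D : Set (ℕ → ℤ)) : Set (ℕ → ℤ) :=
  {δ' | (∃ δ ∈ D, ∃ p ∈ L, ∃ q ∈ L, ∀ v, δ' v = δ v + (p.1.getD v 0 : ℕ) - (q.1.getD v 0 : ℕ)) ∧
    ∀ v, |δ' v| ≤ bound Ls v}

/-- All sets of differences obtained by reading the layers have at most `m` elements. -/
def Few (m : ℕ) : List Layer → Set (ℕ → ℤ) → Prop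
  | [], _ => True
  | L :: Ls, D => (next L Ls D).ncard ≤ m ∧ Few m Ls (next L Ls D)

/-- The condition on the inputs. -/
def Thin (I : Input) : Prop := Few I.2.1.length I.2.2 {0}

end Pool.Agent.H532R2.Thin
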