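import Pool.Agent.H532R2.IP
import Pool.Agent.H532R2.PairPoly
import Pool.Agent.H532R2.ThinDefs

/-!
# Branching programs with few exponent differences: correctness
-/

namespace Pool.Agent.NPC.H532.TH

open Finset MvPolynomial Pool.Agent.H532R2 Pool.Agent.H532R2.Thin Pool.Agent.NPC.H532
  Pool.Agent.NPC.H532.RP

/-! ### Monomials -/

/-- The exponent vector. -/
noncomputable def vec (α : List ℕ) : ℕ →₀ ℕ :=
  Finsupp.onFinset (range α.length) (fun v => α.getD v 0) (by
    intro v hv
    rw [Finset.mem_range]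
    by_contra h
    rw [List.getD_eq_default _ _ (by omega)] at hv
    exact hv rfl)

theorem vec_apply (α : List ℕ) (v : ℕ) : vec α v = α.getD v 0 := rfl

theorem mon_eq (α : List ℕ) : mon α = monomial (vec α) 1 := by
  classical
  unfold mon
  rw [monomial_eq, C_1, one_mul]
  symm
  refine Finsupp.prod_of_support_subset _ ?_ _ (by simp)
  exact Finsupp.support_onFinset_subset

theorem ip_mon_mul (γ : ℕ →₀ ℕ) (p q : MvPolynomial ℕ ℚ) :
    ip (monomial γ 1 * p) (monomial γ 1 * q) = ip p q := by
  classical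
  have h1 : (monomial γ 1 * p : MvPolynomial ℕ ℚ).support ⊆ p.support.image (γ + ·) := by
    intro a ha
    rw [mem_support_iff, coeff_monomial_mul'] at ha
    rw [Finset.mem_image]
    by_cases h : γ ≤ a
    · rw [if_pos h, one_mul] at ha
      exact ⟨a - γ, mem_support_iff.2 ha, add_tsub_cancel_of_le h⟩
    · rw [if_neg h] at ha
      exact absurd rfl ha
  rw [ip_eq_sum _ _ _ h1, Finset.sum_image (fun a _ b _ h => add_left_cancel h)]
  unfold ip
  refine Finset.sum_congr rfl fun a _ => ?_
  rw [coeff_monomial_mul, coeff_monomial_mul, one_mul, one_mul]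

theorem ip_mon_congr {γ₁ κ₁ γ₂ κ₂ : ℕ →₀ ℕ} (h : γ₁ + κ₂ = γ₂ + κ₁) (p q : MvPolynomial ℕ ℚ) :
    ip (monomial γ₁ 1 * p) (monomial κ₁ 1 * q) = ip (monomial γ₂ 1 * p) (monomial κ₂ 1 * q) := by
  rw [← ip_mon_mul κ₂ (monomial γ₁ 1 * p), ← ip_mon_mul κ₁ (monomial γ₂ 1 * p), ← mul_assoc,
    ← mul_assoc, ← mul_assoc, ← mul_assoc, monomial_mul, monomial_mul, monomial_mul, monomial_mul,
    one_mul, add_comm κ₂ γ₁, add_comm κ₁ γ₂, h, add_comm κ₂ κ₁]

/-- The positive part. -/
noncomputable def posp (δ : List ℤ) : ℕ →₀ ℕ := vec (δ.map Int.toNat)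

/-- The negative part. -/
noncomputable def negp (δ : List ℤ) : ℕ →₀ ℕ := vec (δ.map fun z => (-z).toNat)

theorem posp_apply (δ : List ℤ) (v : ℕ) : posp δ v = (δ.getD v 0).toNat := by
  unfold posp
  rw [vec_apply, List.getD_eq_getElem?_getD, List.getD_eq_getElem?_getD, List.getElem?_map]
  cases δ[v]? <;> simp

theorem negp_apply (δ : List ℤ) (v : ℕ) : negp δ v = (-(δ.getD v 0)).toNat := by
  unfold negp
  rw [vec_apply, List.getD_eq_getElem?_getD, List.getD_eq_getElem?_getD, List.getElem?_map]
  cases δ[v]? <;> simp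

/-- Shifted inner products. -/
noncomputable def sip (δ : List ℤ) (p q : MvPolynomial ℕ ℚ) : ℚ :=
  ip (monomial (posp δ) 1 * p) (monomial (negp δ) 1 * q)

/-- The shifted difference. -/
def shift (r : ℕ) (δ : List ℤ) (α β : List ℕ) : List ℤ :=
  (List.range r).map fun v => δ.getD v 0 + (α.getD v 0 : ℕ) - (β.getD v 0 : ℕ)

theorem shift_getD (r : ℕ) (δ : List ℤ) (α β : List ℕ) {v : ℕ} (hv : v < r) :
    (shift r δ α β).getD v 0 = δ.getD v 0 + (α.getD v 0 : ℕ) - (β.getD v 0 : ℕ) := by
  unfold shift
  rw [List.getD_eq_getElem _ _ (by simpa using hv)]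
  simp

theorem shift_getD' {r : ℕ} {δ : List ℤ} {α β : List ℕ} (hδ : δ.length ≤ r) (hα : α.length ≤ r)
    (hβ : β.length ≤ r) (v : ℕ) :
    (shift r δ α β).getD v 0 = δ.getD v 0 + (α.getD v 0 : ℕ) - (β.getD v 0 : ℕ) := by
  by_cases hv : v < r
  · exact shift_getD r δ α β hv
  · rw [List.getD_eq_default _ _ (by simp [shift]; omega), List.getD_eq_default _ _ (by omega),
      List.getD_eq_default α _ (by omega), List.getD_eq_default β _ (by omega)]
    simp

theorem sip_shift {r : ℕ} {δ : List ℤ} {α β : List ℕ} (hδ : δ.length ≤ r) (hα : α.length ≤ r)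
    (hβ : β.length ≤ r) (p q : MvPolynomial ℕ ℚ) :
    sip δ (mon α * p) (mon β * q) = sip (shift r δ α β) p q := by
  unfold sip
  rw [mon_eq, mon_eq, ← mul_assoc, ← mul_assoc, monomial_mul, monomial_mul, one_mul]
  refine ip_mon_congr ?_ p q
  ext v
  simp only [Finsupp.add_apply, posp_apply, negp_apply, vec_apply]
  rw [shift_getD' hδ hα hβ]
  omega

/-! ### Layers with integer coefficients -/

/-- A layer with integer coefficients. -/
abbrev ZLayer : Type := List (List ℕ × Mat)

/-- The matrix of a layer. -/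
noncomputable def zlayer (w : ℕ) (L : ZLayer) :
    Matrix (Fin (w + 1)) (Fin (w + 1)) (MvPolynomial ℕ ℚ) :=
  Matrix.of fun s t => (L.map fun p => C ((entry p.2 s t : ℤ) : ℚ) * mon p.1).sum

/-- The first column of the product of the layers. -/
noncomputable def col (w : ℕ) (Ls : List ZLayer) (i : Fin (w + 1)) : MvPolynomial ℕ ℚ :=
  (Ls.map (zlayer w)).prod i 0

theorem col_nil (w : ℕ) (i : Fin (w + 1)) : col w [] i = if i = 0 then 1 else 0 := by
  unfold col
  rw [List.map_nil, List.prod_nil, Matrix.one_apply]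

theorem col_cons (w : ℕ) (L : ZLayer) (Ls : List ZLayer) (i : Fin (w + 1)) :
    col w (L :: Ls) i = (L.map fun p => ∑ s : Fin (w + 1),
      C ((entry p.2 i s : ℤ) : ℚ) * (mon p.1 * col w Ls s)).sum := by
  have h1 : col w (L :: Ls) i = ∑ s : Fin (w + 1), (L.map fun p =>
      C ((entry p.2 i s : ℤ) : ℚ) * (mon p.1 * col w Ls s)).sum := by
    unfold col
    rw [List.map_cons, List.prod_cons, Matrix.mul_apply]
    refine Finset.sum_congr rfl fun s _ => ?_
    unfold zlayer
    rw [Matrix.of_apply, ← List.sum_map_mul_right]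
    congr 1
    exact List.map_congr_left fun p _ => by ring
  rw [h1]
  clear h1
  induction L with
  | nil => simp
  | cons p L ih => simp only [List.map_cons, List.sum_cons, Finset.sum_add_distrib, ih]

/-- The new matrix for a pair of entries of a layer. -/
def trans (N : ℕ) (Z A B : Mat) (i j : ℕ) : ℤ :=
  ((List.range N).map fun r => ((List.range N).map fun s =>
    entry A r i * entry Z r s * entry B s j).sum).sum

/-- The states: differences with matrices. -/
abbrev State : Type := List (List ℤ × Mat)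

/-- The weight of a state. -/
noncomputable def wt (w : ℕ) (V : State) (Ls : List ZLayer) : ℚ :=
  (V.map fun x => ∑ r : Fin (w + 1), ∑ s : Fin (w + 1),
    ((entry x.2 r s : ℤ) : ℚ) * sip x.1 (col w Ls r) (col w Ls s)).sum

theorem sip_listsum_left (δ : List ℤ) {ι : Type*} (l : List ι) (f : ι → MvPolynomial ℕ ℚ)
    (q : MvPolynomial ℕ ℚ) : sip δ (l.map f).sum q = (l.map fun i => sip δ (f i) q).sum := by
  unfold sip
  rw [← List.sum_map_mul_left, ip_listsum_left]

theorem sip_listsum_right (δ : List ℤ) {ι : Type*} (l : List ι) (p : MvPolynomial ℕ ℚ)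
    (f : ι → MvPolynomial ℕ ℚ) : sip δ p (l.map f).sum = (l.map fun i => sip δ p (f i)).sum := by
  unfold sip
  rw [← List.sum_map_mul_left, ip_listsum_right]

theorem sip_sum_left (δ : List ℤ) {ι : Type*} (l : Finset ι) (f : ι → MvPolynomial ℕ ℚ)
    (q : MvPolynomial ℕ ℚ) : sip δ (∑ i ∈ l, f i) q = ∑ i ∈ l, sip δ (f i) q := by
  unfold sip
  rw [Finset.mul_sum, ip_sum_left]

theorem sip_sum_right (δ : List ℤ) {ι : Type*} (l : Finset ι) (p : MvPolynomial ℕ ℚ)
    (f : ι → MvPolynomial ℕ ℚ) : sip δ p (∑ i ∈ l, f i) = ∑ i ∈ l, sip δ p (f i) := by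
  unfold sip
  rw [Finset.mul_sum, ip_sum_right]

theorem sip_C_left (δ : List ℤ) (c : ℚ) (p q : MvPolynomial ℕ ℚ) :
    sip δ (C c * p) q = c * sip δ p q := by
  unfold sip
  rw [← ip_C_mul_left]
  congr 1
  ring

theorem sip_C_right (δ : List ℤ) (c : ℚ) (p q : MvPolynomial ℕ ℚ) :
    sip δ p (C c * q) = c * sip δ p q := by
  unfold sip
  rw [← ip_C_mul_right]
  congr 1
  ring

theorem listsum_finsum_comm {ι κ : Type*} (l : List ι) (s : Finset κ) (f : ι → κ → ℚ) :
    ∑ k ∈ s, (l.map fun i => f i k).sum = (l.map fun i => ∑ k ∈ s, f i k).sum := by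
  induction l with
  | nil => simp
  | cons a l ih => simp [Finset.sum_add_distrib, ih]

/-- One step for a single difference. -/
theorem wt_step (w : ℕ) {r : ℕ} (δ : List ℤ) (Z : Mat) (L : ZLayer) (Ls : List ZLayer)
    (hδ : δ.length ≤ r) (hL : ∀ p ∈ L, p.1.length ≤ r) :
    ∑ i : Fin (w + 1), ∑ j : Fin (w + 1),
      ((entry Z i j : ℤ) : ℚ) * sip δ (col w (L :: Ls) i) (col w (L :: Ls) j) =
    (L.map fun p => (L.map fun q => ∑ i : Fin (w + 1), ∑ j : Fin (w + 1),
      ((trans (w + 1) Z p.2 q.2 i j : ℤ) : ℚ) *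
        sip (shift r δ p.1 q.1) (col w Ls i) (col w Ls j)).sum).sum := by
  have h1 : ∀ i j : Fin (w + 1), ((entry Z i j : ℤ) : ℚ) *
      sip δ (col w (L :: Ls) i) (col w (L :: Ls) j) =
      (L.map fun p => (L.map fun q => ∑ k : Fin (w + 1), ∑ l : Fin (w + 1),
        ((entry p.2 i k : ℤ) : ℚ) * ((entry Z i j : ℤ) : ℚ) * ((entry q.2 j l : ℤ) : ℚ) *
        sip (shift r δ p.1 q.1) (col w Ls k) (col w Ls l)).sum).sum := by
    intro i j
    rw [col_cons, col_cons, sip_listsum_left, ← List.sum_map_mul_left]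
    congr 1
    refine List.map_congr_left fun p hp => ?_
    rw [sip_listsum_right, ← List.sum_map_mul_left]
    congr 1
    refine List.map_congr_left fun q hq => ?_
    rw [sip_sum_left, Finset.mul_sum]
    refine Finset.sum_congr rfl fun k _ => ?_
    rw [sip_sum_right, Finset.mul_sum]
    refine Finset.sum_congr rfl fun l _ => ?_
    rw [sip_C_left, sip_C_right, sip_shift hδ (hL p hp) (hL q hq)]
    ring
  simp only [h1]
  have h2 : ∀ i : Fin (w + 1), ∑ j : Fin (w + 1), (L.map fun p => (L.map fun q =>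
      ∑ k : Fin (w + 1), ∑ l : Fin (w + 1),
        ((entry p.2 i k : ℤ) : ℚ) * ((entry Z i j : ℤ) : ℚ) * ((entry q.2 j l : ℤ) : ℚ) *
        sip (shift r δ p.1 q.1) (col w Ls k) (col w Ls l)).sum).sum =
      (L.map fun p => (L.map fun q => ∑ j : Fin (w + 1), ∑ k : Fin (w + 1), ∑ l : Fin (w + 1),
        ((entry p.2 i k : ℤ) : ℚ) * ((entry Z i j : ℤ) : ℚ) * ((entry q.2 j l : ℤ) : ℚ) *
        sip (shift r δ p.1 q.1) (col w Ls k) (col w Ls l)).sum).sum := by
    intro i
    rw [listsum_finsum_comm]
    congr 1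
    refine List.map_congr_left fun p _ => ?_
    rw [listsum_finsum_comm]
  simp only [h2]
  rw [listsum_finsum_comm]
  congr 1
  refine List.map_congr_left fun p _ => ?_
  rw [listsum_finsum_comm]
  congr 1
  refine List.map_congr_left fun q _ => ?_
  have h3 : ∀ k l : Fin (w + 1), ((trans (w + 1) Z p.2 q.2 k l : ℤ) : ℚ) =
      ∑ i : Fin (w + 1), ∑ j : Fin (w + 1),
        ((entry p.2 i k : ℤ) : ℚ) * ((entry Z i j : ℤ) : ℚ) * ((entry q.2 j l : ℤ) : ℚ) := by
    intro k l
    unfold trans
    rw [lsum_range, Finset.sum_range, Int.cast_sum]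
    refine Finset.sum_congr rfl fun i _ => ?_
    rw [lsum_range, Finset.sum_range, Int.cast_sum]
    refine Finset.sum_congr rfl fun j _ => ?_
    push_cast
    rfl
  simp only [h3, Finset.sum_mul]
  -- exchange the sums
  have h4 : ∀ F : Fin (w + 1) → Fin (w + 1) → Fin (w + 1) → Fin (w + 1) → ℚ,
      ∑ i, ∑ j, ∑ k, ∑ l, F i j k l = ∑ k, ∑ l, ∑ i, ∑ j, F i j k l := by
    intro F
    calc ∑ i, ∑ j, ∑ k, ∑ l, F i j k l = ∑ i, ∑ k, ∑ j, ∑ l, F i j k l :=
          Finset.sum_congr rfl fun i _ => Finset.sum_comm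
      _ = ∑ k, ∑ i, ∑ j, ∑ l, F i j k l := Finset.sum_comm
      _ = ∑ k, ∑ i, ∑ l, ∑ j, F i j k l := Finset.sum_congr rfl fun k _ =>
          Finset.sum_congr rfl fun i _ => Finset.sum_comm
      _ = ∑ k, ∑ l, ∑ i, ∑ j, F i j k l := Finset.sum_congr rfl fun k _ => Finset.sum_comm
  exact h4 _

/-! ### Degrees -/

/-- All exponents are bounded. -/
def DegLe (B : ℕ → ℕ) (f : MvPolynomial ℕ ℚ) : Prop := ∀ a ∈ f.support, ∀ v, a v ≤ B v

theorem DegLe.zero (B : ℕ → ℕ) : DegLe B 0 := by
  intro a ha
  simp at ha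

theorem DegLe.one (B : ℕ → ℕ) : DegLe B 1 := by
  classical
  intro a ha v
  have h : (1 : MvPolynomial ℕ ℚ) = monomial 0 1 := rfl
  rw [h] at ha
  have := support_monomial_subset ha
  rw [Finset.mem_singleton] at this
  rw [this]
  exact Nat.zero_le _

theorem DegLe.add {B : ℕ → ℕ} {f g : MvPolynomial ℕ ℚ} (hf : DegLe B f) (hg : DegLe B g) :
    DegLe B (f + g) := by
  classical
  intro a ha
  rcases Finset.mem_union.1 (MvPolynomial.support_add ha) with h | h
  · exact hf a h
  · exact hg a h

theorem DegLe.C_mul {B : ℕ → ℕ} {f : MvPolynomial ℕ ℚ} (c : ℚ) (hf : DegLe B f) :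
    DegLe B (C c * f) := by
  intro a ha
  refine hf a ?_
  rw [mem_support_iff, coeff_C_mul] at ha
  rw [mem_support_iff]
  exact right_ne_zero_of_mul ha

theorem DegLe.mon_mul {B B' : ℕ → ℕ} {f : MvPolynomial ℕ ℚ} (α : List ℕ) (hf : DegLe B f)
    (h : ∀ v, α.getD v 0 + B v ≤ B' v) : DegLe B' (mon α * f) := by
  classical
  intro a ha v
  rw [mon_eq, mem_support_iff, coeff_monomial_mul'] at ha
  by_cases hle : vec α ≤ a
  · rw [if_pos hle, one_mul] at ha
    have h1 := hf _ (mem_support_iff.2 ha) v
    rw [Finsupp.tsub_apply, vec_apply] at h1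
    have h2 := h v
    omega
  · rw [if_neg hle] at ha
    exact absurd rfl ha

theorem DegLe.listsum {B : ℕ → ℕ} (l : List (MvPolynomial ℕ ℚ)) (h : ∀ f ∈ l, DegLe B f) :
    DegLe B l.sum := by
  induction l with
  | nil => simpa using DegLe.zero B
  | cons a l ih =>
    rw [List.sum_cons]
    exact (h a (by simp)).add (ih fun i hi => h i (by simp [hi]))

theorem DegLe.sum {B : ℕ → ℕ} {ι : Type*} (s : Finset ι) (f : ι → MvPolynomial ℕ ℚ)
    (h : ∀ i ∈ s, DegLe B (f i)) : DegLe B (∑ i ∈ s, f i) := by
  classical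
  induction s using Finset.induction_on with
  | empty => simpa using DegLe.zero B
  | insert a s ha ih =>
    rw [Finset.sum_insert ha]
    exact (h a (by simp)).add (ih fun i hi => h i (by simp [hi]))

/-- The largest exponent of `x_v`. -/
def zdeg (v : ℕ) (L : ZLayer) : ℕ := (L.map fun p => p.1.getD v 0).foldr max 0

/-- The sum of the largest exponents of `x_v`. -/
def zbound (Ls : List ZLayer) (v : ℕ) : ℕ := (Ls.map (zdeg v)).sum

theorem le_zdeg {L : ZLayer} {p : List ℕ × Mat} (hp : p ∈ L) (v : ℕ) :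
    p.1.getD v 0 ≤ zdeg v L := by
  unfold zdeg
  exact PM.le_foldr_max (List.mem_map.2 ⟨p, hp, rfl⟩)

theorem col_degLe (w : ℕ) (Ls : List ZLayer) (i : Fin (w + 1)) :
    DegLe (zbound Ls) (col w Ls i) := by
  induction Ls generalizing i with
  | nil =>
    rw [col_nil]
    split
    · exact DegLe.one _
    · exact DegLe.zero _
  | cons L Ls ih =>
    rw [col_cons]
    refine DegLe.listsum _ fun f hf => ?_
    rw [List.mem_map] at hf
    obtain ⟨p, hp, rfl⟩ := hf
    refine DegLe.sum _ _ fun s _ => DegLe.C_mul _ ((ih s).mon_mul p.1 fun v => ?_)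
    unfold zbound
    rw [List.map_cons, List.sum_cons]
    exact Nat.add_le_add_right (le_zdeg hp v) _

theorem sip_eq_zero {B : ℕ → ℕ} {p q : MvPolynomial ℕ ℚ} (hp : DegLe B p) (hq : DegLe B q)
    {δ : List ℤ} {v : ℕ} (hv : B v < (δ.getD v 0).natAbs) : sip δ p q = 0 := by
  classical
  unfold sip ip
  refine Finset.sum_eq_zero fun a ha => ?_
  by_contra hne
  have h1 := left_ne_zero_of_mul hne
  have h2 := right_ne_zero_of_mul hne
  rw [coeff_monomial_mul'] at h1 h2
  by_cases hle : posp δ ≤ a
  · by_cases hle' : negp δ ≤ a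
    · rw [if_pos hle, one_mul] at h1
      rw [if_pos hle', one_mul] at h2
      have h3 := hp _ (mem_support_iff.2 h1) v
      have h4 := hq _ (mem_support_iff.2 h2) v
      have h5 := hle v
      have h6 := hle' v
      rw [Finsupp.tsub_apply, posp_apply] at h3
      rw [Finsupp.tsub_apply, negp_apply] at h4
      rw [posp_apply] at h5
      rw [negp_apply] at h6
      omega
    · rw [if_neg hle'] at h2; exact h2 rfl
  · rw [if_neg hle] at h1; exact h1 rfl

/-! ### The algorithm -/

/-- Is the difference small enough? -/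
def keep (r : ℕ) (Ls : List ZLayer) (δ : List ℤ) : Bool :=
  (List.range r).all fun v => decide ((δ.getD v 0).natAbs ≤ zbound Ls v)

/-- Removal of duplicates. -/
def ddL (l : List (List ℤ)) : List (List ℤ) :=
  l.foldr (fun a s => bif decide (a ∈ s) then s else a :: s) []

/-- The possible differences. -/
def cands (r : ℕ) (L : ZLayer) (V : State) : List (List ℤ) :=
  V.flatMap fun x => L.flatMap fun p => L.map fun q => shift r x.1 p.1 q.1

/-- The differences that are kept. -/
def keys (r : ℕ) (L : ZLayer) (Ls : List ZLayer) (V : State) : List (List ℤ) :=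
  ddL ((cands r L V).filter (keep r Ls))

/-- An entry of a new matrix. -/
def vl (N r : ℕ) (L : ZLayer) (V : State) (κ : List ℤ) (i j : ℕ) : ℤ :=
  (V.map fun x => (L.map fun p => (L.map fun q => bif decide (shift r x.1 p.1 q.1 = κ) then
    trans N x.2 p.2 q.2 i j else 0).sum).sum).sum

/-- The next state. -/
def nextV (N r : ℕ) (L : ZLayer) (Ls : List ZLayer) (V : State) : State :=
  (keys r L Ls V).map fun κ => (κ, tab N fun i j => vl N r L V κ i j)

/-- The final value. -/
def finV (V : State) : ℤ :=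
  (V.map fun x => bif x.1.all (fun z => decide (z = 0)) then entry x.2 0 0 else 0).sum

theorem ddL_spec (l : List (List ℤ)) : (ddL l).Nodup ∧ ∀ a, a ∈ ddL l ↔ a ∈ l := by
  induction l with
  | nil => simp [ddL]
  | cons b l ih =>
    have h : ddL (b :: l) = bif decide (b ∈ ddL l) then ddL l else b :: ddL l := rfl
    rw [h]
    by_cases hb : b ∈ ddL l
    · rw [decide_eq_true hb, cond_true]
      refine ⟨ih.1, fun a => ?_⟩
      rw [ih.2, List.mem_cons]
      constructor
      · exact Or.inr
      · rintro (rfl | h')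
        · exact (ih.2 a).1 hb
        · exact h'
    · rw [decide_eq_false hb, cond_false]
      refine ⟨List.nodup_cons.2 ⟨hb, ih.1⟩, fun a => ?_⟩
      rw [List.mem_cons, List.mem_cons, ih.2]

theorem list_comm {ι κ : Type*} (l : List ι) (l' : List κ) (f : ι → κ → ℚ) :
    (l.map fun a => (l'.map fun b => f a b).sum).sum =
      (l'.map fun b => (l.map fun a => f a b).sum).sum := by
  induction l with
  | nil => simp
  | cons a l ih => simp only [List.map_cons, List.sum_cons, List.sum_map_add, ih]

theorem sum_ite_key {l : List (List ℤ)} (hl : l.Nodup) (s : List ℤ) (f : List ℤ → ℚ) :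
    (l.map fun κ => if s = κ then f κ else 0).sum = if s ∈ l then f s else 0 := by
  induction l with
  | nil => simp
  | cons a l ih =>
    rw [List.nodup_cons] at hl
    rw [List.map_cons, List.sum_cons, ih hl.2]
    by_cases h : s = a
    · subst h
      rw [if_pos rfl, if_neg hl.1, if_pos (by simp), add_zero]
    · rw [if_neg h, zero_add]
      by_cases h' : s ∈ l
      · rw [if_pos h', if_pos (by simp [h'])]
      · rw [if_neg h', if_neg (by simp [h, h'])]

theorem wt_next (w : ℕ) {r : ℕ} (L : ZLayer) (Ls : List ZLayer) (V : State)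
    (hV : ∀ x ∈ V, x.1.length ≤ r) (hL : ∀ p ∈ L, p.1.length ≤ r) :
    wt w (nextV (w + 1) r L Ls V) Ls = wt w V (L :: Ls) := by
  -- the contribution of a key and a matrix
  let G : List ℤ → Mat → Mat → Mat → ℚ := fun κ Z A B => ∑ i : Fin (w + 1), ∑ j : Fin (w + 1),
    ((trans (w + 1) Z A B i j : ℤ) : ℚ) * sip κ (col w Ls i) (col w Ls j)
  have hR : wt w V (L :: Ls) = (V.map fun x => (L.map fun p => (L.map fun q =>
      G (shift r x.1 p.1 q.1) x.2 p.2 q.2).sum).sum).sum := by
    unfold wt
    congr 1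
    exact List.map_congr_left fun x hx => wt_step w x.1 x.2 L Ls (hV x hx) hL
  have hterm : ∀ κ : List ℤ, (∑ i : Fin (w + 1), ∑ j : Fin (w + 1),
      ((entry (tab (w + 1) fun i j => vl (w + 1) r L V κ i j) i j : ℤ) : ℚ) *
        sip κ (col w Ls i) (col w Ls j)) =
      (V.map fun x => (L.map fun p => (L.map fun q =>
        if shift r x.1 p.1 q.1 = κ then G κ x.2 p.2 q.2 else 0).sum).sum).sum := by
    intro κ
    have e1 : ∀ i j : Fin (w + 1),
        ((entry (tab (w + 1) fun i j => vl (w + 1) r L V κ i j) i j : ℤ) : ℚ) *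
          sip κ (col w Ls i) (col w Ls j) =
        (V.map fun x => (L.map fun p => (L.map fun q =>
          if shift r x.1 p.1 q.1 = κ then ((trans (w + 1) x.2 p.2 q.2 i j : ℤ) : ℚ) *
            sip κ (col w Ls i) (col w Ls j) else 0).sum).sum).sum := by
      intro i j
      rw [entry_tab _ i.2 j.2]
      unfold vl
      rw [Int.cast_list_sum, List.map_map, ← List.sum_map_mul_right]
      congr 1
      refine List.map_congr_left fun x _ => ?_
      rw [Function.comp_apply, Int.cast_list_sum, List.map_map, ← List.sum_map_mul_right]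
      congr 1
      refine List.map_congr_left fun p _ => ?_
      rw [Function.comp_apply, Int.cast_list_sum, List.map_map, ← List.sum_map_mul_right]
      congr 1
      refine List.map_congr_left fun q _ => ?_
      rw [Function.comp_apply]
      by_cases h : shift r x.1 p.1 q.1 = κ
      · rw [decide_eq_true h, cond_true, if_pos h]
      · rw [decide_eq_false h, cond_false, if_neg h, Int.cast_zero, zero_mul]
    simp only [e1]
    have e2 : ∀ i : Fin (w + 1), ∑ j : Fin (w + 1), (V.map fun x => (L.map fun p =>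
        (L.map fun q => if shift r x.1 p.1 q.1 = κ then ((trans (w + 1) x.2 p.2 q.2 i j : ℤ) : ℚ) *
            sip κ (col w Ls i) (col w Ls j) else 0).sum).sum).sum =
        (V.map fun x => (L.map fun p => (L.map fun q => ∑ j : Fin (w + 1),
          if shift r x.1 p.1 q.1 = κ then ((trans (w + 1) x.2 p.2 q.2 i j : ℤ) : ℚ) *
            sip κ (col w Ls i) (col w Ls j) else 0).sum).sum).sum := by
      intro i
      rw [listsum_finsum_comm]
      congr 1
      refine List.map_congr_left fun x _ => ?_
      rw [listsum_finsum_comm]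
      congr 1
      refine List.map_congr_left fun p _ => ?_
      rw [listsum_finsum_comm]
    simp only [e2]
    rw [listsum_finsum_comm]
    congr 1
    refine List.map_congr_left fun x _ => ?_
    rw [listsum_finsum_comm]
    congr 1
    refine List.map_congr_left fun p _ => ?_
    rw [listsum_finsum_comm]
    congr 1
    refine List.map_congr_left fun q _ => ?_
    by_cases h : shift r x.1 p.1 q.1 = κ
    · simp only [h, if_true]
      rfl
    · simp only [h, if_false, Finset.sum_const_zero]
  have hLw : wt w (nextV (w + 1) r L Ls V) Ls = ((keys r L Ls V).map fun κ =>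
      (V.map fun x => (L.map fun p => (L.map fun q =>
        if shift r x.1 p.1 q.1 = κ then G κ x.2 p.2 q.2 else 0).sum).sum).sum).sum := by
    unfold wt nextV
    rw [List.map_map]
    congr 1
    exact List.map_congr_left fun κ _ => hterm κ
  rw [hLw, hR, list_comm]
  congr 1
  refine List.map_congr_left fun x hx => ?_
  rw [list_comm]
  congr 1
  refine List.map_congr_left fun p hp => ?_
  rw [list_comm]
  congr 1
  refine List.map_congr_left fun q hq => ?_
  have hnd : (keys r L Ls V).Nodup := (ddL_spec _).1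
  rw [sum_ite_key hnd _ fun κ => G κ x.2 p.2 q.2]
  by_cases hk : shift r x.1 p.1 q.1 ∈ keys r L Ls V
  · rw [if_pos hk]
  · rw [if_neg hk]
    symm
    -- the difference has been dropped since it is too large
    have h1 : keep r Ls (shift r x.1 p.1 q.1) = false := by
      by_contra hkeep
      rw [Bool.not_eq_false] at hkeep
      apply hk
      unfold keys
      rw [(ddL_spec _).2, List.mem_filter]
      refine ⟨?_, hkeep⟩
      unfold cands
      rw [List.mem_flatMap]
      refine ⟨x, hx, ?_⟩
      rw [List.mem_flatMap]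
      exact ⟨p, hp, List.mem_map.2 ⟨q, hq, rfl⟩⟩
    have h2 : ∃ v, zbound Ls v < ((shift r x.1 p.1 q.1).getD v 0).natAbs := by
      by_contra hall
      push Not at hall
      have : keep r Ls (shift r x.1 p.1 q.1) = true := by
        unfold keep
        rw [List.all_eq_true]
        intro v _
        exact decide_eq_true (hall v)
      rw [this] at h1
      exact absurd h1 (by simp)
    obtain ⟨v, hv⟩ := h2
    refine Finset.sum_eq_zero fun i _ => Finset.sum_eq_zero fun j _ => ?_
    rw [sip_eq_zero (col_degLe w Ls i) (col_degLe w Ls j) hv, mul_zero]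

theorem finV_eq (w : ℕ) (V : State) : ((finV V : ℤ) : ℚ) = wt w V [] := by
  classical
  unfold finV wt
  rw [Int.cast_list_sum, List.map_map]
  congr 1
  refine List.map_congr_left fun x _ => ?_
  rw [Function.comp_apply, Finset.sum_eq_single 0, Finset.sum_eq_single 0]
  · rw [col_nil, if_pos rfl]
    unfold sip
    rw [mul_one, mul_one, ip_monomial]
    have hiff : posp x.1 = negp x.1 ↔ x.1.all (fun z => decide (z = 0)) = true := by
      rw [List.all_eq_true]
      constructor
      · intro h z hz
        obtain ⟨v, hv, rfl⟩ := List.mem_iff_getElem.1 hz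
        have h1 := DFunLike.congr_fun h v
        rw [posp_apply, negp_apply, List.getD_eq_getElem _ _ hv] at h1
        exact decide_eq_true (by omega)
      · intro h
        ext v
        rw [posp_apply, negp_apply]
        have h1 : x.1.getD v 0 = 0 := by
          rw [List.getD_eq_getElem?_getD]
          cases hv : x.1[v]? with
          | none => rfl
          | some z => exact of_decide_eq_true (h z (List.mem_of_getElem? hv))
        rw [h1]
        rfl
    by_cases h : posp x.1 = negp x.1
    · rw [if_pos h, hiff.1 h, cond_true]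
      simp
    · rw [if_neg h]
      have h2 : x.1.all (fun z => decide (z = 0)) = false := by
        rw [← Bool.not_eq_true]
        exact fun h' => h (hiff.2 h')
      rw [h2, cond_false]
      simp
  · intro j _ hj
    rw [col_nil, col_nil, if_neg hj]
    unfold sip
    simp
  · intro h; exact absurd (Finset.mem_univ _) h
  · intro i _ hi
    refine Finset.sum_eq_zero fun j _ => ?_
    rw [col_nil, if_neg hi]
    unfold sip
    simp
  · intro h; exact absurd (Finset.mem_univ _) h

end Pool.Agent.NPC.H532.TH
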