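import Pool.Agent.H532R2.ThinDec

/-!
# Branching programs with few exponent differences: polynomial time
-/

namespace Pool.Agent.NPC.H532.TH

open Pool.Agent.H532R2 Pool.Agent.H532R2.Thin Pool.Agent.NPC.H532
  Pool.Agent.NPC.H532.RP Pool.Agent.NPC.H532.PM

/-- The state of the procedure. -/
abbrev St : Type := List ZLayer × Bool × State

/-- One step of the procedure, given the next layer. -/
def stepL (N r m : ℕ) (s : St) (L : ZLayer) (Ls : List ZLayer) : St :=
  bif decide ((keys r L Ls s.2.2).length ≤ m) then (Ls, s.2.1, nextV N r L Ls s.2.2)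
    else (Ls, false, [])

/-- One step of the procedure. -/
def step3 (N r m : ℕ) (s : St) : St :=
  match s.1 with
  | [] => s
  | L :: Ls => stepL N r m s L Ls

theorem step3_iter (N r m : ℕ) : ∀ (Ls : List ZLayer) (b : Bool) (V : State),
    ((step3 N r m)^[Ls.length] (Ls, b, V)).2 = go N r m Ls b V
  | [], _, _ => rfl
  | L :: Ls, b, V => by
    rw [List.length_cons, Function.iterate_succ_apply]
    unfold go
    have h : step3 N r m (L :: Ls, b, V) = stepL N r m (L :: Ls, b, V) L Ls := rfl
    rw [h]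
    unfold stepL
    cases decide ((keys r L Ls V).length ≤ m)
    · rw [cond_false, cond_false]
      exact step3_iter N r m Ls false []
    · rw [cond_true, cond_true]
      exact step3_iter N r m Ls b _

/-- All exponents. -/
def zexps (Ls : List ZLayer) : List ℕ := Ls.flatMap fun L => L.flatMap fun p => p.1

theorem getD_le_sum (l : List ℕ) (v : ℕ) : l.getD v 0 ≤ l.sum := by
  rw [List.getD_eq_getElem?_getD]
  cases h : l[v]? with
  | none => simp
  | some a =>
    rw [Option.getD_some]
    exact List.single_le_sum (fun _ _ => Nat.zero_le _) a (List.mem_of_getElem? h)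

theorem zdeg_le (v : ℕ) (L : ZLayer) : zdeg v L ≤ (L.flatMap fun p => p.1).sum := by
  unfold zdeg
  refine foldr_max_le fun x hx => ?_
  rw [List.mem_map] at hx
  obtain ⟨p, hp, rfl⟩ := hx
  refine (getD_le_sum p.1 v).trans ?_
  induction L with
  | nil => simp at hp
  | cons q L ih =>
    rw [List.flatMap_cons, List.sum_append]
    rcases List.mem_cons.1 hp with rfl | hp
    · exact Nat.le_add_right _ _
    · exact (ih hp).trans (Nat.le_add_left _ _)

theorem zbound_le (v : ℕ) (Ls : List ZLayer) : zbound Ls v ≤ (zexps Ls).sum := by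
  unfold zbound zexps
  induction Ls with
  | nil => simp
  | cons L Ls ih =>
    rw [List.map_cons, List.sum_cons, List.flatMap_cons, List.sum_append]
    exact Nat.add_le_add (zdeg_le v L) ih

theorem size_sum_le (l : List ℕ) : l.sum.size ≤ sz l := by
  induction l with
  | nil => simp
  | cons a l ih =>
    rw [List.sum_cons, sz_list_cons]
    have h1 : (a + l.sum).size ≤ a.size + l.sum.size + 1 := by
      rw [Nat.size_le]
      have h2 := Nat.lt_size_self a
      have h3 := Nat.lt_size_self l.sum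
      have h4 : 2 ^ a.size ≤ 2 ^ (a.size + l.sum.size) := Nat.pow_le_pow_right (by norm_num) (by omega)
      have h5 : 2 ^ l.sum.size ≤ 2 ^ (a.size + l.sum.size) :=
        Nat.pow_le_pow_right (by norm_num) (by omega)
      rw [pow_succ]
      omega
    have h2 := size_le_sz a
    omega

theorem mem_keysZ {r : ℕ} {L : ZLayer} {Ls : List ZLayer} {V : State} {κ : List ℤ}
    (h : κ ∈ keys r L Ls V) : κ.length = r ∧ ∀ z ∈ κ, z.natAbs ≤ (zexps Ls).sum := by
  unfold keys at h
  rw [(ddL_spec _).2, List.mem_filter] at h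
  obtain ⟨h1, h2⟩ := h
  have hlen : κ.length = r := by
    unfold cands at h1
    rw [List.mem_flatMap] at h1
    obtain ⟨x, _, h1⟩ := h1
    rw [List.mem_flatMap] at h1
    obtain ⟨p, _, h1⟩ := h1
    rw [List.mem_map] at h1
    obtain ⟨q, _, rfl⟩ := h1
    simp [shift]
  refine ⟨hlen, fun z hz => ?_⟩
  obtain ⟨v, hv, rfl⟩ := List.mem_iff_getElem.1 hz
  unfold keep at h2
  rw [List.all_eq_true] at h2
  have h3 := of_decide_eq_true (h2 v (List.mem_range.2 (hlen ▸ hv)))
  rw [List.getD_eq_getElem _ _ hv] at h3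
  exact h3.trans (zbound_le v Ls)

/-- Bit lengths of the entries of new matrices. -/
theorem ib_vl {N r b c m : ℕ} {L : ZLayer} {V : State} (hL : L.length ≤ b)
    (hLb : ∀ p ∈ L, MB p.2 b) (hV : V.length ≤ m) (hVc : ∀ x ∈ V, MB x.2 c) (κ : List ℤ)
    (i j : ℕ) : ib (vl N r L V κ i j) ≤ c + (4 * b + 2 * N + m) := by
  unfold vl
  have h1 := ib_list_sum (V.map fun x => (L.map fun p => (L.map fun q =>
    bif decide (shift r x.1 p.1 q.1 = κ) then trans N x.2 p.2 q.2 i j else 0).sum).sum)
    (c + (4 * b + 2 * N)) (by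
    intro z hz
    rw [List.mem_map] at hz
    obtain ⟨x, hx, rfl⟩ := hz
    have h2 := ib_list_sum (L.map fun p => (L.map fun q =>
      bif decide (shift r x.1 p.1 q.1 = κ) then trans N x.2 p.2 q.2 i j else 0).sum)
      (c + (3 * b + 2 * N)) (by
      intro z hz
      rw [List.mem_map] at hz
      obtain ⟨p, hp, rfl⟩ := hz
      have h3 := ib_list_sum (L.map fun q =>
        bif decide (shift r x.1 p.1 q.1 = κ) then trans N x.2 p.2 q.2 i j else 0)
        (c + (2 * b + 2 * N)) (by
        intro z hz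
        rw [List.mem_map] at hz
        obtain ⟨q, hq, rfl⟩ := hz
        cases decide (shift r x.1 p.1 q.1 = κ)
        · rw [cond_false, ib_zero]; exact Nat.zero_le _
        · rw [cond_true]
          unfold trans
          have h4 := ib_list_sum ((List.range N).map fun r => ((List.range N).map fun s =>
            entry p.2 r i * entry x.2 r s * entry q.2 s j).sum) (c + (2 * b + N)) (by
            intro z hz
            rw [List.mem_map] at hz
            obtain ⟨r', _, rfl⟩ := hz
            have h5 := ib_list_sum ((List.range N).map fun s =>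
              entry p.2 r' i * entry x.2 r' s * entry q.2 s j) (c + 2 * b) (by
              intro z hz
              rw [List.mem_map] at hz
              obtain ⟨s, _, rfl⟩ := hz
              have e1 := ib_mul (entry p.2 r' i * entry x.2 r' s) (entry q.2 s j)
              have e2 := ib_mul (entry p.2 r' i) (entry x.2 r' s)
              have e3 := ib_entry_le (hLb p hp) r' i
              have e4 := ib_entry_le (hLb q hq) s j
              have e5 := ib_entry_le (hVc x hx) r' s
              omega)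
            rw [List.length_map, List.length_range] at h5
            have h6 := Poly.size_le_self N
            omega)
          rw [List.length_map, List.length_range] at h4
          have h6 := Poly.size_le_self N
          omega)
      rw [List.length_map] at h3
      have h6 := Poly.size_le_self L.length
      omega)
    rw [List.length_map] at h2
    have h6 := Poly.size_le_self L.length
    omega)
  rw [List.length_map] at h1
  have h6 := Poly.size_le_self V.length
  omega

/-- Bounds for the state. -/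
structure InvT (N r m b k : ℕ) (L0 : List ZLayer) (s : St) : Prop where
  size : sz s.1 ≤ sz L0
  mem : ∀ L ∈ s.1, L ∈ L0
  exps : (zexps s.1).sum ≤ (zexps L0).sum
  len : s.2.2.length ≤ m + 1
  key : ∀ x ∈ s.2.2, x.1.length ≤ r ∧ ∀ z ∈ x.1, z.natAbs ≤ (zexps L0).sum
  mat : ∀ x ∈ s.2.2, MB x.2 (k * b + 1) ∧
    sz x.2 ≤ N * (N * (4 * (k * b + 1) + 6) + 2) + 1 + 20

theorem InvT.step {N r m b k : ℕ} {L0 : List ZLayer} {s : St} (h : InvT N r m b k L0 s)
    (hb : 4 * sz L0 + 2 * N + (m + 1) ≤ b) : InvT N r m b (k + 1) L0 (step3 N r m s) := by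
  have hmono : k * b + 1 ≤ (k + 1) * b + 1 := by
    rw [add_mul, one_mul]; omega
  obtain ⟨h1, h2, h3, h4, h5, h6⟩ := h
  unfold step3
  cases hs : s.1 with
  | nil =>
    simp only
    refine ⟨h1, h2, h3, h4, h5, fun x hx => ⟨fun r' hr z hz => ((h6 x hx).1 r' hr z hz).trans hmono,
      (h6 x hx).2.trans ?_⟩⟩
    gcongr
  | cons L Ls =>
    simp only
    rw [hs] at h1 h2 h3
    have hsz : sz Ls ≤ sz L0 := by
      rw [sz_list_cons] at h1; omega
    have hmem : ∀ L' ∈ Ls, L' ∈ L0 := fun L' hL' => h2 L' (List.mem_cons_of_mem _ hL')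
    have hexp : (zexps Ls).sum ≤ (zexps L0).sum := by
      unfold zexps at h3 ⊢
      rw [List.flatMap_cons, List.sum_append] at h3
      omega
    unfold stepL
    by_cases hm : (keys r L Ls s.2.2).length ≤ m
    · rw [decide_eq_true hm, cond_true]
      have hL := h2 L (by simp)
      have hLsz := sz_le_of_mem hL
      have hvl : ∀ κ i j, ib (vl N r L s.2.2 κ i j) ≤ (k + 1) * b + 1 := by
        intro κ i j
        have := ib_vl (N := N) (r := r) (b := sz L0) (c := k * b + 1) (m := m + 1) (L := L)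
          (V := s.2.2) ((length_lt_sz L).le.trans hLsz.le) (fun p hp => by
            intro r' hr z hz
            have e1 := MB_sz p.2 r' hr z hz
            have e2 := sz_le_of_mem hp
            have e3 : sz p = sz p.1 + sz p.2 + 1 := by rw [← sz_pair]
            omega) h4 (fun x hx => (h6 x hx).1) κ i j
        rw [add_mul, one_mul]
        omega
      refine ⟨hsz, hmem, hexp, ?_, ?_, ?_⟩
      · unfold nextV
        rw [List.length_map]
        omega
      · intro x hx
        unfold nextV at hx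
        rw [List.mem_map] at hx
        obtain ⟨κ, hκ, rfl⟩ := hx
        obtain ⟨e1, e2⟩ := mem_keysZ hκ
        exact ⟨e1.le, fun z hz => (e2 z hz).trans hexp⟩
      · intro x hx
        unfold nextV at hx
        rw [List.mem_map] at hx
        obtain ⟨κ, hκ, rfl⟩ := hx
        exact ⟨MB_tab fun i _ j _ => hvl κ i j, (sz_tab_le fun i _ j _ => hvl κ i j).trans
          (Nat.le_add_right _ _)⟩
    · rw [decide_eq_false hm, cond_false]
      exact ⟨hsz, hmem, hexp, Nat.zero_le _, fun x hx => by simp at hx, fun x hx => by simp at hx⟩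

theorem InvT.iter {N r m b : ℕ} {L0 : List ZLayer}
    (hb : 4 * sz L0 + 2 * N + (m + 1) ≤ b) {s : St} (h : InvT N r m b 0 L0 s) :
    ∀ k, InvT N r m b k L0 ((step3 N r m)^[k] s)
  | 0 => h
  | k + 1 => by
    rw [Function.iterate_succ_apply']
    exact (h.iter hb k).step hb

theorem InvT.size_le {N r m b k : ℕ} {L0 : List ZLayer} {s : St} (h : InvT N r m b k L0 s) :
    sz s ≤ sz L0 + (3 + ((m + 1) * ((r * (4 * sz (zexps L0) + 5 + 1) + 1) +
      (N * (N * (4 * (k * b + 1) + 6) + 2) + 1 + 20) + 1 + 1) + 1) + 1) + 1 := by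
  obtain ⟨h1, h2, h3, h4, h5, h6⟩ := h
  have e1 : sz s = sz s.1 + (sz s.2.1 + sz s.2.2 + 1) + 1 := by
    rw [← sz_pair, ← sz_pair]
  have e2 := sz_bool_le s.2.1
  have e3 : sz s.2.2 ≤ (m + 1) * ((r * (4 * sz (zexps L0) + 5 + 1) + 1) +
      (N * (N * (4 * (k * b + 1) + 6) + 2) + 1 + 20) + 1 + 1) + 1 := by
    refine (sz_list_le (B := (r * (4 * sz (zexps L0) + 5 + 1) + 1) +
      (N * (N * (4 * (k * b + 1) + 6) + 2) + 1 + 20) + 1) ?_).trans ?_
    · intro x hx
      rw [show sz x = sz x.1 + sz x.2 + 1 from sz_pair x.1 x.2]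
      have e4 : sz x.1 ≤ r * (4 * sz (zexps L0) + 5 + 1) + 1 := by
        refine (sz_list_le (B := 4 * sz (zexps L0) + 5) ?_).trans ?_
        · intro z hz
          have e5 := sz_int_le z
          have e6 : ib z ≤ sz (zexps L0) := by
            unfold ib
            exact (Nat.size_le_size ((h5 x hx).2 z hz)).trans (size_sum_le _)
          omega
        · exact Nat.add_le_add_right (Nat.mul_le_mul_right _ (h5 x hx).1) 1
      have e7 := (h6 x hx).2
      omega
    · exact Nat.add_le_add_right (Nat.mul_le_mul_right _ h4) 1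
  omega

theorem sz_foldr_max (l : List ℕ) : sz (l.foldr max 0) ≤ sz l := by
  induction l with
  | nil =>
    rw [List.foldr_nil, PM.sz_zero]
    exact sz_pos _
  | cons a l ih =>
    rw [List.foldr_cons, sz_list_cons]
    rcases le_total a (l.foldr max 0) with h | h
    · rw [max_eq_right h]; omega
    · rw [max_eq_left h]; omega

theorem ddL_sz (l : List (List ℤ)) : sz (ddL l) ≤ sz l := by
  induction l with
  | nil => exact le_rfl
  | cons a l ih =>
    have h : ddL (a :: l) = bif decide (a ∈ ddL l) then ddL l else a :: ddL l := rfl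
    rw [h]
    cases decide (a ∈ ddL l)
    · rw [cond_false, sz_list_cons, sz_list_cons]; omega
    · rw [cond_true, sz_list_cons]; omega

section

variable {α : Type} [TEnc α]

theorem Poly_foldrMax {l : α → List ℕ} (hl : Poly l) : Poly (fun a => (l a).foldr max 0) := by
  obtain ⟨q, hq⟩ := hl.sz_le
  refine Poly.foldr (β := ℕ) (σ := ℕ) (F := fun _ a s => max a s) hl (Poly.const _) ?_ q ?_
  · exact Poly.max (Poly.fst (Poly.snd Poly.id)) (Poly.snd (Poly.snd Poly.id))
  · intro a k _
    exact (sz_foldr_max ((l a).drop k)).trans ((Poly.sz_drop_le (l a) k).trans (hq a))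

theorem Poly_zdeg {v : α → ℕ} {L : α → ZLayer} (hv : Poly v) (hL : Poly L) :
    Poly (fun a => zdeg (v a) (L a)) := by
  unfold zdeg
  refine Poly_foldrMax ?_
  refine Poly.map (β := List ℕ × Mat) (γ := ℕ) (F := fun a p => p.1.getD (v a) 0) hL ?_
  exact Poly.getD (Poly.fst (Poly.snd Poly.id)) (hv.comp (Poly.fst Poly.id)) (Poly.const _)

theorem Poly_zbound {v : α → ℕ} {Ls : α → List ZLayer} (hv : Poly v) (hL : Poly Ls) :
    Poly (fun a => zbound (Ls a) (v a)) := by
  unfold zbound
  refine Poly.sum ?_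
  exact Poly.map (β := ZLayer) (γ := ℕ) (F := fun a L => zdeg (v a) L) hL
    (Poly_zdeg (hv.comp (Poly.fst Poly.id)) (Poly.snd Poly.id))

theorem Poly_shift {r : α → ℕ} {δ : α → List ℤ} {a b : α → List ℕ} (hr : UPoly r) (hδ : Poly δ)
    (ha : Poly a) (hb : Poly b) : Poly (fun x => shift (r x) (δ x) (a x) (b x)) := by
  unfold shift
  refine Poly.map (β := ℕ) (γ := ℤ)
    (F := fun x v => (δ x).getD v 0 + (((a x).getD v 0 : ℕ) : ℤ) - (((b x).getD v 0 : ℕ) : ℤ))
    hr.range ?_
  have h1 : Poly (fun p : α × ℕ => p.1) := Poly.fst Poly.id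
  have h2 : Poly (fun p : α × ℕ => p.2) := Poly.snd Poly.id
  exact Poly_subZ (Poly_addZ (Poly.getD (hδ.comp h1) h2 (Poly.const _))
    (Poly_ofNat (Poly.getD (ha.comp h1) h2 (Poly.const _))))
    (Poly_ofNat (Poly.getD (hb.comp h1) h2 (Poly.const _)))

theorem Poly_keep {r : α → ℕ} {Ls : α → List ZLayer} {δ : α → List ℤ} (hr : UPoly r)
    (hL : Poly Ls) (hδ : Poly δ) : Poly (fun a => keep (r a) (Ls a) (δ a)) := by
  unfold keep
  have h1 : Poly (fun p : α × ℕ => p.1) := Poly.fst Poly.id
  have h2 : Poly (fun p : α × ℕ => p.2) := Poly.snd Poly.id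
  have e1 : Poly (fun p : α × ℕ => (δ p.1).getD p.2 0) :=
    Poly.getD (hδ.comp h1) h2 (Poly.const _)
  have e2 : Poly (fun p : α × ℕ => ((δ p.1).getD p.2 0).natAbs) := Poly_natAbs e1
  have e3 : Poly (fun p : α × ℕ => zbound (Ls p.1) p.2) :=
    Poly_zbound (v := fun p : α × ℕ => p.2) (Ls := fun p : α × ℕ => Ls p.1) h2 (hL.comp h1)
  exact Poly.all (β := ℕ) (l := fun a => List.range (r a)) (p := fun a v =>
    decide (((δ a).getD v 0).natAbs ≤ zbound (Ls a) v)) hr.range (Poly.decide_le e2 e3)

/-- The candidates for one exponent. -/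
def cq (r : ℕ) (L : ZLayer) (x : List ℤ × Mat) (p : List ℕ × Mat) : List (List ℤ) :=
  L.map fun q => shift r x.1 p.1 q.1

/-- The candidates for one difference. -/
def cp (r : ℕ) (L : ZLayer) (x : List ℤ × Mat) : List (List ℤ) :=
  L.flatMap fun p => cq r L x p

theorem Poly_cq {r : α → ℕ} {L : α → ZLayer} {x : α → List ℤ × Mat} {p : α → List ℕ × Mat}
    (hr : UPoly r) (hL : Poly L) (hx : Poly x) (hp : Poly p) :
    Poly (fun a => cq (r a) (L a) (x a) (p a)) := by
  unfold cq
  have h1 : Poly (fun y : α × List ℕ × Mat => y.1) := Poly.fst Poly.id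
  have h2 : Poly (fun y : α × List ℕ × Mat => y.2) := Poly.snd Poly.id
  exact Poly.map (β := List ℕ × Mat) (γ := List ℤ)
    (F := fun a q => shift (r a) (x a).1 (p a).1 q.1) hL
    (Poly_shift (hr.comp h1) (Poly.fst (hx.comp h1)) (Poly.fst (hp.comp h1)) (Poly.fst h2))

theorem Poly_cp {r : α → ℕ} {L : α → ZLayer} {x : α → List ℤ × Mat}
    (hr : UPoly r) (hL : Poly L) (hx : Poly x) : Poly (fun a => cp (r a) (L a) (x a)) := by
  unfold cp
  have h1 : Poly (fun y : α × List ℕ × Mat => y.1) := Poly.fst Poly.id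
  have h2 : Poly (fun y : α × List ℕ × Mat => y.2) := Poly.snd Poly.id
  exact Poly.flatMap (β := List ℕ × Mat) (γ := List ℤ)
    (F := fun a p => cq (r a) (L a) (x a) p) hL
    (Poly_cq (hr.comp h1) (hL.comp h1) (hx.comp h1) h2)

theorem Poly_cands {r : α → ℕ} {L : α → ZLayer} {V : α → State} (hr : UPoly r)
    (hL : Poly L) (hV : Poly V) : Poly (fun a => cands (r a) (L a) (V a)) := by
  have h1 : Poly (fun y : α × List ℤ × Mat => y.1) := Poly.fst Poly.id
  have h2 : Poly (fun y : α × List ℤ × Mat => y.2) := Poly.snd Poly.id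
  exact Poly.flatMap (β := List ℤ × Mat) (γ := List ℤ)
    (F := fun a x => cp (r a) (L a) x) hV
    (Poly_cp (hr.comp h1) (hL.comp h1) h2)

theorem Poly_ddL {l : α → List (List ℤ)} (hl : Poly l) : Poly (fun a => ddL (l a)) := by
  unfold ddL
  obtain ⟨q, hq⟩ := hl.sz_le
  refine Poly.foldr (β := List ℤ) (σ := List (List ℤ))
    (F := fun _ a s => bif decide (a ∈ s) then s else a :: s) hl (Poly.const _) ?_ q ?_
  · have h1 : Poly (fun p : α × List ℤ × List (List ℤ) => p.2.1) := Poly.fst (Poly.snd Poly.id)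
    have h2 : Poly (fun p : α × List ℤ × List (List ℤ) => p.2.2) := Poly.snd (Poly.snd Poly.id)
    exact Poly.cond ((Poly.decide_mem h1 h2).congr fun a => by congr) h2 (Poly.cons h1 h2)
  · intro a k _
    exact (ddL_sz ((l a).drop k)).trans ((Poly.sz_drop_le (l a) k).trans (hq a))

theorem Poly_keys {r : α → ℕ} {L : α → ZLayer} {Ls : α → List ZLayer} {V : α → State}
    (hr : UPoly r) (hL : Poly L) (hLs : Poly Ls) (hV : Poly V) :
    Poly (fun a => keys (r a) (L a) (Ls a) (V a)) := by
  unfold keys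
  refine Poly_ddL ?_
  refine Poly.filter (β := List ℤ) (p := fun a δ => keep (r a) (Ls a) δ) (Poly_cands hr hL hV) ?_
  exact Poly_keep (hr.comp (Poly.fst Poly.id)) (hLs.comp (Poly.fst Poly.id)) (Poly.snd Poly.id)

/-- An entry of a triple product. -/
def tr1 (N : ℕ) (Z A B : Mat) (i j r : ℕ) : ℤ :=
  ((List.range N).map fun s => entry A r i * entry Z r s * entry B s j).sum

theorem Poly_tr1 {n i j r : α → ℕ} {Z A B : α → Mat} (hn : UPoly n) (hZ : Poly Z) (hA : Poly A)
    (hB : Poly B) (hi : Poly i) (hj : Poly j) (hr : Poly r) :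
    Poly (fun a => tr1 (n a) (Z a) (A a) (B a) (i a) (j a) (r a)) := by
  unfold tr1
  refine Poly_sumZ ?_
  refine Poly.map (β := ℕ) (γ := ℤ)
    (F := fun a s => entry (A a) (r a) (i a) * entry (Z a) (r a) s * entry (B a) s (j a))
    hn.range ?_
  have h1 : Poly (fun p : α × ℕ => p.1) := Poly.fst Poly.id
  have h2 : Poly (fun p : α × ℕ => p.2) := Poly.snd Poly.id
  exact Poly_mulZ (Poly_mulZ (Poly_entry (hA.comp h1) (hr.comp h1) (hi.comp h1))
    (Poly_entry (hZ.comp h1) (hr.comp h1) h2)) (Poly_entry (hB.comp h1) h2 (hj.comp h1))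

theorem Poly_trans {n i j : α → ℕ} {Z A B : α → Mat} (hn : UPoly n) (hZ : Poly Z) (hA : Poly A)
    (hB : Poly B) (hi : Poly i) (hj : Poly j) :
    Poly (fun a => trans (n a) (Z a) (A a) (B a) (i a) (j a)) := by
  have h1 : Poly (fun p : α × ℕ => p.1) := Poly.fst Poly.id
  have h2 : Poly (fun p : α × ℕ => p.2) := Poly.snd Poly.id
  exact Poly_sumZ (Poly.map (β := ℕ) (γ := ℤ)
    (F := fun a r => tr1 (n a) (Z a) (A a) (B a) (i a) (j a) r) hn.range
    (Poly_tr1 (hn.comp h1) (hZ.comp h1) (hA.comp h1) (hB.comp h1) (hi.comp h1) (hj.comp h1) h2))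

/-- A term. -/
def vt (N r : ℕ) (κ : List ℤ) (i j : ℕ) (x : List ℤ × Mat) (p q : List ℕ × Mat) : ℤ :=
  bif decide (shift r x.1 p.1 q.1 = κ) then trans N x.2 p.2 q.2 i j else 0

theorem Poly_vt {n r i j : α → ℕ} {κ : α → List ℤ} {x : α → List ℤ × Mat}
    {p q : α → List ℕ × Mat} (hn : UPoly n) (hr : UPoly r) (hκ : Poly κ) (hi : Poly i)
    (hj : Poly j) (hx : Poly x) (hp : Poly p) (hq : Poly q) :
    Poly (fun a => vt (n a) (r a) (κ a) (i a) (j a) (x a) (p a) (q a)) := by
  unfold vt
  exact Poly.cond (Poly.decide_eq (Poly_shift hr (Poly.fst hx) (Poly.fst hp) (Poly.fst hq)) hκ)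
    (Poly_trans hn (Poly.snd hx) (Poly.snd hp) (Poly.snd hq) hi hj) (Poly.const _)

/-- A sum of terms. -/
def vq (N r : ℕ) (L : ZLayer) (κ : List ℤ) (i j : ℕ) (x : List ℤ × Mat) (p : List ℕ × Mat) : ℤ :=
  (L.map fun q => vt N r κ i j x p q).sum

theorem Poly_vq {n r i j : α → ℕ} {L : α → ZLayer} {κ : α → List ℤ} {x : α → List ℤ × Mat}
    {p : α → List ℕ × Mat} (hn : UPoly n) (hr : UPoly r) (hL : Poly L) (hκ : Poly κ) (hi : Poly i)
    (hj : Poly j) (hx : Poly x) (hp : Poly p) :
    Poly (fun a => vq (n a) (r a) (L a) (κ a) (i a) (j a) (x a) (p a)) := by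
  unfold vq
  have h1 : Poly (fun y : α × List ℕ × Mat => y.1) := Poly.fst Poly.id
  have h2 : Poly (fun y : α × List ℕ × Mat => y.2) := Poly.snd Poly.id
  exact Poly_sumZ (Poly.map (β := List ℕ × Mat) (γ := ℤ)
    (F := fun a q => vt (n a) (r a) (κ a) (i a) (j a) (x a) (p a) q) hL
    (Poly_vt (hn.comp h1) (hr.comp h1) (hκ.comp h1) (hi.comp h1) (hj.comp h1) (hx.comp h1)
      (hp.comp h1) h2))

/-- A sum of terms. -/
def vp (N r : ℕ) (L : ZLayer) (κ : List ℤ) (i j : ℕ) (x : List ℤ × Mat) : ℤ :=
  (L.map fun p => vq N r L κ i j x p).sum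

theorem Poly_vp {n r i j : α → ℕ} {L : α → ZLayer} {κ : α → List ℤ} {x : α → List ℤ × Mat}
    (hn : UPoly n) (hr : UPoly r) (hL : Poly L) (hκ : Poly κ) (hi : Poly i)
    (hj : Poly j) (hx : Poly x) :
    Poly (fun a => vp (n a) (r a) (L a) (κ a) (i a) (j a) (x a)) := by
  unfold vp
  have h1 : Poly (fun y : α × List ℕ × Mat => y.1) := Poly.fst Poly.id
  have h2 : Poly (fun y : α × List ℕ × Mat => y.2) := Poly.snd Poly.id
  exact Poly_sumZ (Poly.map (β := List ℕ × Mat) (γ := ℤ)
    (F := fun a p => vq (n a) (r a) (L a) (κ a) (i a) (j a) (x a) p) hL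
    (Poly_vq (hn.comp h1) (hr.comp h1) (hL.comp h1) (hκ.comp h1) (hi.comp h1) (hj.comp h1)
      (hx.comp h1) h2))

theorem Poly_vl {n r i j : α → ℕ} {L : α → ZLayer} {V : α → State} {κ : α → List ℤ}
    (hn : UPoly n) (hr : UPoly r) (hL : Poly L) (hV : Poly V) (hκ : Poly κ) (hi : Poly i)
    (hj : Poly j) : Poly (fun a => vl (n a) (r a) (L a) (V a) (κ a) (i a) (j a)) := by
  have h1 : Poly (fun y : α × List ℤ × Mat => y.1) := Poly.fst Poly.id
  have h2 : Poly (fun y : α × List ℤ × Mat => y.2) := Poly.snd Poly.id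
  exact Poly_sumZ (Poly.map (β := List ℤ × Mat) (γ := ℤ)
    (F := fun a x => vp (n a) (r a) (L a) (κ a) (i a) (j a) x) hV
    (Poly_vp (hn.comp h1) (hr.comp h1) (hL.comp h1) (hκ.comp h1) (hi.comp h1) (hj.comp h1) h2))

theorem Poly_nextV {n r : α → ℕ} {L : α → ZLayer} {Ls : α → List ZLayer} {V : α → State}
    (hn : UPoly n) (hr : UPoly r) (hL : Poly L) (hLs : Poly Ls) (hV : Poly V) :
    Poly (fun a => nextV (n a) (r a) (L a) (Ls a) (V a)) := by
  unfold nextV
  refine Poly.map (β := List ℤ) (γ := List ℤ × Mat)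
    (F := fun a κ => (κ, tab (n a) fun i j => vl (n a) (r a) (L a) (V a) κ i j))
    (Poly_keys hr hL hLs hV) ?_
  refine Poly.pair (Poly.snd Poly.id) ?_
  refine Poly_tab (α := α × List ℤ) (n := fun y => n y.1)
    (f := fun y i j => vl (n y.1) (r y.1) (L y.1) (V y.1) y.2 i j) (hn.comp (Poly.fst Poly.id)) ?_
  have h1 : Poly (fun p : ((α × List ℤ) × ℕ) × ℕ => p.1.1.1) :=
    Poly.fst (Poly.fst (Poly.fst Poly.id))
  have h2 : Poly (fun p : ((α × List ℤ) × ℕ) × ℕ => p.1.1.2) :=
    Poly.snd (Poly.fst (Poly.fst Poly.id))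
  exact Poly_vl (hn.comp h1) (hr.comp h1) (hL.comp h1) (hV.comp h1) h2
    (Poly.snd (Poly.fst Poly.id)) (Poly.snd Poly.id)

theorem Poly_step3 {n r m : α → ℕ} {s : α → St} (hn : UPoly n) (hr : UPoly r) (hm : UPoly m)
    (hs : Poly s) : Poly (fun a => step3 (n a) (r a) (m a) (s a)) := by
  have key := Poly.listCases (l := fun a => (s a).1) (g := s)
    (h := fun a L Ls => stepL (n a) (r a) (m a) (s a) L Ls) (Poly.fst hs) hs ?_
  · refine key.congr fun a => ?_
    unfold step3
    cases (s a).1 <;> rfl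
  · unfold stepL
    have h1 : Poly (fun y : α × ZLayer × List ZLayer => y.1) := Poly.fst Poly.id
    have h2 : Poly (fun y : α × ZLayer × List ZLayer => y.2.1) := Poly.fst (Poly.snd Poly.id)
    have h3 : Poly (fun y : α × ZLayer × List ZLayer => y.2.2) := Poly.snd (Poly.snd Poly.id)
    have hV : Poly (fun y : α × ZLayer × List ZLayer => (s y.1).2.2) :=
      Poly.snd (Poly.snd (hs.comp h1))
    exact Poly.cond (Poly.decide_le (Poly.length (Poly_keys (hr.comp h1) h2 h3 hV))
      (hm.toPoly.comp h1)) (Poly.pair h3 (Poly.pair (Poly.fst (Poly.snd (hs.comp h1)))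
      (Poly_nextV (hn.comp h1) (hr.comp h1) h2 h3 hV)))
      (Poly.pair h3 (Poly.pair (Poly.const _) (Poly.const _)))

theorem Poly_zexps {Ls : α → List ZLayer} (hL : Poly Ls) : Poly (fun a => zexps (Ls a)) := by
  unfold zexps
  refine Poly.flatMap (β := ZLayer) (γ := ℕ) (F := fun _ L => L.flatMap fun p => p.1) hL ?_
  exact Poly.flatMap (α := α × ZLayer) (β := List ℕ × Mat) (γ := ℕ) (l := fun y => y.2)
    (F := fun _ p => p.1) (Poly.snd Poly.id) (Poly.fst (Poly.snd Poly.id))

theorem Poly_go {n r m : α → ℕ} {Ls : α → List ZLayer} (hn : UPoly n) (hr : UPoly r)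
    (hm : UPoly m) (hL : Poly Ls) :
    Poly (fun a => go (n a) (r a) (m a) (Ls a) true V0) := by
  let b : α → ℕ := fun a => 4 * sz (Ls a) + 2 * n a + (m a + 1)
  have pn : PB n := PB.of_upoly hn
  have pr : PB r := PB.of_upoly hr
  have pm : PB m := PB.of_upoly hm
  have pL : PB (fun a => sz (Ls a)) := PB.sz hL
  have pl : PB (fun a => (Ls a).length) := PB.length hL
  have pe : PB (fun a => sz (zexps (Ls a))) := PB.sz (Poly_zexps hL)
  have pb : PB b := (((PB.const 4).mul pL).add ((PB.const 2).mul pn)).add (pm.add (PB.const 1))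
  have pB : PB (fun a => sz (Ls a) + (3 + ((m a + 1) * ((r a * (4 * sz (zexps (Ls a)) + 5 + 1) + 1) +
      (n a * (n a * (4 * ((Ls a).length * b a + 1) + 6) + 2) + 1 + 20) + 1 + 1) + 1) + 1) + 1) :=
    (pL.add (((PB.const 3).add ((((pm.add (PB.const 1)).mul ((((((pr.mul ((((PB.const 4).mul
      pe).add (PB.const 5)).add (PB.const 1))).add (PB.const 1))).add (((pn.mul ((pn.mul
      (((PB.const 4).mul ((pl.mul pb).add (PB.const 1))).add (PB.const 6))).add (PB.const 2))).add
      (PB.const 1)).add (PB.const 20))).add (PB.const 1)).add (PB.const 1))).add (PB.const 1)))).add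
      (PB.const 1))).add (PB.const 1)
  obtain ⟨q, hq⟩ := pB
  have h := Poly.iterLen (l := Ls) (s := fun a => ((Ls a, true, V0) : St))
    (F := fun a s => step3 (n a) (r a) (m a) s) hL
    (Poly.pair hL (Poly.pair (Poly.const _) (Poly.const _)))
    (Poly_step3 (hn.comp (Poly.fst Poly.id)) (hr.comp (Poly.fst Poly.id))
      (hm.comp (Poly.fst Poly.id)) (Poly.snd Poly.id)) q ?_
  · refine (Poly.snd h).congr fun a => ?_
    exact step3_iter (n a) (r a) (m a) (Ls a) true V0
  · intro a k hk
    have hinit : InvT (n a) (r a) (m a) (b a) 0 (Ls a) (Ls a, true, V0) := by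
      refine ⟨le_rfl, fun L hL => hL, le_rfl, by simp [V0], ?_, ?_⟩
      · intro x hx
        simp only [V0, List.mem_singleton] at hx
        rw [hx]
        exact ⟨Nat.zero_le _, fun z hz => by simp at hz⟩
      · intro x hx
        simp only [V0, List.mem_singleton] at hx
        rw [hx]
        refine ⟨?_, ?_⟩
        · intro r' hr' z hz
          simp only [List.mem_singleton] at hr'
          rw [hr'] at hz
          simp only [List.mem_singleton] at hz
          rw [hz, ib_one]
          omega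
        · have h1 := sz_int_le 1
          rw [ib_one] at h1
          simp only [sz_list_cons, sz_list_nil]
          omega
    have h1 := (hinit.iter (le_refl _) k).size_le
    refine h1.trans (le_trans ?_ (hq a))
    have h2 : k * b a + 1 ≤ (Ls a).length * b a + 1 :=
      Nat.add_le_add_right (Nat.mul_le_mul_right _ hk) 1
    show _ ≤ sz (Ls a) + (3 + ((m a + 1) * ((r a * (4 * sz (zexps (Ls a)) + 5 + 1) + 1) +
      (n a * (n a * (4 * ((Ls a).length * b a + 1) + 6) + 2) + 1 + 20) + 1 + 1) + 1) + 1) + 1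
    gcongr

end

theorem Poly_convT {α : Type} [TEnc α] {D : α → ℕ} {L : α → Layer} (hD : Poly D) (hL : Poly L) :
    Poly (fun a => conv (D a) (L a)) := by
  unfold conv
  refine Poly.map (β := List ℕ × Thin.QMat) (γ := List ℕ × Mat)
    (F := fun a p => (p.1, zmat (D a) p.2)) hL ?_
  exact Poly.pair (Poly.fst (Poly.snd Poly.id))
    (Poly_zmat (hD.comp (Poly.fst Poly.id)) (Poly.snd (Poly.snd Poly.id)))

theorem Poly_exps {α : Type} [TEnc α] {Ls : α → List Layer} (hL : Poly Ls) :
    Poly (fun a => exps (Ls a)) := by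
  unfold exps
  refine Poly.flatMap (β := Layer) (γ := ℕ) (F := fun _ L => L.flatMap fun p => p.1) hL ?_
  exact Poly.flatMap (α := α × Layer) (β := List ℕ × Thin.QMat) (γ := ℕ) (l := fun y => y.2)
    (F := fun _ p => p.1) (Poly.snd Poly.id) (Poly.fst (Poly.snd Poly.id))

theorem Poly_densT {α : Type} [TEnc α] {Ls : α → List Layer} (hL : Poly Ls) :
    Poly (fun a => densT (Ls a)) := by
  unfold densT
  refine Poly.map (β := ℚ) (γ := ℕ)
    (l := fun a => (Ls a).flatMap fun L => L.flatMap fun p => p.2.flatten)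
    (F := fun _ q => q.den) ?_ (Poly_den (Poly.snd Poly.id))
  refine Poly.flatMap (β := Layer) (γ := ℚ) (F := fun _ L => L.flatMap fun p => p.2.flatten) hL ?_
  exact Poly.flatMap (α := α × Layer) (β := List ℕ × Thin.QMat) (γ := ℚ) (l := fun y => y.2)
    (F := fun _ p => p.2.flatten) (Poly.snd Poly.id) (Poly.flatten (Poly.snd (Poly.snd Poly.id)))

theorem Poly_finV {α : Type} [TEnc α] {V : α → State} (hV : Poly V) :
    Poly (fun a => finV (V a)) := by
  unfold finV
  refine Poly_sumZ ?_
  refine Poly.map (β := List ℤ × Mat) (γ := ℤ)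
    (F := fun _ x => bif x.1.all (fun z => decide (z = 0)) then entry x.2 0 0 else 0) hV ?_
  refine Poly.cond ?_ (Poly_entry (Poly.snd (Poly.snd Poly.id)) (Poly.const _) (Poly.const _))
    (Poly.const _)
  exact Poly.all (α := α × List ℤ × Mat) (β := ℤ) (l := fun y => y.2.1)
    (p := fun _ z => decide (z = 0)) (Poly.fst (Poly.snd Poly.id))
    (Poly.decide_eq (Poly.snd Poly.id) (Poly.const _))

/-- The common denominator. -/
def dT (Ls : List Layer) : ℕ := (densT Ls).prod

/-- The layers with integer coefficients. -/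
def zT (Ls : List Layer) : List ZLayer := Ls.map (conv (dT Ls))

theorem Poly_dT {α : Type} [TEnc α] {Ls : α → List Layer} (hL : Poly Ls) :
    Poly (fun a => dT (Ls a)) := Poly_prodN (Poly_densT hL)

theorem Poly_zT {α : Type} [TEnc α] {Ls : α → List Layer} (hL : Poly Ls) :
    Poly (fun a => zT (Ls a)) := by
  unfold zT
  refine Poly.map (β := Layer) (γ := ZLayer) (l := Ls) (F := fun a L => conv (dT (Ls a)) L) hL ?_
  exact Poly_convT (D := fun p : α × Layer => dT (Ls p.1)) (L := fun p : α × Layer => p.2)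
    (Poly_dT (hL.comp (Poly.fst Poly.id))) (Poly.snd Poly.id)

/-- The result of reading all layers. -/
def runT (I : Input) : Bool × State :=
  go (I.1.length + 1) (exps I.2.2).length I.2.1.length (zT I.2.2) true V0

theorem Poly_runT : Poly runT := by
  have h0 : Poly (fun I : Input => I.1) := Poly.fst Poly.id
  have h1 : Poly (fun I : Input => I.2.1) := Poly.fst (Poly.snd Poly.id)
  have h2 : Poly (fun I : Input => I.2.2) := Poly.snd (Poly.snd Poly.id)
  exact Poly_go (n := fun I : Input => I.1.length + 1) (r := fun I : Input => (exps I.2.2).length)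
    (m := fun I : Input => I.2.1.length) (Ls := fun I : Input => zT I.2.2)
    ((UPoly.length h0).add (UPoly.const 1)) (UPoly.length (Poly_exps h2))
    (UPoly.length h1) (Poly_zT h2)

theorem decT_run (I : Input) : decT I = ((runT I).1 && decide (finV (runT I).2 = 0)) := rfl

theorem Poly_decT : Poly decT := by
  have e : decT = fun I => ((runT I).1 && decide (finV (runT I).2 = 0)) := by
    funext I
    exact decT_run I
  rw [e]
  exact Poly.and (Poly.fst Poly_runT) (Poly.decide_eq (Poly_finV (Poly.snd Poly_runT))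
    (Poly.const _))

open Classical in
/-- Identity testing for branching programs with few exponent differences takes polynomial time. -/
theorem thin_result : Nonempty (Turing.TM2ComputableInPolyTime
    (bits : Input → List Bool) (bits : Bool → List Bool)
    (fun I => decide (Thin I ∧ value I = 0))) := by
  have h : (fun I : Input => decide (Thin I ∧ value I = 0)) = decT := by
    funext I
    rw [Bool.eq_iff_iff, decT_eq, decide_eq_true_iff]
  rw [h]
  exact Poly.toTM Poly_decT

end Pool.Agent.NPC.H532.TH
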